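import Pool.Agent.Helper31.AP.Traj

/-! Module C4: values of the action -/

set_option autoImplicit false

namespace Pool.Agent.Helper31.AP

open Finset

/-- quadruple `((k, Φ), (W, W'))`: `W` generates `k`, `W'` generates `k⁻¹` -/
abbrev PQ := (Equiv.Perm V × (V → ℝ)) × (GF (2 * Real.pi) × GF (2 * Real.pi))

/-- the block of a list of quadruples -/
def fwd (L : List PQ) : List PW := L.map fun q => (q.1, q.2.1)

/-- the inverse block -/
def bwd (L : List PQ) : List PW :=
  (L.map fun q => ((q.1.1.symm, fun x => -q.1.2 (q.1.1.symm x)), q.2.2)).reverse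

theorem ks_append (L L' : List PW) : ks (L ++ L') = ks L ++ ks L' := by
  simp [ks]

theorem ks_length (L : List PW) : (ks L).length = L.length := by
  simp [ks]

theorem run_append_left (l l' : List (Equiv.Perm V)) {i : ℕ} (hi : i ≤ l.length) (x : V) :
    run (l ++ l') i x = run l i x := by
  unfold run
  rw [List.take_append_of_le_length hi]

theorem run_append_right (l l' : List (Equiv.Perm V)) (i : ℕ) (x : V) :
    run (l ++ l') (l.length + i) x = run l' i (run l l.length x) := by
  unfold run
  rw [List.take_length_add_append, List.foldl_append, List.take_length]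

theorem act_append (L L' : List PW) (x : V) :
    ActF (L ++ L') x = ActF L x + ActF L' (run (ks L) L.length x) ∧
      ActG (L ++ L') x = ActG L x + ActG L' (run (ks L) L.length x) := by
  have hl : ∀ i ∈ range L.length, (L ++ L').getD i default = L.getD i default ∧
      run (ks (L ++ L')) i x = run (ks L) i x := by
    intro i hi
    rw [mem_range] at hi
    refine ⟨List.getD_append _ _ _ _ hi, ?_⟩
    rw [ks_append]
    exact run_append_left _ _ (by rw [ks_length]; exact hi.le) x
  have hr : ∀ i ∈ range L'.length, (L ++ L').getD (L.length + i) default = L'.getD i default ∧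
      run (ks (L ++ L')) (L.length + i) x = run (ks L') i (run (ks L) L.length x) := by
    intro i _
    refine ⟨?_, ?_⟩
    · rw [List.getD_append_right _ _ _ _ (Nat.le_add_right _ _), Nat.add_sub_cancel_left]
    · rw [ks_append, ← ks_length L]
      exact run_append_right _ _ i x
  constructor
  · unfold ActF
    rw [List.length_append, sum_range_add]
    congr 1
    · exact sum_congr rfl fun i hi => by rw [(hl i hi).1, (hl i hi).2]
    · exact sum_congr rfl fun i hi => by rw [(hr i hi).1, (hr i hi).2]
  · unfold ActG
    rw [List.length_append, sum_range_add]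
    congr 1
    · exact sum_congr rfl fun i hi => by rw [(hl i hi).1, (hl i hi).2]
    · exact sum_congr rfl fun i hi => by rw [(hr i hi).1, (hr i hi).2]

theorem act_single (q : PW) (x : V) : ActF [q] x = q.1.2 x ∧ ActG [q] x = ang q.1.1 x ∧
    run (ks [q]) 1 x = q.1.1 x := by
  refine ⟨?_, ?_, ?_⟩
  · simp [ActF, run]
  · simp [ActG, run]
  · simp [ks, run]

theorem run_append_full (L L' : List PW) (x : V) :
    run (ks (L ++ L')) (L ++ L').length x = run (ks L') L'.length (run (ks L) L.length x) := by
  rw [ks_append, List.length_append]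
  have h := run_append_right (ks L) (ks L') L'.length x
  rw [ks_length] at h
  exact h

theorem fwd_bwd_cons (q : PQ) (L : List PQ) :
    fwd (q :: L) ++ bwd (q :: L) =
      [(q.1, q.2.1)] ++ ((fwd L ++ bwd L) ++
        [((q.1.1.symm, fun x => -q.1.2 (q.1.1.symm x)), q.2.2)]) := by
  simp [fwd, bwd]

theorem run_fwd_bwd (L : List PQ) (x : V) :
    run (ks (fwd L ++ bwd L)) (fwd L ++ bwd L).length x = x := by
  induction L generalizing x with
  | nil => simp [fwd, bwd, run, ks]
  | cons q L ih =>
    rw [fwd_bwd_cons, run_append_full, run_append_full, ih]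
    have h1 := (act_single (q.1, q.2.1) x).2.2
    have h2 := fun y => (act_single ((q.1.1.symm, fun x => -q.1.2 (q.1.1.symm x)), q.2.2) y).2.2
    simp only [List.length_singleton]
    rw [h1, h2]
    simp

theorem act_fwd_bwd (L : List PQ) (x : V) :
    ActF (fwd L ++ bwd L) x = 0 ∧ ActG (fwd L ++ bwd L) x = 0 := by
  induction L generalizing x with
  | nil => simp [fwd, bwd, ActF, ActG]
  | cons q L ih =>
    have h1 := act_single (q.1, q.2.1) x
    have h2 := fun y => act_single ((q.1.1.symm, fun x => -q.1.2 (q.1.1.symm x)), q.2.2) y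
    rw [fwd_bwd_cons]
    have h3 : run (ks [(q.1, q.2.1)]) [(q.1, q.2.1)].length x = q.1.1 x := h1.2.2
    have h4 := run_fwd_bwd L (q.1.1 x)
    constructor
    · rw [(act_append _ _ x).1, (act_append _ _ _).1, h3, h4, (ih _).1, h1.1, (h2 _).1]
      simp
    · rw [(act_append _ _ x).2, (act_append _ _ _).2, h3, h4, (ih _).2, h1.2.1, (h2 _).2.1]
      simp only
      rw [ang_symm]
      simp

end Pool.Agent.Helper31.AP
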