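import Pool.Agent.Helper31.AP.Act

/-! Module C4b: the total primitive of a factorization of `f₀`; `f₀` is in the group -/

set_option autoImplicit false

namespace Pool.Agent.Helper31.AP

open Finset

/-- the coordinate functionals -/
noncomputable abbrev pr (i : Fin 2) : V →L[ℝ] ℝ := ContinuousLinearMap.proj i

theorem hasFDerivAt_coord (i : Fin 2) (x : V) : HasFDerivAt (fun y : V => y i) (pr i) x :=
  (pr i).hasFDerivAt

/-- the derivative of `hsq` -/
noncomputable def dh (x : V) : V →L[ℝ] ℝ := x 0 • pr 0 + x 1 • pr 1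

theorem dh_apply (x v : V) : dh x v = x 0 * v 0 + x 1 * v 1 := by
  simp [dh, pr]

theorem hasFDerivAt_hsq (x : V) : HasFDerivAt hsq (dh x) x := by
  have h0 := (hasFDerivAt_coord 0 x).pow 2
  have h1 := (hasFDerivAt_coord 1 x).pow 2
  have h := (h0.add h1).mul_const (2⁻¹ : ℝ)
  have e : hsq = fun y : V => ((fun x : V => x 0 ^ 2) + fun x : V => x 1 ^ 2) y * 2⁻¹ := by
    funext y
    simp only [hsq, Pi.add_apply]
    ring
  rw [e]
  refine h.congr_fderiv ?_
  ext v
  simp [dh]
  ring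

/-- the derivative of `f0` -/
theorem hasFDerivAt_f0 (x : V) : ∃ A : V →L[ℝ] V, HasFDerivAt f0 A x ∧ ∀ v,
    A v 0 = (v 0 * Real.cos (hsq x) - v 1 * Real.sin (hsq x)) -
      (x 0 * Real.sin (hsq x) + x 1 * Real.cos (hsq x)) * dh x v ∧
    A v 1 = (v 0 * Real.sin (hsq x) + v 1 * Real.cos (hsq x)) +
      (x 0 * Real.cos (hsq x) - x 1 * Real.sin (hsq x)) * dh x v := by
  have hc : HasFDerivAt (fun y => Real.cos (hsq y)) (-Real.sin (hsq x) • dh x) x :=
    (hasFDerivAt_hsq x).cos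
  have hs : HasFDerivAt (fun y => Real.sin (hsq y)) (Real.cos (hsq x) • dh x) x :=
    (hasFDerivAt_hsq x).sin
  have h0 := hasFDerivAt_coord 0 x
  have h1 := hasFDerivAt_coord 1 x
  have e0 := (h0.mul hc).sub (h1.mul hs)
  have e1 := (h0.mul hs).add (h1.mul hc)
  let A0 : V →L[ℝ] ℝ := (x 0 • (-Real.sin (hsq x) • dh x) + Real.cos (hsq x) • pr 0) -
    (x 1 • (Real.cos (hsq x) • dh x) + Real.sin (hsq x) • pr 1)
  let A1 : V →L[ℝ] ℝ := (x 0 • (Real.cos (hsq x) • dh x) + Real.sin (hsq x) • pr 0) +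
    (x 1 • (-Real.sin (hsq x) • dh x) + Real.cos (hsq x) • pr 1)
  refine ⟨ContinuousLinearMap.pi ![A0, A1], ?_, ?_⟩
  · rw [hasFDerivAt_pi']
    intro i
    fin_cases i
    · exact e0
    · exact e1
  · intro v
    constructor
    · simp [A0, pr]
      ring
    · simp [A1, pr]
      ring

theorem contDiff_coordF (i : Fin 2) : ContDiff ℝ ((⊤ : ℕ∞) : WithTop ℕ∞) (fun y : V => y i) :=
  (pr i).contDiff

theorem contDiff_hsq : ContDiff ℝ ((⊤ : ℕ∞) : WithTop ℕ∞) hsq := by
  unfold hsq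
  exact (((contDiff_coordF 0).pow 2).add ((contDiff_coordF 1).pow 2)).div_const 2

theorem contDiff_rot (t : V → ℝ) (ht : ContDiff ℝ ((⊤ : ℕ∞) : WithTop ℕ∞) t) :
    ContDiff ℝ ((⊤ : ℕ∞) : WithTop ℕ∞) (fun x => rot (t x) x) := by
  rw [contDiff_pi]
  intro i
  fin_cases i
  · exact ((contDiff_coordF 0).mul ht.cos).sub ((contDiff_coordF 1).mul ht.sin)
  · exact ((contDiff_coordF 0).mul ht.sin).add ((contDiff_coordF 1).mul ht.cos)

theorem contDiff_f0 : ContDiff ℝ ((⊤ : ℕ∞) : WithTop ℕ∞) f0 := contDiff_rot hsq contDiff_hsq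

/-- `ActF` is a primitive of the pull-back of `λ` by the product minus `λ` -/
theorem actF_prim (L : List PW) (hL : ∀ q ∈ L, IsAP q.1.1 ∧ IsPrim q.1.1 q.1.2) :
    ContDiff ℝ ((⊤ : ℕ∞) : WithTop ℕ∞) (fun x => run (ks L) L.length x) ∧
    ContDiff ℝ ((⊤ : ℕ∞) : WithTop ℕ∞) (ActF L) ∧
    ∀ x v : V, fderiv ℝ (ActF L) x v =
      lam (run (ks L) L.length x) (fderiv ℝ (fun y => run (ks L) L.length y) x v) - lam x v := by
  induction L with
  | nil =>
    have e1 : (fun x : V => run (ks []) ([] : List PW).length x) = fun x => x := by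
      funext x; simp [run, ks]
    have e2 : ActF [] = fun _ => 0 := by
      funext x; simp [ActF]
    refine ⟨by rw [e1]; exact contDiff_id, by rw [e2]; exact contDiff_const, ?_⟩
    intro x v
    rw [e1, e2]
    simp [run, ks]
  | cons q L ih =>
    obtain ⟨h1, h2, h3⟩ := ih fun q' hq' => hL q' (List.mem_cons_of_mem _ hq')
    obtain ⟨hq1, hq2⟩ := hL q List.mem_cons_self
    have hkc : ContDiff ℝ ((⊤ : ℕ∞) : WithTop ℕ∞) (⇑q.1.1) := hq1.1
    have hR : (fun x => run (ks (q :: L)) (q :: L).length x) =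
        (fun x => run (ks L) L.length x) ∘ (⇑q.1.1) := by
      funext x
      have h := run_append_full [q] L x
      have h' : run (ks [q]) [q].length x = q.1.1 x := (act_single q x).2.2
      rw [h'] at h
      exact h
    have hF : ActF (q :: L) = fun x => q.1.2 x + (ActF L ∘ (⇑q.1.1)) x := by
      funext x
      have h := (act_append [q] L x).1
      have h' : run (ks [q]) [q].length x = q.1.1 x := (act_single q x).2.2
      rw [h', (act_single q x).1] at h
      exact h
    have hne : ((⊤ : ℕ∞) : WithTop ℕ∞) ≠ 0 := by simp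
    refine ⟨by rw [hR]; exact h1.comp hkc, by rw [hF]; exact hq2.1.add (h2.comp hkc), ?_⟩
    intro x v
    have dk : DifferentiableAt ℝ (⇑q.1.1) x := (hkc.differentiable hne) x
    have dR : DifferentiableAt ℝ (fun x => run (ks L) L.length x) (q.1.1 x) :=
      (h1.differentiable hne) _
    have dF : DifferentiableAt ℝ (ActF L) (q.1.1 x) := (h2.differentiable hne) _
    have dΦ : DifferentiableAt ℝ q.1.2 x := (hq2.1.differentiable hne) x
    have e1 : fderiv ℝ (ActF (q :: L)) x v =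
        fderiv ℝ q.1.2 x v + fderiv ℝ (ActF L) (q.1.1 x) (fderiv ℝ (⇑q.1.1) x v) := by
      have hd : HasFDerivAt (ActF (q :: L))
          (fderiv ℝ q.1.2 x + (fderiv ℝ (ActF L) (q.1.1 x)).comp (fderiv ℝ (⇑q.1.1) x)) x := by
        rw [hF]
        exact dΦ.hasFDerivAt.add (dF.hasFDerivAt.comp x dk.hasFDerivAt)
      rw [hd.fderiv]
      simp
    have e2 : fderiv ℝ (fun y => run (ks (q :: L)) (q :: L).length y) x v =
        fderiv ℝ (fun y => run (ks L) L.length y) (q.1.1 x) (fderiv ℝ (⇑q.1.1) x v) := by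
      have hd : HasFDerivAt (fun y => run (ks (q :: L)) (q :: L).length y)
          ((fderiv ℝ (fun y => run (ks L) L.length y) (q.1.1 x)).comp
            (fderiv ℝ (⇑q.1.1) x)) x := by
        rw [hR]
        exact dR.hasFDerivAt.comp x dk.hasFDerivAt
      rw [hd.fderiv]
      simp
    have e3 : run (ks (q :: L)) (q :: L).length x = run (ks L) L.length (q.1.1 x) := congrFun hR x
    rw [e1, e2, e3, hq2.2, h3]
    ring

/-- if the product is `f₀` then the total primitive is `ρ²/2 + C` -/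
theorem actF_f0 (L : List PW) (hL : ∀ q ∈ L, IsAP q.1.1 ∧ IsPrim q.1.1 q.1.2)
    (hf : ∀ x, run (ks L) L.length x = f0 x) : ∃ C : ℝ, ∀ x, ActF L x = hsq x ^ 2 / 2 + C := by
  obtain ⟨-, h2, h3⟩ := actF_prim L hL
  have hne : ((⊤ : ℕ∞) : WithTop ℕ∞) ≠ 0 := by simp
  have hfe : (fun y => run (ks L) L.length y) = f0 := funext hf
  have hd : ∀ x, HasFDerivAt (fun x => ActF L x - hsq x ^ 2 / 2) (0 : V →L[ℝ] ℝ) x := by
    intro x
    have d1 : HasFDerivAt (ActF L) (fderiv ℝ (ActF L) x) x := (h2.differentiable hne x).hasFDerivAt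
    have d2 : HasFDerivAt (fun x => hsq x ^ 2 / 2) (hsq x • dh x) x := by
      have h := ((hasFDerivAt_hsq x).pow 2).mul_const (2⁻¹ : ℝ)
      have e : (fun x : V => hsq x ^ 2 / 2) = fun x : V => hsq x ^ 2 * 2⁻¹ := by
        funext y; ring
      rw [e]
      refine h.congr_fderiv ?_
      ext v
      simp
      ring
    have d3 := d1.sub d2
    have e : fderiv ℝ (ActF L) x - hsq x • dh x = 0 := by
      ext v
      have h4 := h3 x v
      rw [hfe, hf x] at h4
      obtain ⟨A, hA, hAv⟩ := hasFDerivAt_f0 x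
      rw [hA.fderiv] at h4
      simp only [sub_apply, smul_apply, smul_eq_mul, zero_apply]
      rw [h4]
      obtain ⟨a0, a1⟩ := hAv v
      have f00 : f0 x 0 = x 0 * Real.cos (hsq x) - x 1 * Real.sin (hsq x) := rfl
      have f01 : f0 x 1 = x 0 * Real.sin (hsq x) + x 1 * Real.cos (hsq x) := rfl
      unfold lam
      rw [a0, a1, f00, f01]
      have hcs := Real.sin_sq_add_cos_sq (hsq x)
      have hh : hsq x = (x 0 ^ 2 + x 1 ^ 2) / 2 := rfl
      generalize Real.cos (hsq x) = c at hcs ⊢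
      generalize Real.sin (hsq x) = s at hcs ⊢
      rw [hh]
      linear_combination ((x 0 * v 1 - x 1 * v 0) / 2 + dh x v * (x 0 ^ 2 + x 1 ^ 2) / 2) * hcs
    rw [e] at d3
    exact d3
  refine ⟨ActF L 0 - hsq 0 ^ 2 / 2, fun x => ?_⟩
  have hdiff : Differentiable ℝ (fun x => ActF L x - hsq x ^ 2 / 2) :=
    fun x => (hd x).differentiableAt
  have := is_const_of_fderiv_eq_zero hdiff (fun x => (hd x).fderiv) x 0
  linarith

theorem hsq_rot (t : ℝ) (x : V) : hsq (rot t x) = hsq x := by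
  have hcs := Real.sin_sq_add_cos_sq t
  simp only [hsq, rot, Matrix.cons_val_zero, Matrix.cons_val_one]
  linear_combination ((x 0 ^ 2 + x 1 ^ 2) / 2) * hcs

theorem rot_rot (t : ℝ) (x : V) : rot (-t) (rot t x) = x := by
  have hcs := Real.sin_sq_add_cos_sq t
  funext i
  fin_cases i
  · simp only [rot, Real.cos_neg, Real.sin_neg, Matrix.cons_val_zero, Matrix.cons_val_one,
      Fin.zero_eta, Fin.isValue]
    linear_combination x 0 * hcs
  · simp only [rot, Real.cos_neg, Real.sin_neg, Matrix.cons_val_zero, Matrix.cons_val_one,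
      Fin.mk_one, Fin.isValue]
    linear_combination x 1 * hcs

/-- `f₀` as an element of the group -/
theorem exists_f0 : ∃ f : Equiv.Perm V, IsAP f ∧ ∀ x, f x = f0 x := by
  have hl : Function.LeftInverse (fun x => rot (-hsq x) x) f0 := by
    intro x
    simp only [f0]
    rw [hsq_rot, rot_rot]
  have hr : Function.RightInverse (fun x => rot (-hsq x) x) f0 := by
    intro x
    simp only [f0]
    rw [hsq_rot]
    have := rot_rot (-hsq x) x
    rwa [neg_neg] at this
  refine ⟨⟨f0, fun x => rot (-hsq x) x, hl, hr⟩, ⟨contDiff_f0, ?_, ?_⟩, fun x => rfl⟩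
  · exact contDiff_rot (fun x => -hsq x) contDiff_hsq.neg
  · intro x
    change LinearMap.det ((fderiv ℝ f0 x : V →L[ℝ] V) : V →ₗ[ℝ] V) = 1
    obtain ⟨A, hA, hAv⟩ := hasFDerivAt_f0 x
    rw [hA.fderiv]
    apply det_eq_one_of
    intro u v
    rw [(hAv u).1, (hAv u).2, (hAv v).1, (hAv v).2, dh_apply, dh_apply]
    have hcs := Real.sin_sq_add_cos_sq (hsq x)
    generalize Real.cos (hsq x) = c at hcs ⊢
    generalize Real.sin (hsq x) = s at hcs ⊢
    linear_combination (u 0 * v 1 - u 1 * v 0) * hcs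

end Pool.Agent.Helper31.AP
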