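import Pool.Agent.Helper31.AP.Traj

/-! Module C4c: the total angle of a factorization of `f₀` -/

set_option autoImplicit false

namespace Pool.Agent.Helper31.AP

open Finset

theorem f0_pol (φ σ : ℝ) (hσ : 0 ≤ σ) : f0 (pol φ σ) = pol (φ + σ) σ := by
  unfold f0
  rw [hsq_pol φ σ hσ]
  funext i
  fin_cases i
  · simp only [rot, pol, Real.cos_add, Matrix.cons_val_zero, Matrix.cons_val_one, Fin.zero_eta,
      Fin.isValue]
    ring
  · simp only [rot, pol, Real.sin_add, Matrix.cons_val_zero, Matrix.cons_val_one, Fin.mk_one,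
      Fin.isValue]
    ring

theorem continuous_pol : Continuous fun q : ℝ × ℝ => pol q.1 q.2 := by
  refine continuous_pi fun i => ?_
  have h0 : Continuous fun q : ℝ × ℝ => √(2 * q.2) :=
    Real.continuous_sqrt.comp (continuous_const.mul continuous_snd)
  fin_cases i
  · exact h0.mul (Real.continuous_cos.comp continuous_fst)
  · exact h0.mul (Real.continuous_sin.comp continuous_fst)

theorem continuous_run (L : List PW) (hL : ∀ q ∈ L, IsAP q.1.1) (j : ℕ) :
    Continuous fun x : V => run (ks L) j x := by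
  induction L generalizing j with
  | nil =>
    have : (fun x : V => run (ks []) j x) = fun x => x := by
      funext x; simp [run, ks]
    rw [this]; exact continuous_id
  | cons q L ih =>
    cases j with
    | zero =>
      have : (fun x : V => run (ks (q :: L)) 0 x) = fun x => x := by
        funext x; simp [run]
      rw [this]; exact continuous_id
    | succ j =>
      have : (fun x : V => run (ks (q :: L)) (j + 1) x) =
          (fun x => run (ks L) j x) ∘ (⇑q.1.1) := by
        funext x; simp [run, ks]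
      rw [this]
      exact (ih (fun q' hq' => hL q' (List.mem_cons_of_mem _ hq')) j).comp
        (hL q List.mem_cons_self).1.continuous

theorem continuousAt_ang (k : V → V) (hk : Continuous k) (x : V) (h : 0 < dotk k x) :
    ContinuousAt (ang k) x := by
  have c : ∀ i : Fin 2, Continuous fun y : V => y i := fun i => continuous_apply i
  have c' : ∀ i : Fin 2, Continuous fun y : V => k y i := fun i => (continuous_apply i).comp hk
  have hd : Continuous (dotk k) := ((c 0).mul (c' 0)).add ((c 1).mul (c' 1))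
  have hn : Continuous fun y : V => y 0 * k y 1 - y 1 * k y 0 :=
    ((c 0).mul (c' 1)).sub ((c 1).mul (c' 0))
  exact Real.continuous_arctan.continuousAt.comp (hn.continuousAt.div hd.continuousAt h.ne')

theorem int_const {S : Set (ℝ × ℝ)} (hS : IsPreconnected S) (g : ℝ × ℝ → ℝ)
    (hg : ContinuousOn g S) (hint : ∀ q ∈ S, ∃ n : ℤ, g q = n) (hne : S.Nonempty) :
    ∃ n : ℤ, ∀ q ∈ S, g q = n := by
  have key : ∀ a ∈ S, ∀ b ∈ S, g a ≤ g b → g a = g b := by
    intro a ha b hb hab
    obtain ⟨n, hn⟩ := hint a ha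
    obtain ⟨m, hm⟩ := hint b hb
    rcases eq_or_lt_of_le hab with h | h
    · exact h
    · exfalso
      have hnm : n < m := by rw [hn, hm] at h; exact_mod_cast h
      have himg := (hS.image g hg).ordConnected
      have h1 : (n : ℝ) + 1 / 2 ∈ g '' S := by
        refine himg.out ⟨a, ha, rfl⟩ ⟨b, hb, rfl⟩ ⟨?_, ?_⟩
        · rw [hn]; linarith
        · rw [hm]
          have : (n : ℝ) + 1 ≤ m := by exact_mod_cast hnm
          linarith
      obtain ⟨c, hc, hc'⟩ := h1
      obtain ⟨l, hl⟩ := hint c hc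
      rw [hl] at hc'
      have h2 : (2 * l : ℝ) = 2 * n + 1 := by linarith
      have h3 : (2 * l : ℤ) = 2 * n + 1 := by exact_mod_cast h2
      omega
  obtain ⟨a, ha⟩ := hne
  obtain ⟨n, hn⟩ := hint a ha
  refine ⟨n, fun q hq => ?_⟩
  rw [← hn]
  rcases le_total (g q) (g a) with h | h
  · exact key q hq a ha h
  · exact (key a ha q hq h).symm

/-- if the product is `f₀` then the total angle is `ρ + 2πn` -/
theorem actG_f0 (m s : ℝ) (hs : 0 < s) (L : List PW) (hL : ∀ q ∈ L, GoodPW m q)
    (hreg : ∀ σ, s ≤ σ → σ ≤ 3 * s → Reg m σ L) (hf : ∀ x, run (ks L) L.length x = f0 x) :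
    ∃ n : ℤ, ∀ σ φ, s ≤ σ → σ ≤ 3 * s → ActG L (pol φ σ) = σ + n * (2 * Real.pi) := by
  have hpi := Real.pi_pos
  let S : Set (ℝ × ℝ) := Set.univ ×ˢ Set.Icc s (3 * s)
  let g : ℝ × ℝ → ℝ := fun q => (ActG L (pol q.1 q.2) - q.2) / (2 * Real.pi)
  have hS : IsPreconnected S := (convex_univ.prod (convex_Icc s (3 * s))).isPreconnected
  have hint : ∀ q ∈ S, ∃ n : ℤ, g q = n := by
    rintro ⟨φ, σ⟩ ⟨-, h1, h2⟩
    have hσ : 0 < σ := lt_of_lt_of_le hs h1
    have h3 := polar_run m σ L hL (hreg σ h1 h2) φ L.length le_rfl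
    rw [hf, f0_pol φ σ hσ.le, hsq_pol _ _ hσ.le] at h3
    obtain ⟨n, hn⟩ := pol_inj_ang hσ h3.symm
    refine ⟨-n, ?_⟩
    have h4 : ActG L (pol φ σ) = σ - n * (2 * Real.pi) := by
      unfold ActG
      linarith
    simp only [g]
    rw [h4]
    push_cast
    field_simp
    ring
  have hcont : ContinuousOn g S := by
    have hA : ContinuousOn (fun q : ℝ × ℝ => ActG L (pol q.1 q.2)) S := by
      unfold ActG
      refine continuousOn_finsetSum _ fun i hi => ?_
      rw [mem_range] at hi
      rintro ⟨φ, σ⟩ ⟨-, h1, h2⟩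
      have hmem : L.getD i default ∈ L := by
        rw [List.getD_eq_getElem _ _ hi]
        exact List.getElem_mem hi
      obtain ⟨hq1, -, hq3⟩ := hL _ hmem
      have hr := hreg σ h1 h2 φ i
      obtain ⟨θ, hθ⟩ := pol_hsq (run (ks L) i (pol φ σ))
      have hpos : 0 < dotk (L.getD i default).1.1 (run (ks L) i (pol φ σ)) := by
        rw [hθ]
        exact (hq3 _ hr.1 hr.2).1 θ
      have c1 := continuousAt_ang (L.getD i default).1.1 hq1.1.continuous _ hpos
      have c2 : ContinuousAt (fun q : ℝ × ℝ => run (ks L) i (pol q.1 q.2)) (φ, σ) :=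
        ((continuous_run L (fun q hq => (hL q hq).1) i).comp continuous_pol).continuousAt
      exact (ContinuousAt.comp (f := fun q : ℝ × ℝ => run (ks L) i (pol q.1 q.2))
        (x := (φ, σ)) c1 c2).continuousWithinAt
    exact (hA.sub continuous_snd.continuousOn).div_const _
  obtain ⟨n, hn⟩ := int_const hS g hcont hint ⟨(0, s), trivial, le_refl s, by linarith⟩
  refine ⟨n, fun σ φ h1 h2 => ?_⟩
  have h3 := hn (φ, σ) ⟨trivial, h1, h2⟩
  simp only [g] at h3
  rw [div_eq_iff (by positivity)] at h3
  linarith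

end Pool.Agent.Helper31.AP
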