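import Pool.Agent.Helper31.AP.Defs

/-! Module A1: algebra of mod 2 chains and cochains -/

set_option autoImplicit false

namespace Pool.Agent.Helper31.AP

open Finset

variable {X Y : Type*}

/-! #### supports -/

theorem SuppIn.zero (P : List X → Prop) : SuppIn P 0 := by
  intro l hl
  simp at hl

theorem SuppIn.add {P : List X → Prop} {z w : Ch X} (hz : SuppIn P z) (hw : SuppIn P w) :
    SuppIn P (z + w) := by
  classical
  intro l hl
  rcases Finset.mem_union.1 (Finsupp.support_add hl) with h | h
  · exact hz l h
  · exact hw l h

theorem SuppIn.sum {ι : Type*} {P : List X → Prop} (t : Finset ι) (z : ι → Ch X)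
    (h : ∀ i ∈ t, SuppIn P (z i)) : SuppIn P (∑ i ∈ t, z i) := by
  classical
  induction t using Finset.induction_on with
  | empty => simpa using SuppIn.zero P
  | insert a s ha ih =>
    rw [Finset.sum_insert ha]
    exact (h a (Finset.mem_insert_self a s)).add
      (ih fun i hi => h i (Finset.mem_insert_of_mem hi))

theorem SuppIn.single {P : List X → Prop} {l : List X} (h : P l) (a : ZMod 2) :
    SuppIn P (Finsupp.single l a) := by
  classical
  intro l' hl'
  have := Finsupp.support_single_subset hl'
  rw [Finset.mem_singleton] at this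
  rw [this]
  exact h

theorem SuppIn.mono {P Q : List X → Prop} {z : Ch X} (hz : SuppIn P z) (h : ∀ l, P l → Q l) :
    SuppIn Q z := fun l hl => h l (hz l hl)

theorem SuppIn.al_smul {P : List X → Prop} {z : Ch X} (hz : SuppIn P z) (a : ZMod 2) :
    SuppIn P (a • z) := fun l hl => hz l (Finsupp.support_smul hl)

/-- the support of the image under a map defined on lists -/
theorem SuppIn.lin {P : List X → Prop} {Q : List Y → Prop} {z : Ch X} (hz : SuppIn P z)
    (g : List X → Ch Y) (h : ∀ l, P l → SuppIn Q (g l)) :
    SuppIn Q (Finsupp.linearCombination (ZMod 2) g z) := by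
  rw [Finsupp.linearCombination_apply, Finsupp.sum]
  exact SuppIn.sum _ _ fun l hl => (h l (hz l hl)).al_smul _

theorem al_consM_single (a : X) (l : List X) (r : ZMod 2) :
    consM a (Finsupp.single l r) = Finsupp.single (a :: l) r := by
  simp [consM, Finsupp.lmapDomain_apply, Finsupp.mapDomain_single]

theorem al_consM_eq (a : X) (z : Ch X) :
    consM a z = Finsupp.linearCombination (ZMod 2) (fun l => Finsupp.single (a :: l) (1 : ZMod 2)) z := by
  induction z using Finsupp.induction_linear with
  | zero => simp
  | add f g hf hg => rw [map_add, map_add, hf, hg]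
  | single l r => simp [al_consM_single, Finsupp.linearCombination_single]

theorem SuppIn.al_consM {P : List X → Prop} {Q : List X → Prop} {z : Ch X} (hz : SuppIn P z) (a : X)
    (h : ∀ l, P l → Q (a :: l)) : SuppIn Q (consM a z) := by
  rw [al_consM_eq]
  exact hz.lin _ fun l hl => SuppIn.single (h l hl) _

/-- the support of the boundary: faces -/
theorem bdL_supp (l : List X) : SuppIn (fun l' => l'.length + 1 = l.length ∧ ∀ x ∈ l', x ∈ l) (bdL l) := by
  induction l with
  | nil => exact SuppIn.zero _
  | cons a l ih =>
    rw [bdL]
    refine SuppIn.add (SuppIn.single ⟨rfl, fun x hx => List.mem_cons_of_mem _ hx⟩ _) ?_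
    refine ih.al_consM a fun l' hl' => ⟨?_, ?_⟩
    · rw [List.length_cons, List.length_cons, hl'.1]
    · intro x hx
      rcases List.mem_cons.1 hx with h | h
      · rw [h]; exact List.mem_cons_self
      · exact List.mem_cons_of_mem _ (hl'.2 x h)

/-! #### boundary -/

theorem bd_single (l : List X) : bd (Finsupp.single l 1) = bdL l := by
  rw [bd, Finsupp.linearCombination_single, one_smul]

theorem al_ch_add_self (z : Ch X) : z + z = 0 := by
  ext l
  simp [CharTwo.add_self_eq_zero]

theorem al_bdL_cons (a : X) (l : List X) : bdL (a :: l) = Finsupp.single l 1 + consM a (bdL l) := rfl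

theorem al_bd_consM (a : X) (z : Ch X) : bd (consM a z) = z + consM a (bd z) := by
  induction z using Finsupp.induction_linear with
  | zero => simp
  | add f g hf hg =>
    rw [map_add, map_add, map_add, map_add, hf, hg]
    abel
  | single l r =>
    rw [al_consM_single, bd, Finsupp.linearCombination_single, Finsupp.linearCombination_single,
      al_bdL_cons, smul_add, map_smul, Finsupp.smul_single, smul_eq_mul, mul_one]

theorem al_bd_bdL (l : List X) : bd (bdL l) = 0 := by
  induction l with
  | nil => simp [bdL]
  | cons a l ih =>
    rw [al_bdL_cons, map_add, bd_single, al_bd_consM, ih, map_zero, add_zero, al_ch_add_self]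

theorem bd_bd (z : Ch X) : bd (bd z) = 0 := by
  induction z using Finsupp.induction_linear with
  | zero => simp
  | add f g hf hg => rw [map_add, map_add, hf, hg, add_zero]
  | single l r =>
    have : bd (Finsupp.single l r) = r • bdL l := by
      rw [bd, Finsupp.linearCombination_single]
    rw [this, map_smul, al_bd_bdL, smul_zero]

/-! #### evaluation -/

theorem ev_single (c : List X → ZMod 2) (l : List X) : ev c (Finsupp.single l 1) = c l := by
  rw [ev, Finsupp.linearCombination_single, one_smul]

theorem al_ev_single' (c : List X → ZMod 2) (l : List X) (r : ZMod 2) :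
    ev c (Finsupp.single l r) = r * c l := by
  rw [ev, Finsupp.linearCombination_single, smul_eq_mul]

theorem ev_cob (c : List X → ZMod 2) (z : Ch X) : ev (cob c) z = ev c (bd z) := by
  induction z using Finsupp.induction_linear with
  | zero => simp
  | add f g hf hg => rw [map_add, map_add, map_add, hf, hg]
  | single l r =>
    rw [al_ev_single', bd, Finsupp.linearCombination_single, map_smul, smul_eq_mul, cob]

theorem ev_congr {P : List X → Prop} {z : Ch X} (hz : SuppIn P z) {c c' : List X → ZMod 2}
    (h : ∀ l, P l → c l = c' l) : ev c z = ev c' z := by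
  rw [ev, ev, Finsupp.linearCombination_apply, Finsupp.linearCombination_apply, Finsupp.sum,
    Finsupp.sum]
  exact Finset.sum_congr rfl fun l hl => by rw [h l (hz l hl)]

theorem al_ev_zero_cochain (z : Ch X) : ev (fun _ => 0) z = 0 := by
  rw [ev, Finsupp.linearCombination_apply, Finsupp.sum]
  simp

theorem ev_eq_zero {P : List X → Prop} {z : Ch X} (hz : SuppIn P z) {c : List X → ZMod 2}
    (h : ∀ l, P l → c l = 0) : ev c z = 0 := by
  rw [ev_congr hz h, al_ev_zero_cochain]

theorem ev_add (c c' : List X → ZMod 2) (z : Ch X) :
    ev (fun l => c l + c' l) z = ev c z + ev c' z := by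
  induction z using Finsupp.induction_linear with
  | zero => simp
  | add f g hf hg => rw [map_add, map_add, map_add, hf, hg]; abel
  | single l r => rw [al_ev_single', al_ev_single', al_ev_single', mul_add]

theorem al_ev_mul (r : ZMod 2) (c : List X → ZMod 2) (z : Ch X) :
    ev (fun l => r * c l) z = r * ev c z := by
  induction z using Finsupp.induction_linear with
  | zero => simp
  | add f g hf hg => rw [map_add, map_add, hf, hg, mul_add]
  | single l s => rw [al_ev_single', al_ev_single']; ring

theorem exists_of_ev_ne_zero {P : List X → Prop} {z : Ch X} (hz : SuppIn P z)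
    {c : List X → ZMod 2} (h : ev c z ≠ 0) : ∃ l, P l ∧ c l ≠ 0 := by
  by_contra hcon
  push Not at hcon
  exact h (ev_eq_zero hz hcon)

/-! #### coboundary, cup product, `E` -/

theorem al_ev_consM (c : List X → ZMod 2) (a : X) (z : Ch X) :
    ev c (consM a z) = ev (fun l => c (a :: l)) z := by
  induction z using Finsupp.induction_linear with
  | zero => simp
  | add f g hf hg => rw [map_add, map_add, map_add, hf, hg]
  | single l r => rw [al_consM_single, al_ev_single', al_ev_single']

theorem al_cob_nil (c : List X → ZMod 2) : cob c [] = 0 := by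
  rw [cob, bdL, map_zero]

theorem al_cob_cons (c : List X → ZMod 2) (a : X) (l : List X) :
    cob c (a :: l) = c l + cob (fun m => c (a :: m)) l := by
  rw [cob, al_bdL_cons, map_add, ev_single, al_ev_consM, cob]

theorem cob_cob (c : List X → ZMod 2) (l : List X) : cob (cob c) l = 0 := by
  rw [cob, ev_cob, al_bd_bdL, map_zero]

theorem cob_add (c c' : List X → ZMod 2) (l : List X) :
    cob (fun l => c l + c' l) l = cob c l + cob c' l := by
  rw [cob, ev_add, cob, cob]

theorem al_cob_mul (r : ZMod 2) (c : List X → ZMod 2) (l : List X) :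
    cob (fun l => r * c l) l = r * cob c l := by
  rw [cob, al_ev_mul, cob]

theorem al_cob_zero (l : List X) : cob (fun _ => (0 : ZMod 2)) l = 0 := by
  rw [cob, al_ev_zero_cochain]

theorem al_cob_congr {c c' : List X → ZMod 2} (h : ∀ l, c l = c' l) (l : List X) :
    cob c l = cob c' l := by
  have : c = c' := funext h
  rw [this]

theorem al_z2 (a : ZMod 2) : a + a = 0 := CharTwo.add_self_eq_zero a

/-- Leibniz rule -/
theorem cob_cup (k : ℕ) (c c' : List X → ZMod 2) (l : List X) (hl : k + 2 ≤ l.length) :
    cob (cup k c c') l = cup (k + 1) (cob c) c' l + cup k c (cob c') l := by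
  induction k generalizing c l with
  | zero =>
    match l, hl with
    | [], hl => simp at hl
    | [_], hl => simp at hl
    | a :: b :: l', _ =>
      have e1 : cob (fun m => cup 0 c c' (a :: m)) (b :: l')
          = c [a] * cob (fun m => c' (a :: m)) (b :: l') := by
        rw [← al_cob_mul]
        exact al_cob_congr (fun m => by simp [cup]) _
      have e2 : cob c [a, b] = c [b] + c [a] := by
        rw [al_cob_cons, al_cob_cons, al_cob_nil, add_zero]
      rw [al_cob_cons, e1]
      simp only [cup, List.take_succ_cons, List.take_zero, List.drop_zero, List.drop_succ_cons,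
        zero_add]
      rw [e2, al_cob_cons c' a]
      linear_combination (-(c [a] * c' (b :: l'))) * (al_z2 (1 : ZMod 2))
  | succ k ih =>
    match l, hl with
    | [], hl => simp at hl
    | a :: l', hl =>
      have hl' : k + 2 ≤ l'.length := by
        rw [List.length_cons] at hl
        omega
      have e1 : cob (fun m => cup (k + 1) c c' (a :: m)) l'
          = cob (cup k (fun m => c (a :: m)) c') l' :=
        al_cob_congr (fun m => by simp [cup]) _
      rw [al_cob_cons, e1, ih _ _ hl']
      simp only [cup, List.take_succ_cons, List.drop_succ_cons]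
      rw [al_cob_cons c a]
      ring

theorem al_E_nil_right (hs : List (X → ZMod 2)) : E hs [] = 0 := by
  cases hs <;> rfl

theorem al_E_cons_single (h : X → ZMod 2) (hs : List (X → ZMod 2)) (a : X) : E (h :: hs) [a] = 0 := rfl

theorem al_E_nil_single (a : X) : E [] [a] = (1 : ZMod 2) := rfl

theorem al_E_nil_cons_cons (a b : X) (l : List X) : E [] (a :: b :: l) = (0 : ZMod 2) := rfl

theorem al_E_cons_cons (h : X → ZMod 2) (hs : List (X → ZMod 2)) (a b : X) (l : List X) :
    E (h :: hs) (a :: b :: l) = (h a + h b) * E hs (b :: l) := rfl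

theorem E_length (hs : List (X → ZMod 2)) (l : List X) (h : E hs l ≠ 0) :
    l.length = hs.length + 1 := by
  induction hs generalizing l with
  | nil =>
    match l, h with
    | [], h => exact absurd (al_E_nil_right _) h
    | [_], _ => rfl
    | a :: b :: l', h => exact absurd (al_E_nil_cons_cons a b l') h
  | cons k ks ih =>
    match l, h with
    | [], h => exact absurd (al_E_nil_right _) h
    | [a], h => exact absurd (al_E_cons_single k ks a) h
    | a :: b :: l', h =>
      rw [al_E_cons_cons] at h
      have := ih _ (right_ne_zero_of_mul h)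
      rw [List.length_cons, this, List.length_cons]

theorem cob_E (hs : List (X → ZMod 2)) (l : List X) : cob (E hs) l = 0 := by
  induction hs generalizing l with
  | nil =>
    match l with
    | [] => exact al_cob_nil _
    | [a] => rw [al_cob_cons, al_cob_nil, al_E_nil_right, add_zero]
    | a :: b :: l' =>
      rw [al_cob_cons, al_cob_cons, al_cob_congr (c' := fun _ => 0) (fun m => al_E_nil_cons_cons a b m),
        al_cob_zero]
      cases l' with
      | nil => rw [al_E_nil_single, al_E_nil_single, add_zero, al_z2]
      | cons c l'' => rw [al_E_nil_cons_cons, al_E_nil_cons_cons, add_zero, add_zero]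
  | cons h hs ih =>
    match l with
    | [] => exact al_cob_nil _
    | [a] => rw [al_cob_cons, al_cob_nil, al_E_nil_right, add_zero]
    | a :: b :: l' =>
      have e1 : cob (fun m => E (h :: hs) (a :: b :: m)) l'
          = (h a + h b) * cob (fun m => E hs (b :: m)) l' := by
        rw [← al_cob_mul]
        exact al_cob_congr (fun m => al_E_cons_cons h hs a b m) _
      have e2 := ih (b :: l')
      rw [al_cob_cons] at e2
      rw [al_cob_cons, al_cob_cons, e1]
      cases l' with
      | nil => rw [al_E_cons_single, al_E_cons_single, al_cob_nil]; ring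
      | cons c l'' =>
        rw [al_E_cons_cons, al_E_cons_cons]
        linear_combination (h a + h b) * e2 + (h c * E hs (c :: l'')) * (al_z2 (1 : ZMod 2))

theorem ev_E_bd (hs : List (X → ZMod 2)) (z : Ch X) : ev (E hs) (bd z) = 0 := by
  rw [← ev_cob, ev_congr (P := fun _ => True) (fun _ _ => trivial) (c' := fun _ => 0)
    (fun l _ => cob_E hs l), al_ev_zero_cochain]

theorem E_append (H₁ H₂ : List (X → ZMod 2)) (l : List X) :
    E (H₁ ++ H₂) l = cup H₁.length (E H₁) (E H₂) l := by
  induction H₁ generalizing l with
  | nil =>
    cases l with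
    | nil => simp [cup, al_E_nil_right]
    | cons a l' => simp [cup, al_E_nil_single]
  | cons h H₁ ih =>
    match l with
    | [] => simp [cup, al_E_nil_right]
    | [a] => simp [cup, al_E_cons_single]
    | a :: b :: l' =>
      have := ih (b :: l')
      simp only [cup, List.take_succ_cons] at this
      simp only [cup, List.cons_append, List.length_cons, List.take_succ_cons,
        List.drop_succ_cons, al_E_cons_cons]
      rw [this]
      ring

/-- if `E hs l ≠ 0` then each of the functions changes its value on `l` -/
theorem E_jump (hs : List (X → ZMod 2)) (l : List X) (h : E hs l ≠ 0) (i : ℕ)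
    (hi : i < hs.length) : ∃ a ∈ l, ∃ b ∈ l, hs[i] a ≠ hs[i] b := by
  induction hs generalizing l i with
  | nil => simp at hi
  | cons k ks ih =>
    match l, h with
    | [], h => exact absurd (al_E_nil_right _) h
    | [a], h => exact absurd (al_E_cons_single k ks a) h
    | a :: b :: l', h =>
      rw [al_E_cons_cons] at h
      cases i with
      | zero =>
        refine ⟨a, by simp, b, by simp, ?_⟩
        intro hab
        simp only [List.getElem_cons_zero] at hab
        apply left_ne_zero_of_mul h
        rw [hab, al_z2]
      | succ i =>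
        obtain ⟨x, hx, y, hy, hxy⟩ := ih (b :: l') (right_ne_zero_of_mul h) i
          (by rw [List.length_cons] at hi; omega)
        exact ⟨x, List.mem_cons_of_mem _ hx, y, List.mem_cons_of_mem _ hy, by
          simpa using hxy⟩

theorem E_map (f : X → Y) (hs : List (Y → ZMod 2)) (l : List X) :
    E hs (l.map f) = E (hs.map fun h => h ∘ f) l := by
  induction hs generalizing l with
  | nil =>
    match l with
    | [] => rfl
    | [_] => rfl
    | _ :: _ :: _ => rfl
  | cons h hs ih =>
    match l with
    | [] => rfl
    | [_] => rfl
    | a :: b :: l' =>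
      have := ih (b :: l')
      simp only [List.map_cons, al_E_cons_cons, Function.comp] at this ⊢
      rw [this]

/-- `δq` for a function `q` of one point, followed by a cup of coboundaries -/
theorem cob_pt_cup_E (q : X → ZMod 2) (hs : List (X → ZMod 2)) (l : List X) :
    cob (fun l => match l with
      | [] => 0
      | a :: t => q a * E hs (a :: t)) l = E (q :: hs) l := by
  match l with
  | [] => rw [al_cob_nil, al_E_nil_right]
  | [a] => rw [al_cob_cons, al_cob_nil, al_E_cons_single, add_zero]
  | a :: b :: l' =>
    have e2 := cob_E hs (a :: b :: l')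
    rw [al_cob_cons] at e2
    rw [al_cob_cons, al_cob_mul, al_E_cons_cons]
    linear_combination (q a) * e2 - (q a * E hs (b :: l')) * (al_z2 (1 : ZMod 2))

/-- Stokes, `E` in front: `(E hs ∪ δη)(z) = (E hs ∪ η)(∂z)` -/
theorem stokes_right (hs : List (X → ZMod 2)) (η : List X → ZMod 2) (z : Ch X)
    (hz : SuppIn (fun l => hs.length + 2 ≤ l.length) z) :
    ev (cup hs.length (E hs) (cob η)) z = ev (cup hs.length (E hs) η) (bd z) := by
  rw [← ev_cob]
  refine ev_congr hz fun l hl => ?_
  rw [cob_cup _ _ _ _ hl]
  have : cup (hs.length + 1) (cob (E hs)) η l = 0 := by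
    rw [cup, cob_E, zero_mul]
  rw [this, zero_add]

/-- Stokes, cocycle behind: `(δη ∪ u)(z) = (η ∪ u)(∂z)` if `δu = 0` -/
theorem stokes_left (k : ℕ) (η u : List X → ZMod 2) (hu : ∀ l, cob u l = 0) (z : Ch X)
    (hz : SuppIn (fun l => k + 2 ≤ l.length) z) :
    ev (cup (k + 1) (cob η) u) z = ev (cup k η u) (bd z) := by
  rw [← ev_cob]
  refine ev_congr hz fun l hl => ?_
  rw [cob_cup _ _ _ _ hl]
  have : cup k η (cob u) l = 0 := by
    rw [cup, hu, mul_zero]
  rw [this, add_zero]

theorem al_cob_cup_E (H₁ H₂ : List (X → ZMod 2)) (q : X → ZMod 2) (l : List X) :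
    cob (cup H₁.length (E H₁) (fun l => match l with
      | [] => 0
      | a :: t => q a * E H₂ (a :: t))) l = E (H₁ ++ q :: H₂) l := by
  induction H₁ generalizing l with
  | nil =>
    rw [List.nil_append, ← cob_pt_cup_E]
    refine al_cob_congr (fun m => ?_) l
    cases m with
    | nil => simp [cup]
    | cons a m => simp [cup, al_E_nil_single]
  | cons h H₁ ih =>
    set G : List X → ZMod 2 := fun l => match l with
      | [] => 0
      | a :: t => q a * E H₂ (a :: t) with hG
    match l with
    | [] => rw [al_cob_nil, al_E_nil_right]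
    | [a] =>
      rw [al_cob_cons, al_cob_nil, List.cons_append, al_E_cons_single, add_zero]
      simp [cup, al_E_nil_right]
    | a :: b :: l' =>
      have key : ∀ (x y : X) (m : List X), cup (h :: H₁).length (E (h :: H₁)) G (x :: y :: m)
          = (h x + h y) * cup H₁.length (E H₁) G (y :: m) := by
        intro x y m
        simp only [cup, List.length_cons, List.take_succ_cons, List.drop_succ_cons, al_E_cons_cons]
        ring
      have key1 : ∀ x : X, cup (h :: H₁).length (E (h :: H₁)) G [x] = 0 := by
        intro x
        simp [cup, al_E_cons_single]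
      have e1 : cob (fun m => cup (h :: H₁).length (E (h :: H₁)) G (a :: b :: m)) l'
          = (h a + h b) * cob (fun m => cup H₁.length (E H₁) G (b :: m)) l' := by
        rw [← al_cob_mul]
        exact al_cob_congr (fun m => key a b m) _
      have e2 := ih (b :: l')
      rw [al_cob_cons] at e2
      rw [al_cob_cons, al_cob_cons, e1, List.cons_append, al_E_cons_cons]
      cases l' with
      | nil =>
        rw [key1, key1, ← e2]
        simp [cup, al_E_nil_right]
      | cons c l'' =>
        rw [key, key]
        linear_combination (h a + h b) * e2 +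
          (h c * cup H₁.length (E H₁) G (c :: l'')) * (al_z2 (1 : ZMod 2))

/-- Stokes for `E (H₁ ++ [q] ++ H₂)`: on the boundary every list splits as `l₁ ++ [x] ++ l₂` -/
theorem stokes_E (H₁ H₂ : List (X → ZMod 2)) (q : X → ZMod 2) (z : Ch X) :
    ev (E (H₁ ++ q :: H₂)) z = ev (cup H₁.length (E H₁) (fun l => match l with
      | [] => 0
      | a :: t => q a * E H₂ (a :: t))) (bd z) := by
  rw [← ev_cob]
  exact ev_congr (P := fun _ => True) (fun _ _ => trivial) fun l _ => (al_cob_cup_E H₁ H₂ q l).symm

/-- changing one cut: if `(E H₁ ∪ q E H₂)` vanishes on the boundary lists -/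
theorem E_change (H₁ H₂ : List (X → ZMod 2)) (k k' : X → ZMod 2) (z : Ch X)
    (P : List X → Prop) (hz : SuppIn P (bd z))
    (h : ∀ l₁ l₂ : List X, ∀ x : X, P (l₁ ++ x :: l₂) → E H₁ (l₁ ++ [x]) ≠ 0 →
      E H₂ (x :: l₂) ≠ 0 → k x = k' x) :
    ev (E (H₁ ++ k :: H₂)) z = ev (E (H₁ ++ k' :: H₂)) z := by
  rw [stokes_E, stokes_E]
  refine ev_congr hz fun l hl => ?_
  rw [cup, cup]
  by_cases h1 : E H₁ (l.take (H₁.length + 1)) = 0
  · rw [h1, zero_mul, zero_mul]
  · have hlen := E_length _ _ h1
    rw [List.length_take] at hlen
    have hlt : H₁.length < l.length := by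
      have : H₁.length + 1 ≤ l.length := by
        rw [← hlen]
        exact min_le_right _ _
      omega
    have hd : l.drop H₁.length = l[H₁.length] :: l.drop (H₁.length + 1) :=
      List.drop_eq_getElem_cons hlt
    have ht : l.take (H₁.length + 1) = l.take H₁.length ++ [l[H₁.length]] := by
      rw [List.take_succ_eq_append_getElem hlt]
    rw [hd]
    dsimp only
    by_cases h2 : E H₂ (l[H₁.length] :: l.drop (H₁.length + 1)) = 0
    · simp only [h2, mul_zero]
    · rw [h (l.take H₁.length) (l.drop (H₁.length + 1)) l[H₁.length] _ _ h2]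
      · rw [← hd, List.take_append_drop]
        exact hl
      · rw [← ht]
        exact h1

/-- adding a constant to a cut does not change anything -/
theorem E_change_const (H₁ H₂ : List (X → ZMod 2)) (k : X → ZMod 2) (c : ZMod 2) (l : List X) :
    E (H₁ ++ (fun x => k x + c) :: H₂) l = E (H₁ ++ k :: H₂) l := by
  induction H₁ generalizing l with
  | nil =>
    match l with
    | [] => rfl
    | [_] => rfl
    | a :: b :: l' =>
      rw [List.nil_append, List.nil_append, al_E_cons_cons, al_E_cons_cons]
      linear_combination (c * E H₂ (b :: l')) * (al_z2 (1 : ZMod 2))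
  | cons h H₁ ih =>
    match l with
    | [] => rfl
    | [_] => rfl
    | a :: b :: l' =>
      rw [List.cons_append, List.cons_append, al_E_cons_cons, al_E_cons_cons, ih]

end Pool.Agent.Helper31.AP
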