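import Pool.Agent.Helper31.AP.Alg

/-! Module A2: push-forward and prism operators -/

set_option autoImplicit false

namespace Pool.Agent.Helper31.AP

open Finset

variable {X Y : Type*}

theorem hy_push_single_smul (f : X → Y) (l : List X) (a : ZMod 2) :
    push f (Finsupp.single l a) = Finsupp.single (l.map f) a := by
  simp [push, Finsupp.lmapDomain_apply, Finsupp.mapDomain_single]

theorem push_single (f : X → Y) (l : List X) :
    push f (Finsupp.single l 1) = Finsupp.single (l.map f) 1 := hy_push_single_smul f l 1

theorem hy_consM_single (a : X) (l : List X) (c : ZMod 2) :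
    consM a (Finsupp.single l c) = Finsupp.single (a :: l) c := by
  simp [consM, Finsupp.lmapDomain_apply, Finsupp.mapDomain_single]

theorem hy_push_consM (f : X → Y) (a : X) (z : Ch X) :
    push f (consM a z) = consM (f a) (push f z) := by
  induction z using Finsupp.induction_linear with
  | zero => simp
  | add z w hz hw => rw [map_add, map_add, hz, hw, map_add, map_add]
  | single l c => rw [hy_consM_single, hy_push_single_smul, hy_push_single_smul, hy_consM_single, List.map_cons]

theorem hy_bd_single_smul (l : List X) (c : ZMod 2) : bd (Finsupp.single l c) = c • bdL l := by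
  simp [bd, Finsupp.linearCombination_single]

theorem hy_bd_consM (a : X) (z : Ch X) : bd (consM a z) = z + consM a (bd z) := by
  induction z using Finsupp.induction_linear with
  | zero => simp
  | add z w hz hw =>
    rw [map_add, map_add, hz, hw, map_add, map_add]
    abel
  | single l c =>
    rw [hy_consM_single, hy_bd_single_smul, hy_bd_single_smul, bdL, smul_add, Finsupp.smul_single,
      smul_eq_mul, mul_one, map_smul]

theorem hy_push_bdL (f : X → Y) (l : List X) : push f (bdL l) = bdL (l.map f) := by
  induction l with
  | nil => simp [bdL]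
  | cons a l ih => rw [bdL, map_add, push_single, hy_push_consM, ih, List.map_cons, bdL]

theorem bd_push (f : X → Y) (z : Ch X) : bd (push f z) = push f (bd z) := by
  induction z using Finsupp.induction_linear with
  | zero => simp
  | add z w hz hw => rw [map_add, map_add, hz, hw, map_add, map_add]
  | single l c => rw [hy_push_single_smul, hy_bd_single_smul, hy_bd_single_smul, map_smul, hy_push_bdL]

theorem ev_push (f : X → Y) (c : List Y → ZMod 2) (z : Ch X) :
    ev c (push f z) = ev (fun l => c (l.map f)) z := by
  induction z using Finsupp.induction_linear with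
  | zero => simp
  | add z w hz hw => rw [map_add, map_add, hz, hw, map_add]
  | single l a => rw [hy_push_single_smul, ev, ev, Finsupp.linearCombination_single,
      Finsupp.linearCombination_single]

theorem hy_push_eq_lin (f : X → Y) (z : Ch X) :
    push f z = Finsupp.linearCombination (ZMod 2) (fun l => Finsupp.single (l.map f) 1) z := by
  induction z using Finsupp.induction_linear with
  | zero => simp
  | add z w hz hw => rw [map_add, map_add, hz, hw]
  | single l c => rw [hy_push_single_smul, Finsupp.linearCombination_single, Finsupp.smul_single,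
      smul_eq_mul, mul_one]

theorem SuppIn.push {P : List X → Prop} {Q : List Y → Prop} {z : Ch X} (hz : SuppIn P z)
    (f : X → Y) (h : ∀ l, P l → Q (l.map f)) : SuppIn Q (push f z) := by
  rw [hy_push_eq_lin]
  exact hz.lin _ fun l hl => SuppIn.single (h l hl) 1

theorem hy_consM_eq_lin (a : X) (z : Ch X) :
    consM a z = Finsupp.linearCombination (ZMod 2) (fun l => Finsupp.single (a :: l) 1) z := by
  induction z using Finsupp.induction_linear with
  | zero => simp
  | add z w hz hw => rw [map_add, map_add, hz, hw]
  | single l c => rw [hy_consM_single, Finsupp.linearCombination_single, Finsupp.smul_single,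
      smul_eq_mul, mul_one]

theorem hy_suppIn_consM {P Q : List X → Prop} {z : Ch X} (hz : SuppIn P z)
    (a : X) (h : ∀ l, P l → Q (a :: l)) : SuppIn Q (consM a z) := by
  rw [hy_consM_eq_lin]
  exact hz.lin _ fun l hl => SuppIn.single (h l hl) 1

theorem prismL_supp (f g : X → Y) (l : List X) :
    SuppIn (fun l' => l'.length = l.length + 1 ∧ ∀ y ∈ l', ∃ x ∈ l, y = f x ∨ y = g x)
      (prismL f g l) := by
  induction l with
  | nil => exact SuppIn.zero _
  | cons x xs ih =>
    rw [prismL]
    apply SuppIn.add
    · apply SuppIn.single
      refine ⟨by simp, ?_⟩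
      intro y hy
      simp only [List.mem_cons, List.mem_map] at hy
      rcases hy with rfl | rfl | ⟨a, ha, rfl⟩
      · exact ⟨x, by simp, Or.inl rfl⟩
      · exact ⟨x, by simp, Or.inr rfl⟩
      · exact ⟨a, by simp [ha], Or.inr rfl⟩
    · refine hy_suppIn_consM ih (f x) ?_
      rintro l ⟨h1, h2⟩
      refine ⟨by simp [h1], ?_⟩
      intro y hy
      rw [List.mem_cons] at hy
      rcases hy with rfl | hy
      · exact ⟨x, by simp, Or.inl rfl⟩
      · obtain ⟨a, ha, hya⟩ := h2 y hy
        exact ⟨a, by simp [ha], hya⟩

theorem hy_prism_single_smul (f g : X → Y) (l : List X) (c : ZMod 2) :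
    prism f g (Finsupp.single l c) = c • prismL f g l := by
  simp [prism, Finsupp.linearCombination_single]

theorem hy_prism_consM (f g : X → Y) (a : X) (z : Ch X) :
    prism f g (consM a z) = consM (f a) (consM (g a) (push g z)) + consM (f a) (prism f g z) := by
  induction z using Finsupp.induction_linear with
  | zero => simp
  | add z w hz hw =>
    simp only [map_add, hz, hw]
    abel
  | single l c =>
    rw [hy_consM_single, hy_prism_single_smul, hy_prism_single_smul, hy_push_single_smul, hy_consM_single,
      hy_consM_single, prismL, smul_add, Finsupp.smul_single, smul_eq_mul, mul_one, map_smul]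

theorem hy_add_self_ch (z : Ch X) : z + z = 0 := by
  ext l
  simp only [Finsupp.coe_add, Pi.add_apply, Finsupp.coe_zero, Pi.zero_apply]
  exact CharTwo.add_self_eq_zero _

theorem hy_bd_prismL (f g : X → Y) (l : List X) :
    bd (prismL f g l) + prism f g (bdL l) =
      Finsupp.single (l.map f) 1 + Finsupp.single (l.map g) 1 := by
  induction l with
  | nil =>
    simp only [prismL, bdL, map_zero, List.map_nil, add_zero]
    rw [hy_add_self_ch]
  | cons x xs ih =>
    have e1 : bd (prismL f g (x :: xs)) =
        Finsupp.single (g x :: xs.map g) 1 +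
          consM (f x) (Finsupp.single (xs.map g) 1 + consM (g x) (bdL (xs.map g))) +
          (prismL f g xs + consM (f x) (bd (prismL f g xs))) := by
      rw [prismL, map_add, bd_single, bdL, bdL, hy_bd_consM]
    have e2 : prism f g (bdL (x :: xs)) =
        prismL f g xs + (consM (f x) (consM (g x) (bdL (xs.map g))) +
          consM (f x) (prism f g (bdL xs))) := by
      rw [bdL, map_add, hy_prism_single_smul, one_smul, hy_prism_consM, hy_push_bdL]
    have e3 : consM (f x) (bd (prismL f g xs)) + consM (f x) (prism f g (bdL xs)) =
        Finsupp.single (f x :: xs.map f) 1 + Finsupp.single (f x :: xs.map g) 1 := by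
      rw [← map_add, ih, map_add, hy_consM_single, hy_consM_single]
    rw [e1, e2, map_add, hy_consM_single, List.map_cons, List.map_cons]
    have h1 := hy_add_self_ch (prismL f g xs)
    have h2 := hy_add_self_ch (consM (f x) (consM (g x) (bdL (xs.map g))))
    have h3 := hy_add_self_ch (Finsupp.single (f x :: xs.map g) (1 : ZMod 2))
    calc _ = Finsupp.single (g x :: xs.map g) 1 + Finsupp.single (f x :: xs.map g) 1 +
          (consM (f x) (bd (prismL f g xs)) + consM (f x) (prism f g (bdL xs))) +
          (prismL f g xs + prismL f g xs) +
          (consM (f x) (consM (g x) (bdL (xs.map g))) +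
            consM (f x) (consM (g x) (bdL (xs.map g)))) := by abel
      _ = Finsupp.single (f x :: xs.map f) 1 + Finsupp.single (g x :: xs.map g) 1 +
          (Finsupp.single (f x :: xs.map g) 1 + Finsupp.single (f x :: xs.map g) 1) := by
        rw [e3, h1, h2]
        abel
      _ = _ := by rw [h3, add_zero]

theorem bd_prism (f g : X → Y) (z : Ch X) :
    bd (prism f g z) + prism f g (bd z) = push f z + push g z := by
  induction z using Finsupp.induction_linear with
  | zero => simp
  | add z w hz hw =>
    simp only [map_add]
    calc _ = (bd (prism f g z) + prism f g (bd z)) + (bd (prism f g w) + prism f g (bd w)) := by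
          abel
      _ = _ := by
        rw [hz, hw]
        abel
  | single l c =>
    rw [hy_prism_single_smul, hy_bd_single_smul, map_smul, map_smul, ← smul_add, hy_bd_prismL,
      hy_push_single_smul, hy_push_single_smul, smul_add, Finsupp.smul_single, Finsupp.smul_single,
      smul_eq_mul, mul_one]

theorem hy_htpy_apply (f : ℕ → X → Y) (m : ℕ) (z : Ch X) :
    htpy f m z = ∑ j ∈ range m, prism (f j) (f (j + 1)) z := by
  simp [htpy, LinearMap.sum_apply]

theorem bd_htpy (f : ℕ → X → Y) (m : ℕ) (z : Ch X) :
    bd (htpy f m z) + htpy f m (bd z) = push (f 0) z + push (f m) z := by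
  induction m with
  | zero =>
    rw [hy_htpy_apply, hy_htpy_apply, hy_add_self_ch]
    simp
  | succ m ih =>
    rw [hy_htpy_apply, hy_htpy_apply] at ih ⊢
    rw [sum_range_succ, sum_range_succ, map_add]
    have h := bd_prism (f m) (f (m + 1)) z
    calc _ = (bd (∑ j ∈ range m, prism (f j) (f (j + 1)) z) +
          ∑ j ∈ range m, prism (f j) (f (j + 1)) (bd z)) +
          (bd (prism (f m) (f (m + 1)) z) + prism (f m) (f (m + 1)) (bd z)) := by abel
      _ = push (f 0) z + push (f (m + 1)) z + (push (f m) z + push (f m) z) := by
        rw [ih, h]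
        abel
      _ = _ := by rw [hy_add_self_ch, add_zero]

/-- support of the homotopy: it is enough to control each prism step -/
theorem SuppIn.htpy {P : List X → Prop} {Q : List Y → Prop} {z : Ch X} (hz : SuppIn P z)
    (f : ℕ → X → Y) (m : ℕ)
    (h : ∀ l, P l → ∀ j < m, ∀ l' : List Y, l'.length = l.length + 1 →
      (∀ y ∈ l', ∃ x ∈ l, y = f j x ∨ y = f (j + 1) x) → Q l') :
    SuppIn Q (htpy f m z) := by
  rw [hy_htpy_apply]
  apply SuppIn.sum
  intro j hj
  rw [mem_range] at hj
  exact hz.lin (prismL (f j) (f (j + 1))) fun l hl =>
    (prismL_supp _ _ l).mono fun l' hl' => h l hl j hj l' hl'.1 hl'.2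

end Pool.Agent.Helper31.AP
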