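import Pool.Agent.Helper31.AP.Alg

/-! Module A3: the shuffle product -/

set_option autoImplicit false

namespace Pool.Agent.Helper31.AP

open Finset

variable {X Y : Type*}

namespace Shuf

/-! #### linear extension lemmas -/

theorem ev_single (c : List X → ZMod 2) (l : List X) (a : ZMod 2) :
    ev c (Finsupp.single l a) = a * c l := by
  simp [ev, Finsupp.linearCombination_single]

theorem bd_single (l : List X) (a : ZMod 2) : bd (Finsupp.single l a) = a • bdL l := by
  simp [bd, Finsupp.linearCombination_single]

theorem sh_single (l : List X) (l' : List Y) :
    sh (Finsupp.single l 1) (Finsupp.single l' 1) = shL l l' := by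
  simp [sh, Finsupp.linearCombination_single]

theorem sh_single_left (l : List X) (w : Ch Y) :
    sh (Finsupp.single l 1) w = Finsupp.linearCombination (ZMod 2) (shL l) w := by
  simp [sh, Finsupp.linearCombination_single]

theorem consM_single (a : X) (l : List X) (c : ZMod 2) :
    consM a (Finsupp.single l c) = Finsupp.single (a :: l) c := by
  simp [consM, Finsupp.lmapDomain_apply, Finsupp.mapDomain_single]

theorem bd_consM (a : X) (z : Ch X) : bd (consM a z) = z + consM a (bd z) := by
  induction z using Finsupp.induction_linear with
  | zero => simp
  | add f g hf hg =>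
    simp only [map_add, hf, hg]; abel
  | single l c =>
    rw [consM_single, bd_single, bd_single, bdL, smul_add, map_smul]
    congr 1
    simp

theorem nil_left (l : List Y) : shL ([] : List X) l = 0 := by
  cases l <;> simp [shL]

theorem nil_right (l : List X) : shL l ([] : List Y) = 0 := by
  cases l <;> simp [shL]

/-- uniform recursion -/
theorem shL_cons (x : X) (xs : List X) (y : Y) (ys : List Y) :
    shL (x :: xs) (y :: ys) =
      (if xs = [] ∧ ys = [] then Finsupp.single [(x, y)] 1 else 0) +
        consM (x, y) (shL xs (y :: ys) + shL (x :: xs) ys) := by
  cases xs with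
  | nil =>
    cases ys with
    | nil => simp [shL]
    | cons y' ys => simp [shL]
  | cons x' xs =>
    cases ys with
    | nil => simp [shL]
    | cons y' ys => simp [shL]

theorem consM_supp {P : List X → Prop} {Q : List X → Prop} {z : Ch X} (hz : SuppIn P z) (a : X)
    (h : ∀ l, P l → Q (a :: l)) : SuppIn Q (consM a z) := by
  classical
  intro t ht
  have : t ∈ Finset.image (List.cons a) z.support := Finsupp.mapDomain_support ht
  rw [Finset.mem_image] at this
  obtain ⟨t', h', rfl⟩ := this
  exact h t' (hz t' h')

theorem trueSupp (z : Ch X) : SuppIn (fun _ => True) z := fun _ _ => trivial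

/-- lists in a shuffle are nonempty and start with the pair of heads -/
theorem shL_head (x : X) (xs : List X) (y : Y) (ys : List Y) :
    SuppIn (fun t => ∃ t', t = (x, y) :: t') (shL (x :: xs) (y :: ys)) := by
  rw [shL_cons]
  refine SuppIn.add ?_ ?_
  · split
    · exact SuppIn.single ⟨[], rfl⟩ _
    · exact SuppIn.zero _
  · exact consM_supp (trueSupp _) _ fun l _ => ⟨l, rfl⟩

theorem ev_consM (c : List X → ZMod 2) (a : X) (z : Ch X) :
    ev c (consM a z) = ev (fun l => c (a :: l)) z := by
  induction z using Finsupp.induction_linear with
  | zero => simp
  | add f g hf hg => simp only [map_add, hf, hg]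
  | single l c => rw [consM_single, ev_single, ev_single]

/-- evaluation of `E` on a cone whose lists start with a fixed point -/
theorem ev_E_consM (h : X → ZMod 2) (hs : List (X → ZMod 2)) (a b : X) (z : Ch X)
    (hz : SuppIn (fun t => ∃ t', t = b :: t') z) :
    ev (E (h :: hs)) (consM a z) = (h a + h b) * ev (E hs) z := by
  rw [ev_consM, ev_congr hz (c' := fun l => (h a + h b) * E hs l)]
  · simp only [ev, Finsupp.linearCombination_apply, Finsupp.sum, Finset.mul_sum, smul_eq_mul]
    refine Finset.sum_congr rfl fun l _ => by ring
  · rintro l ⟨t', rfl⟩
    rfl

theorem ev_E_nil_consM (a b : X) (z : Ch X)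
    (hz : SuppIn (fun t => ∃ t', t = b :: t') z) :
    ev (E []) (consM a z) = 0 := by
  rw [ev_consM, ev_congr hz (c' := fun _ => 0)]
  · simp [ev, Finsupp.linearCombination_apply]
  · rintro l ⟨t', rfl⟩
    rfl

theorem two_cancel (a : ZMod 2) : a + a = 0 := CharTwo.add_self_eq_zero a

/-- multiplicativity of `E` on lists -/
theorem E_shL :
    ∀ (n : ℕ) (l : List X) (l' : List Y), l.length + l'.length ≤ n →
    ∀ (hsX : List (X → ZMod 2)) (hsY : List (Y → ZMod 2)),
    ev (E ((hsX.map fun h => h ∘ Prod.fst) ++ (hsY.map fun h => h ∘ Prod.snd))) (shL l l') =
      E hsX l * E hsY l' := by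
  intro n
  induction n with
  | zero =>
    intro l l' hn hX hY
    have hl : l = [] := List.length_eq_zero_iff.mp (by omega)
    subst hl
    rw [nil_left]
    cases hX <;> simp [E]
  | succ n ih =>
    intro l l' hn hX hY
    cases l with
    | nil => rw [nil_left]; cases hX <;> simp [E]
    | cons x xs =>
      cases l' with
      | nil => rw [nil_right]; cases hY <;> simp [E]
      | cons y ys =>
        rw [shL_cons]
        cases xs with
        | nil =>
          cases ys with
          | nil =>
            simp only [and_self, if_true, nil_left, nil_right, add_zero, map_zero, ev_single,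
              one_mul]
            cases hX with
            | nil =>
              cases hY with
              | nil => simp [E]
              | cons k kY => simp [E]
            | cons h hX => simp [E]
          | cons y' ys =>
            simp only [reduceCtorEq, and_false, if_false, zero_add, nil_left]
            cases hX with
            | nil =>
              cases hY with
              | nil =>
                have := ev_E_nil_consM (x, y) (x, y') _ (shL_head x [] y' ys)
                simpa [E] using this
              | cons k kY =>
                have h1 := ev_E_consM (k ∘ Prod.snd) (kY.map fun h => h ∘ Prod.snd) (x, y) (x, y') _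
                  (shL_head x [] y' ys)
                have h2 := ih [x] (y' :: ys) (by simp at hn ⊢; omega) [] kY
                simp only [List.map_nil, List.nil_append, List.map_cons] at h1 h2 ⊢
                rw [h1, h2]
                simp only [Function.comp_apply, E]
                ring
            | cons h hX =>
              have h1 := ev_E_consM (h ∘ Prod.fst) ((hX.map fun h => h ∘ Prod.fst) ++
                (hY.map fun h => h ∘ Prod.snd)) (x, y) (x, y') _ (shL_head x [] y' ys)
              simp only [List.map_cons, List.cons_append] at h1 ⊢
              rw [h1]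
              simp [E, two_cancel]
        | cons x' xs =>
          simp only [reduceCtorEq, false_and, if_false, zero_add, map_add]
          cases ys with
          | nil =>
            simp only [nil_right, map_zero, add_zero]
            cases hX with
            | nil =>
              cases hY with
              | nil =>
                have := ev_E_nil_consM (x, y) (x', y) _ (shL_head x' xs y [])
                simpa [E] using this
              | cons k kY =>
                have h1 := ev_E_consM (k ∘ Prod.snd) (kY.map fun h => h ∘ Prod.snd) (x, y) (x', y) _
                  (shL_head x' xs y [])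
                simp only [List.map_nil, List.nil_append, List.map_cons] at h1 ⊢
                rw [h1]
                simp [E, two_cancel]
            | cons h hX =>
              have h1 := ev_E_consM (h ∘ Prod.fst) ((hX.map fun h => h ∘ Prod.fst) ++
                (hY.map fun h => h ∘ Prod.snd)) (x, y) (x', y) _ (shL_head x' xs y [])
              have h2 := ih (x' :: xs) [y] (by simp at hn ⊢; omega) hX hY
              simp only [List.map_cons, List.cons_append] at h1 h2 ⊢
              rw [h1, h2]
              simp only [Function.comp_apply, E]
              ring
          | cons y' ys =>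
            cases hX with
            | nil =>
              cases hY with
              | nil =>
                have h1 := ev_E_nil_consM (x, y) (x', y) _ (shL_head x' xs y (y' :: ys))
                have h2 := ev_E_nil_consM (x, y) (x, y') _ (shL_head x (x' :: xs) y' ys)
                simp only [List.map_nil, List.nil_append] at h1 h2 ⊢
                rw [h1, h2]
                simp [E]
              | cons k kY =>
                have h1 := ev_E_consM (k ∘ Prod.snd) (kY.map fun h => h ∘ Prod.snd) (x, y) (x', y) _
                  (shL_head x' xs y (y' :: ys))
                have h1' := ev_E_consM (k ∘ Prod.snd) (kY.map fun h => h ∘ Prod.snd) (x, y) (x, y') _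
                  (shL_head x (x' :: xs) y' ys)
                have h2 := ih (x :: x' :: xs) (y' :: ys) (by simp at hn ⊢; omega) [] kY
                simp only [List.map_nil, List.nil_append, List.map_cons] at h1 h1' h2 ⊢
                rw [h1, h1', h2]
                simp [E, two_cancel]
            | cons h hX =>
              have h1 := ev_E_consM (h ∘ Prod.fst) ((hX.map fun h => h ∘ Prod.fst) ++
                (hY.map fun h => h ∘ Prod.snd)) (x, y) (x', y) _ (shL_head x' xs y (y' :: ys))
              have h1' := ev_E_consM (h ∘ Prod.fst) ((hX.map fun h => h ∘ Prod.fst) ++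
                (hY.map fun h => h ∘ Prod.snd)) (x, y) (x, y') _ (shL_head x (x' :: xs) y' ys)
              have h2 := ih (x' :: xs) (y :: y' :: ys) (by simp at hn ⊢; omega) hX hY
              simp only [List.map_cons, List.cons_append] at h1 h1' h2 ⊢
              rw [h1, h1', h2]
              simp only [Function.comp_apply, E, two_cancel]
              ring

theorem consM_nil (a : X) (z : Ch X) : (consM a z) [] = 0 := by
  rw [consM, Finsupp.lmapDomain_apply]
  apply Finsupp.mapDomain_of_notMem_range
  rintro ⟨l, hl⟩
  simp at hl

theorem bdL_nil (l : List X) : (bdL l) [] = E [] l := by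
  cases l with
  | nil => simp [bdL, E]
  | cons a l =>
    rw [bdL, Finsupp.add_apply, consM_nil, add_zero]
    cases l with
    | nil => simp [E]
    | cons b l => simp [E]

theorem sh_single' (l : List X) (c : ZMod 2) (l' : List Y) (c' : ZMod 2) :
    sh (Finsupp.single l c) (Finsupp.single l' c') = (c * c') • shL l l' := by
  simp [sh, Finsupp.linearCombination_single, smul_smul]

/-- `sh` of a cone with a list -/
theorem sh_consM_left (x : X) (u : Ch X) (y : Y) (ys : List Y) :
    sh (consM x u) (Finsupp.single (y :: ys) 1) =
      Finsupp.single [(x, y)] (if ys = [] then u [] else 0) +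
        consM (x, y) (sh u (Finsupp.single (y :: ys) 1) + sh (consM x u) (Finsupp.single ys 1)) := by
  induction u using Finsupp.induction_linear with
  | zero => simp
  | add f g hf hg =>
    have h1 : (if ys = [] then (f + g) [] else 0) =
        (if ys = [] then f [] else 0) + (if ys = [] then g [] else 0) := by
      split <;> simp
    simp only [map_add, LinearMap.add_apply] at hf hg ⊢
    rw [hf, hg, h1, Finsupp.single_add]
    abel
  | single l c =>
    rw [consM_single, sh_single', sh_single', sh_single', shL_cons, mul_one, ← smul_add, map_smul,
      smul_add]
    congr 1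
    by_cases hys : ys = []
    · by_cases hl : l = []
      · simp [hys, hl]
      · simp [hys, hl]
    · simp [hys]

theorem sh_consM_right (x : X) (xs : List X) (y : Y) (u : Ch Y) :
    sh (Finsupp.single (x :: xs) 1) (consM y u) =
      Finsupp.single [(x, y)] (if xs = [] then u [] else 0) +
        consM (x, y) (sh (Finsupp.single xs 1) (consM y u) + sh (Finsupp.single (x :: xs) 1) u) := by
  induction u using Finsupp.induction_linear with
  | zero => simp
  | add f g hf hg =>
    have h1 : (if xs = [] then (f + g) [] else 0) =
        (if xs = [] then f [] else 0) + (if xs = [] then g [] else 0) := by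
      split <;> simp
    simp only [map_add] at hf hg ⊢
    rw [hf, hg, h1, Finsupp.single_add]
    abel
  | single l c =>
    rw [consM_single, sh_single', sh_single', sh_single', shL_cons, one_mul, ← smul_add, map_smul,
      smul_add]
    congr 1
    by_cases hys : xs = []
    · by_cases hl : l = []
      · simp [hys, hl]
      · simp [hys, hl]
    · simp [hys]

theorem ch_two_cancel (z : Ch X) : z + z = 0 := by
  have : (2 : ZMod 2) • z = 0 := by
    rw [show (2 : ZMod 2) = 0 from rfl, zero_smul]
  rwa [two_smul] at this

/-- boundary formula on lists -/
theorem bd_shL :
    ∀ (n : ℕ) (l : List X) (l' : List Y), l.length + l'.length ≤ n →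
    bd (shL l l') = sh (bdL l) (Finsupp.single l' 1) + sh (Finsupp.single l 1) (bdL l') +
      Finsupp.single [] (E [] l * E [] l') := by
  have e0X : E ([] : List (X → ZMod 2)) ([] : List X) = 0 := rfl
  have e0Y : E ([] : List (Y → ZMod 2)) ([] : List Y) = 0 := rfl
  have key1 : ∀ l' : List Y, sh (Finsupp.single ([] : List X) 1) (bdL l') = 0 := by
    intro l'
    rw [sh_single_left]
    simp [Finsupp.linearCombination_apply, nil_left]
  have key2 : ∀ u : Ch X, sh u (Finsupp.single ([] : List Y) 1) = 0 := by
    intro u
    induction u using Finsupp.induction_linear with
    | zero => simp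
    | add f g hf hg => simp only [map_add, LinearMap.add_apply, hf, hg, add_zero]
    | single l c => rw [sh_single', nil_right, smul_zero]
  intro n
  induction n with
  | zero =>
    intro l l' hn
    have hl : l = [] := List.length_eq_zero_iff.mp (by omega)
    subst hl
    rw [nil_left, key1, e0X]
    simp [bdL]
  | succ n ih =>
    intro l l' hn
    cases l with
    | nil => rw [nil_left, key1, e0X]; simp [bdL]
    | cons x xs =>
      cases l' with
      | nil => rw [nil_right, key2, e0Y]; simp [bdL]
      | cons y ys =>
        have i1 := ih xs (y :: ys) (by simp at hn ⊢; omega)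
        have i2 := ih (x :: xs) ys (by simp at hn ⊢; omega)
        rw [shL_cons, map_add, bd_consM, map_add, i1, i2]
        rw [show bdL (x :: xs) = Finsupp.single xs 1 + consM x (bdL xs) from rfl,
          show bdL (y :: ys) = Finsupp.single ys 1 + consM y (bdL ys) from rfl]
        simp only [map_add, LinearMap.add_apply]
        rw [sh_consM_left, sh_consM_right, sh_single, sh_single, sh_single, bdL_nil, bdL_nil]
        simp only [map_add, consM_single]
        have e1 : bd (if xs = [] ∧ ys = [] then Finsupp.single [(x, y)] (1 : ZMod 2) else 0) =
            Finsupp.single [] (E [] (x :: xs) * E [] (y :: ys)) := by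
          cases xs with
          | nil =>
            cases ys with
            | nil => simp [bd_single, bdL, E]
            | cons y' ys => simp [E]
          | cons x' xs => simp [E]
        have e2 : E [] (y :: ys) = if ys = [] then 1 else 0 := by
          cases ys <;> simp [E]
        have e3 : E [] (x :: xs) = if xs = [] then 1 else 0 := by
          cases xs <;> simp [E]
        have e4 : (E [] xs * E [] (y :: ys) : ZMod 2) = if ys = [] then E [] xs else 0 := by
          rw [e2]; split <;> simp
        have e5 : (E [] (x :: xs) * E [] ys : ZMod 2) = if xs = [] then E [] ys else 0 := by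
          rw [e3]; split <;> simp
        rw [e1, e4, e5]
        have e6 := ch_two_cancel (consM (x, y) (shL xs ys))
        refine sub_eq_zero.mp (Eq.trans ?_ e6)
        abel

end Shuf

open Shuf

theorem shL_supp (l : List X) (l' : List Y) :
    SuppIn (fun t => t.length + 1 = l.length + l'.length ∧ ∀ q ∈ t, q.1 ∈ l ∧ q.2 ∈ l') (shL l l') := by
  induction l generalizing l' with
  | nil => rw [nil_left]; exact SuppIn.zero _
  | cons x xs ih =>
    induction l' with
    | nil => rw [nil_right]; exact SuppIn.zero _
    | cons y ys ih' =>
      rw [shL_cons]
      refine SuppIn.add ?_ ?_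
      · split
        · rename_i h
          obtain ⟨rfl, rfl⟩ := h
          exact SuppIn.single ⟨by simp, by simp⟩ _
        · exact SuppIn.zero _
      · rw [map_add]
        refine SuppIn.add (consM_supp (ih (y :: ys)) _ ?_) (consM_supp ih' _ ?_)
        · rintro l ⟨h1, h2⟩
          refine ⟨by simp at h1 ⊢; omega, ?_⟩
          intro q hq
          rcases List.mem_cons.mp hq with rfl | hq
          · simp
          · exact ⟨List.mem_cons_of_mem _ (h2 q hq).1, (h2 q hq).2⟩
        · rintro l ⟨h1, h2⟩
          refine ⟨by simp at h1 ⊢; omega, ?_⟩
          intro q hq
          rcases List.mem_cons.mp hq with rfl | hq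
          · simp
          · exact ⟨(h2 q hq).1, List.mem_cons_of_mem _ (h2 q hq).2⟩

/-- support of the shuffle product -/
theorem SuppIn.sh {P : List X → Prop} {P' : List Y → Prop} {Q : List (X × Y) → Prop}
    {z : Ch X} {w : Ch Y} (hz : SuppIn P z) (hw : SuppIn P' w)
    (h : ∀ l l', P l → P' l' → ∀ t : List (X × Y), t.length + 1 = l.length + l'.length →
      (∀ q ∈ t, q.1 ∈ l ∧ q.2 ∈ l') → Q t) :
    SuppIn Q (sh z w) := by
  have : Pool.Agent.Helper31.AP.sh z w =
      Finsupp.linearCombination (ZMod 2)
        (fun l => Finsupp.linearCombination (ZMod 2) (shL l) w) z := by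
    clear hz
    induction z using Finsupp.induction_linear with
    | zero => simp
    | add f g hf hg => simp only [map_add, LinearMap.add_apply, hf, hg]
    | single l c => simp [Pool.Agent.Helper31.AP.sh, Finsupp.linearCombination_single]
  rw [this]
  refine SuppIn.lin hz _ fun l hl => SuppIn.lin hw _ fun l' hl' => ?_
  exact SuppIn.mono (shL_supp l l') fun t ht => h l l' hl hl' t ht.1 ht.2

/-- boundary of the shuffle product of chains of positive dimension -/
theorem bd_sh (z : Ch X) (w : Ch Y) (hz : SuppIn (fun l => 1 ≤ l.length) z)
    (hw : SuppIn (fun l => 1 ≤ l.length) w) :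
    bd (sh z w) = sh (bd z) w + sh z (bd w) +
      Finsupp.single [] (ev (E []) z * ev (E []) w) := by
  clear hz hw
  induction z using Finsupp.induction_linear with
  | zero => simp
  | add f g hf hg =>
    simp only [map_add, LinearMap.add_apply, hf, hg, add_mul, Finsupp.single_add]
    abel
  | single l c =>
    induction w using Finsupp.induction_linear with
    | zero => simp
    | add f g hf hg =>
      simp only [map_add, hf, hg, mul_add, Finsupp.single_add]
      abel
    | single l' c' =>
      have h1 : Finsupp.single l c = c • Finsupp.single l (1 : ZMod 2) := by simp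
      have h2 : Finsupp.single l' c' = c' • Finsupp.single l' (1 : ZMod 2) := by simp
      rw [h1, h2]
      simp only [map_smul, LinearMap.smul_apply, Shuf.sh_single, Shuf.bd_single, Shuf.ev_single,
        one_smul, one_mul, smul_eq_mul]
      rw [bd_shL _ l l' le_rfl, smul_add, smul_add, smul_add, smul_add, smul_smul, smul_smul,
        Finsupp.smul_single, Finsupp.smul_single]
      congr 2
      · rw [smul_eq_mul, smul_eq_mul]; ring

/-- multiplicativity of the evaluation -/
theorem E_sh (hsX : List (X → ZMod 2)) (hsY : List (Y → ZMod 2)) (z : Ch X) (w : Ch Y) :
    ev (E ((hsX.map fun h => h ∘ Prod.fst) ++ (hsY.map fun h => h ∘ Prod.snd))) (sh z w) =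
      ev (E hsX) z * ev (E hsY) w := by
  induction z using Finsupp.induction_linear with
  | zero => simp
  | add f g hf hg => simp only [map_add, LinearMap.add_apply, hf, hg, add_mul]
  | single l c =>
    induction w using Finsupp.induction_linear with
    | zero => simp
    | add f g hf hg => simp only [map_add, hf, hg, mul_add]
    | single l' c' =>
      have : sh (Finsupp.single l c) (Finsupp.single l' c') = (c * c') • shL l l' := by
        simp [sh, Finsupp.linearCombination_single, smul_smul]
      rw [this, map_smul, E_shL _ l l' le_rfl hsX hsY, Shuf.ev_single, Shuf.ev_single, smul_eq_mul]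
      ring

end Pool.Agent.Helper31.AP
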