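import Pool.Agent.Helper31.AP.FBasic
import Pool.Agent.Helper31.AP.Htpy
import Pool.Agent.Helper31.AP.Shuffle

/-! Module B6: the bottom class exists -/

set_option autoImplicit false

namespace Pool.Agent.Helper31.AP

open Finset

variable {p : ℝ}

namespace ExistAux

/-- the box of points of level `k` -/
def Box (s R : ℝ) (k : ℕ) (x : Pt) : Prop :=
  (∀ i < k, |x.1 (i + 1) - x.1 i| ≤ R ∧ x.2 (i + 1) - s = -(x.1 (i + 1) - x.1 i)) ∧
    x.1 0 = 0 ∧ x.2 0 = 0 ∧ ∀ i, k < i → x.1 i = 0 ∧ x.2 i = 0

/-- faces of the box -/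
def Face (s R : ℝ) (k : ℕ) (l : List Pt) : Prop :=
  ∃ i < k, (∀ x ∈ l, x.1 (i + 1) - x.1 i = R ∧ x.2 (i + 1) - s = -(x.1 (i + 1) - x.1 i)) ∨
    (∀ x ∈ l, x.1 (i + 1) - x.1 i = -R ∧ x.2 (i + 1) - s = -(x.1 (i + 1) - x.1 i))

/-- the sweep map -/
noncomputable def fj (s : ℝ) (k : ℕ) (t : ℝ) (x : Pt) : Pt :=
  (fun i => if i = k + 1 then x.1 k + t else x.1 i, fun i => if i = k + 1 then s - t else x.2 i)

theorem fj_fst_lt (s : ℝ) (k : ℕ) (t : ℝ) (x : Pt) (i : ℕ) (hi : i ≤ k) :
    (fj s k t x).1 i = x.1 i := by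
  simp only [fj]
  rw [if_neg (by omega)]

theorem fj_snd_lt (s : ℝ) (k : ℕ) (t : ℝ) (x : Pt) (i : ℕ) (hi : i ≤ k) :
    (fj s k t x).2 i = x.2 i := by
  simp only [fj]
  rw [if_neg (by omega)]

theorem fj_fst_eq (s : ℝ) (k : ℕ) (t : ℝ) (x : Pt) : (fj s k t x).1 (k + 1) = x.1 k + t := by
  simp [fj]

theorem fj_snd_eq (s : ℝ) (k : ℕ) (t : ℝ) (x : Pt) : (fj s k t x).2 (k + 1) = s - t := by
  simp [fj]

theorem fj_fst_gt (s : ℝ) (k : ℕ) (t : ℝ) (x : Pt) (i : ℕ) (hi : k + 1 < i) :
    (fj s k t x).1 i = x.1 i := by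
  simp only [fj]
  rw [if_neg (by omega)]

theorem fj_snd_gt (s : ℝ) (k : ℕ) (t : ℝ) (x : Pt) (i : ℕ) (hi : k + 1 < i) :
    (fj s k t x).2 i = x.2 i := by
  simp only [fj]
  rw [if_neg (by omega)]

theorem box_fj (s R : ℝ) (k : ℕ) (t : ℝ) (ht : |t| ≤ R) (x : Pt) (hx : Box s R k x) :
    Box s R (k + 1) (fj s k t x) := by
  obtain ⟨h1, h2, h3, h4⟩ := hx
  refine ⟨?_, ?_, ?_, ?_⟩
  · intro i hi
    rcases Nat.lt_succ_iff_lt_or_eq.mp hi with hlt | rfl
    · rw [fj_fst_lt s k t x (i + 1) (by omega), fj_fst_lt s k t x i (by omega),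
        fj_snd_lt s k t x (i + 1) (by omega)]
      exact h1 i hlt
    · rw [fj_fst_eq, fj_fst_lt s i t x i le_rfl, fj_snd_eq]
      constructor
      · rw [add_sub_cancel_left]; exact ht
      · ring
  · rw [fj_fst_lt s k t x 0 (by omega)]; exact h2
  · rw [fj_snd_lt s k t x 0 (by omega)]; exact h3
  · intro i hi
    rw [fj_fst_gt s k t x i hi, fj_snd_gt s k t x i hi]
    exact h4 i (by omega)

theorem near_fj (s : ℝ) (k : ℕ) (t t' : ℝ) (ε η : ℝ) (htt : |t - t'| ≤ η) (hε : 0 ≤ ε) (x x' : Pt)
    (h : Near ε x x') : Near (ε + η) (fj s k t x) (fj s k t' x') := by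
  have hη : 0 ≤ η := (abs_nonneg _).trans htt
  intro i
  simp only [fj]
  by_cases hi : i = k + 1
  · simp only [hi, if_true]
    constructor
    · rw [show x.1 k + t - (x'.1 k + t') = (x.1 k - x'.1 k) + (t - t') by ring]
      exact (abs_add_le _ _).trans (add_le_add (h k).1 htt)
    · rw [show s - t - (s - t') = -(t - t') by ring, abs_neg]
      linarith
  · simp only [if_neg hi]
    exact ⟨by linarith [(h i).1], by linarith [(h i).2]⟩

theorem vv_fj (s : ℝ) (k : ℕ) (t : ℝ) (x : Pt) (i : ℕ) (hi : i < k) :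
    vv s i (fj s k t x) = vv s i x := by
  simp only [vv]
  rw [fj_fst_lt s k t x (i + 1) (by omega), fj_fst_lt s k t x i (by omega),
    fj_snd_lt s k t x (i + 1) (by omega)]

theorem face_fj (s R : ℝ) (k : ℕ) (l l' : List Pt) (t t' : ℝ) (hl : Face s R k l)
    (h : ∀ y ∈ l', ∃ x ∈ l, y = fj s k t x ∨ y = fj s k t' x) : Face s R (k + 1) l' := by
  obtain ⟨i, hi, hl⟩ := hl
  have key : ∀ y ∈ l', ∃ x ∈ l, y.1 (i + 1) = x.1 (i + 1) ∧ y.1 i = x.1 i ∧ y.2 (i + 1) = x.2 (i + 1) := by
    intro y hy
    obtain ⟨x, hx, rfl | rfl⟩ := h y hy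
    · exact ⟨x, hx, fj_fst_lt s k t x (i + 1) (by omega), fj_fst_lt s k t x i (by omega),
        fj_snd_lt s k t x (i + 1) (by omega)⟩
    · exact ⟨x, hx, fj_fst_lt s k t' x (i + 1) (by omega), fj_fst_lt s k t' x i (by omega),
        fj_snd_lt s k t' x (i + 1) (by omega)⟩
  refine ⟨i, by omega, ?_⟩
  rcases hl with hl | hl
  · left
    intro y hy
    obtain ⟨x, hx, h1, h2, h3⟩ := key y hy
    rw [h1, h2, h3]
    exact hl x hx
  · right
    intro y hy
    obtain ⟨x, hx, h1, h2, h3⟩ := key y hy
    rw [h1, h2, h3]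
    exact hl x hx

/-- `E (vs s k)` vanishes on lists (of any length) inside a face -/
theorem E_face (s R : ℝ) (hR : 0 < R) (k : ℕ) (l l₀ : List Pt) (hl : Face s R k l)
    (hsub : ∀ x ∈ l₀, x ∈ l) : E (vs s k) l₀ = 0 := by
  by_contra hne
  obtain ⟨i, hi, hl⟩ := hl
  have hlen : i < (vs s k).length := by rw [vs_length]; exact hi
  obtain ⟨a, ha, b, hb, hab⟩ := E_jump (vs s k) l₀ hne i hlen
  apply hab
  have hval : ∀ x : Pt, (vs s k)[i] x = neg1 (vv s i x) := by
    intro x
    have h1 : (vs s k)[i] = fun x => neg1 (vv s i x) := by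
      have h2 : (vs s k)[i]? = some (fun x => neg1 (vv s i x)) := by
        simp [vs, hi]
      exact (List.getElem_eq_iff hlen).mpr h2
    rw [h1]
  rw [hval, hval]
  rcases hl with hl | hl
  · obtain ⟨h1, h2⟩ := hl a (hsub a ha)
    obtain ⟨h3, h4⟩ := hl b (hsub b hb)
    have e1 : vv s i a = 2 * R := by simp only [vv]; linarith
    have e2 : vv s i b = 2 * R := by simp only [vv]; linarith
    rw [e1, e2]
  · obtain ⟨h1, h2⟩ := hl a (hsub a ha)
    obtain ⟨h3, h4⟩ := hl b (hsub b hb)
    have e1 : vv s i a = -(2 * R) := by simp only [vv]; linarith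
    have e2 : vv s i b = -(2 * R) := by simp only [vv]; linarith
    rw [e1, e2]

theorem vs_succ (s : ℝ) (k : ℕ) : vs s (k + 1) = vs s k ++ (fun x => neg1 (vv s k x)) :: [] := by
  simp [vs, List.range_succ]

theorem vs_map_fj (s : ℝ) (k : ℕ) (t : ℝ) :
    ((vs s k).map fun h => h ∘ fj s k t) = vs s k := by
  simp only [vs, List.map_map]
  apply List.map_congr_left
  intro i hi
  have hi' : i < k := List.mem_range.mp hi
  funext x
  simp only [Function.comp]
  rw [vv_fj s k t x i hi']

/-- Stokes, in a form convenient here -/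
theorem stokes_E' (H₁ : List (Pt → ZMod 2)) (q : Pt → ZMod 2) (z : Ch Pt) :
    ∃ G : List Pt → ZMod 2, G [] = 0 ∧ (∀ a t, G (a :: t) = q a * E [] (a :: t)) ∧
      ev (E (H₁ ++ q :: [])) z = ev (cup H₁.length (E H₁) G) (bd z) :=
  ⟨_, rfl, fun _ _ => rfl, stokes_E H₁ [] q z⟩

/-- the inductive construction -/
theorem exists_chain (s R : ℝ) (hR : 0 < R) (η : ℝ) (m : ℕ) (hη : m * η = 2 * R) (hη0 : 0 < η)
    (k : ℕ) : ∃ z : Ch Pt,
      SuppIn (fun l => l.length = k + 1 ∧ (∀ x ∈ l, Box s R k x) ∧
        ∀ x ∈ l, ∀ y ∈ l, Near (k * η) x y) z ∧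
      SuppIn (fun l => (∀ x ∈ l, Box s R k x) ∧ Face s R k l ∨ k = 0) (bd z) ∧
      ev (E (vs s k)) z = 1 := by
  induction k with
  | zero =>
    refine ⟨Finsupp.single [((fun _ => 0, fun _ => 0) : Pt)] 1, ?_, ?_, ?_⟩
    · apply SuppIn.single
      refine ⟨rfl, ?_, ?_⟩
      · intro x hx
        rw [List.mem_singleton] at hx
        subst hx
        exact ⟨fun i hi => absurd hi (by omega), rfl, rfl, fun i _ => ⟨rfl, rfl⟩⟩
      · intro x hx y hy
        rw [List.mem_singleton] at hx hy
        subst hx hy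
        apply Near.refl
        simp
    · intro l _
      exact Or.inr rfl
    · rw [ev_single]
      simp [vs, E]
  | succ k ih =>
    obtain ⟨z, hz1, hz2, hz3⟩ := ih
    set f : ℕ → Pt → Pt := fun j => fj s k (-R + j * η) with hf
    have htj : ∀ j ≤ m, |-R + (j : ℝ) * η| ≤ R := by
      intro j hj
      have h1 : (j : ℝ) * η ≤ m * η := by
        apply mul_le_mul_of_nonneg_right _ hη0.le
        exact_mod_cast hj
      have h2 : 0 ≤ (j : ℝ) * η := by positivity
      rw [abs_le]
      constructor <;> linarith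
    have hbd : bd (htpy f m z) = htpy f m (bd z) + push (f 0) z + push (f m) z := by
      have h1 := bd_htpy f m z
      have h2 : htpy f m (bd z) + htpy f m (bd z) = 0 := by
        rw [← two_smul (ZMod 2), show (2 : ZMod 2) = 0 from rfl, zero_smul]
      calc bd (htpy f m z) = bd (htpy f m z) + (htpy f m (bd z) + htpy f m (bd z)) := by
            rw [h2, add_zero]
        _ = (bd (htpy f m z) + htpy f m (bd z)) + htpy f m (bd z) := by abel
        _ = (push (f 0) z + push (f m) z) + htpy f m (bd z) := by rw [h1]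
        _ = htpy f m (bd z) + push (f 0) z + push (f m) z := by abel
    have hf0 : f 0 = fj s k (-R) := by simp [hf]
    have hfm : f m = fj s k R := by
      simp only [hf]
      congr 1
      linarith
    refine ⟨htpy f m z, ?_, ?_, ?_⟩
    · refine SuppIn.htpy hz1 f m ?_
      rintro l ⟨hl1, hl2, hl3⟩ j hj l' hl' hy
      refine ⟨by rw [hl', hl1], ?_, ?_⟩
      · intro y hy'
        obtain ⟨x, hx, rfl | rfl⟩ := hy y hy'
        · exact box_fj s R k _ (htj j hj.le) x (hl2 x hx)
        · exact box_fj s R k _ (htj (j + 1) hj) x (hl2 x hx)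
      · intro y hy1 y' hy2
        have hcast : (((k + 1 : ℕ) : ℝ)) * η = k * η + η := by push_cast; ring
        rw [hcast]
        have hkη : 0 ≤ (k : ℝ) * η := by positivity
        have hd : ∀ a b : ℕ, (a = j ∨ a = j + 1) → (b = j ∨ b = j + 1) →
            |(-R + (a : ℝ) * η) - (-R + (b : ℝ) * η)| ≤ η := by
          intro a b ha hb
          rw [show (-R + (a : ℝ) * η) - (-R + (b : ℝ) * η) = ((a : ℝ) - b) * η by ring, abs_mul,
            abs_of_pos hη0]
          have : |(a : ℝ) - b| ≤ 1 := by
            rcases ha with rfl | rfl <;> rcases hb with rfl | rfl <;> simp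
          nlinarith
        obtain ⟨x, hx, hyx⟩ := hy y hy1
        obtain ⟨x', hx', hyx'⟩ := hy y' hy2
        have hn := hl3 x hx x' hx'
        rcases hyx with rfl | rfl <;> rcases hyx' with rfl | rfl
        · exact near_fj s k _ _ _ _ (hd j j (Or.inl rfl) (Or.inl rfl)) hkη x x' hn
        · exact near_fj s k _ _ _ _ (hd j (j + 1) (Or.inl rfl) (Or.inr rfl)) hkη x x' hn
        · exact near_fj s k _ _ _ _ (hd (j + 1) j (Or.inr rfl) (Or.inl rfl)) hkη x x' hn
        · exact near_fj s k _ _ _ _ (hd (j + 1) (j + 1) (Or.inr rfl) (Or.inr rfl)) hkη x x' hn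
    · rw [hbd]
      refine SuppIn.add (SuppIn.add ?_ ?_) ?_
      · rcases Nat.eq_zero_or_pos k with rfl | hk
        · -- boundary of a 0-chain: lists are empty, the homotopy lists have length one
          have hlen : SuppIn (fun l : List Pt => l = []) (bd z) := by
            refine SuppIn.lin hz1 bdL ?_
            rintro l ⟨hl, -, -⟩
            refine (bdL_supp l).mono ?_
            rintro l' ⟨hl', -⟩
            rw [hl] at hl'
            exact List.length_eq_zero_iff.mp (by omega)
          refine SuppIn.htpy hlen f m ?_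
          rintro l rfl j hj l' hl' hy
          exfalso
          have : l' ≠ [] := by
            intro h
            rw [h] at hl'
            simp at hl'
          obtain ⟨y, hy'⟩ := List.exists_mem_of_ne_nil l' this
          obtain ⟨x, hx, -⟩ := hy y hy'
          simp at hx
        · refine SuppIn.htpy hz2 f m ?_
          rintro l hl j hj l' hl' hy
          rcases hl with ⟨hl1, hl2⟩ | h0
          · left
            refine ⟨?_, face_fj s R k l l' _ _ hl2 hy⟩
            intro y hy'
            obtain ⟨x, hx, rfl | rfl⟩ := hy y hy'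
            · exact box_fj s R k _ (htj j hj.le) x (hl1 x hx)
            · exact box_fj s R k _ (htj (j + 1) hj) x (hl1 x hx)
          · omega
      · refine SuppIn.push hz1 (f 0) ?_
        rintro l ⟨hl1, hl2, hl3⟩
        left
        rw [hf0]
        refine ⟨?_, k, by omega, Or.inr ?_⟩
        · intro y hy
          obtain ⟨x, hx, rfl⟩ := List.mem_map.mp hy
          exact box_fj s R k _ (by rw [abs_neg, abs_of_pos hR]) x (hl2 x hx)
        · intro y hy
          obtain ⟨x, hx, rfl⟩ := List.mem_map.mp hy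
          rw [fj_fst_eq, fj_fst_lt s k _ x k le_rfl, fj_snd_eq]
          constructor <;> ring
      · refine SuppIn.push hz1 (f m) ?_
        rintro l ⟨hl1, hl2, hl3⟩
        left
        rw [hfm]
        refine ⟨?_, k, by omega, Or.inl ?_⟩
        · intro y hy
          obtain ⟨x, hx, rfl⟩ := List.mem_map.mp hy
          exact box_fj s R k _ (by rw [abs_of_pos hR]) x (hl2 x hx)
        · intro y hy
          obtain ⟨x, hx, rfl⟩ := List.mem_map.mp hy
          rw [fj_fst_eq, fj_fst_lt s k _ x k le_rfl, fj_snd_eq]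
          constructor <;> ring
    · obtain ⟨G, hG0, hG1, hG⟩ := stokes_E' (vs s k) (fun x => neg1 (vv s k x)) (htpy f m z)
      rw [vs_succ, hG, hbd, map_add, map_add, vs_length]
      have hA : ev (cup k (E (vs s k)) G) (htpy f m (bd z)) = 0 := by
        rcases Nat.eq_zero_or_pos k with rfl | hk
        · have hlen : SuppIn (fun l : List Pt => l = []) (bd z) := by
            refine SuppIn.lin hz1 bdL ?_
            rintro l ⟨hl, -, -⟩
            refine (bdL_supp l).mono ?_
            rintro l' ⟨hl', -⟩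
            rw [hl] at hl'
            exact List.length_eq_zero_iff.mp (by omega)
          have h1 : SuppIn (fun _ : List Pt => False) (htpy f m (bd z)) := by
            refine SuppIn.htpy hlen f m ?_
            rintro l rfl j hj l' hl' hy
            have : l' ≠ [] := by
              intro h
              rw [h] at hl'
              simp at hl'
            obtain ⟨y, hy'⟩ := List.exists_mem_of_ne_nil l' this
            obtain ⟨x, hx, -⟩ := hy y hy'
            simp at hx
          exact ev_eq_zero h1 (fun l hl => hl.elim)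
        · have h1 : SuppIn (fun l : List Pt => Face s R k l) (htpy f m (bd z)) := by
            refine SuppIn.htpy hz2 f m ?_
            rintro l hl j hj l' hl' hy
            rcases hl with ⟨hl1, hl2⟩ | h0
            · obtain ⟨i, hi, hl2⟩ := hl2
              have key : ∀ y ∈ l', ∃ x ∈ l, y.1 (i + 1) = x.1 (i + 1) ∧ y.1 i = x.1 i ∧
                  y.2 (i + 1) = x.2 (i + 1) := by
                intro y hy'
                obtain ⟨x, hx, rfl | rfl⟩ := hy y hy'
                · exact ⟨x, hx, fj_fst_lt s k _ x (i + 1) (by omega), fj_fst_lt s k _ x i (by omega),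
                    fj_snd_lt s k _ x (i + 1) (by omega)⟩
                · exact ⟨x, hx, fj_fst_lt s k _ x (i + 1) (by omega), fj_fst_lt s k _ x i (by omega),
                    fj_snd_lt s k _ x (i + 1) (by omega)⟩
              refine ⟨i, hi, ?_⟩
              rcases hl2 with hl2 | hl2
              · left
                intro y hy'
                obtain ⟨x, hx, h1, h2, h3⟩ := key y hy'
                rw [h1, h2, h3]
                exact hl2 x hx
              · right
                intro y hy'
                obtain ⟨x, hx, h1, h2, h3⟩ := key y hy'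
                rw [h1, h2, h3]
                exact hl2 x hx
            · omega
          refine ev_eq_zero h1 (fun l hl => ?_)
          rw [cup, E_face s R hR k l _ hl (fun x hx => List.mem_of_mem_take hx), zero_mul]
      have hcup : ∀ (c : ZMod 2) (t : ℝ), (∀ x : Pt, neg1 (vv s k (fj s k t x)) = c) →
          ev (cup k (E (vs s k)) G) (push (fj s k t) z) = c := by
        intro c t hc
        rw [ev_push]
        have h1 : ev (fun l : List Pt => cup k (E (vs s k)) G (l.map (fj s k t))) z =
            ev (fun l => c * E (vs s k) l) z := by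
          refine ev_congr hz1 ?_
          rintro l ⟨hl1, -, -⟩
          rw [cup]
          have h2 : (l.map (fj s k t)).take (k + 1) = l.map (fj s k t) := by
            apply List.take_of_length_le
            rw [List.length_map, hl1]
          have h3 : ∃ a, (l.map (fj s k t)).drop k = [fj s k t a] := by
            rw [← List.map_drop]
            have h4 : (l.drop k).length = 1 := by rw [List.length_drop, hl1]; omega
            obtain ⟨a, ha⟩ := List.length_eq_one_iff.mp h4
            exact ⟨a, by rw [ha]; rfl⟩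
          obtain ⟨a, ha⟩ := h3
          rw [h2, ha, E_map, vs_map_fj, hG1]
          simp only [hc a, E, mul_one]
          ring
        rw [h1]
        have h5 : ev (fun l => c * E (vs s k) l) z = c * ev (E (vs s k)) z := by
          simp only [ev, Finsupp.linearCombination_apply, Finsupp.sum, smul_eq_mul, Finset.mul_sum]
          refine Finset.sum_congr rfl (fun l _ => ?_)
          ring
        rw [h5, hz3, mul_one]
      rw [hA, hf0, hfm, hcup 1 (-R) ?_, hcup 0 R ?_]
      · decide
      · intro x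
        have : vv s k (fj s k R x) = 2 * R := by
          simp only [vv]
          rw [fj_fst_eq, fj_fst_lt s k _ x k le_rfl, fj_snd_eq]
          ring
        rw [this, neg1, if_neg (by linarith)]
      · intro x
        have : vv s k (fj s k (-R) x) = -(2 * R) := by
          simp only [vv]
          rw [fj_fst_eq, fj_fst_lt s k _ x k le_rfl, fj_snd_eq]
          ring
        rw [this, neg1, if_pos (by linarith)]

theorem box_bdd (s R : ℝ) (hR : 0 < R) (k : ℕ) (x : Pt) (hx : Box s R k x) :
    Bdd ((k + 1) * R + |s|) x := by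
  obtain ⟨h1, h2, h3, h4⟩ := hx
  have hth : ∀ i ≤ k, |x.1 i| ≤ i * R := by
    intro i
    induction i with
    | zero => intro _; rw [h2]; simp
    | succ i ih =>
      intro hi
      have h5 := ih (by omega)
      have h6 := (h1 i (by omega)).1
      have h7 : x.1 (i + 1) = x.1 i + (x.1 (i + 1) - x.1 i) := by ring
      rw [h7]
      refine (abs_add_le _ _).trans ?_
      push_cast
      linarith
  intro i
  have hs := abs_nonneg s
  have hkR : 0 ≤ (k : ℝ) * R := by positivity
  constructor
  · by_cases hi : i ≤ k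
    · have h5 := hth i hi
      have h6 : (i : ℝ) * R ≤ k * R := by
        apply mul_le_mul_of_nonneg_right _ hR.le
        exact_mod_cast hi
      linarith
    · rw [(h4 i (by omega)).1, abs_zero]
      linarith
  · rcases Nat.eq_zero_or_pos i with rfl | hi0
    · rw [h3, abs_zero]; linarith
    · by_cases hi : i ≤ k
      · obtain ⟨j, rfl⟩ : ∃ j, i = j + 1 := ⟨i - 1, by omega⟩
        obtain ⟨h5, h6⟩ := h1 j (by omega)
        have h7 : x.2 (j + 1) = s - (x.1 (j + 1) - x.1 j) := by linarith
        rw [h7]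
        refine (abs_sub _ _).trans ?_
        linarith
      · rw [(h4 i (by omega)).2, abs_zero]
        linarith

theorem F_box (s : ℝ) (β : List (GF p)) (M : ℝ)
    (hM : ∀ i, (β.getD i default).M ≤ M) (x : Pt)
    (hx : ∀ i < β.length - 1, x.2 (i + 1) - s = -(x.1 (i + 1) - x.1 i)) :
    F s β x ≤ β.length * M - ∑ i ∈ range (β.length - 1), (x.1 (i + 1) - x.1 i) ^ 2 := by
  rw [F]
  have h1 : ∑ i ∈ range β.length, (β.getD i default).W (x.1 i) (rad s x i) ≤ β.length * M := by
    calc ∑ i ∈ range β.length, (β.getD i default).W (x.1 i) (rad s x i)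
        ≤ ∑ _i ∈ range β.length, M :=
          Finset.sum_le_sum (fun i _ => (le_abs_self _).trans
            (((β.getD i default).bW _ _).trans (hM i)))
      _ = β.length * M := by rw [Finset.sum_const, card_range, nsmul_eq_mul]
  have h2 : ∑ i ∈ range (β.length - 1), (x.2 (i + 1) - s) * (x.1 (i + 1) - x.1 i) =
      -∑ i ∈ range (β.length - 1), (x.1 (i + 1) - x.1 i) ^ 2 := by
    rw [← Finset.sum_neg_distrib]
    refine Finset.sum_congr rfl (fun i hi => ?_)
    rw [hx i (mem_range.mp hi)]
    ring
  rw [h2]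
  linarith

end ExistAux

open ExistAux in
theorem essB_exists (s : ℝ) (β : List (GF p)) (hβ : β ≠ []) : ∃ a : ℝ, EssB s β a := by
  obtain ⟨L, M, hL, hM, hLM⟩ := exists_bounds β
  have hlen : 0 < β.length := List.length_pos_iff.mpr hβ
  set n : ℕ := β.length - 1 with hn
  have hn1 : β.length = n + 1 := by omega
  refine ⟨β.length * M, ?_⟩
  intro C
  set R : ℝ := 1 + |C| + β.length * M with hRdef
  have hlM : 0 ≤ (β.length : ℝ) * M := by positivity
  have hR : 0 < R := by
    have := abs_nonneg C
    linarith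
  have hR1 : 1 ≤ R := by
    have := abs_nonneg C
    linarith
  refine ⟨(n + 1) * R + |s|, fun ε hε => ?_⟩
  -- choice of the step
  obtain ⟨m, hm⟩ := exists_nat_gt (2 * R * (n + 1) / ε)
  have hm0 : (0 : ℝ) < m := lt_of_le_of_lt (by positivity) hm
  have hη : (m : ℝ) * (2 * R / m) = 2 * R := by field_simp
  have hη0 : 0 < 2 * R / m := by positivity
  obtain ⟨z, hz1, hz2, hz3⟩ := exists_chain s R hR (2 * R / m) m hη hη0 n
  have hsmall : (n : ℝ) * (2 * R / m) ≤ ε := by
    rw [div_lt_iff₀ hε] at hm
    rw [← mul_div_assoc, div_le_iff₀ hm0]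
    have : (n : ℝ) * (2 * R) ≤ 2 * R * (n + 1) := by nlinarith
    linarith
  refine ⟨z, ?_, ?_, hz3⟩
  · refine hz1.mono ?_
    rintro l ⟨hl1, hl2, hl3⟩
    refine ⟨by rw [hl1, hn1], ⟨fun x hx => box_bdd s R hR n x (hl2 x hx), ?_⟩, ?_⟩
    · intro x hx y hy
      exact Near.mono (hl3 x hx y hy) hsmall
    · intro x hx
      have h1 := F_box s β M (fun i => (hLM i).2) x (fun i hi => ((hl2 x hx).1 i hi).2)
      have h2 : 0 ≤ ∑ i ∈ range (β.length - 1), (x.1 (i + 1) - x.1 i) ^ 2 :=
        Finset.sum_nonneg (fun i _ => sq_nonneg _)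
      linarith
  · have hfin : ∀ l : List Pt, (∀ x ∈ l, Box s R n x) → Face s R n l → ∀ x ∈ l, F s β x ≤ -C := by
      rintro l hl1 ⟨i, hi, hl2⟩ x hx
      have h1 := F_box s β M (fun i => (hLM i).2) x (fun i hi => ((hl1 x hx).1 i hi).2)
      have h2 : (x.1 (i + 1) - x.1 i) ^ 2 ≤
          ∑ i ∈ range (β.length - 1), (x.1 (i + 1) - x.1 i) ^ 2 :=
        Finset.single_le_sum (f := fun i => (x.1 (i + 1) - x.1 i) ^ 2) (fun i _ => sq_nonneg _)
          (mem_range.mpr hi)
      have h3 : (x.1 (i + 1) - x.1 i) ^ 2 = R ^ 2 := by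
        rcases hl2 with hl2 | hl2
        · rw [(hl2 x hx).1]
        · rw [(hl2 x hx).1]; ring
      have h4 : R ≤ R ^ 2 := by nlinarith
      have h5 := le_abs_self C
      linarith
    rcases Nat.eq_zero_or_pos n with h0 | hpos
    · -- the boundary consists of empty lists
      have hlen : SuppIn (fun l : List Pt => l = []) (bd z) := by
        refine SuppIn.lin hz1 bdL ?_
        rintro l ⟨hl, -, -⟩
        refine (bdL_supp l).mono ?_
        rintro l' ⟨hl', -⟩
        rw [hl] at hl'
        exact List.length_eq_zero_iff.mp (by omega)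
      refine hlen.mono ?_
      rintro l rfl x hx
      simp at hx
    · refine hz2.mono ?_
      rintro l (⟨hl1, hl2⟩ | h0)
      · exact hfin l hl1 hl2
      · omega

end Pool.Agent.Helper31.AP
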