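import Pool.Agent.Helper31.AP.FBasic
import Pool.Agent.Helper31.AP.Htpy
import Pool.Agent.Helper31.AP.Shuffle

/-! Module B4: subadditivity of the top level -/

set_option autoImplicit false

namespace Pool.Agent.Helper31.AP

open Finset

variable {p : ℝ}

namespace SubAdd

/-- truncation to `[-1, 1]` -/
noncomputable def cl (t : ℝ) : ℝ := max (-1) (min 1 t)

theorem cl_abs (t : ℝ) : |cl t| ≤ 1 := by
  unfold cl
  rw [abs_le]
  constructor
  · exact le_max_left _ _
  · exact max_le (by norm_num) (min_le_left _ _)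

theorem cl_sub (t t' : ℝ) : |cl t - cl t'| ≤ |t - t'| := by
  unfold cl
  calc |max (-1) (min 1 t) - max (-1) (min 1 t')| ≤ |min 1 t - min 1 t'| := by
        have := abs_max_sub_max_le_max (-1 : ℝ) (min 1 t) (-1) (min 1 t')
        simpa using this
    _ ≤ |t - t'| := by
        have := abs_min_sub_min_le_max (1 : ℝ) t 1 t'
        simpa using this

theorem cl_mul (t : ℝ) : 0 ≤ t * cl t := by
  unfold cl
  rcases le_total 0 t with h | h
  · apply mul_nonneg h
    exact le_trans (le_min zero_le_one h) (le_max_right _ _)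
  · apply mul_nonneg_of_nonpos_of_nonpos h
    exact max_le (by norm_num) (le_trans (min_le_right _ _) h)

theorem cl_mul' (t : ℝ) : |t| - 1 ≤ t * cl t := by
  by_cases h : |t| ≤ 1
  · linarith [cl_mul t]
  · push Not at h
    unfold cl
    rcases le_total 0 t with h0 | h0
    · rw [abs_of_nonneg h0] at h ⊢
      rw [min_eq_left h.le, max_eq_right (by norm_num)]
      linarith
    · rw [abs_of_nonpos h0] at h ⊢
      rw [min_eq_right (by linarith), max_eq_left (by linarith)]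
      linarith

theorem neg1_cl {κ : ℝ} (hκ : 0 ≤ κ) (t : ℝ) : neg1 (t + κ * cl t) = neg1 t := by
  unfold neg1 cl
  rcases lt_or_ge t 0 with h | h
  · have h1 : max (-1) (min 1 t) ≤ 0 := max_le (by norm_num) (le_trans (min_le_right _ _) h.le)
    have h2 := mul_nonneg hκ (neg_nonneg.mpr h1)
    rw [if_pos h, if_pos (by linarith)]
  · have h1 : 0 ≤ max (-1) (min 1 t) := le_trans (le_min zero_le_one h) (le_max_right _ _)
    have h2 := mul_nonneg hκ h1
    rw [if_neg (not_lt.mpr h), if_neg (by linarith)]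

/-- the point of the concatenated block -/
noncomputable def psi (s κ : ℝ) (N : ℕ) (q : Pt × Pt) : Pt :=
  (fun i => if i < N then q.1.1 i else q.2.1 (i - N),
   fun i => if i < N then q.1.2 i else if i = N then s - κ * cl (q.2.1 0 - q.1.1 (N - 1))
     else q.2.2 (i - N))

variable {s κ : ℝ} {N : ℕ} {q : Pt × Pt}

theorem psi_1_lt {i : ℕ} (h : i < N) : (psi s κ N q).1 i = q.1.1 i := by
  simp [psi, h]

theorem psi_1_add (i : ℕ) : (psi s κ N q).1 (N + i) = q.2.1 i := by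
  simp [psi]

theorem psi_1_self : (psi s κ N q).1 N = q.2.1 0 := by
  simp [psi]

theorem psi_2_lt {i : ℕ} (h : i < N) : (psi s κ N q).2 i = q.1.2 i := by
  simp [psi, h]

theorem psi_2_self : (psi s κ N q).2 N = s - κ * cl (q.2.1 0 - q.1.1 (N - 1)) := by
  simp [psi]

theorem psi_2_add {i : ℕ} (h : 1 ≤ i) : (psi s κ N q).2 (N + i) = q.2.2 i := by
  have h1 : i ≠ 0 := by omega
  simp [psi, h1]

/-- the value of the functional -/
theorem F_psi (β γ : List (GF p)) (hβ : β ≠ []) (hγ : γ ≠ []) {Λ : ℝ}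
    (hΛ : ∀ θ ρ θ' ρ' : ℝ, |(γ.getD 0 default).W θ' ρ' - (γ.getD 0 default).W θ ρ| ≤
      Λ * (|θ' - θ| + |ρ' - ρ|)) (hΛ0 : 0 ≤ Λ) (hκ : 0 ≤ κ) (q : Pt × Pt) :
    F s (β ++ γ) (psi s κ β.length q) ≤ F s β q.1 + F s γ q.2 -
      κ * ((q.2.1 0 - q.1.1 (β.length - 1)) * cl (q.2.1 0 - q.1.1 (β.length - 1))) + Λ * κ := by
  have hN : 0 < β.length := List.length_pos_of_ne_nil hβ
  rw [F_append s β γ hβ hγ]
  have e1 : F s β (psi s κ β.length q) = F s β q.1 :=
    F_congr s β _ _ (fun i hi => psi_1_lt hi) (fun i _ hi => psi_2_lt hi)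
  have e2 : F s γ (shiftPt β.length (psi s κ β.length q)) = F s γ q.2 :=
    F_congr s γ _ _ (fun i _ => psi_1_add (s := s) (κ := κ) i)
      (fun i hi _ => psi_2_add (s := s) (κ := κ) hi)
  rw [e1, e2, psi_2_self, psi_1_self, psi_1_lt (by omega : β.length - 1 < β.length)]
  generalize q.2.1 0 - q.1.1 (β.length - 1) = d
  have h1 := hΛ (q.2.1 0) s (q.2.1 0) (s - κ * cl d)
  have h2 : |q.2.1 0 - q.2.1 0| + |s - κ * cl d - s| ≤ κ := by
    have : s - κ * cl d - s = -(κ * cl d) := by ring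
    rw [sub_self, abs_zero, zero_add, this, abs_neg, abs_mul, abs_of_nonneg hκ]
    exact mul_le_of_le_one_right hκ (cl_abs d)
  have h3 := le_trans h1 (mul_le_mul_of_nonneg_left h2 hΛ0)
  have h4 := le_trans (le_abs_self _) h3
  have h5 : (s - κ * cl d - s) * d = -(κ * (d * cl d)) := by ring
  rw [h5]
  linarith

theorem psi_near {ε ε' : ℝ} {q q' : Pt × Pt} (hκ : 0 ≤ κ) (h1 : Near ε' q.1 q'.1)
    (h2 : Near ε' q.2 q'.2) (h3 : ε' ≤ ε) (h4 : κ * (2 * ε') ≤ ε) :
    Near ε (psi s κ N q) (psi s κ N q') := by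
  intro i
  constructor
  · by_cases h : i < N
    · rw [psi_1_lt h, psi_1_lt h]
      exact le_trans (h1 i).1 h3
    · obtain ⟨j, rfl⟩ := Nat.exists_eq_add_of_le (not_lt.mp h)
      rw [psi_1_add, psi_1_add]
      exact le_trans (h2 j).1 h3
  · by_cases h : i < N
    · rw [psi_2_lt h, psi_2_lt h]
      exact le_trans (h1 i).2 h3
    · obtain ⟨j, rfl⟩ := Nat.exists_eq_add_of_le (not_lt.mp h)
      rcases Nat.eq_zero_or_pos j with rfl | hj
      · rw [Nat.add_zero, psi_2_self, psi_2_self]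
        have e : s - κ * cl (q.2.1 0 - q.1.1 (N - 1)) - (s - κ * cl (q'.2.1 0 - q'.1.1 (N - 1))) =
            -(κ * (cl (q.2.1 0 - q.1.1 (N - 1)) - cl (q'.2.1 0 - q'.1.1 (N - 1)))) := by ring
        rw [e, abs_neg, abs_mul, abs_of_nonneg hκ]
        refine le_trans (mul_le_mul_of_nonneg_left ?_ hκ) h4
        refine le_trans (cl_sub _ _) ?_
        have e2 : q.2.1 0 - q.1.1 (N - 1) - (q'.2.1 0 - q'.1.1 (N - 1)) =
            (q.2.1 0 - q'.2.1 0) - (q.1.1 (N - 1) - q'.1.1 (N - 1)) := by ring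
        rw [e2]
        refine le_trans (abs_sub _ _) ?_
        linarith [(h2 0).1, (h1 (N - 1)).1]
      · rw [psi_2_add hj, psi_2_add hj]
        exact le_trans (h2 j).2 h3

theorem psi_bdd {K K₁ K₂ : ℝ} {q : Pt × Pt} (hκ : 0 ≤ κ) (h1 : Bdd K₁ q.1)
    (h2 : Bdd K₂ q.2) (h3 : K₁ ≤ K) (h4 : K₂ ≤ K) (h5 : |s| + κ ≤ K) :
    Bdd K (psi s κ N q) := by
  intro i
  constructor
  · by_cases h : i < N
    · rw [psi_1_lt h]
      exact le_trans (h1 i).1 h3
    · obtain ⟨j, rfl⟩ := Nat.exists_eq_add_of_le (not_lt.mp h)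
      rw [psi_1_add]
      exact le_trans (h2 j).1 h4
  · by_cases h : i < N
    · rw [psi_2_lt h]
      exact le_trans (h1 i).2 h3
    · obtain ⟨j, rfl⟩ := Nat.exists_eq_add_of_le (not_lt.mp h)
      rcases Nat.eq_zero_or_pos j with rfl | hj
      · rw [Nat.add_zero, psi_2_self]
        refine le_trans (abs_sub _ _) ?_
        refine le_trans ?_ h5
        rw [abs_mul, abs_of_nonneg hκ]
        have := mul_le_of_le_one_right hκ (cl_abs (q.2.1 0 - q.1.1 (N - 1)))
        linarith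
      · rw [psi_2_add hj]
        exact le_trans (h2 j).2 h4

/-- points of the boundary inherit properties of the points of the chain -/
theorem bd_points {X : Type*} {P : List X → Prop} {Q : List X → Prop} {z : Ch X}
    (hz : SuppIn P z) (h : ∀ l l' : List X, P l → l'.length + 1 = l.length →
      (∀ x ∈ l', x ∈ l) → Q l') : SuppIn Q (bd z) := by
  unfold bd
  exact hz.lin bdL fun l hl => (bdL_supp l).mono fun l' h' => h l l' hl h'.1 h'.2

theorem SuppIn.and {X : Type*} {P Q : List X → Prop} {z : Ch X} (h : SuppIn P z)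
    (h' : SuppIn Q z) : SuppIn (fun l => P l ∧ Q l) z := fun l hl => ⟨h l hl, h' l hl⟩

/-- the cuts of the concatenated block -/
theorem us_psi (n m : ℕ) :
    (us s (n + 1 + m)).map (fun h => h ∘ psi s κ (n + 1)) =
      ((vs s n).map fun h => h ∘ Prod.fst) ++
        (fun q : Pt × Pt => neg1 ((q.2.1 0 - q.1.1 n) + κ * cl (q.2.1 0 - q.1.1 n))) ::
        ((us s m).map fun h => h ∘ Prod.snd) := by
  unfold us
  rw [vs_append]
  simp only [List.map_append, List.map_cons, List.map_nil, List.append_assoc, List.cons_append,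
    List.map_map]
  congr 1
  · unfold vs
    rw [List.map_map, List.map_map]
    apply List.map_congr_left
    intro i hi
    rw [List.mem_range] at hi
    funext q
    simp only [Function.comp_apply, vv]
    rw [psi_1_lt (by omega), psi_1_lt (by omega), psi_2_lt (by omega)]
  · congr 1
    · funext q
      simp only [Function.comp_apply, vv]
      rw [psi_1_self, psi_1_lt (by omega), psi_2_self]
      congr 1
      simp only [Nat.add_sub_cancel]
      ring
    · congr 1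
      · unfold vs
        rw [List.map_map, List.map_map]
        apply List.map_congr_left
        intro i hi
        funext q
        simp only [Function.comp_apply, vv, shiftPt]
        rw [psi_1_add, psi_1_add, psi_2_add (by omega)]
      · congr 1
        funext q
        simp only [Function.comp_apply]
        rw [psi_1_add]

/-- if the top cocycle does not vanish on a list, the functional is bounded below at some
point of the list -/
theorem exists_lower {γ : List (GF p)} {C₀ : ℝ}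
    (hC : ∀ (l : List Pt) (ε : ℝ), ε ≤ 1 →
    (∀ x ∈ l, ∀ y ∈ l, Near ε x y) → E (vs s (γ.length - 1)) l ≠ 0 →
    ∀ x ∈ l, -C₀ ≤ F s γ x) {l : List Pt} {ε : ℝ} (hε : ε ≤ 1)
    (hl : ∀ x ∈ l, ∀ y ∈ l, Near ε x y) (h : E (us s (γ.length - 1)) l ≠ 0) :
    ∃ x ∈ l, -C₀ ≤ F s γ x := by
  unfold us at h
  rw [E_append, cup, vs_length] at h
  have h1 := left_ne_zero_of_mul h
  have h2 := E_length _ _ h1
  rw [vs_length] at h2
  have h3 : 0 < (l.take (γ.length - 1 + 1)).length := by omega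
  obtain ⟨x, hx⟩ := List.exists_mem_of_length_pos h3
  exact ⟨x, List.mem_of_mem_take hx, hC _ ε hε
    (fun x hx y hy => hl x (List.mem_of_mem_take hx) y (List.mem_of_mem_take hy)) h1 x hx⟩

/-- the last cut is constant on lists in a half plane -/
theorem us_zero {m : ℕ} {l : List Pt} {R : ℝ} (hR : 0 < R)
    (h : (∀ x ∈ l, R ≤ x.1 m) ∨ (∀ x ∈ l, x.1 m ≤ -R)) : E (us s m) l = 0 := by
  by_contra h0
  obtain ⟨x, hx, y, hy, hxy⟩ := E_jump _ _ h0 m (by rw [us_length]; omega)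
  apply hxy
  have e' : ∀ (L : List (Pt → ZMod 2)) (g : Pt → ZMod 2), L.length = m →
      ∀ h : m < (L ++ [g]).length, (L ++ [g])[m] = g := by
    intro L g hL h
    subst hL
    simp
  have e : ∀ (h : m < (us s m).length), (us s m)[m] = fun x => neg1 (x.1 m) :=
    fun h => e' (vs s m) _ (vs_length s m) h
  rw [e]
  change neg1 (x.1 m) = neg1 (y.1 m)
  unfold neg1
  rcases h with h | h
  · rw [if_neg (by linarith [h x hx]), if_neg (by linarith [h y hy])]
  · rw [if_pos (by linarith [h x hx]), if_pos (by linarith [h y hy])]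

end SubAdd

open SubAdd

theorem essT_append (s : ℝ) (β γ : List (GF p)) (hβ : β ≠ []) (hγ : γ ≠ []) (a b δ : ℝ)
    (hδ : 0 < δ) (h1 : EssT s β a) (h2 : EssT s γ b) : EssT s (β ++ γ) (a + b + δ) := by
  intro C R
  obtain ⟨n, hn⟩ : ∃ n, β.length = n + 1 :=
    ⟨β.length - 1, (Nat.sub_add_cancel (List.length_pos_of_ne_nil hβ)).symm⟩
  obtain ⟨m, hm⟩ : ∃ m, γ.length = m + 1 :=
    ⟨γ.length - 1, (Nat.sub_add_cancel (List.length_pos_of_ne_nil hγ)).symm⟩
  obtain ⟨Cβ, hCβ0, hCβ⟩ := F_lower s β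
  obtain ⟨Cγ, hCγ0, hCγ⟩ := F_lower s γ
  obtain ⟨Λ, hΛ0, hΛ⟩ := GF.lipW (γ.getD 0 default)
  -- the constants
  let κ : ℝ := δ / (Λ + 1)
  have hκ : 0 < κ := by positivity
  have hκΛ : Λ * κ ≤ δ := by
    have : Λ * κ = δ * (Λ / (Λ + 1)) := by simp only [κ]; ring
    rw [this]
    refine mul_le_of_le_one_right hδ.le ?_
    rw [div_le_one (by positivity)]
    linarith
  let R' : ℝ := max R 1
  have hR1 : 1 ≤ R' := le_max_right _ _
  have hRR : R ≤ R' := le_max_left _ _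
  let C₁ : ℝ := |C| + |a| + |b| + δ + Cβ + Cγ + 1
  have hC₁a : C + a + δ ≤ C₁ := by
    simp only [C₁]; linarith [le_abs_self C, le_abs_self a, abs_nonneg b]
  have hC₁b : C + b + δ ≤ C₁ := by
    simp only [C₁]; linarith [le_abs_self C, abs_nonneg a, le_abs_self b]
  have hC₁β : Cβ < C₁ := by
    simp only [C₁]; linarith [abs_nonneg C, abs_nonneg a, abs_nonneg b]
  have hC₁γ : Cγ < C₁ := by
    simp only [C₁]; linarith [abs_nonneg C, abs_nonneg a, abs_nonneg b]
  have hC₁0 : 0 ≤ C + a + b + δ ∨ C + a + b + δ ≤ C₁ := by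
    right
    simp only [C₁]; linarith [le_abs_self C, le_abs_self a, le_abs_self b]
  have hC₁s : C + a + b + δ ≤ C₁ := by
    simp only [C₁]; linarith [le_abs_self C, le_abs_self a, le_abs_self b]
  have hC₁p : 0 < C₁ := by
    simp only [C₁]; linarith [abs_nonneg C, abs_nonneg a, abs_nonneg b]
  obtain ⟨Kγ, hKγ⟩ := h2 C₁ R'
  let R₁ : ℝ := |Kγ| + 2 + C₁ / κ
  have hR₁0 : 0 < R₁ := by positivity
  have hR₁K : Kγ < R₁ := by
    have : 0 < C₁ / κ := by positivity
    simp only [R₁]; linarith [le_abs_self Kγ]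
  have hR₁κ : C₁ ≤ κ * (R₁ - Kγ - 1) := by
    have e : κ * (C₁ / κ) = C₁ := by field_simp
    have : κ * (C₁ / κ) ≤ κ * (R₁ - Kγ - 1) := by
      apply mul_le_mul_of_nonneg_left _ hκ.le
      simp only [R₁]; linarith [le_abs_self Kγ]
    linarith
  obtain ⟨Kβ, hKβ⟩ := h1 C₁ R₁
  let K : ℝ := |Kβ| + |Kγ| + |s| + κ
  refine ⟨K, fun ε hε => ?_⟩
  let ε' : ℝ := min 1 (ε / (1 + 2 * κ))
  have hε' : 0 < ε' := lt_min one_pos (by positivity)
  have hε'1 : ε' ≤ 1 := min_le_left _ _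
  have hε'2 : ε' * (1 + 2 * κ) ≤ ε := by
    have : ε' ≤ ε / (1 + 2 * κ) := min_le_right _ _
    rwa [le_div_iff₀ (by positivity)] at this
  have hε'ε : ε' ≤ ε := by nlinarith
  have hε'κ : κ * (2 * ε') ≤ ε := by nlinarith
  obtain ⟨z, hz1, hz2, hz3⟩ := hKβ ε' hε'
  obtain ⟨w, hw1, hw2, hw3⟩ := hKγ ε' hε'
  rw [hn] at hz1 hz2 hz3
  rw [hm] at hw1 hw2 hw3
  simp only [Nat.add_sub_cancel] at hz2 hz3 hw2 hw3
  -- points of the boundaries
  have hzb : SuppIn (fun l => (Sm ε' Kβ l ∧ ∀ x ∈ l, F s β x ≤ a) ∧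
      ((∀ x ∈ l, F s β x ≤ -C₁) ∨ (∀ x ∈ l, R₁ ≤ x.1 n) ∨ (∀ x ∈ l, x.1 n ≤ -R₁))) (bd z) := by
    refine SuppIn.and (bd_points hz1 ?_) hz2
    rintro l l' ⟨_, ⟨h3, h4⟩, h5⟩ _ h6
    exact ⟨⟨fun x hx => h3 x (h6 x hx), fun x hx y hy => h4 x (h6 x hx) y (h6 y hy)⟩,
      fun x hx => h5 x (h6 x hx)⟩
  have hwb : SuppIn (fun l => (Sm ε' Kγ l ∧ ∀ x ∈ l, F s γ x ≤ b) ∧
      ((∀ x ∈ l, F s γ x ≤ -C₁) ∨ (∀ x ∈ l, R' ≤ x.1 m) ∨ (∀ x ∈ l, x.1 m ≤ -R'))) (bd w) := by
    refine SuppIn.and (bd_points hw1 ?_) hw2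
    rintro l l' ⟨_, ⟨h3, h4⟩, h5⟩ _ h6
    exact ⟨⟨fun x hx => h3 x (h6 x hx), fun x hx y hy => h4 x (h6 x hx) y (h6 y hy)⟩,
      fun x hx => h5 x (h6 x hx)⟩
  -- the boundary of the shuffle product
  have hb : bd (sh z w) = sh (bd z) w + sh z (bd w) := by
    rw [bd_sh z w (hz1.mono fun l hl => by omega) (hw1.mono fun l hl => by omega)]
    have h0 : ev (E []) z = 0 := ev_eq_zero hz1 fun l hl => by
      by_contra h
      have := E_length _ _ h
      simp only [List.length_nil] at this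
      omega
    rw [h0, zero_mul, Finsupp.single_zero, add_zero]
  have hsb : SuppIn (fun t : List (Pt × Pt) =>
      (∀ q ∈ t, ∀ q' ∈ t, Near ε' q.1 q'.1 ∧ Near ε' q.2 q'.2) ∧
      (∀ q ∈ t, F s β q.1 ≤ a ∧ F s γ q.2 ≤ b ∧ Bdd Kγ q.2) ∧
      ((∀ q ∈ t, F s β q.1 ≤ -C₁) ∨ (∀ q ∈ t, R₁ ≤ q.1.1 n) ∨ (∀ q ∈ t, q.1.1 n ≤ -R₁) ∨
        (∀ q ∈ t, F s γ q.2 ≤ -C₁) ∨ (∀ q ∈ t, R' ≤ q.2.1 m) ∨ (∀ q ∈ t, q.2.1 m ≤ -R')))
      (bd (sh z w)) := by
    rw [hb]
    refine SuppIn.add ?_ ?_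
    · refine SuppIn.sh hzb hw1 ?_
      rintro l l' ⟨⟨h3, h4⟩, h5⟩ ⟨_, h6, h7⟩ t _ ht
      refine ⟨fun q hq q' hq' => ⟨h3.2 _ (ht q hq).1 _ (ht q' hq').1,
        h6.2 _ (ht q hq).2 _ (ht q' hq').2⟩, fun q hq => ⟨h4 _ (ht q hq).1, h7 _ (ht q hq).2,
        h6.1 _ (ht q hq).2⟩, ?_⟩
      rcases h5 with h5 | h5 | h5
      · exact Or.inl fun q hq => h5 _ (ht q hq).1
      · exact Or.inr (Or.inl fun q hq => h5 _ (ht q hq).1)
      · exact Or.inr (Or.inr (Or.inl fun q hq => h5 _ (ht q hq).1))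
    · refine SuppIn.sh hz1 hwb ?_
      rintro l l' ⟨_, h6, h7⟩ ⟨⟨h3, h4⟩, h5⟩ t _ ht
      refine ⟨fun q hq q' hq' => ⟨h6.2 _ (ht q hq).1 _ (ht q' hq').1,
        h3.2 _ (ht q hq).2 _ (ht q' hq').2⟩, fun q hq => ⟨h7 _ (ht q hq).1, h4 _ (ht q hq).2,
        h3.1 _ (ht q hq).2⟩, ?_⟩
      rcases h5 with h5 | h5 | h5
      · exact Or.inr (Or.inr (Or.inr (Or.inl fun q hq => h5 _ (ht q hq).2)))
      · exact Or.inr (Or.inr (Or.inr (Or.inr (Or.inl fun q hq => h5 _ (ht q hq).2))))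
      · exact Or.inr (Or.inr (Or.inr (Or.inr (Or.inr fun q hq => h5 _ (ht q hq).2))))
  have hF : ∀ q : Pt × Pt, F s (β ++ γ) (psi s κ (n + 1) q) ≤ F s β q.1 + F s γ q.2 -
      κ * ((q.2.1 0 - q.1.1 n) * cl (q.2.1 0 - q.1.1 n)) + δ := by
    intro q
    have h3 := F_psi β γ hβ hγ hΛ hΛ0 hκ.le q (s := s)
    rw [hn] at h3
    simp only [Nat.add_sub_cancel] at h3
    linarith
  have hlen : (β ++ γ).length = n + 1 + (m + 1) := by rw [List.length_append, hn, hm]
  have hlen1 : (β ++ γ).length - 1 = n + 1 + m := by rw [hlen]; omega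
  rw [hlen1]
  refine ⟨push (psi s κ (n + 1)) (sh z w), ?_, ?_, ?_⟩
  · have h3 : SuppIn (fun t : List (Pt × Pt) => t.length = n + 1 + (m + 1) + 1 ∧
        (∀ q ∈ t, ∀ q' ∈ t, Near ε' q.1 q'.1 ∧ Near ε' q.2 q'.2) ∧
        ∀ q ∈ t, F s β q.1 ≤ a ∧ F s γ q.2 ≤ b ∧ Bdd Kβ q.1 ∧ Bdd Kγ q.2) (sh z w) := by
      refine SuppIn.sh hz1 hw1 ?_
      rintro l l' ⟨h3, h4, h5⟩ ⟨h6, h7, h8⟩ t ht1 ht
      refine ⟨by omega, fun q hq q' hq' => ⟨h4.2 _ (ht q hq).1 _ (ht q' hq').1,
        h7.2 _ (ht q hq).2 _ (ht q' hq').2⟩, fun q hq => ⟨h5 _ (ht q hq).1, h8 _ (ht q hq).2,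
        h4.1 _ (ht q hq).1, h7.1 _ (ht q hq).2⟩⟩
    refine h3.push _ ?_
    rintro t ⟨ht1, ht2, ht3⟩
    refine ⟨by rw [List.length_map, ht1, hlen], ⟨?_, ?_⟩, ?_⟩
    · intro x hx
      obtain ⟨q, hq, rfl⟩ := List.mem_map.mp hx
      refine psi_bdd hκ.le (ht3 q hq).2.2.1 (ht3 q hq).2.2.2 ?_ ?_ ?_
      · simp only [K]; linarith [le_abs_self Kβ, abs_nonneg Kγ, abs_nonneg s]
      · simp only [K]; linarith [le_abs_self Kγ, abs_nonneg Kβ, abs_nonneg s]
      · simp only [K]; linarith [abs_nonneg Kγ, abs_nonneg Kβ]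
    · intro x hx y hy
      obtain ⟨q, hq, rfl⟩ := List.mem_map.mp hx
      obtain ⟨q', hq', rfl⟩ := List.mem_map.mp hy
      exact psi_near hκ.le (ht2 q hq q' hq').1 (ht2 q hq q' hq').2 hε'ε hε'κ
    · intro x hx
      obtain ⟨q, hq, rfl⟩ := List.mem_map.mp hx
      have h4 := hF q
      have h5 := ht3 q hq
      have h6 := mul_nonneg hκ.le (cl_mul (q.2.1 0 - q.1.1 n))
      linarith [h5.1, h5.2.1]
  · rw [bd_push]
    refine hsb.push _ ?_
    rintro t ⟨ht1, ht2, ht3⟩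
    rcases ht3 with h | h | h | h | h | h
    · left
      intro x hx
      obtain ⟨q, hq, rfl⟩ := List.mem_map.mp hx
      have h4 := hF q
      have h6 := mul_nonneg hκ.le (cl_mul (q.2.1 0 - q.1.1 n))
      linarith [h q hq, (ht2 q hq).2.1]
    · left
      intro x hx
      obtain ⟨q, hq, rfl⟩ := List.mem_map.mp hx
      have h4 := hF q
      have h5 := h q hq
      have h7 := (abs_le.mp ((ht2 q hq).2.2 0).1).2
      have h6 : κ * (R₁ - Kγ - 1) ≤ κ * ((q.2.1 0 - q.1.1 n) * cl (q.2.1 0 - q.1.1 n)) := by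
        apply mul_le_mul_of_nonneg_left _ hκ.le
        have h8 := cl_mul' (q.2.1 0 - q.1.1 n)
        have h9 := neg_le_abs (q.2.1 0 - q.1.1 n)
        linarith
      linarith [(ht2 q hq).1, (ht2 q hq).2.1]
    · left
      intro x hx
      obtain ⟨q, hq, rfl⟩ := List.mem_map.mp hx
      have h4 := hF q
      have h5 := h q hq
      have h7 := (abs_le.mp ((ht2 q hq).2.2 0).1).1
      have h6 : κ * (R₁ - Kγ - 1) ≤ κ * ((q.2.1 0 - q.1.1 n) * cl (q.2.1 0 - q.1.1 n)) := by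
        apply mul_le_mul_of_nonneg_left _ hκ.le
        have h8 := cl_mul' (q.2.1 0 - q.1.1 n)
        have h9 := le_abs_self (q.2.1 0 - q.1.1 n)
        linarith
      linarith [(ht2 q hq).1, (ht2 q hq).2.1]
    · left
      intro x hx
      obtain ⟨q, hq, rfl⟩ := List.mem_map.mp hx
      have h4 := hF q
      have h6 := mul_nonneg hκ.le (cl_mul (q.2.1 0 - q.1.1 n))
      linarith [h q hq, (ht2 q hq).1]
    · right; left
      intro x hx
      obtain ⟨q, hq, rfl⟩ := List.mem_map.mp hx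
      rw [psi_1_add]
      linarith [h q hq]
    · right; right
      intro x hx
      obtain ⟨q, hq, rfl⟩ := List.mem_map.mp hx
      rw [psi_1_add]
      linarith [h q hq]
  · rw [ev_push]
    simp_rw [E_map]
    rw [us_psi]
    have e1 : ev (E (((vs s n).map fun h => h ∘ Prod.fst) ++
        (fun q : Pt × Pt => neg1 ((q.2.1 0 - q.1.1 n) + κ * cl (q.2.1 0 - q.1.1 n))) ::
        ((us s m).map fun h => h ∘ Prod.snd))) (sh z w) =
        ev (E (((vs s n).map fun h => h ∘ Prod.fst) ++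
        (fun q : Pt × Pt => neg1 (q.1.1 n) + 1) ::
        ((us s m).map fun h => h ∘ Prod.snd))) (sh z w) := by
      refine E_change _ _ _ _ _ _ hsb ?_
      rintro l₁ l₂ x ⟨ht1, ht2, ht3⟩ hE1 hE2
      have hx : x ∈ l₁ ++ x :: l₂ := by simp
      have hm1 : ∀ y ∈ l₁ ++ [x], y ∈ l₁ ++ x :: l₂ := by
        intro y hy
        simp only [List.mem_append, List.mem_cons, List.not_mem_nil, or_false] at hy ⊢
        tauto
      have hm2 : ∀ y ∈ x :: l₂, y ∈ l₁ ++ x :: l₂ := by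
        intro y hy
        simp only [List.mem_append, List.mem_cons] at hy ⊢
        tauto
      rw [← E_map] at hE1 hE2
      rw [neg1_cl hκ.le]
      have h7 := abs_le.mp ((ht2 x hx).2.2 0).1
      rcases ht3 with h | h | h | h | h | h
      · exfalso
        have h3 := hCβ ((l₁ ++ [x]).map Prod.fst) ε' hε'1 (by
          intro y hy y' hy'
          obtain ⟨q, hq, rfl⟩ := List.mem_map.mp hy
          obtain ⟨q', hq', rfl⟩ := List.mem_map.mp hy'
          exact (ht1 q (hm1 q hq) q' (hm1 q' hq')).1) (by rwa [hn]) x.1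
          (List.mem_map.mpr ⟨x, by simp, rfl⟩)
        linarith [h x hx]
      · have h3 := h x hx
        unfold neg1
        rw [if_pos (by linarith), if_neg (by linarith), zero_add]
      · have h3 := h x hx
        unfold neg1
        rw [if_neg (by linarith), if_pos (by linarith)]
        decide
      · exfalso
        obtain ⟨y, hy, h3⟩ := exists_lower (l := (x :: l₂).map Prod.snd) hCγ hε'1 (by
          intro y hy y' hy'
          obtain ⟨q, hq, rfl⟩ := List.mem_map.mp hy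
          obtain ⟨q', hq', rfl⟩ := List.mem_map.mp hy'
          exact (ht1 q (hm2 q hq) q' (hm2 q' hq')).2) (by rwa [hm])
        obtain ⟨q, hq, rfl⟩ := List.mem_map.mp hy
        linarith [h q (hm2 q hq)]
      · exfalso
        apply hE2
        refine us_zero (R := R') (by linarith) (Or.inl fun y hy => ?_)
        obtain ⟨q, hq, rfl⟩ := List.mem_map.mp hy
        exact h q (hm2 q hq)
      · exfalso
        apply hE2
        refine us_zero (R := R') (by linarith) (Or.inr fun y hy => ?_)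
        obtain ⟨q, hq, rfl⟩ := List.mem_map.mp hy
        exact h q (hm2 q hq)
    have e2 : ((vs s n).map fun h => h ∘ Prod.fst) ++
        (fun q : Pt × Pt => neg1 (q.1.1 n)) :: ((us s m).map fun h => h ∘ Prod.snd) =
        ((us s n).map fun h => h ∘ Prod.fst) ++ ((us s m).map fun h => h ∘ Prod.snd) := by
      unfold us
      simp only [List.map_append, List.map_cons, List.map_nil, List.append_assoc,
        List.cons_append, List.nil_append]
      rfl
    have e3 : (fun l => E (((vs s n).map fun h => h ∘ Prod.fst) ++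
        (fun q : Pt × Pt => neg1 (q.1.1 n) + 1) ::
        ((us s m).map fun h => h ∘ Prod.snd)) l) = fun l =>
        E (((us s n).map fun h => h ∘ Prod.fst) ++ ((us s m).map fun h => h ∘ Prod.snd)) l := by
      funext l
      rw [E_change_const, e2]
    have e4 := E_sh (us s n) (us s m) z w
    rw [hz3, hw3, one_mul] at e4
    rw [← e4]
    refine Eq.trans e1 ?_
    exact congrArg (fun c => ev c (sh z w)) e3

end Pool.Agent.Helper31.AP
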