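import Pool.Agent.Helper31.AP.Defs

/-! Module A4: duality over the field `ZMod 2` -/

set_option autoImplicit false

namespace Pool.Agent.Helper31.AP

open Finset

variable {X : Type*}

/-- If the cochain `c` vanishes on all chains in `P` whose boundary is in `Q`, then on lists in `P`
it is the coboundary of a cochain vanishing on `Q`. -/
theorem duality (P Q : List X → Prop) (c : List X → ZMod 2)
    (h : ∀ z : Ch X, SuppIn P z → SuppIn Q (bd z) → ev c z = 0) :
    ∃ η : List X → ZMod 2, (∀ l, Q l → η l = 0) ∧ ∀ l, P l → c l = cob η l := by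
  classical
  let SP : Submodule (ZMod 2) (Ch X) := Finsupp.supported (ZMod 2) (ZMod 2) {l | P l}
  let SQ : Submodule (ZMod 2) (Ch X) := Finsupp.supported (ZMod 2) (ZMod 2) {l | Q l}
  let φ : SP →ₗ[ZMod 2] (Ch X ⧸ SQ) := SQ.mkQ ∘ₗ bd ∘ₗ SP.subtype
  let V : Module.Dual (ZMod 2) SP := (ev c) ∘ₗ SP.subtype
  have hV : V ∈ (LinearMap.ker φ).dualAnnihilator := by
    rw [Submodule.mem_dualAnnihilator]
    intro z hz
    rw [LinearMap.mem_ker] at hz
    have h1 : bd (z : Ch X) ∈ SQ := by
      have : SQ.mkQ (bd (z : Ch X)) = 0 := hz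
      rwa [Submodule.mkQ_apply, Submodule.Quotient.mk_eq_zero] at this
    exact h z (fun l hl => z.2 hl) (fun l hl => h1 hl)
  rw [← LinearMap.range_dualMap_eq_dualAnnihilator_ker] at hV
  obtain ⟨ψ, hψ⟩ := hV
  have hlin : ∀ z : Ch X, ev (fun l => ψ (SQ.mkQ (Finsupp.single l 1))) z = ψ (SQ.mkQ z) := by
    intro z
    have : ev (fun l => ψ (SQ.mkQ (Finsupp.single l 1))) = ψ ∘ₗ SQ.mkQ := by
      apply Finsupp.lhom_ext
      intro l a
      simp only [ev, Finsupp.linearCombination_single, LinearMap.comp_apply]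
      rw [← LinearMap.map_smul, ← LinearMap.map_smul]
      simp
    rw [this]; rfl
  refine ⟨fun l => ψ (SQ.mkQ (Finsupp.single l 1)), ?_, ?_⟩
  · intro l hl
    have : (Finsupp.single l 1 : Ch X) ∈ SQ := Finsupp.single_mem_supported _ _ hl
    have h2 : SQ.mkQ (Finsupp.single l 1) = 0 := by
      rw [Submodule.mkQ_apply, Submodule.Quotient.mk_eq_zero]; exact this
    simp only [h2, map_zero]
  · intro l hl
    have hm : (Finsupp.single l 1 : Ch X) ∈ SP := Finsupp.single_mem_supported _ _ hl
    have h3 := congrArg (fun f => f ⟨Finsupp.single l 1, hm⟩) hψ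
    simp only [LinearMap.dualMap_apply] at h3
    have h4 : V ⟨Finsupp.single l 1, hm⟩ = c l := by
      change ev c (Finsupp.single l 1) = c l
      simp [ev]
    rw [← h4, ← h3]
    unfold cob
    rw [hlin]
    change ψ (SQ.mkQ (bd (Finsupp.single l 1))) = _
    simp [bd]

end Pool.Agent.Helper31.AP
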