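import Pool.Agent.Helper31.AP.FBasic
import Pool.Agent.Helper31.AP.Dual

/-! Module B5: superadditivity of the bottom level -/

set_option autoImplicit false

namespace Pool.Agent.Helper31.AP

open Finset

variable {p : ℝ}

namespace SupAdd

section chains

variable {X Y : Type*}

theorem cob_nil (c : List X → ZMod 2) : cob c [] = 0 := by
  simp [cob, bdL]

theorem ev_consM (c : List X → ZMod 2) (a : X) (z : Ch X) :
    ev c (consM a z) = ev (fun l => c (a :: l)) z := by
  simp only [ev, consM, Finsupp.lmapDomain_apply]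
  rw [Finsupp.linearCombination_mapDomain]
  rfl

theorem cob_cons (c : List X → ZMod 2) (a : X) (l : List X) :
    cob c (a :: l) = c l + cob (fun l' => c (a :: l')) l := by
  simp only [cob, bdL, map_add, ev_single, ev_consM]

theorem cob_map (f : X → Y) (c : List Y → ZMod 2) (l : List X) :
    cob (fun l => c (l.map f)) l = cob c (l.map f) := by
  induction l generalizing c with
  | nil => simp [cob_nil]
  | cons a l ih =>
    rw [cob_cons, List.map_cons, cob_cons, ← ih]
    rfl

theorem cob_single (c : List X → ZMod 2) (x : X) : cob c [x] = c [] := by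
  rw [cob_cons, cob_nil, add_zero]

theorem E_singleton (k : X → ZMod 2) (l : List X) (h : E [k] l ≠ 0) :
    ∃ a b, l = [a, b] ∧ k a ≠ k b := by
  have hl := E_length _ _ h
  match l, hl with
  | [a, b], _ =>
    refine ⟨a, b, rfl, ?_⟩
    intro hab
    apply h
    simp only [E, hab, mul_one]
    exact CharTwo.add_self_eq_zero _

/-- the right cut -/
theorem ev_cup_right (hs : List (X → ZMod 2)) (η : List X → ZMod 2) (h0 : η [] = 0) (z : Ch X)
    (m : ℕ) (hz : SuppIn (fun l => l.length = hs.length + 1 + m) z) (P : List X → Prop)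
    (hb : SuppIn P (bd z)) (hP : ∀ l, P l → cup hs.length (E hs) η l = 0) :
    ev (cup hs.length (E hs) (cob η)) z = 0 := by
  rcases Nat.eq_zero_or_pos m with rfl | hm
  · refine ev_eq_zero hz ?_
    intro l hl
    simp only [cup]
    have h1 : (l.drop hs.length).length = 1 := by
      rw [List.length_drop]; omega
    obtain ⟨x, hx⟩ := List.length_eq_one_iff.mp h1
    rw [hx, cob_single, h0, mul_zero]
  · rw [stokes_right hs η z (hz.mono (by intro l hl; omega))]
    exact ev_eq_zero hb hP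

/-- the left cut -/
theorem ev_cup_left (n : ℕ) (η u : List X → ZMod 2) (h0 : η [] = 0) (hu : ∀ l, cob u l = 0)
    (z : Ch X) (hz : SuppIn (fun l => n + 1 ≤ l.length) z) (P : List X → Prop)
    (hb : SuppIn P (bd z)) (hP : 1 ≤ n → ∀ l, P l → cup (n - 1) η u l = 0) :
    ev (cup n (cob η) u) z = 0 := by
  rcases n with _ | n
  · refine ev_eq_zero hz ?_
    intro l hl
    simp only [cup]
    have h1 : (l.take (0 + 1)).length = 1 := by
      rw [List.length_take]; omega
    obtain ⟨x, hx⟩ := List.length_eq_one_iff.mp h1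
    rw [hx, cob_single, h0, zero_mul]
  · rw [stokes_left n η u hu z (hz.mono (by intro l hl; omega))]
    exact ev_eq_zero hb (hP (by omega))

theorem cob_cup_one (k : X → ZMod 2) (u : List X → ZMod 2) (hu : ∀ l, cob u l = 0) (l : List X) :
    cob (cup 1 (E [k]) u) l = 0 := by
  rcases Nat.lt_or_ge l.length 3 with hl | hl
  · have hz : ∀ l : List X, l.length ≤ 1 → cup 1 (E [k]) u l = 0 := by
      intro l hl
      simp only [cup]
      have : E [k] (l.take (1 + 1)) = 0 := by
        by_contra h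
        have := E_length _ _ h
        rw [List.length_take] at this
        simp only [List.length_cons, List.length_nil] at this
        omega
      rw [this, zero_mul]
    refine ev_eq_zero (bdL_supp l) ?_
    intro l' hl'
    exact hz l' (by omega)
  · rw [cob_cup 1 _ _ l hl]
    have e1 : cup (1 + 1) (cob (E [k])) u l = 0 := by
      simp only [cup, cob_E, zero_mul]
    have e2 : cup 1 (E [k]) (cob u) l = 0 := by
      simp only [cup, hu, mul_zero]
    rw [e1, e2, add_zero]

theorem cup_assoc (n : ℕ) (c : List X → ZMod 2) (k : X → ZMod 2) (u : List X → ZMod 2)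
    (l : List X) :
    cup (n + 1) (cup n c (E [k])) u l = cup n c (cup 1 (E [k]) u) l := by
  simp only [cup]
  rw [List.take_take, List.drop_take, List.drop_drop]
  have e1 : min (n + 1) (n + 1 + 1) = n + 1 := by omega
  have e2 : n + 1 + 1 - n = 1 + 1 := by omega
  rw [e1, e2, mul_assoc]

theorem zmod2_eq_zero {a : ZMod 2} (h : a ≠ 1) : a = 0 := by
  revert a; decide

end chains

/-- `y - κ clamp d` -/
noncomputable def kk (s κ : ℝ) (n : ℕ) (x : Pt) : ℝ :=
  (x.2 (n + 1) - s) - κ * max (-1) (min 1 (x.1 (n + 1) - x.1 n))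

theorem clamp_lip (a b : ℝ) : |max (-1) (min 1 a) - max (-1) (min 1 b)| ≤ |a - b| := by
  calc |max (-1) (min 1 a) - max (-1) (min 1 b)| ≤ |min 1 a - min 1 b| := by
        rw [max_comm (-1) (min 1 a), max_comm (-1) (min 1 b)]
        exact abs_max_sub_max_le_abs _ _ _
    _ ≤ |a - b| := by
        rw [abs_le]
        have h := abs_nonneg (a - b)
        have h1 := le_abs_self (a - b)
        have h2 := neg_abs_le (a - b)
        constructor
        · rcases le_total 1 a with ha | ha <;> rcases le_total 1 b with hb | hb <;>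
            simp only [min_eq_left, min_eq_right, ha, hb] <;> linarith
        · rcases le_total 1 a with ha | ha <;> rcases le_total 1 b with hb | hb <;>
            simp only [min_eq_left, min_eq_right, ha, hb] <;> linarith

theorem clamp_abs (a : ℝ) : |max (-1) (min 1 a)| ≤ 1 := by
  rw [abs_le]
  constructor
  · exact le_max_left _ _
  · exact max_le (by norm_num) (min_le_left _ _)

theorem clamp_mul_nonneg (a : ℝ) : 0 ≤ max (-1) (min 1 a) * a := by
  rcases le_total 0 a with h | h
  · apply mul_nonneg _ h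
    exact le_max_of_le_right (le_min (by norm_num) h)
  · apply mul_nonneg_of_nonpos_of_nonpos _ h
    exact max_le (by norm_num) ((min_le_right _ _).trans h)

theorem kk_change {s κ : ℝ} (h0 : 0 ≤ κ) (h1 : κ ≤ 1) (n : ℕ) (x : Pt)
    (h : neg1 (vv s n x) ≠ neg1 (kk s κ n x) + 1) :
    0 ≤ (x.2 (n + 1) - s) * (x.1 (n + 1) - x.1 n) := by
  unfold neg1 vv kk at h
  set y := x.2 (n + 1) - s
  set d := x.1 (n + 1) - x.1 n
  have h11 : (1 : ZMod 2) + 1 = 0 := by decide
  rcases le_total 0 d with hd | hd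
  · by_cases hy : 0 ≤ y
    · exact mul_nonneg hy hd
    · exfalso
      push Not at hy
      have e1 : ¬ (d - y < 0) := by linarith
      have e2 : y - κ * max (-1) (min 1 d) < 0 := by
        have : 0 ≤ max (-1) (min 1 d) := le_max_of_le_right (le_min (by norm_num) hd)
        nlinarith
      rw [if_neg e1, if_pos e2, h11] at h
      exact h rfl
  · by_cases hy : y ≤ 0
    · exact mul_nonneg_of_nonpos_of_nonpos hy hd
    · exfalso
      push Not at hy
      have e1 : d - y < 0 := by linarith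
      have e2 : ¬ (y - κ * max (-1) (min 1 d) < 0) := by
        have : max (-1) (min 1 d) ≤ 0 := max_le (by norm_num) ((min_le_right _ _).trans hd)
        nlinarith
      rw [if_pos e1, if_neg e2, zero_add] at h
      exact h rfl

theorem kk_small {s κ ε : ℝ} (h0 : 0 ≤ κ) (h1 : κ ≤ 1) (n : ℕ) (l : List Pt)
    (hl : ∀ x ∈ l, ∀ y ∈ l, Near ε x y) (a b : Pt) (ha : a ∈ l) (hb : b ∈ l)
    (h : neg1 (kk s κ n a) ≠ neg1 (kk s κ n b)) (x : Pt) (hx : x ∈ l) :
    |kk s κ n x| ≤ 6 * ε := by
  have key : ∀ x ∈ l, ∀ y ∈ l, |kk s κ n x - kk s κ n y| ≤ 3 * ε := by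
    intro x hx y hy
    have hn := hl x hx y hy
    have n1 := (hn (n + 1)).1
    have n2 := (hn n).1
    have n3 := (hn (n + 1)).2
    have hc := clamp_lip (x.1 (n + 1) - x.1 n) (y.1 (n + 1) - y.1 n)
    have hd : |(x.1 (n + 1) - x.1 n) - (y.1 (n + 1) - y.1 n)| ≤ 2 * ε := by
      rw [abs_le] at *
      constructor <;> linarith [n1.1, n1.2, n2.1, n2.2]
    have hc' := hc.trans hd
    unfold kk
    generalize max (-1) (min 1 (x.1 (n + 1) - x.1 n)) = A at *
    generalize max (-1) (min 1 (y.1 (n + 1) - y.1 n)) = B at *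
    have : |κ * A - κ * B| ≤ 2 * ε := by
      rw [← mul_sub, abs_mul, abs_of_nonneg h0]
      nlinarith [abs_nonneg (A - B)]
    rw [abs_le] at *
    constructor <;> linarith [this.1, this.2, n3.1, n3.2]
  have hab := abs_le_of_neg1_ne h (key a ha b hb)
  have hxa := key x hx a ha
  have h3 := hab.1
  rw [abs_le] at *
  constructor <;> linarith [hxa.1, hxa.2, h3.1, h3.2]

theorem kk_yd {s κ e K : ℝ} (h0 : 0 ≤ κ) (n : ℕ) (x : Pt) (hK : Bdd K x)
    (h : |kk s κ n x| ≤ e) :
    -(2 * K * e) ≤ (x.2 (n + 1) - s) * (x.1 (n + 1) - x.1 n) ∧ |x.2 (n + 1) - s| ≤ κ + e := by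
  unfold kk at h
  have hA1 := clamp_mul_nonneg (x.1 (n + 1) - x.1 n)
  have hA2 := clamp_abs (x.1 (n + 1) - x.1 n)
  have hd : |x.1 (n + 1) - x.1 n| ≤ 2 * K := by
    have n1 := (hK (n + 1)).1
    have n2 := (hK n).1
    rw [abs_le] at *
    constructor <;> linarith [n1.1, n1.2, n2.1, n2.2]
  generalize max (-1) (min 1 (x.1 (n + 1) - x.1 n)) = A at *
  generalize x.1 (n + 1) - x.1 n = d at *
  generalize x.2 (n + 1) - s = y at *
  constructor
  · have e1 : y * d = (y - κ * A) * d + κ * (A * d) := by ring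
    have e2 : |(y - κ * A) * d| ≤ 2 * K * e := by
      rw [abs_mul]
      have := abs_nonneg d
      have := abs_nonneg (y - κ * A)
      nlinarith
    have e3 : 0 ≤ κ * (A * d) := mul_nonneg h0 hA1
    rw [e1]
    have := (abs_le.mp e2).1
    linarith
  · have e1 : |κ * A| ≤ κ := by
      rw [abs_mul, abs_of_nonneg h0]
      nlinarith [abs_nonneg A]
    rw [abs_le] at *
    constructor <;> linarith [h.1, h.2, e1.1, e1.2]

theorem bdd_shift {K : ℝ} {x : Pt} (h : Bdd K x) (k : ℕ) : Bdd K (shiftPt k x) :=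
  fun i => h (k + i)

theorem near_shift {ε : ℝ} {x y : Pt} (h : Near ε x y) (k : ℕ) :
    Near ε (shiftPt k x) (shiftPt k y) :=
  fun i => h (k + i)

theorem sm_shift {ε K : ℝ} {l : List Pt} (h : Sm ε K l) (k : ℕ) :
    Sm ε K (l.map (shiftPt k)) := by
  constructor
  · intro x hx
    obtain ⟨x', hx', rfl⟩ := List.mem_map.mp hx
    exact bdd_shift (h.1 x' hx') k
  · intro x hx y hy
    obtain ⟨x', hx', rfl⟩ := List.mem_map.mp hx
    obtain ⟨y', hy', rfl⟩ := List.mem_map.mp hy
    exact near_shift (h.2 x' hx' y' hy') k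

theorem sm_subset {ε K : ℝ} {l l' : List Pt} (h : Sm ε K l) (hl : ∀ x ∈ l', x ∈ l) :
    Sm ε K l' :=
  ⟨fun x hx => h.1 x (hl x hx), fun x hx y hy => h.2 x (hl x hx) y (hl y hy)⟩

end SupAdd

open SupAdd in
theorem essB_append (s : ℝ) (β γ : List (GF p)) (hβ : β ≠ []) (hγ : γ ≠ []) (a b c : ℝ)
    (h : EssB s (β ++ γ) c) (h1 : ¬ EssB s β a) (h2 : ¬ EssB s γ b) : a + b ≤ c := by
  classical
  by_contra hc
  push Not at hc
  obtain ⟨n, hn⟩ : ∃ n, β.length = n + 1 :=
    ⟨β.length - 1, by have := List.length_pos_of_ne_nil hβ; omega⟩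
  obtain ⟨m, hm⟩ : ∃ m, γ.length = m + 1 :=
    ⟨γ.length - 1, by have := List.length_pos_of_ne_nil hγ; omega⟩
  have hN : (β ++ γ).length = n + m + 2 := by rw [List.length_append]; omega
  have hn1 : β.length - 1 = n := by omega
  have hm1 : γ.length - 1 = m := by omega
  have hN1 : (β ++ γ).length - 1 = n + 1 + m := by omega
  unfold EssB at h1 h2
  push Not at h1 h2
  obtain ⟨Cβ, h1⟩ := h1
  obtain ⟨Cγ, h2⟩ := h2
  obtain ⟨C0β, hC0β, hFβ⟩ := F_lower s β
  obtain ⟨C0γ, hC0γ, hFγ⟩ := F_lower s γ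
  rw [hn1] at hFβ h1
  rw [hm1] at hFγ h2
  obtain ⟨Lg, hLg0, hLg⟩ := (γ.getD 0 default).lipW
  have hM0 := (γ.getD 0 default).M_nonneg
  have hbW := (γ.getD 0 default).bW
  set M := (γ.getD 0 default).M with hM
  set δ := a + b - c with hδ
  have hδ0 : 0 < δ := by rw [hδ]; linarith
  obtain ⟨κ, hκ0, hκ1, hκ⟩ : ∃ κ : ℝ, 0 < κ ∧ κ ≤ 1 ∧ Lg * κ ≤ δ / 8 := by
    refine ⟨min 1 (δ / (8 * (Lg + 1))), ?_, min_le_left _ _, ?_⟩
    · apply lt_min one_pos
      positivity
    · have h3 : min 1 (δ / (8 * (Lg + 1))) ≤ δ / (8 * (Lg + 1)) := min_le_right _ _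
      calc Lg * min 1 (δ / (8 * (Lg + 1))) ≤ (Lg + 1) * (δ / (8 * (Lg + 1))) := by
            apply mul_le_mul (by linarith) h3 (by positivity) (by positivity)
        _ = δ / 8 := by field_simp
  obtain ⟨K, hK⟩ := h (|Cβ| + |Cγ| + C0β + C0γ + 2 * M + |a| + |b| + 10)
  set C := |Cβ| + |Cγ| + C0β + C0γ + 2 * M + |a| + |b| + 10 with hC
  obtain ⟨εβ, hεβ, h1⟩ := h1 K
  obtain ⟨εγ, hεγ, h2⟩ := h2 K
  obtain ⟨Λβ, hΛβ0, hΛβ⟩ := F_lip s β K
  obtain ⟨Λγ, hΛγ0, hΛγ⟩ := F_lip s γ K
  obtain ⟨ε, hε0, hε1, hε2, hε3, hε4, hε5, hε6⟩ : ∃ ε : ℝ, 0 < ε ∧ ε ≤ εβ ∧ ε ≤ εγ ∧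
      ε ≤ min 1 (δ / 8) ∧ Λβ * ε ≤ min 1 (δ / 8) ∧ 12 * |K| * ε ≤ min 1 (δ / 8) ∧
      6 * Lg * ε ≤ min 1 (δ / 8) := by
    set e := min 1 (δ / 8) with he
    have he0 : 0 < e := lt_min one_pos (by positivity)
    have hKa := abs_nonneg K
    set D := Λβ + 12 * |K| + 6 * Lg + 1 with hD
    have hD1 : 1 ≤ D := by rw [hD]; nlinarith
    have hD0 : 0 < D := by linarith
    have hmin : min (min εβ εγ) (e / D) ≤ e / D := min_le_right _ _
    have hpos : 0 < min (min εβ εγ) (e / D) := lt_min (lt_min hεβ hεγ) (by positivity)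
    have hmul : ∀ t : ℝ, 0 ≤ t → t ≤ D → t * min (min εβ εγ) (e / D) ≤ e := by
      intro t ht htD
      calc t * min (min εβ εγ) (e / D) ≤ D * (e / D) :=
            mul_le_mul htD hmin hpos.le hD0.le
        _ = e := by field_simp
    refine ⟨min (min εβ εγ) (e / D), hpos, (min_le_left _ _).trans (min_le_left _ _),
      (min_le_left _ _).trans (min_le_right _ _), ?_, ?_, ?_, ?_⟩
    · have := hmul 1 (by norm_num) hD1
      linarith
    · exact hmul _ hΛβ0 (by rw [hD]; nlinarith)
    · exact hmul _ (by positivity) (by rw [hD]; nlinarith)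
    · exact hmul _ (by positivity) (by rw [hD]; nlinarith)
  have hmin1 : min 1 (δ / 8) ≤ 1 := min_le_left _ _
  have hmin8 : min 1 (δ / 8) ≤ δ / 8 := min_le_right _ _
  have hεle1 : ε ≤ 1 := hε3.trans hmin1
  obtain ⟨z, hz1, hz2, hz3⟩ := hK ε hε0
  -- dual cochains
  obtain ⟨ηβ, hηβ0, hηβ⟩ := duality
    (fun l : List Pt => l.length = β.length ∧ Sm εβ K l ∧ ∀ x ∈ l, F s β x ≤ a)
    (fun l : List Pt => ∀ x ∈ l, F s β x ≤ -Cβ) (E (vs s n))
    (fun w hw hw' => zmod2_eq_zero (h1 w hw hw'))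
  obtain ⟨ηγ, hηγ0, hηγ⟩ := duality
    (fun l : List Pt => l.length = γ.length ∧ Sm εγ K l ∧ ∀ x ∈ l, F s γ x ≤ b)
    (fun l : List Pt => ∀ x ∈ l, F s γ x ≤ -Cγ) (E (vs s m))
    (fun w hw hw' => zmod2_eq_zero (h2 w hw hw'))
  -- support of the boundary
  have hbd : SuppIn (fun l : List Pt => l.length = n + m + 1 ∧ Sm ε K l ∧
      ∀ x ∈ l, F s (β ++ γ) x ≤ -C) (bd z) := by
    have hA : SuppIn (fun l : List Pt => l.length = n + m + 1 ∧ Sm ε K l) (bd z) := by
      refine SuppIn.lin hz1 bdL ?_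
      intro l hl
      refine (bdL_supp l).mono ?_
      intro l' hl'
      refine ⟨?_, sm_subset hl.2.1 hl'.2⟩
      have := hl'.1
      rw [hl.1, hN] at this
      omega
    intro l hl
    exact ⟨(hA l hl).1, (hA l hl).2, hz2 l hl⟩
  -- the splitting of F
  have hF : ∀ x : Pt, F s (β ++ γ) x = F s β x +
      (x.2 (n + 1) - s) * (x.1 (n + 1) - x.1 n) + F s γ (shiftPt (n + 1) x) +
      ((γ.getD 0 default).W (x.1 (n + 1)) (x.2 (n + 1)) -
        (γ.getD 0 default).W (x.1 (n + 1)) s) := by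
    intro x
    have := F_append s β γ hβ hγ x
    rw [hn] at this
    exact this
  have hg1 : ∀ x : Pt, |(γ.getD 0 default).W (x.1 (n + 1)) (x.2 (n + 1)) -
        (γ.getD 0 default).W (x.1 (n + 1)) s| ≤ 2 * M := by
    intro x
    have e1 := hbW (x.1 (n + 1)) (x.2 (n + 1))
    have e2 := hbW (x.1 (n + 1)) s
    rw [abs_le] at *
    constructor <;> linarith [e1.1, e1.2, e2.1, e2.2]
  have hg2 : ∀ x : Pt, |(γ.getD 0 default).W (x.1 (n + 1)) (x.2 (n + 1)) -
        (γ.getD 0 default).W (x.1 (n + 1)) s| ≤ Lg * |x.2 (n + 1) - s| := by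
    intro x
    have := hLg (x.1 (n + 1)) s (x.1 (n + 1)) (x.2 (n + 1))
    rw [sub_self, abs_zero, zero_add] at this
    exact this
  set gg : Pt → ℝ := fun x => (γ.getD 0 default).W (x.1 (n + 1)) (x.2 (n + 1)) -
        (γ.getD 0 default).W (x.1 (n + 1)) s with hgg
  set k : Pt → ZMod 2 := fun x => neg1 (kk s κ n x) with hk
  set H₂ : List (Pt → ZMod 2) := (vs s m).map fun h => h ∘ shiftPt (n + 1) with hH₂
  have hEH₂ : ∀ l, E H₂ l = E (vs s m) (l.map (shiftPt (n + 1))) := by
    intro l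
    rw [E_map]
  -- Step 1: replace the middle cut
  have s1 : ev (E (vs s n ++ k :: H₂)) z = 1 := by
    have e1 : vs s ((β ++ γ).length - 1) = vs s n ++ (fun x => neg1 (vv s n x)) :: H₂ := by
      rw [hN1, vs_append]
    rw [e1] at hz3
    rw [← hz3]
    have e2 : ev (E (vs s n ++ (fun x => neg1 (vv s n x)) :: H₂)) z =
        ev (E (vs s n ++ (fun x => k x + 1) :: H₂)) z := by
      refine E_change (vs s n) H₂ _ _ z _ hbd ?_
      intro l₁ l₂ x hP hE1 hE2
      by_contra hne
      have hyd := kk_change hκ0.le hκ1 n x hne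
      have hxm : x ∈ l₁ ++ x :: l₂ := by simp
      have hFx := hP.2.2 x hxm
      have hsm1 : Sm ε K (l₁ ++ [x]) := sm_subset hP.2.1 (by
        intro y hy
        rw [List.mem_append] at hy ⊢
        rcases hy with hy | hy
        · exact Or.inl hy
        · right
          rw [List.mem_singleton] at hy
          rw [hy]; simp)
      have hsm2 : Sm ε K ((x :: l₂).map (shiftPt (n + 1))) := by
        apply sm_shift
        refine sm_subset hP.2.1 ?_
        intro y hy
        rw [List.mem_append]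
        exact Or.inr hy
      have f1 := hFβ (l₁ ++ [x]) ε hεle1 hsm1.2 hE1 x (by simp)
      rw [hEH₂] at hE2
      have f2 := hFγ _ ε hεle1 hsm2.2 hE2 (shiftPt (n + 1) x) (by simp)
      have f3 := (abs_le.mp (hg1 x)).1
      rw [hF x] at hFx
      have := abs_nonneg Cβ
      have := abs_nonneg Cγ
      have := abs_nonneg a
      have := abs_nonneg b
      linarith
    rw [e2]
    refine ev_congr hz1 ?_
    intro l _
    exact (E_change_const (vs s n) H₂ k 1 l).symm
  -- general facts on lists on which `k` jumps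
  have hjump : ∀ l : List Pt, Sm ε K l → (∃ x ∈ l, ∃ y ∈ l, k x ≠ k y) → ∀ x ∈ l,
      -(min 1 (δ / 8)) ≤ (x.2 (n + 1) - s) * (x.1 (n + 1) - x.1 n) ∧ |gg x| ≤ δ / 4 := by
    intro l hl ⟨u, hu, v, hv, huv⟩ x hx
    have e1 := kk_small hκ0.le hκ1 n l hl.2 u v hu hv huv x hx
    have hKK : Bdd |K| x := (hl.1 x hx).mono (le_abs_self K)
    have e2 := kk_yd hκ0.le n x hKK e1
    constructor
    · have : 2 * |K| * (6 * ε) = 12 * |K| * ε := by ring
      rw [this] at e2
      linarith [e2.1]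
    · have e3 := hg2 x
      have e4 := e2.2
      calc |gg x| ≤ Lg * |x.2 (n + 1) - s| := e3
        _ ≤ Lg * (κ + 6 * ε) := mul_le_mul_of_nonneg_left e4 hLg0
        _ = Lg * κ + 6 * Lg * ε := by ring
        _ ≤ δ / 8 + δ / 8 := by linarith
        _ = δ / 4 := by ring
  -- Step 2: subtract the coboundary on the right
  set ηγ' : List Pt → ZMod 2 := fun l => ηγ (l.map (shiftPt (n + 1))) with hηγ'
  set uγ : List Pt → ZMod 2 := fun l => E H₂ l + cob ηγ' l with huγ
  have hcobuγ : ∀ l, cob uγ l = 0 := by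
    intro l
    rw [huγ, cob_add, cob_E, cob_cob, add_zero]
  have hlen1 : (vs s n ++ [k]).length = n + 1 := by
    rw [List.length_append, vs_length]; rfl
  have s2 : ev (cup (n + 1) (E (vs s n ++ [k])) uγ) z = 1 := by
    have e1 : ev (cup (n + 1) (E (vs s n ++ [k])) (cob ηγ')) z = 0 := by
      have := ev_cup_right (vs s n ++ [k]) ηγ' (by
          rw [hηγ']
          exact hηγ0 [] (by simp)) z m (hz1.mono (by
            intro l hl
            rw [hl.1, hN, hlen1]; omega)) _ hbd ?_
      · rw [hlen1] at this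
        exact this
      intro l hl
      rw [hlen1]
      by_contra hne
      simp only [cup] at hne
      have hE := left_ne_zero_of_mul hne
      have hη := right_ne_zero_of_mul hne
      -- split `E (vs ++ [k])`
      rw [E_append, vs_length] at hE
      simp only [cup] at hE
      have hEa := left_ne_zero_of_mul hE
      have hEb := right_ne_zero_of_mul hE
      rw [List.take_take] at hEa
      have hmm : min (n + 1) (n + 1 + 1) = n + 1 := by omega
      rw [hmm] at hEa
      obtain ⟨u, v, huv, hkuv⟩ := E_singleton _ _ hEb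
      have hmem : ∀ x ∈ (l.take (n + 1 + 1)).drop n, x ∈ l := by
        intro x hx
        exact List.mem_of_mem_take (List.mem_of_mem_drop hx)
      have hj := hjump l hl.2.1 ⟨u, hmem u (by rw [huv]; simp), v, hmem v (by rw [huv]; simp), hkuv⟩
      -- a point of the first part
      obtain ⟨x₀, hx₀⟩ : ∃ x, x ∈ l.take (n + 1) := by
        have : 0 < (l.take (n + 1)).length := by
          rw [List.length_take]; omega
        obtain ⟨x, hx⟩ := List.exists_mem_of_length_pos this
        exact ⟨x, hx⟩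
      have hx₀l : x₀ ∈ l := List.mem_of_mem_take hx₀
      have hsmt : Sm ε K (l.take (n + 1)) := sm_subset hl.2.1 (fun x hx => List.mem_of_mem_take hx)
      have f0 := hFβ (l.take (n + 1)) ε hεle1 hsmt.2 hEa x₀ hx₀
      apply hη
      apply hηγ0
      intro y hy
      obtain ⟨x, hx, rfl⟩ := List.mem_map.mp hy
      have hxl : x ∈ l := List.mem_of_mem_drop hx
      have f1 := hΛβ x x₀ ε (hl.2.1.1 x hxl) (hl.2.1.1 x₀ hx₀l) (hl.2.1.2 x hxl x₀ hx₀l)
      have f2 := (abs_le.mp f1).1
      have f3 := (hj x hxl).1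
      have f4 := (abs_le.mp (hg1 x)).1
      have f5 := hl.2.2 x hxl
      rw [hF x] at f5
      have := abs_nonneg Cβ
      have := le_abs_self Cγ
      have := abs_nonneg a
      have := abs_nonneg b
      linarith
    have e2 : ev (cup (n + 1) (E (vs s n ++ [k])) uγ) z =
        ev (cup (n + 1) (E (vs s n ++ [k])) (E H₂)) z +
        ev (cup (n + 1) (E (vs s n ++ [k])) (cob ηγ')) z := by
      rw [← ev_add]
      congr 1
      congr 1
      funext l
      simp only [cup, huγ, mul_add]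
    rw [e2, e1, add_zero, ← s1]
    refine ev_congr hz1 ?_
    intro l _
    have : vs s n ++ k :: H₂ = (vs s n ++ [k]) ++ H₂ := by simp
    rw [this, E_append (vs s n ++ [k]) H₂ l, hlen1]
  -- Step 3: subtract the coboundary on the left
  set uβ : List Pt → ZMod 2 := fun l => E (vs s n) l + cob ηβ l with huβ
  -- vanishing of the `u`'s
  have huβ0 : ∀ l : List Pt, l.length = n + 1 → Sm ε K l → uβ l ≠ 0 → ∃ x ∈ l, a < F s β x := by
    intro l hl hsm hne
    by_contra hcon
    push Not at hcon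
    apply hne
    rw [huβ]
    have := hηβ l ⟨by omega, hsm.mono hε1 le_rfl, hcon⟩
    simp only
    rw [this]
    exact CharTwo.add_self_eq_zero _
  have huγ0 : ∀ l : List Pt, l.length = m + 1 → Sm ε K l → uγ l ≠ 0 →
      ∃ x ∈ l, b < F s γ (shiftPt (n + 1) x) := by
    intro l hl hsm hne
    by_contra hcon
    push Not at hcon
    apply hne
    rw [huγ]
    have := hηγ (l.map (shiftPt (n + 1))) ⟨by rw [List.length_map]; omega,
      (sm_shift hsm (n + 1)).mono hε2 le_rfl, by
        intro y hy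
        obtain ⟨x, hx, rfl⟩ := List.mem_map.mp hy
        exact hcon x hx⟩
    simp only
    rw [hEH₂, this, hηγ', cob_map]
    exact CharTwo.add_self_eq_zero _
  have s3 : ev (cup n uβ (cup 1 (E [k]) uγ)) z = 1 := by
    have e1 : ev (cup n (cob ηβ) (cup 1 (E [k]) uγ)) z = 0 := by
      refine ev_cup_left n ηβ _ (hηβ0 [] (by simp)) (cob_cup_one k uγ hcobuγ) z (hz1.mono (by
        intro l hl; rw [hl.1, hN]; omega)) _ hbd ?_
      intro h0n l hl
      by_contra hne
      simp only [cup] at hne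
      have hη := left_ne_zero_of_mul hne
      have hr := right_ne_zero_of_mul hne
      have hEb := left_ne_zero_of_mul hr
      have hu := right_ne_zero_of_mul hr
      rw [List.drop_drop] at hu
      have e0 : n - 1 + 1 = n := by omega
      rw [e0] at hu hη
      obtain ⟨u, v, huv, hkuv⟩ := E_singleton _ _ hEb
      have hmem : ∀ x ∈ (l.drop (n - 1)).take (1 + 1), x ∈ l := by
        intro x hx
        exact List.mem_of_mem_drop (List.mem_of_mem_take hx)
      have hj := hjump l hl.2.1 ⟨u, hmem u (by rw [huv]; simp), v, hmem v (by rw [huv]; simp), hkuv⟩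
      obtain ⟨x₀, hx₀, hbx₀⟩ := huγ0 (l.drop n) (by rw [List.length_drop, hl.1]; omega)
        (sm_subset hl.2.1 (fun x hx => List.mem_of_mem_drop hx)) hu
      have hx₀l : x₀ ∈ l := List.mem_of_mem_drop hx₀
      have f3 := (hj x₀ hx₀l).1
      have f4 := (abs_le.mp (hg1 x₀)).1
      have f5 := hl.2.2 x₀ hx₀l
      rw [hF x₀] at f5
      apply hη
      apply hηβ0
      intro x hx
      have hxl : x ∈ l := List.mem_of_mem_take hx
      have f1 := hΛβ x x₀ ε (hl.2.1.1 x hxl) (hl.2.1.1 x₀ hx₀l) (hl.2.1.2 x hxl x₀ hx₀l)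
      have f2 := (abs_le.mp f1).2
      have := le_abs_self Cβ
      have := abs_nonneg Cγ
      have := abs_nonneg a
      have := neg_abs_le b
      linarith
    have e2 : ev (cup n uβ (cup 1 (E [k]) uγ)) z =
        ev (cup n (E (vs s n)) (cup 1 (E [k]) uγ)) z +
        ev (cup n (cob ηβ) (cup 1 (E [k]) uγ)) z := by
      rw [← ev_add]
      congr 1
      congr 1
      funext l
      simp only [cup, huβ, add_mul]
    rw [e2, e1, add_zero, ← s2]
    refine ev_congr hz1 ?_
    intro l _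
    rw [← cup_assoc]
    simp only [cup]
    rw [E_append, vs_length]
    simp only [cup]
  -- Step 4: the contradiction
  obtain ⟨l, hl, hne⟩ := exists_of_ev_ne_zero hz1 (c := cup n uβ (cup 1 (E [k]) uγ))
    (by rw [s3]; exact one_ne_zero)
  rw [hN] at hl
  simp only [cup] at hne
  have hu1 := left_ne_zero_of_mul hne
  have hr := right_ne_zero_of_mul hne
  have hEb := left_ne_zero_of_mul hr
  have hu2 := right_ne_zero_of_mul hr
  rw [List.drop_drop] at hu2
  obtain ⟨u, v, huv, hkuv⟩ := E_singleton _ _ hEb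
  have hmem : ∀ x ∈ (l.drop n).take (1 + 1), x ∈ l := by
    intro x hx
    exact List.mem_of_mem_drop (List.mem_of_mem_take hx)
  have hj := hjump l hl.2.1 ⟨u, hmem u (by rw [huv]; simp), v, hmem v (by rw [huv]; simp), hkuv⟩
  obtain ⟨x₁, hx₁, hax₁⟩ := huβ0 (l.take (n + 1)) (by rw [List.length_take, hl.1]; omega)
    (sm_subset hl.2.1 (fun x hx => List.mem_of_mem_take hx)) hu1
  obtain ⟨x₂, hx₂, hbx₂⟩ := huγ0 (l.drop (n + 1)) (by rw [List.length_drop, hl.1]; omega)
    (sm_subset hl.2.1 (fun x hx => List.mem_of_mem_drop hx)) hu2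
  have hx₁l : x₁ ∈ l := List.mem_of_mem_take hx₁
  have hx₂l : x₂ ∈ l := List.mem_of_mem_drop hx₂
  have f1 := hΛβ x₂ x₁ ε (hl.2.1.1 x₂ hx₂l) (hl.2.1.1 x₁ hx₁l) (hl.2.1.2 x₂ hx₂l x₁ hx₁l)
  have f2 := (abs_le.mp f1).1
  have f3 := (hj x₂ hx₂l).1
  have f4 := (abs_le.mp (hj x₂ hx₂l).2).1
  have f5 := hl.2.2 x₂ hx₂l
  rw [hF x₂] at f5
  simp only [hgg] at f4
  linarith

end Pool.Agent.Helper31.AP
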