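import Pool.Agent.Helper31.AP.FBasic
import Pool.Agent.Helper31.AP.Htpy

/-! Module B3: the window inequality `T ≤ B + p s` -/

set_option autoImplicit false

namespace Pool.Agent.Helper31.AP

open Finset

variable {p : ℝ}

namespace Window

/-- truncation to `[0,1]` -/
noncomputable def cl (t : ℝ) : ℝ := max 0 (min 1 t)

theorem cl_nonneg (t : ℝ) : 0 ≤ cl t := le_max_left _ _

theorem cl_le_one (t : ℝ) : cl t ≤ 1 := max_le zero_le_one (min_le_left _ _)

theorem cl_of_nonpos {t : ℝ} (h : t ≤ 0) : cl t = 0 := by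
  unfold cl
  rw [min_eq_right (by linarith), max_eq_left h]

theorem cl_of_one_le {t : ℝ} (h : 1 ≤ t) : cl t = 1 := by
  unfold cl
  rw [min_eq_left h, max_eq_right zero_le_one]

theorem cl_mono {a b : ℝ} (h : a ≤ b) : cl a ≤ cl b :=
  max_le_max_left 0 (min_le_min_left 1 h)

theorem cl_lip (a b : ℝ) : |cl a - cl b| ≤ |a - b| := by
  have h1 : |max 0 (min 1 a) - max 0 (min 1 b)| ≤ |min 1 a - min 1 b| := by
    have := abs_max_sub_max_le_max (0 : ℝ) (min 1 a) 0 (min 1 b)
    simpa using this
  have h2 : |min 1 a - min 1 b| ≤ |a - b| := by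
    have := abs_min_sub_min_le_max (1 : ℝ) a 1 b
    simpa using this
  exact h1.trans h2

/-- the staircase function with `J` steps, of period `n+1` -/
noncomputable def stair (n J : ℕ) (u : ℝ) : ℝ := ∑ j ∈ range J, cl (u - j * (n + 1))

theorem stair_lip (n J : ℕ) (u v : ℝ) : |stair n J u - stair n J v| ≤ J * |u - v| := by
  unfold stair
  rw [← Finset.sum_sub_distrib]
  refine (Finset.abs_sum_le_sum_abs _ _).trans ?_
  have : ∀ j ∈ range J, |cl (u - j * (n + 1)) - cl (v - j * (n + 1))| ≤ |u - v| := by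
    intro j _
    refine (cl_lip _ _).trans (le_of_eq ?_)
    congr 1
    ring
  refine (Finset.sum_le_sum this).trans ?_
  simp

theorem stair_nonneg (n J : ℕ) (u : ℝ) : 0 ≤ stair n J u :=
  Finset.sum_nonneg fun _ _ => cl_nonneg _

theorem stair_le (n J : ℕ) (u : ℝ) : stair n J u ≤ J := by
  unfold stair
  refine (Finset.sum_le_sum fun j _ => cl_le_one _).trans ?_
  simp

theorem stair_of_nonpos (n J : ℕ) {u : ℝ} (h : u ≤ 0) : stair n J u = 0 := by
  unfold stair
  refine Finset.sum_eq_zero fun j _ => cl_of_nonpos ?_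
  have : (0 : ℝ) ≤ j * (n + 1) := by positivity
  linarith

theorem stair_of_ge (n J : ℕ) {u : ℝ} (h : (J : ℝ) * (n + 1) - n ≤ u) : stair n J u = J := by
  unfold stair
  have : ∀ j ∈ range J, cl (u - j * (n + 1)) = 1 := by
    intro j hj
    apply cl_of_one_le
    have hj' : (j : ℝ) + 1 ≤ J := by exact_mod_cast Finset.mem_range.mp hj
    have : ((j : ℝ) + 1) * (n + 1) ≤ J * (n + 1) :=
      mul_le_mul_of_nonneg_right hj' (by positivity)
    linarith
  rw [Finset.sum_congr rfl this]
  simp

theorem stair_dec (n J : ℕ) (t : ℝ) : ∃ j : ℕ, ∀ D : ℝ, 0 ≤ D → D ≤ n →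
    stair n (J + 1) (t - D) = j + cl (t - j * (n + 1) - D) := by
  induction J with
  | zero =>
    refine ⟨0, fun D _ _ => ?_⟩
    simp [stair]
  | succ J ih =>
    by_cases ht : t ≤ (J + 1 : ℕ) * ((n : ℝ) + 1)
    · obtain ⟨j, hj⟩ := ih
      refine ⟨j, fun D h0 h1 => ?_⟩
      have : stair n (J + 1 + 1) (t - D) = stair n (J + 1) (t - D) +
          cl (t - D - (J + 1 : ℕ) * ((n : ℝ) + 1)) := by
        unfold stair
        rw [Finset.sum_range_succ]
      rw [this, hj D h0 h1, cl_of_nonpos (t := t - D - (J + 1 : ℕ) * ((n : ℝ) + 1)) (by linarith),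
        add_zero]
    · refine ⟨J + 1, fun D h0 h1 => ?_⟩
      have : stair n (J + 1 + 1) (t - D) = stair n (J + 1) (t - D) +
          cl (t - D - (J + 1 : ℕ) * ((n : ℝ) + 1)) := by
        unfold stair
        rw [Finset.sum_range_succ]
      rw [this, stair_of_ge n (J + 1) (by linarith)]
      congr 2
      ring

/-- the delay of the `i`-th angle -/
noncomputable def DD (n : ℕ) (x : Pt) (i : ℕ) : ℝ := ∑ l ∈ Ico (i + 1) (n + 1), cl (x.2 l)

theorem DD_nonneg (n : ℕ) (x : Pt) (i : ℕ) : 0 ≤ DD n x i :=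
  Finset.sum_nonneg fun _ _ => cl_nonneg _

theorem DD_le (n : ℕ) (x : Pt) (i : ℕ) : DD n x i ≤ n := by
  unfold DD
  refine (Finset.sum_le_sum fun j _ => cl_le_one _).trans ?_
  simp only [sum_const, Nat.card_Ico, nsmul_eq_mul, mul_one]
  exact_mod_cast (by omega : n + 1 - (i + 1) ≤ n)

theorem DD_succ (n : ℕ) (x : Pt) (i : ℕ) (hi : i < n) :
    DD n x i = DD n x (i + 1) + cl (x.2 (i + 1)) := by
  unfold DD
  rw [Finset.sum_eq_sum_Ico_succ_bot (by omega : i + 1 < n + 1)]
  ring

theorem DD_lip (n : ℕ) (x y : Pt) (i : ℕ) (ε : ℝ) (h : Near ε x y) (hε : 0 ≤ ε) :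
    |DD n x i - DD n y i| ≤ n * ε := by
  unfold DD
  rw [← Finset.sum_sub_distrib]
  refine (Finset.abs_sum_le_sum_abs _ _).trans ?_
  refine (Finset.sum_le_sum fun l _ => (cl_lip _ _).trans (h l).2).trans ?_
  simp only [sum_const, Nat.card_Ico, nsmul_eq_mul]
  refine mul_le_mul_of_nonneg_right ?_ hε
  exact_mod_cast (by omega : n + 1 - (i + 1) ≤ n)

/-- moving the angles by `-p c_i` -/
noncomputable def mv (p : ℝ) (c : ℕ → ℝ) (x : Pt) : Pt := (fun i => x.1 i - p * c i, x.2)

/-- the basic inequality -/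
theorem F_mv (hp : 0 < p) (s : ℝ) (hs : 0 ≤ s) (β : List (GF p)) (n : ℕ) (hn : β.length = n + 1)
    (x : Pt) (t : ℝ) : F s β (mv p (fun i => cl (t - DD n x i)) x) ≤ F s β x + p * s := by
  set c : ℕ → ℝ := fun i => cl (t - DD n x i) with hc
  have key0 : (β.getD 0 default).W ((mv p c x).1 0) (rad s (mv p c x) 0) ≤
      (β.getD 0 default).W (x.1 0) (rad s x 0) + p * s * c 0 := by
    have := (β.getD 0 default).pos (x.1 0) s (p * c 0) hs (mul_nonneg hp.le (cl_nonneg _))
    simp only [rad, mv, if_true]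
    linarith
  have key : ∀ i ∈ range n,
      (β.getD (i + 1) default).W ((mv p c x).1 (i + 1)) (rad s (mv p c x) (i + 1)) +
        ((mv p c x).2 (i + 1) - s) * ((mv p c x).1 (i + 1) - (mv p c x).1 i) ≤
      (β.getD (i + 1) default).W (x.1 (i + 1)) (rad s x (i + 1)) +
        (x.2 (i + 1) - s) * (x.1 (i + 1) - x.1 i) + p * s * (c (i + 1) - c i) := by
    intro i hi
    have hi' : i < n := Finset.mem_range.mp hi
    have hD := DD_succ n x i hi'
    simp only [rad, mv, if_neg (Nat.succ_ne_zero i)]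
    set g := β.getD (i + 1) default
    set r := x.2 (i + 1) with hr
    set θ := x.1 (i + 1)
    have hcc : c i ≤ c (i + 1) := by
      refine cl_mono ?_
      have := cl_nonneg r
      linarith
    have main : g.W (θ - p * c (i + 1)) r - g.W θ r ≤ p * r * (c (i + 1) - c i) := by
      by_cases h1 : r ≤ 1
      · rw [g.low _ _ h1, g.low _ _ h1, sub_zero]
        by_cases h0 : r ≤ 0
        · have : c i = c (i + 1) := by
            simp only [hc]
            rw [hD, cl_of_nonpos h0, add_zero]
          rw [this]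
          simp
        · push Not at h0
          have : 0 ≤ c (i + 1) - c i := by linarith
          positivity
      · push Not at h1
        have hr1 : cl r = 1 := cl_of_one_le h1.le
        by_cases h2 : t - DD n x (i + 1) ≤ 1
        · have : c i = 0 := by
            simp only [hc]
            apply cl_of_nonpos
            rw [hD, hr1]
            linarith
          rw [this]
          have := g.pos θ r (p * c (i + 1)) (by linarith) (mul_nonneg hp.le (cl_nonneg _))
          linarith
        · push Not at h2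
          have h3 : c (i + 1) = 1 := cl_of_one_le h2.le
          have h4 : g.W (θ - p * c (i + 1)) r = g.W θ r := by
            rw [h3, ← g.per (θ - p * 1) r]
            congr 1
            ring
          rw [h4, sub_self]
          have : 0 ≤ c (i + 1) - c i := by linarith
          have : 0 ≤ r := by linarith
          positivity
    nlinarith [main]
  have hF : ∀ y : Pt, F s β y = (β.getD 0 default).W (y.1 0) (rad s y 0) +
      ∑ i ∈ range n, ((β.getD (i + 1) default).W (y.1 (i + 1)) (rad s y (i + 1)) +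
        (y.2 (i + 1) - s) * (y.1 (i + 1) - y.1 i)) := by
    intro y
    unfold F
    rw [hn, Finset.sum_range_succ', Finset.sum_add_distrib]
    simp only [Nat.add_sub_cancel]
    ring
  rw [hF, hF x]
  have hsum := Finset.sum_le_sum key
  rw [Finset.sum_add_distrib (f := fun i => (β.getD (i + 1) default).W (x.1 (i + 1))
    (rad s x (i + 1)) + (x.2 (i + 1) - s) * (x.1 (i + 1) - x.1 i)), ← Finset.mul_sum,
    Finset.sum_range_sub] at hsum
  have h1 : c n ≤ 1 := cl_le_one _
  have h2 : p * s * c n ≤ p * s := by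
    have : 0 ≤ p * s := by positivity
    nlinarith
  nlinarith [hsum, key0, h2]

/-- the sweep at time `t` -/
noncomputable def sw (p : ℝ) (n J : ℕ) (t : ℝ) (x : Pt) : Pt :=
  (fun i => x.1 i + p * J - p * stair n (2 * J) (t - DD n x i), x.2)

theorem F_sw (hp : 0 < p) (s : ℝ) (hs : 0 ≤ s) (β : List (GF p)) (n : ℕ) (hn : β.length = n + 1)
    (J : ℕ) (hJ : 1 ≤ J) (x : Pt) (t : ℝ) : F s β (sw p n J t x) ≤ F s β x + p * s := by
  obtain ⟨J', hJ'⟩ : ∃ J', 2 * J = J' + 1 := ⟨2 * J - 1, by omega⟩
  obtain ⟨j, hj⟩ := stair_dec n J' t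
  have h1 : sw p n J t x = addAng ((((J : ℤ) - (j : ℤ)) : ℤ) * p)
      (mv p (fun i => cl (t - j * (n + 1) - DD n x i)) x) := by
    unfold sw addAng mv
    ext i
    · simp only
      rw [hJ', hj _ (DD_nonneg n x i) (DD_le n x i)]
      push_cast
      ring
    · rfl
  rw [h1, F_shift_ang]
  exact F_mv hp s hs β n hn x _

theorem sw_zero (n J : ℕ) (x : Pt) (i : ℕ) : (sw p n J 0 x).1 i = x.1 i + p * J := by
  simp only [sw]
  rw [stair_of_nonpos _ _ (by have := DD_nonneg n x i; linarith)]
  ring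

theorem sw_end (n J : ℕ) (x : Pt) :
    sw p n J (2 * J * (n + 1)) x = addAng (-(p * J)) x := by
  unfold sw addAng
  ext i
  · simp only
    rw [stair_of_ge _ _ (by have := DD_le n x i; push_cast; linarith)]
    push_cast
    ring
  · rfl

theorem sw_bdd (hp : 0 < p) (n J : ℕ) (t K : ℝ) (x : Pt) (h : Bdd K x) :
    Bdd (K + p * J) (sw p n J t x) := by
  intro i
  have hJ : 0 ≤ p * J := by positivity
  refine ⟨?_, ?_⟩
  · simp only [sw]
    have h1 := stair_nonneg n (2 * J) (t - DD n x i)
    have h2 := stair_le n (2 * J) (t - DD n x i)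
    push_cast at h2
    have h3 : p * stair n (2 * J) (t - DD n x i) ≤ p * (2 * J) := mul_le_mul_of_nonneg_left h2 hp.le
    have h4 : 0 ≤ p * stair n (2 * J) (t - DD n x i) := mul_nonneg hp.le h1
    have h5 := abs_le.mp (h i).1
    rw [abs_le]
    constructor <;> linarith
  · simp only [sw]
    have := (h i).2
    linarith

theorem sw_near (hp : 0 < p) (n J : ℕ) (t t' ε η : ℝ) (hε : 0 ≤ ε) (x y : Pt) (h : Near ε x y)
    (ht : |t - t'| ≤ η) :
    Near (ε + p * (2 * J * (η + n * ε))) (sw p n J t x) (sw p n J t' y) := by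
  intro i
  have hη : 0 ≤ η := (abs_nonneg _).trans ht
  refine ⟨?_, ?_⟩
  · simp only [sw]
    have h1 := stair_lip n (2 * J) (t - DD n x i) (t' - DD n y i)
    push_cast at h1
    have h2 : |t - DD n x i - (t' - DD n y i)| ≤ η + n * ε := by
      have h3 := DD_lip n x y i ε h hε
      have h4 : t - DD n x i - (t' - DD n y i) = (t - t') - (DD n x i - DD n y i) := by ring
      rw [h4]
      exact (abs_sub _ _).trans (add_le_add ht h3)
    have h5 : |stair n (2 * J) (t - DD n x i) - stair n (2 * J) (t' - DD n y i)| ≤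
        2 * J * (η + n * ε) :=
      h1.trans (mul_le_mul_of_nonneg_left h2 (by positivity))
    have h6 : x.1 i + p * J - p * stair n (2 * J) (t - DD n x i) -
        (y.1 i + p * J - p * stair n (2 * J) (t' - DD n y i)) = (x.1 i - y.1 i) -
        p * (stair n (2 * J) (t - DD n x i) - stair n (2 * J) (t' - DD n y i)) := by ring
    rw [h6]
    refine (abs_sub _ _).trans (add_le_add (h i).1 ?_)
    rw [abs_mul, abs_of_pos hp]
    exact mul_le_mul_of_nonneg_left h5 hp.le
  · simp only [sw]
    have := (h i).2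
    have : 0 ≤ p * (2 * J * (η + n * ε)) := by positivity
    linarith

theorem vv_addAng (s : ℝ) (i : ℕ) (c : ℝ) (x : Pt) : vv s i (addAng c x) = vv s i x := by
  unfold vv addAng
  ring

theorem vs_addAng (s : ℝ) (n : ℕ) (c : ℝ) :
    ((vs s n).map fun h => h ∘ addAng c) = vs s n := by
  unfold vs
  rw [List.map_map]
  refine List.map_congr_left fun i _ => ?_
  funext x
  simp only [Function.comp_apply, vv_addAng]

end Window

open Window

theorem essT_of_essB (hp : 0 < p) (s : ℝ) (hs : 0 ≤ s) (β : List (GF p)) (hβ : β ≠ []) (a : ℝ)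
    (h : EssB s β a) : EssT s β (a + p * s) := by
  obtain ⟨n, hn⟩ : ∃ n, β.length = n + 1 := ⟨β.length - 1, by
    have := List.length_pos_iff.mpr hβ
    omega⟩
  have hn1 : β.length - 1 = n := by omega
  intro C R
  obtain ⟨C₀, hC₀, hlow⟩ := F_lower s β
  rw [hn1] at hlow
  have hps : 0 ≤ p * s := by positivity
  obtain ⟨K', hK'⟩ := h (|C| + C₀ + p * s + 1)
  rw [hn1] at hK' ⊢
  -- choice of J
  obtain ⟨J, hJ⟩ := exists_nat_ge ((|K'| + |R| + 1) / p)
  have hJp : |K'| + |R| + 1 ≤ p * J := by
    rw [div_le_iff₀ hp] at hJ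
    linarith
  have hJ1 : 1 ≤ J := by
    by_contra hcon
    have : J = 0 := by omega
    subst this
    have := abs_nonneg K'
    have := abs_nonneg R
    simp at hJp
    linarith
  refine ⟨K' + p * J, fun ε₀ hε₀ => ?_⟩
  set ε := min ε₀ 1 with hε
  have hεpos : 0 < ε := lt_min hε₀ one_pos
  have hεle : ε ≤ ε₀ := min_le_left _ _
  have hε1 : ε ≤ 1 := min_le_right _ _
  -- choice of the small parameter and the number of steps
  set B : ℝ := 1 + p * (2 * J * (1 + n)) with hB
  have hBpos : 0 < B := by positivity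
  set δ := ε / B with hδ
  have hδpos : 0 < δ := by positivity
  obtain ⟨m, hm⟩ := exists_nat_ge (2 * J * (n + 1) / δ)
  have hmpos : (0 : ℝ) < m := by
    refine lt_of_lt_of_le ?_ hm
    have : (1 : ℝ) ≤ J := by exact_mod_cast hJ1
    positivity
  set η : ℝ := 2 * J * (n + 1) / m with hη
  have hηδ : η ≤ δ := by
    rw [hη, div_le_iff₀ hmpos]
    rw [div_le_iff₀ hδpos] at hm
    linarith
  have hη0 : 0 ≤ η := by positivity
  obtain ⟨z, hz1, hz2, hz3⟩ := hK' δ hδpos
  set f : ℕ → Pt → Pt := fun k => sw p n J (k * η) with hf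
  have hf0 : f 0 = sw p n J 0 := by simp [hf]
  have hfm : f m = addAng (-(p * J)) := by
    funext x
    have : (m : ℝ) * η = 2 * J * (n + 1) := by
      rw [hη]
      field_simp
    simp only [hf]
    rw [this, sw_end]
  -- nearness of the points of one prism step
  have hnear : ∀ l : List Pt, (∀ x ∈ l, ∀ y ∈ l, Near δ x y) → ∀ j : ℕ, ∀ l' : List Pt,
      (∀ y ∈ l', ∃ x ∈ l, y = f j x ∨ y = f (j + 1) x) → ∀ y ∈ l', ∀ y' ∈ l', Near ε y y' := by
    intro l hl j l' hl' y hy y' hy'
    have hstep : ∀ u v : ℝ, (u = j * η ∨ u = ((j + 1 : ℕ) : ℝ) * η) →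
        (v = j * η ∨ v = ((j + 1 : ℕ) : ℝ) * η) → |u - v| ≤ η := by
      intro u v hu hv
      rcases hu with rfl | rfl <;> rcases hv with rfl | rfl
      · simpa using hη0
      · push_cast
        rw [show (j : ℝ) * η - (j + 1) * η = -η by ring, abs_neg, abs_of_nonneg hη0]
      · push_cast
        rw [show ((j : ℝ) + 1) * η - j * η = η by ring, abs_of_nonneg hη0]
      · simpa using hη0
    obtain ⟨x, hx, hxy⟩ := hl' y hy
    obtain ⟨x', hx', hxy'⟩ := hl' y' hy'
    obtain ⟨u, hu, rfl⟩ : ∃ u : ℝ, (u = j * η ∨ u = ((j + 1 : ℕ) : ℝ) * η) ∧ y = sw p n J u x := by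
      rcases hxy with h | h
      · exact ⟨_, Or.inl rfl, h⟩
      · exact ⟨_, Or.inr rfl, h⟩
    obtain ⟨v, hv, rfl⟩ : ∃ v : ℝ, (v = j * η ∨ v = ((j + 1 : ℕ) : ℝ) * η) ∧
        y' = sw p n J v x' := by
      rcases hxy' with h | h
      · exact ⟨_, Or.inl rfl, h⟩
      · exact ⟨_, Or.inr rfl, h⟩
    have h1 := sw_near hp n J u v δ η hδpos.le x x' (hl x hx x' hx') (hstep u v hu hv)
    refine h1.mono ?_
    calc δ + p * (2 * J * (η + n * δ)) ≤ δ + p * (2 * J * (δ + n * δ)) := by
          gcongr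
      _ = δ * B := by rw [hB]; ring
      _ = ε := by rw [hδ]; field_simp
      _ ≤ ε := le_refl _
  -- values of F
  have hval : ∀ l : List Pt, ∀ b : ℝ, (∀ x ∈ l, F s β x ≤ b) → ∀ j : ℕ, ∀ l' : List Pt,
      (∀ y ∈ l', ∃ x ∈ l, y = f j x ∨ y = f (j + 1) x) → ∀ y ∈ l', F s β y ≤ b + p * s := by
    intro l b hl j l' hl' y hy
    obtain ⟨x, hx, hxy⟩ := hl' y hy
    have h0 := hl x hx
    rcases hxy with rfl | rfl
    · have := F_sw hp s hs β n hn J hJ1 x (j * η)
      simp only [hf]
      linarith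
    · have := F_sw hp s hs β n hn J hJ1 x ((j + 1 : ℕ) * η)
      simp only [hf]
      linarith
  -- boundary of z : values and smallness
  have hbz : SuppIn (fun l => (∀ x ∈ l, F s β x ≤ -(|C| + C₀ + p * s + 1)) ∧
      (∀ x ∈ l, ∀ y ∈ l, Near δ x y)) (bd z) := by
    have h1 : SuppIn (fun l' => ∀ x ∈ l', ∀ y ∈ l', Near δ x y) (bd z) := by
      refine SuppIn.lin hz1 bdL fun l hl => (bdL_supp l).mono fun l' hl' => ?_
      intro x hx y hy
      exact hl.2.1.2 x (hl'.2 x hx) y (hl'.2 y hy)
    exact fun l hl => ⟨hz2 l hl, h1 l hl⟩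
  -- the homotopy part of the boundary
  have hH : SuppIn (fun l' => (∀ y ∈ l', F s β y ≤ -(|C| + C₀ + 1)) ∧
      (∀ x ∈ l', ∀ y ∈ l', Near ε x y)) (htpy f m (bd z)) := by
    refine hbz.htpy f m fun l hl j _ l' _ hl' => ⟨?_, hnear l hl.2 j l' hl'⟩
    intro y hy
    have := hval l _ hl.1 j l' hl' y hy
    linarith
  have hS0 : SuppIn (fun l' => l'.length = n + 1 ∧ ∀ y ∈ l', |R| + 1 ≤ y.1 n) (push (f 0) z) := by
    refine hz1.push (f 0) fun l hl => ⟨by rw [List.length_map, hl.1, hn], fun y hy => ?_⟩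
    obtain ⟨x, hx, rfl⟩ := List.mem_map.mp hy
    rw [hf0, sw_zero]
    have h1 := abs_le.mp ((hl.2.1.1 x hx) n).1
    have h2 := le_abs_self K'
    linarith [h1.1]
  have hSm : SuppIn (fun l' => l'.length = n + 1 ∧ ∀ y ∈ l', y.1 n ≤ -(|R| + 1))
      (push (f m) z) := by
    refine hz1.push (f m) fun l hl => ⟨by rw [List.length_map, hl.1, hn], fun y hy => ?_⟩
    obtain ⟨x, hx, rfl⟩ := List.mem_map.mp hy
    rw [hfm]
    simp only [addAng]
    have h1 := abs_le.mp ((hl.2.1.1 x hx) n).1
    have h2 := le_abs_self K'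
    linarith [h1.2]
  have hbd : bd (htpy f m z) = htpy f m (bd z) + (push (f 0) z + push (f m) z) := by
    have h1 := bd_htpy f m z
    have h2 : htpy f m (bd z) + htpy f m (bd z) = 0 := by
      ext l
      simp only [Finsupp.add_apply, Finsupp.coe_zero, Pi.zero_apply]
      exact CharTwo.add_self_eq_zero _
    calc bd (htpy f m z) = bd (htpy f m z) + (htpy f m (bd z) + htpy f m (bd z)) := by
          rw [h2, add_zero]
      _ = (bd (htpy f m z) + htpy f m (bd z)) + htpy f m (bd z) := by rw [add_assoc]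
      _ = htpy f m (bd z) + (push (f 0) z + push (f m) z) := by rw [h1, add_comm]
  have hgen : ∀ c' : List Pt → ZMod 2, (∀ b : Pt, c' [b] = neg1 (b.1 n)) →
      ev (cup n (E (vs s n)) c') (bd (htpy f m z)) = 1 := by
    intro c' hc'
    rw [hbd, map_add, map_add]
    have e1 : ev (cup n (E (vs s n)) c') (htpy f m (bd z)) = 0 := by
      refine ev_eq_zero hH fun l hl => ?_
      unfold cup
      by_cases hE : E (vs s n) (l.take (n + 1)) = 0
      · rw [hE, zero_mul]
      · exfalso
        have hsub : ∀ x ∈ l.take (n + 1), x ∈ l := fun x hx => List.mem_of_mem_take hx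
        have hlen := E_length _ _ hE
        rw [vs_length] at hlen
        obtain ⟨x, hx⟩ : ∃ x, x ∈ l.take (n + 1) := by
          apply List.exists_mem_of_length_pos
          omega
        have h1 := hlow (l.take (n + 1)) ε hε1
          (fun x hx y hy => hl.2 x (hsub x hx) y (hsub y hy)) hE x hx
        have h2 := hl.1 x (hsub x hx)
        have := abs_nonneg C
        linarith
    have e2 : ev (cup n (E (vs s n)) c') (push (f 0) z) = 0 := by
      refine ev_eq_zero hS0 fun l hl => ?_
      unfold cup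
      have hd : ∃ b, l.drop n = [b] := by
        have : (l.drop n).length = 1 := by rw [List.length_drop, hl.1]; omega
        exact List.length_eq_one_iff.mp this
      obtain ⟨b, hb⟩ := hd
      have hbl : b ∈ l := List.mem_of_mem_drop (by rw [hb]; simp)
      rw [hb]
      have := hl.2 b hbl
      have := abs_nonneg R
      have hneg : neg1 (b.1 n) = 0 := by
        unfold neg1
        rw [if_neg (by linarith)]
      rw [hc', hneg, mul_zero]
    have e3 : ev (cup n (E (vs s n)) c') (push (f m) z) = 1 := by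
      rw [ev_congr (c' := E (vs s n)) hSm, hfm, ev_push]
      · rw [← hz3]
        congr 2
        funext l
        rw [E_map, vs_addAng]
      · intro l hl
        unfold cup
        have hd : ∃ b, l.drop n = [b] := by
          have : (l.drop n).length = 1 := by rw [List.length_drop, hl.1]; omega
          exact List.length_eq_one_iff.mp this
        obtain ⟨b, hb⟩ := hd
        have hbl : b ∈ l := List.mem_of_mem_drop (by rw [hb]; simp)
        rw [hb, List.take_of_length_le (by rw [hl.1])]
        have := hl.2 b hbl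
        have := abs_nonneg R
        have hneg : neg1 (b.1 n) = 1 := by
          unfold neg1
          rw [if_pos (by linarith)]
        rw [hc', hneg, mul_one]
    rw [e1, e2, e3]
    simp
  refine ⟨htpy f m z, ?_, ?_, ?_⟩
  · refine hz1.htpy f m fun l hl j _ l' hlen hl' => ⟨by rw [hlen, hl.1], ⟨?_, ?_⟩, ?_⟩
    · intro y hy
      obtain ⟨x, hx, hxy⟩ := hl' y hy
      rcases hxy with rfl | rfl
      · exact sw_bdd hp n J _ K' x (hl.2.1.1 x hx)
      · exact sw_bdd hp n J _ K' x (hl.2.1.1 x hx)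
    · intro x hx y hy
      exact (hnear l hl.2.1.2 j l' hl' x hx y hy).mono hεle
    · exact hval l a hl.2.2 j l' hl'
  · rw [hbd]
    refine SuppIn.add (hH.mono fun l hl => Or.inl fun x hx => ?_)
      (SuppIn.add (hS0.mono fun l hl => Or.inr (Or.inl fun x hx => ?_))
        (hSm.mono fun l hl => Or.inr (Or.inr fun x hx => ?_)))
    · have := hl.1 x hx
      have := le_abs_self C
      linarith
    · have := hl.2 x hx
      have := le_abs_self R
      linarith
    · have := hl.2 x hx
      have := le_abs_self R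
      linarith
  · unfold us
    rw [show vs s n ++ [fun x => neg1 (x.1 n)] = vs s n ++ (fun x : Pt => neg1 (x.1 n)) :: [] from rfl,
      stokes_E, vs_length]
    refine hgen _ fun b => ?_
    simp [E]

end Pool.Agent.Helper31.AP
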