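import Pool.Agent.Helper31.AP.Crit
import Pool.Agent.Helper31.AP.Window
import Pool.Agent.Helper31.AP.SubAdd
import Pool.Agent.Helper31.AP.SupAdd
import Pool.Agent.Helper31.AP.Exist

/-! Module B7: the core inequality -/

set_option autoImplicit false

namespace Pool.Agent.Helper31.AP

open Finset

variable {p : ℝ}

theorem exists_level (Q : ℝ → Prop) (hm : ∀ a b, Q a → a ≤ b → Q b) (h1 : ∃ a, Q a)
    (h2 : ∃ c, ∀ a, Q a → c ≤ a) : ∃ B : ℝ, (∀ a, B < a → Q a) ∧ ∀ a, a < B → ¬ Q a := by
  obtain ⟨a₀, ha₀⟩ := h1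
  obtain ⟨c, hc⟩ := h2
  have hne : {a | Q a}.Nonempty := ⟨a₀, ha₀⟩
  have hbd : BddBelow {a | Q a} := ⟨c, fun a ha => hc a ha⟩
  refine ⟨sInf {a | Q a}, fun a ha => ?_, fun a ha hQ => ?_⟩
  · obtain ⟨b, hb, hb'⟩ := (csInf_lt_iff hbd hne).1 ha
    exact hm b a hb hb'.le
  · exact absurd (csInf_le hbd hQ) (not_le.2 ha)

/-- the levels of all nonempty blocks -/
theorem exists_levels (hp : 0 < p) (s : ℝ) (hs : 0 ≤ s) :
    ∃ B T : List (GF p) → ℝ, (∀ β, β ≠ [] → (∀ a, B β < a → EssB s β a) ∧
      (∀ a, a < B β → ¬ EssB s β a) ∧ (∀ a, T β < a → EssT s β a) ∧ ∀ a, a < T β → ¬ EssT s β a) := by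
  have hB : ∀ β : List (GF p), ∃ B : ℝ, β ≠ [] → (∀ a, B < a → EssB s β a) ∧
      ∀ a, a < B → ¬ EssB s β a := by
    intro β
    by_cases h : β = []
    · exact ⟨0, fun h' => absurd h h'⟩
    · obtain ⟨B, hB⟩ := exists_level (EssB s β) (fun a b ha hab => ha.mono hab)
        (essB_exists s β h) (essB_lower s β h)
      exact ⟨B, fun _ => hB⟩
  have hT : ∀ β : List (GF p), ∃ B : ℝ, β ≠ [] → (∀ a, B < a → EssT s β a) ∧
      ∀ a, a < B → ¬ EssT s β a := by
    intro β
    by_cases h : β = []
    · exact ⟨0, fun h' => absurd h h'⟩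
    · obtain ⟨a, ha⟩ := essB_exists s β h
      obtain ⟨B, hB⟩ := exists_level (EssT s β) (fun a b ha hab => ha.mono hab)
        ⟨_, essT_of_essB hp s hs β h a ha⟩ (essT_lower s β h)
      exact ⟨B, fun _ => hB⟩
  choose B hB using hB
  choose T hT using hT
  exact ⟨B, T, fun β hβ => ⟨(hB β hβ).1, (hB β hβ).2, (hT β hβ).1, (hT β hβ).2⟩⟩

/-- Core: `bs` is the list of pairs (block, inverse block); `w` is the list of all these blocks in
any order. -/
theorem core (hp : 0 < p) (s : ℝ) (hs : 0 ≤ s) (bs : List (List (GF p) × List (GF p)))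
    (hne : ∀ q ∈ bs, q.1 ≠ [] ∧ q.2 ≠ [])
    (hpair : ∀ q ∈ bs, ∀ x, IsCrit s (q.1 ++ q.2) x → F s (q.1 ++ q.2) x = 0)
    (w : List (List (GF p))) (hw : w.Perm (bs.flatMap fun q => [q.1, q.2]))
    (A : ℝ) (hA : ∀ x, IsCrit s w.flatten x → F s w.flatten x = A) :
    |A| ≤ w.length * p * s := by
  obtain ⟨B, T, hBT⟩ := exists_levels hp s hs
  -- properties of the levels
  have h1 : ∀ β, β ≠ [] → T β ≤ B β + p * s := by
    intro β hβ
    obtain ⟨b1, b2, t1, t2⟩ := hBT β hβ
    by_contra hcon
    push Not at hcon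
    have : EssB s β ((B β + (T β - p * s)) / 2) := b1 _ (by linarith)
    exact t2 _ (by linarith) (essT_of_essB hp s hs β hβ _ this)
  have h2 : ∀ β γ, β ≠ [] → γ ≠ [] → T (β ++ γ) ≤ T β + T γ := by
    intro β γ hβ hγ
    obtain ⟨-, -, t1, -⟩ := hBT β hβ
    obtain ⟨-, -, t1', -⟩ := hBT γ hγ
    obtain ⟨-, -, -, t2⟩ := hBT (β ++ γ) (by simp [hβ])
    by_contra hcon
    push Not at hcon
    set d := (T (β ++ γ) - T β - T γ) / 4 with hd
    have hd0 : 0 < d := by rw [hd]; linarith
    exact t2 _ (by rw [hd]; linarith : T β + d + (T γ + d) + d < T (β ++ γ))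
      (essT_append s β γ hβ hγ _ _ d hd0 (t1 _ (by linarith)) (t1' _ (by linarith)))
  have h3 : ∀ β γ, β ≠ [] → γ ≠ [] → B β + B γ ≤ B (β ++ γ) := by
    intro β γ hβ hγ
    obtain ⟨-, b2, -, -⟩ := hBT β hβ
    obtain ⟨-, b2', -, -⟩ := hBT γ hγ
    obtain ⟨b1, -, -, -⟩ := hBT (β ++ γ) (by simp [hβ])
    by_contra hcon
    push Not at hcon
    set d := (B β + B γ - B (β ++ γ)) / 4 with hd
    have hd0 : 0 < d := by rw [hd]; linarith
    have := essB_append s β γ hβ hγ (B β - d) (B γ - d) (B (β ++ γ) + d) (b1 _ (by linarith))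
      (b2 _ (by linarith)) (b2' _ (by linarith))
    linarith
  have h4 : ∀ β, β ≠ [] → ∀ A : ℝ, (∀ x, IsCrit s β x → F s β x = A) → A ≤ T β ∧ B β ≤ A := by
    intro β hβ A hA
    obtain ⟨b1, b2, t1, t2⟩ := hBT β hβ
    constructor
    · by_contra hcon
      push Not at hcon
      have := crit_T hp s β hβ A hA _ (t1 ((T β + A) / 2) (by linarith))
      linarith
    · by_contra hcon
      push Not at hcon
      exact b2 (A + (B β - A) / 2) (by linarith)
        (crit_B hp s β hβ A hA _ (b1 (B β + 1) (by linarith)) ((B β - A) / 2) (by linarith))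
  -- pairs
  have hpT : ∀ q ∈ bs, T q.1 + T q.2 ≤ 2 * (p * s) := by
    intro q hq
    obtain ⟨hq1, hq2⟩ := hne q hq
    have a1 := h1 _ hq1
    have a2 := h1 _ hq2
    have a3 := h3 _ _ hq1 hq2
    have a4 := (h4 (q.1 ++ q.2) (by simp [hq1]) 0 (hpair q hq)).2
    linarith
  have hpB : ∀ q ∈ bs, -(2 * (p * s)) ≤ B q.1 + B q.2 := by
    intro q hq
    obtain ⟨hq1, hq2⟩ := hne q hq
    have a1 := h1 _ hq1
    have a2 := h1 _ hq2
    have a3 := h2 _ _ hq1 hq2
    have a4 := (h4 (q.1 ++ q.2) (by simp [hq1]) 0 (hpair q hq)).1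
    linarith
  -- all blocks of `w` are nonempty
  have hwne : ∀ β ∈ w, β ≠ [] := by
    intro β hβ
    rw [hw.mem_iff, List.mem_flatMap] at hβ
    obtain ⟨q, hq, hβ⟩ := hβ
    simp only [List.mem_cons, List.not_mem_nil, or_false] at hβ
    rcases hβ with rfl | rfl
    · exact (hne q hq).1
    · exact (hne q hq).2
  -- sums over concatenations
  have hsum : ∀ w : List (List (GF p)), w ≠ [] → (∀ β ∈ w, β ≠ []) →
      w.flatten ≠ [] ∧ T w.flatten ≤ (w.map T).sum ∧ (w.map B).sum ≤ B w.flatten := by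
    intro w
    induction w with
    | nil => intro h; exact absurd rfl h
    | cons β w ih =>
      intro _ hall
      have hβ : β ≠ [] := hall β (by simp)
      by_cases hw0 : w = []
      · subst hw0
        simp [hβ]
      · obtain ⟨g1, g2, g3⟩ := ih hw0 (fun γ hγ => hall γ (by simp [hγ]))
        refine ⟨by simp [hβ], ?_, ?_⟩
        · simp only [List.flatten_cons, List.map_cons, List.sum_cons]
          have := h2 β w.flatten hβ g1
          linarith
        · simp only [List.flatten_cons, List.map_cons, List.sum_cons]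
          have := h3 β w.flatten hβ g1
          linarith
  have hTsum : (w.map T).sum ≤ bs.length * (2 * (p * s)) := by
    rw [(hw.map T).sum_eq]
    clear hw hA hwne
    induction bs with
    | nil => simp
    | cons q bs ih =>
      have i1 := ih (fun q hq => hne q (by simp [hq])) (fun q hq => hpair q (by simp [hq]))
        (fun q hq => hpT q (by simp [hq])) (fun q hq => hpB q (by simp [hq]))
      have i2 := hpT q (by simp)
      simp only [List.flatMap_cons, List.cons_append, List.nil_append, List.map_cons,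
        List.sum_cons, List.length_cons, Nat.cast_add, Nat.cast_one]
      linarith
  have hBsum : -(bs.length * (2 * (p * s))) ≤ (w.map B).sum := by
    rw [(hw.map B).sum_eq]
    clear hw hA hwne hTsum
    induction bs with
    | nil => simp
    | cons q bs ih =>
      have i1 := ih (fun q hq => hne q (by simp [hq])) (fun q hq => hpair q (by simp [hq]))
        (fun q hq => hpT q (by simp [hq])) (fun q hq => hpB q (by simp [hq]))
      have i2 := hpB q (by simp)
      simp only [List.flatMap_cons, List.cons_append, List.nil_append, List.map_cons,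
        List.sum_cons, List.length_cons, Nat.cast_add, Nat.cast_one]
      linarith
  have hlen : (w.length : ℝ) = 2 * bs.length := by
    rw [hw.length_eq]
    have : (bs.flatMap fun q => [q.1, q.2]).length = 2 * bs.length := by
      clear hw hA hwne hTsum hBsum hpT hpB hpair hne
      induction bs with
      | nil => simp
      | cons q bs ih => simp only [List.flatMap_cons, List.length_append, List.length_cons,
          List.length_nil, ih]; ring
    rw [this]; push_cast; ring
  by_cases hw0 : w = []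
  · subst hw0
    have hcrit : IsCrit s (List.flatten ([] : List (List (GF p)))) ((fun _ => 0, fun _ => 0) : Pt) := by
      constructor
      · intro i; simp [gt]
      · intro i; simp [gr]
    have := hA _ hcrit
    simp [F] at this
    simp [← this]
  · obtain ⟨g1, g2, g3⟩ := hsum w hw0 hwne
    obtain ⟨k1, k2⟩ := h4 w.flatten g1 A hA
    rw [hlen, abs_le]
    constructor <;> nlinarith [hTsum, hBsum, g2, g3, k1, k2]

end Pool.Agent.Helper31.AP
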