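import Pool.Agent.Helper31.AP.Grad
import Pool.Agent.Helper31.AP.Htpy

/-! Module B2b: a unique critical value bounds the two levels -/

set_option autoImplicit false

namespace Pool.Agent.Helper31.AP

open Finset

variable {p : ℝ}

section iter

variable {T : Pt → Pt} {η Λ : ℝ}

theorem crit_iter_le {G : Pt → ℝ} (h : ∀ x, G (T x) ≤ G x) (j : ℕ) (x : Pt) :
    G (T^[j] x) ≤ G x := by
  induction j with
  | zero => simp
  | succ j ih => rw [Function.iterate_succ_apply']; exact (h _).trans ih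

theorem crit_iter_near (h : ∀ x, Near η x (T x)) (j : ℕ) (x : Pt) :
    Near (j * η) x (T^[j] x) := by
  induction j with
  | zero => simpa using Near.refl (le_refl (0 : ℝ)) x
  | succ j ih =>
    rw [Function.iterate_succ_apply']
    refine Near.mono (ih.trans (h _)) (le_of_eq ?_)
    push_cast; ring

theorem crit_iter_lip (h : ∀ x y ε, Near ε x y → Near ((1 + Λ * η) * ε) (T x) (T y)) (j : ℕ)
    (x y : Pt) (ε : ℝ) (hxy : Near ε x y) :
    Near ((1 + Λ * η) ^ j * ε) (T^[j] x) (T^[j] y) := by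
  induction j with
  | zero => simpa using hxy
  | succ j ih =>
    rw [Function.iterate_succ_apply', Function.iterate_succ_apply']
    refine Near.mono (h _ _ _ ih) (le_of_eq ?_)
    rw [pow_succ]; ring

theorem crit_prism_near (hn : ∀ x, Near η x (T x))
    (h : ∀ x y ε, Near ε x y → Near ((1 + Λ * η) * ε) (T x) (T y)) (hη : 0 ≤ η) (hΛ : 0 ≤ Λ)
    {m j : ℕ} (hj : j < m) {ε : ℝ} (hε : 0 ≤ ε) {x x' y y' : Pt} (hxx : Near ε x x')
    (hy : y = T^[j] x ∨ y = T^[j + 1] x) (hy' : y' = T^[j] x' ∨ y' = T^[j + 1] x') :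
    Near ((1 + Λ * η) ^ m * ε + η) y y' := by
  have hq : 1 ≤ 1 + Λ * η := by nlinarith
  have h0 := crit_iter_lip h j x x' ε hxx
  have e1 : (1 + Λ * η) ^ j * ε ≤ (1 + Λ * η) ^ m * ε :=
    mul_le_mul_of_nonneg_right (pow_le_pow_right₀ hq hj.le) hε
  have e2 : (1 + Λ * η) ^ (j + 1) * ε ≤ (1 + Λ * η) ^ m * ε :=
    mul_le_mul_of_nonneg_right (pow_le_pow_right₀ hq hj) hε
  rcases hy with rfl | rfl <;> rcases hy' with rfl | rfl
  · exact h0.mono (by linarith)
  · rw [Function.iterate_succ_apply']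
    exact (h0.trans (hn _)).mono (by linarith)
  · rw [Function.iterate_succ_apply']
    exact (h0.symm.trans (hn _)).symm.mono (by linarith)
  · exact (crit_iter_lip h (j + 1) x x' ε hxx).mono (by linarith)

end iter

theorem crit_push_id {X : Type*} (z : Ch X) : push (id : X → X) z = z := by
  unfold push
  rw [List.map_id_fun]
  exact Finsupp.mapDomain_id

/-- supports of the boundary -/
theorem crit_supp_bd {X : Type*} {P Q : List X → Prop} {z : Ch X} (hz : SuppIn P z)
    (h : ∀ l l', P l → l'.length + 1 = l.length → (∀ x ∈ l', x ∈ l) → Q l') :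
    SuppIn Q (bd z) := by
  unfold bd
  exact hz.lin bdL fun l hl => (bdL_supp l).mono fun l' hl' => h l l' hl hl'.1 hl'.2

theorem crit_supp_and {X : Type*} {P Q : List X → Prop} {z : Ch X} (hP : SuppIn P z)
    (hQ : SuppIn Q z) : SuppIn (fun l => P l ∧ Q l) z := fun l hl => ⟨hP l hl, hQ l hl⟩

theorem crit_F_iter {s a δ A μ η : ℝ} {β : List (GF p)} {T : Pt → Pt}
    (h1 : ∀ x, F s β (T x) ≤ F s β x)
    (h2 : ∀ x, δ ≤ |F s β x - A| → F s β (T x) ≤ F s β x - η * μ)
    (b : ℝ) (hb : ∀ x, b < F s β x → F s β x ≤ a → δ ≤ |F s β x - A|) (j : ℕ) (x : Pt)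
    (hx : F s β x ≤ a) : F s β (T^[j] x) ≤ max b (a - j * (η * μ)) := by
  induction j with
  | zero => simp [hx]
  | succ j ih =>
    rw [Function.iterate_succ_apply']
    by_cases h : F s β (T^[j] x) ≤ b
    · exact le_max_of_le_left ((h1 _).trans h)
    · push Not at h
      have h3 : F s β (T^[j] x) ≤ a - j * (η * μ) := by
        rcases le_max_iff.mp ih with h' | h'
        · exact absurd h' (not_le.mpr h)
        · exact h'
      have h4 : F s β (T^[j] x) ≤ a := (crit_iter_le h1 j x).trans hx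
      have h5 := h2 _ (hb _ h h4)
      refine le_max_of_le_right (h5.trans ?_)
      push_cast
      nlinarith

/-- `E us` vanishes on small lists with all values of `F` below `-C₀` -/
theorem crit_us_zero {s C₀ : ℝ} {β : List (GF p)}
    (hC : ∀ (l : List Pt) (ε : ℝ), ε ≤ 1 →
      (∀ x ∈ l, ∀ y ∈ l, Near ε x y) → E (vs s (β.length - 1)) l ≠ 0 →
      ∀ x ∈ l, -C₀ ≤ F s β x) (l : List Pt) (hl : ∀ x ∈ l, ∀ y ∈ l, Near 1 x y)
    (hF : ∀ x ∈ l, F s β x < -C₀) : E (us s (β.length - 1)) l = 0 := by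
  by_contra h
  rw [us, E_append, cup, vs_length] at h
  have h1 := left_ne_zero_of_mul h
  have h2 := E_length _ _ h1
  have h3 : (l.take (β.length - 1 + 1)) ≠ [] := by
    intro h4
    rw [h4] at h2
    simp at h2
  obtain ⟨x, hx⟩ := List.exists_mem_of_ne_nil _ h3
  have h5 := hC _ 1 le_rfl (fun x hx y hy => hl x (List.mem_of_mem_take hx) y
    (List.mem_of_mem_take hy)) h1 x hx
  exact absurd (hF x (List.mem_of_mem_take hx)) (not_lt.mpr h5)

theorem crit_vs_zero {s C₀ : ℝ} {β : List (GF p)}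
    (hC : ∀ (l : List Pt) (ε : ℝ), ε ≤ 1 →
      (∀ x ∈ l, ∀ y ∈ l, Near ε x y) → E (vs s (β.length - 1)) l ≠ 0 →
      ∀ x ∈ l, -C₀ ≤ F s β x) (l : List Pt) (hl : ∀ x ∈ l, ∀ y ∈ l, Near 1 x y)
    (hF : ∀ x ∈ l, F s β x < -C₀) : E (vs s (β.length - 1)) l = 0 := by
  by_contra h
  have h2 := E_length _ _ h
  have h3 : l ≠ [] := by
    intro h4
    rw [h4] at h2
    simp at h2
  obtain ⟨x, hx⟩ := List.exists_mem_of_ne_nil _ h3
  exact absurd (hF x hx) (not_lt.mpr (hC _ 1 le_rfl hl h x hx))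

/-- `E us` vanishes if the last cut is constant -/
theorem crit_last_const {s : ℝ} {n : ℕ} (l : List Pt) (c : ZMod 2)
    (h : ∀ x ∈ l, neg1 (x.1 n) = c) : E (us s n) l = 0 := by
  by_contra h0
  obtain ⟨a, ha, b, hb, hab⟩ := E_jump (us s n) l h0 n (by rw [us_length]; omega)
  apply hab
  have e : (us s n)[n]'(by rw [us_length]; omega) = fun x : Pt => neg1 (x.1 n) := by
    simp only [us]
    rw [List.getElem_append_right (by rw [vs_length])]
    simp [vs_length]
  rw [e]
  simp only [h a ha, h b hb]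

theorem crit_T (hp : 0 < p) (s : ℝ) (β : List (GF p)) (hβ : β ≠ []) (A : ℝ)
    (hA : ∀ x, IsCrit s β x → F s β x = A) (a : ℝ) (h : EssT s β a) : A ≤ a := by
  by_contra hlt
  push Not at hlt
  obtain ⟨μ, Λ, η₀, hμ, hΛ, hη₀, hT⟩ := grad_push hp s β hβ A hA (A - a) (by linarith)
  obtain ⟨C₀, hC₀, hC⟩ := F_lower s β
  set η : ℝ := min η₀ (1 / 2) with hη
  have hη1 : 0 < η := lt_min hη₀ (by norm_num)
  have hη2 : η ≤ 1 / 2 := min_le_right _ _
  obtain ⟨T, hT1, hT2, hT3, hT4⟩ := hT η hη1 (min_le_left _ _)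
  have hημ : 0 < η * μ := mul_pos hη1 hμ
  obtain ⟨m, hm⟩ := exists_nat_ge ((a + C₀ + 1) / (η * μ))
  have hm' : a - m * (η * μ) ≤ -C₀ - 1 := by
    rw [div_le_iff₀ hημ] at hm
    linarith
  have hq : 1 ≤ 1 + Λ * η := by nlinarith
  have hqm : 0 < (1 + Λ * η) ^ m := by positivity
  obtain ⟨K, hK⟩ := h (C₀ + 1) (m * η + 1)
  set ε : ℝ := 1 / 2 / (1 + Λ * η) ^ m with hε
  have hε0 : 0 < ε := by positivity
  have hε1 : (1 + Λ * η) ^ m * ε = 1 / 2 := by
    rw [hε]; field_simp
  obtain ⟨z, hz1, hz2, hz3⟩ := hK ε hε0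
  have hε2 : (1 + Λ * η) ^ m * ε + η ≤ 1 := by rw [hε1]; linarith
  -- lists of the boundary are small
  have hbd : SuppIn (fun l : List Pt => (∀ x ∈ l, ∀ y ∈ l, Near ε x y)) (bd z) :=
    crit_supp_bd hz1 fun l l' hl _ h2 x hx y hy => hl.2.1.2 x (h2 x hx) y (h2 y hy)
  have hbd2 := crit_supp_and hbd hz2
  have key := bd_htpy (fun j => T^[j]) m z
  have k0 : push (T^[0]) z = z := crit_push_id z
  have k1 : ev (E (us s (β.length - 1))) (bd (htpy (fun j => T^[j]) m z)) = 0 := ev_E_bd _ _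
  have k2 : ev (E (us s (β.length - 1))) (htpy (fun j => T^[j]) m (bd z)) = 0 := by
    refine ev_eq_zero (SuppIn.htpy (Q := fun l' => E (us s (β.length - 1)) l' = 0) hbd2 _ _ ?_)
      (fun l hl => hl)
    intro l hl j hj l' _ hmem
    have hnear : ∀ y ∈ l', ∀ y' ∈ l', Near 1 y y' := by
      intro y hy y' hy'
      obtain ⟨x, hx, hxy⟩ := hmem y hy
      obtain ⟨x', hx', hxy'⟩ := hmem y' hy'
      exact (crit_prism_near hT3 hT4 hη1.le hΛ hj hε0.le (hl.1 x hx x' hx') hxy hxy').mono hε2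
    have hdist : ∀ y ∈ l', ∃ x ∈ l, Near (m * η) x y ∧ F s β y ≤ F s β x := by
      intro y hy
      obtain ⟨x, hx, hxy⟩ := hmem y hy
      refine ⟨x, hx, ?_⟩
      rcases hxy with rfl | rfl
      · refine ⟨(crit_iter_near hT3 j x).mono ?_, crit_iter_le hT1 j x⟩
        have : (j : ℝ) ≤ m := by exact_mod_cast hj.le
        exact mul_le_mul_of_nonneg_right this hη1.le
      · refine ⟨(crit_iter_near hT3 (j + 1) x).mono ?_, crit_iter_le hT1 (j + 1) x⟩
        have : ((j + 1 : ℕ) : ℝ) ≤ m := by exact_mod_cast hj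
        exact mul_le_mul_of_nonneg_right this hη1.le
    rcases hl.2 with hl2 | hl2 | hl2
    · refine crit_us_zero hC l' hnear fun y hy => ?_
      obtain ⟨x, hx, -, h2⟩ := hdist y hy
      have := hl2 x hx
      linarith
    · refine crit_last_const l' 0 fun y hy => ?_
      obtain ⟨x, hx, h1, -⟩ := hdist y hy
      have h3 := hl2 x hx
      have h4 := abs_le.mp (h1 (β.length - 1)).1
      have h5 : ¬ (y.1 (β.length - 1) < 0) := by linarith
      simp [neg1, h5]
    · refine crit_last_const l' 1 fun y hy => ?_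
      obtain ⟨x, hx, h1, -⟩ := hdist y hy
      have h3 := hl2 x hx
      have h4 := abs_le.mp (h1 (β.length - 1)).1
      have h5 : y.1 (β.length - 1) < 0 := by linarith
      simp [neg1, h5]
  have k3 : ev (E (us s (β.length - 1))) (push (T^[m]) z) = 0 := by
    refine ev_eq_zero (SuppIn.push (Q := fun l' => E (us s (β.length - 1)) l' = 0) hz1 _ ?_)
      (fun l hl => hl)
    intro l hl
    refine crit_us_zero hC _ ?_ ?_
    · intro y hy y' hy'
      obtain ⟨x, hx, rfl⟩ := List.mem_map.mp hy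
      obtain ⟨x', hx', rfl⟩ := List.mem_map.mp hy'
      exact (crit_iter_lip hT4 m x x' ε (hl.2.1.2 x hx x' hx')).mono (by linarith)
    · intro y hy
      obtain ⟨x, hx, rfl⟩ := List.mem_map.mp hy
      have h1 := crit_F_iter hT1 hT2 (-C₀ - 1) (a := a) (fun y _ hy2 => by
        rw [abs_sub_comm]
        exact (by linarith : A - a ≤ A - F s β y).trans (le_abs_self _)) m x (hl.2.2 x hx)
      have h2 : max (-C₀ - 1) (a - m * (η * μ)) = -C₀ - 1 := max_eq_left hm'
      rw [h2] at h1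
      linarith
  have k4 := congrArg (ev (E (us s (β.length - 1)))) key
  simp only [map_add] at k4
  rw [k1, k2, k0, k3, hz3] at k4
  simp at k4

theorem crit_B (hp : 0 < p) (s : ℝ) (β : List (GF p)) (hβ : β ≠ []) (A : ℝ)
    (hA : ∀ x, IsCrit s β x → F s β x = A) (a₀ : ℝ) (h : EssB s β a₀) (δ : ℝ) (hδ : 0 < δ) :
    EssB s β (A + δ) := by
  intro C
  obtain ⟨μ, Λ, η₀, hμ, hΛ, hη₀, hT⟩ := grad_push hp s β hβ A hA δ hδ
  obtain ⟨C₀, hC₀, hC⟩ := F_lower s β
  set η : ℝ := min η₀ (1 / 2) with hη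
  have hη1 : 0 < η := lt_min hη₀ (by norm_num)
  have hη2 : η ≤ 1 / 2 := min_le_right _ _
  obtain ⟨T, hT1, hT2, hT3, hT4⟩ := hT η hη1 (min_le_left _ _)
  have hημ : 0 < η * μ := mul_pos hη1 hμ
  obtain ⟨m, hm⟩ := exists_nat_ge ((a₀ - A - δ) / (η * μ))
  have hm' : a₀ - m * (η * μ) ≤ A + δ := by
    rw [div_le_iff₀ hημ] at hm
    linarith
  have hq : 1 ≤ 1 + Λ * η := by nlinarith
  have hqm : 0 < (1 + Λ * η) ^ m := by positivity
  obtain ⟨K, hK⟩ := h (max C (C₀ + 1))
  refine ⟨K + m * η, fun ε' hε' => ?_⟩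
  set ε : ℝ := min ε' (1 / 2) / (1 + Λ * η) ^ m with hε
  have hε00 : 0 < min ε' (1 / 2) := lt_min hε' (by norm_num)
  have hε0 : 0 < ε := by positivity
  have hε1 : (1 + Λ * η) ^ m * ε = min ε' (1 / 2) := by
    rw [hε]; field_simp
  have hε3 : (1 + Λ * η) ^ m * ε ≤ ε' := by rw [hε1]; exact min_le_left _ _
  have hε2 : (1 + Λ * η) ^ m * ε + η ≤ 1 := by
    rw [hε1]
    have := min_le_right ε' (1 / 2)
    linarith
  obtain ⟨z, hz1, hz2, hz3⟩ := hK ε hε0
  refine ⟨push (T^[m]) z, ?_, ?_, ?_⟩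
  · refine SuppIn.push hz1 _ ?_
    rintro l ⟨hl1, hl2, hl3⟩
    refine ⟨by rw [List.length_map, hl1], ⟨?_, ?_⟩, ?_⟩
    · intro y hy
      obtain ⟨x, hx, rfl⟩ := List.mem_map.mp hy
      intro i
      have h1 := hl2.1 x hx i
      have h2 := crit_iter_near hT3 m x i
      constructor
      · have h3 := abs_sub_abs_le_abs_sub ((T^[m] x).1 i) (x.1 i)
        rw [abs_sub_comm] at h3
        linarith [h1.1, h2.1]
      · have h3 := abs_sub_abs_le_abs_sub ((T^[m] x).2 i) (x.2 i)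
        rw [abs_sub_comm] at h3
        linarith [h1.2, h2.2]
    · intro y hy y' hy'
      obtain ⟨x, hx, rfl⟩ := List.mem_map.mp hy
      obtain ⟨x', hx', rfl⟩ := List.mem_map.mp hy'
      exact (crit_iter_lip hT4 m x x' ε (hl2.2 x hx x' hx')).mono hε3
    · intro y hy
      obtain ⟨x, hx, rfl⟩ := List.mem_map.mp hy
      have h1 := crit_F_iter hT1 hT2 (A + δ) (a := a₀) (fun y hy _ => by
        exact (by linarith : δ ≤ F s β y - A).trans (le_abs_self _)) m x (hl3 x hx)
      rwa [max_eq_left hm'] at h1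
  · rw [bd_push]
    refine SuppIn.push hz2 _ ?_
    intro l hl y hy
    obtain ⟨x, hx, rfl⟩ := List.mem_map.mp hy
    have h1 := crit_iter_le hT1 m x
    have h2 := hl x hx
    have h3 := le_max_left C (C₀ + 1)
    linarith
  · have hbd : SuppIn (fun l : List Pt => (∀ x ∈ l, ∀ y ∈ l, Near ε x y)) (bd z) :=
      crit_supp_bd hz1 fun l l' hl _ h2 x hx y hy => hl.2.1.2 x (h2 x hx) y (h2 y hy)
    have hbd2 := crit_supp_and hbd hz2
    have key := bd_htpy (fun j => T^[j]) m z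
    have k0 : push (T^[0]) z = z := crit_push_id z
    have k1 : ev (E (vs s (β.length - 1))) (bd (htpy (fun j => T^[j]) m z)) = 0 := ev_E_bd _ _
    have k2 : ev (E (vs s (β.length - 1))) (htpy (fun j => T^[j]) m (bd z)) = 0 := by
      refine ev_eq_zero (SuppIn.htpy (Q := fun l' => E (vs s (β.length - 1)) l' = 0) hbd2 _ _ ?_)
        (fun l hl => hl)
      intro l hl j hj l' _ hmem
      refine crit_vs_zero hC l' ?_ ?_
      · intro y hy y' hy'
        obtain ⟨x, hx, hxy⟩ := hmem y hy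
        obtain ⟨x', hx', hxy'⟩ := hmem y' hy'
        exact (crit_prism_near hT3 hT4 hη1.le hΛ hj hε0.le (hl.1 x hx x' hx') hxy hxy').mono hε2
      · intro y hy
        obtain ⟨x, hx, hxy⟩ := hmem y hy
        have h1 := hl.2 x hx
        have h2 : F s β y ≤ F s β x := by
          rcases hxy with rfl | rfl
          · exact crit_iter_le hT1 j x
          · exact crit_iter_le hT1 (j + 1) x
        have h3 := le_max_right C (C₀ + 1)
        linarith
    have k4 := congrArg (ev (E (vs s (β.length - 1)))) key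
    simp only [map_add] at k4
    rw [k1, k2, k0, hz3] at k4
    have k5 : ∀ t : ZMod 2, 0 + 0 = 1 + t → t = 1 := by decide
    exact k5 _ k4

end Pool.Agent.Helper31.AP
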