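import Mathlib

/-!
# MP_e8131c_gt (S14156): `Diff(ℝ², dx ∧ dy)` is not perfect -- definitions

Plan: `/team-store/MP_e8131c_gt-plan.md`.
-/

set_option autoImplicit false

namespace Pool.Agent.Helper31.AP

open Finset

/-! ## Part A. Chains of ordered tuples (lists), coefficients in `ZMod 2` -/

section chains

variable {X Y : Type*}

/-- mod 2 chains: finite formal sums of lists (ordered tuples, unnormalized, augmented) -/
abbrev Ch (X : Type*) := List X →₀ ZMod 2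

/-- prepend the point `a` to every list of a chain -/
noncomputable def consM (a : X) : Ch X →ₗ[ZMod 2] Ch X :=
  Finsupp.lmapDomain (ZMod 2) (ZMod 2) (List.cons a)

/-- boundary of a list: the sum of all its faces (`∂[a] = []`, `∂[] = 0`) -/
noncomputable def bdL : List X → Ch X
  | [] => 0
  | a :: l => Finsupp.single l 1 + consM a (bdL l)

/-- boundary operator -/
noncomputable def bd : Ch X →ₗ[ZMod 2] Ch X := Finsupp.linearCombination (ZMod 2) bdL

/-- evaluation of a cochain on a chain -/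
noncomputable def ev (c : List X → ZMod 2) : Ch X →ₗ[ZMod 2] ZMod 2 :=
  Finsupp.linearCombination (ZMod 2) c

/-- coboundary -/
noncomputable def cob (c : List X → ZMod 2) (l : List X) : ZMod 2 := ev c (bdL l)

/-- cup product with a cochain of degree `k` (lists of length `k+1`) on the left -/
def cup (k : ℕ) (c c' : List X → ZMod 2) (l : List X) : ZMod 2 :=
  c (l.take (k + 1)) * c' (l.drop k)

/-- `E [h₀,…,h_{n-1}]` is the cup product `δh₀ ∪ … ∪ δh_{n-1}`; it is nonzero only on lists of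
length `n + 1`. -/
def E : List (X → ZMod 2) → List X → ZMod 2
  | [], [_] => 1
  | h :: hs, a :: b :: l => (h a + h b) * E hs (b :: l)
  | _, _ => 0

/-- all lists in the support of `z` satisfy `P` -/
def SuppIn (P : List X → Prop) (z : Ch X) : Prop := ∀ l ∈ z.support, P l

/-- push-forward of chains -/
noncomputable def push (f : X → Y) : Ch X →ₗ[ZMod 2] Ch Y :=
  Finsupp.lmapDomain (ZMod 2) (ZMod 2) (List.map f)

/-- prism of a list between `f` and `g` -/
noncomputable def prismL (f g : X → Y) : List X → Ch Y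
  | [] => 0
  | x :: xs => Finsupp.single (f x :: g x :: xs.map g) 1 + consM (f x) (prismL f g xs)

/-- prism operator -/
noncomputable def prism (f g : X → Y) : Ch X →ₗ[ZMod 2] Ch Y :=
  Finsupp.linearCombination (ZMod 2) (prismL f g)

/-- the sum of the prisms between `f j` and `f (j+1)` for `j < m` -/
noncomputable def htpy (f : ℕ → X → Y) (m : ℕ) : Ch X →ₗ[ZMod 2] Ch Y :=
  ∑ j ∈ range m, prism (f j) (f (j + 1))

/-- shuffle product of two lists -/
noncomputable def shL : List X → List Y → Ch (X × Y)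
  | [], _ => 0
  | _ :: _, [] => 0
  | [x], [y] => Finsupp.single [(x, y)] 1
  | x :: x' :: xs, [y] => consM (x, y) (shL (x' :: xs) [y])
  | [x], y :: y' :: ys => consM (x, y) (shL [x] (y' :: ys))
  | x :: x' :: xs, y :: y' :: ys =>
      consM (x, y) (shL (x' :: xs) (y :: y' :: ys) + shL (x :: x' :: xs) (y' :: ys))
termination_by l l' => l.length + l'.length

/-- shuffle product of chains -/
noncomputable def sh : Ch X →ₗ[ZMod 2] Ch Y →ₗ[ZMod 2] Ch (X × Y) :=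
  Finsupp.linearCombination (ZMod 2) fun l => Finsupp.linearCombination (ZMod 2) (shL l)

end chains

/-! ## Part B. Generating functions and the block functional -/

/-- Generating function data of period `p` (mixed variables: output angle `θ`, input action `ρ`).
`Wt`, `Wr` are the partial derivatives in `θ`, `ρ`. -/
structure GF (p : ℝ) where
  /-- the function -/
  W : ℝ → ℝ → ℝ
  /-- derivative in the angle -/
  Wt : ℝ → ℝ → ℝ
  /-- derivative in the action -/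
  Wr : ℝ → ℝ → ℝ
  /-- second order bound -/
  L : ℝ
  /-- bound -/
  M : ℝ
  L_nonneg : 0 ≤ L
  M_nonneg : 0 ≤ M
  taylor : ∀ θ ρ a b, |W (θ + a) (ρ + b) - W θ ρ - (a * Wt θ ρ + b * Wr θ ρ)| ≤ L * (a ^ 2 + b ^ 2)
  lipt : ∀ θ ρ θ' ρ', |Wt θ' ρ' - Wt θ ρ| ≤ L * (|θ' - θ| + |ρ' - ρ|)
  lipr : ∀ θ ρ θ' ρ', |Wr θ' ρ' - Wr θ ρ| ≤ L * (|θ' - θ| + |ρ' - ρ|)
  bW : ∀ θ ρ, |W θ ρ| ≤ M
  bt : ∀ θ ρ, |Wt θ ρ| ≤ M
  br : ∀ θ ρ, |Wr θ ρ| ≤ M
  per : ∀ θ ρ, W (θ + p) ρ = W θ ρ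
  pert : ∀ θ ρ, Wt (θ + p) ρ = Wt θ ρ
  perr : ∀ θ ρ, Wr (θ + p) ρ = Wr θ ρ
  low : ∀ θ ρ, ρ ≤ 1 → W θ ρ = 0
  pos : ∀ θ ρ σ, 0 ≤ ρ → 0 ≤ σ → W (θ - σ) ρ - W θ ρ ≤ ρ * σ

instance (p : ℝ) : Inhabited (GF p) :=
  ⟨{ W := fun _ _ => 0, Wt := fun _ _ => 0, Wr := fun _ _ => 0, L := 0, M := 0
     L_nonneg := le_refl _, M_nonneg := le_refl _
     taylor := by intro θ ρ a b; simp
     lipt := by intro θ ρ a b; simp
     lipr := by intro θ ρ a b; simp
     bW := by intro θ ρ; simp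
     bt := by intro θ ρ; simp
     br := by intro θ ρ; simp
     per := by intro θ ρ; rfl
     pert := by intro θ ρ; rfl
     perr := by intro θ ρ; rfl
     low := by intro θ ρ _; rfl
     pos := by intro θ ρ σ h1 h2; simpa using mul_nonneg h1 h2 }⟩

/-- points: sequences of angles `x.1` and actions `x.2` (`x.2 0` is never used; a block of length
`n+1` only uses `x.1 0..n` and `x.2 1..n`) -/
abbrev Pt := (ℕ → ℝ) × (ℕ → ℝ)

/-- radius entering step `i`: `s` for `i = 0` and `ρ_i` otherwise -/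
noncomputable def rad (s : ℝ) (x : Pt) (i : ℕ) : ℝ := if i = 0 then s else x.2 i

variable {p : ℝ}

/-- the functional of the block `β` (nonempty list of generating functions) at level `s` -/
noncomputable def F (s : ℝ) (β : List (GF p)) (x : Pt) : ℝ :=
  ∑ i ∈ range β.length, (β.getD i default).W (x.1 i) (rad s x i) +
    ∑ i ∈ range (β.length - 1), (x.2 (i + 1) - s) * (x.1 (i + 1) - x.1 i)

/-- `θ_i`-derivative of `F` -/
noncomputable def gt (s : ℝ) (β : List (GF p)) (x : Pt) (i : ℕ) : ℝ :=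
  if i < β.length then
    (β.getD i default).Wt (x.1 i) (rad s x i) + (rad s x i - s) -
      (if i + 1 < β.length then x.2 (i + 1) - s else 0)
  else 0

/-- `ρ_i`-derivative of `F` -/
noncomputable def gr (β : List (GF p)) (x : Pt) (i : ℕ) : ℝ :=
  if 1 ≤ i ∧ i < β.length then
    (β.getD i default).Wr (x.1 i) (x.2 i) + (x.1 i - x.1 (i - 1))
  else 0

/-- critical points of `F` -/
def IsCrit (s : ℝ) (β : List (GF p)) (x : Pt) : Prop := (∀ i, gt s β x i = 0) ∧ ∀ i, gr β x i = 0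

/-- `1[t < 0]` -/
noncomputable def neg1 (t : ℝ) : ZMod 2 := if t < 0 then 1 else 0

/-- `v_i = (θ_{i+1} - θ_i) - (ρ_{i+1} - s)` -/
noncomputable def vv (s : ℝ) (i : ℕ) (x : Pt) : ℝ := (x.1 (i + 1) - x.1 i) - (x.2 (i + 1) - s)

/-- cuts for the bottom class: `1[v_i < 0]`, `i < n` -/
noncomputable def vs (s : ℝ) (n : ℕ) : List (Pt → ZMod 2) :=
  (List.range n).map fun i x => neg1 (vv s i x)

/-- cuts for the top class: additionally `1[θ_n < 0]` -/
noncomputable def us (s : ℝ) (n : ℕ) : List (Pt → ZMod 2) := vs s n ++ [fun x => neg1 (x.1 n)]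

/-- all coordinates differ by at most `ε` -/
def Near (ε : ℝ) (x y : Pt) : Prop := ∀ i, |x.1 i - y.1 i| ≤ ε ∧ |x.2 i - y.2 i| ≤ ε

/-- all coordinates are bounded by `K` -/
def Bdd (K : ℝ) (x : Pt) : Prop := ∀ i, |x.1 i| ≤ K ∧ |x.2 i| ≤ K

/-- a small list: bounded by `K`, pairwise `ε`-near -/
def Sm (ε K : ℝ) (l : List Pt) : Prop := (∀ x ∈ l, Bdd K x) ∧ ∀ x ∈ l, ∀ y ∈ l, Near ε x y

/-- `{F ≤ a}` carries the bottom class -/
def EssB (s : ℝ) (β : List (GF p)) (a : ℝ) : Prop :=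
  ∀ C : ℝ, ∃ K : ℝ, ∀ ε : ℝ, 0 < ε → ∃ z : Ch Pt,
    SuppIn (fun l => l.length = β.length ∧ Sm ε K l ∧ ∀ x ∈ l, F s β x ≤ a) z ∧
    SuppIn (fun l => ∀ x ∈ l, F s β x ≤ -C) (bd z) ∧
    ev (E (vs s (β.length - 1))) z = 1

/-- `{F ≤ a}` carries the top class -/
def EssT (s : ℝ) (β : List (GF p)) (a : ℝ) : Prop :=
  ∀ C R : ℝ, ∃ K : ℝ, ∀ ε : ℝ, 0 < ε → ∃ z : Ch Pt,
    SuppIn (fun l => l.length = β.length + 1 ∧ Sm ε K l ∧ ∀ x ∈ l, F s β x ≤ a) z ∧
    SuppIn (fun l => (∀ x ∈ l, F s β x ≤ -C) ∨ (∀ x ∈ l, R ≤ x.1 (β.length - 1)) ∨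
      (∀ x ∈ l, x.1 (β.length - 1) ≤ -R)) (bd z) ∧
    ev (E (us s (β.length - 1))) z = 1

/-- forget the first `k` steps -/
def shiftPt (k : ℕ) (x : Pt) : Pt := (fun i => x.1 (k + i), fun i => x.2 (k + i))

/-- add `c` to all angles -/
def addAng (c : ℝ) (x : Pt) : Pt := (fun i => x.1 i + c, x.2)

/-! ## Part C. Planar geometry -/

/-- the plane -/
abbrev V := Fin 2 → ℝ

/-- area preserving smooth diffeomorphisms of the plane -/
def IsAP (f : Equiv.Perm V) : Prop :=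
  ContDiff ℝ ((⊤ : ℕ∞) : WithTop ℕ∞) (⇑f) ∧
    ContDiff ℝ ((⊤ : ℕ∞) : WithTop ℕ∞) (⇑(Equiv.symm f)) ∧
      ∀ x : V, LinearMap.det ((fderiv ℝ (⇑f) x : V →L[ℝ] V) : V →ₗ[ℝ] V) = 1

/-- the Liouville form `(x dy - y dx)/2` -/
noncomputable def lam (x v : V) : ℝ := (x 0 * v 1 - x 1 * v 0) / 2

/-- `ρ = |x|²/2` (Euclidean norm) -/
noncomputable def hsq (x : V) : ℝ := (x 0 ^ 2 + x 1 ^ 2) / 2

/-- polar coordinates `(θ, ρ)`, `dx ∧ dy = dρ ∧ dθ` -/
noncomputable def pol (θ ρ : ℝ) : V := ![√(2 * ρ) * Real.cos θ, √(2 * ρ) * Real.sin θ]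

/-- Euclidean inner product of `x` and `k x` -/
noncomputable def dotk (k : V → V) (x : V) : ℝ := x 0 * k x 0 + x 1 * k x 1

/-- angle from `x` to `k x` (correct when the inner product of `x` and `k x` is positive) -/
noncomputable def ang (k : V → V) (x : V) : ℝ :=
  Real.arctan ((x 0 * k x 1 - x 1 * k x 0) / dotk k x)

/-- `F` is a primitive of `k^*λ - λ` -/
def IsPrim (k : V → V) (Φ : V → ℝ) : Prop :=
  ContDiff ℝ ((⊤ : ℕ∞) : WithTop ℕ∞) Φ ∧
    ∀ x v : V, fderiv ℝ Φ x v = lam (k x) (fderiv ℝ k x v) - lam x v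

/-- `k` is `δ`-close to the identity in `C¹` on the ball of radius `M` (sup norm) -/
def Small (δ M : ℝ) (k : V → V) : Prop :=
  ∀ x : V, ‖x‖ ≤ M → ‖k x - x‖ ≤ δ ∧ ‖fderiv ℝ k x - ContinuousLinearMap.id ℝ V‖ ≤ δ

/-- position after the first `j` maps of the list have been applied (in the order of the list) -/
def run (l : List (Equiv.Perm V)) (j : ℕ) (x : V) : V := (l.take j).foldl (fun y k => k y) x

/-- `a` decomposes into arbitrarily small pieces with controlled partial products -/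
def Frag (a : Equiv.Perm V) : Prop :=
  ∃ B : ℝ → ℝ, Monotone B ∧ ∀ δ : ℝ, 0 < δ → ∀ M : ℝ, ∃ l : List (Equiv.Perm V),
    (∀ k ∈ l, IsAP k ∧ Small δ M k ∧ Small δ M k.symm) ∧
    (∀ x, run l l.length x = a x) ∧
    ∀ j x, ‖run l j x‖ ≤ B ‖x‖ ∧ ‖x‖ ≤ B ‖run l j x‖

/-- `W` is a generating function of `k` (with primitive `Φ`) in the region `2 < ρ < m` -/
def Gen (m : ℝ) (k : V → V) (Φ : V → ℝ) (W : GF (2 * Real.pi)) : Prop :=
  ∀ ρ, 2 < ρ → ρ < m →
    (∀ θ, 0 < dotk k (pol θ ρ)) ∧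
    (∀ Θ : ℝ, ∃ θ : ℝ, Θ = θ + ang k (pol θ ρ)) ∧
    ∀ θ,
      W.W (θ + ang k (pol θ ρ)) ρ = Φ (pol θ ρ) - ρ * ang k (pol θ ρ) ∧
      W.Wt (θ + ang k (pol θ ρ)) ρ = hsq (k (pol θ ρ)) - ρ ∧
      W.Wr (θ + ang k (pol θ ρ)) ρ = -ang k (pol θ ρ)

/-- the counterexample: rotation of `x` by the angle `|x|²/2` -/
noncomputable def rot (t : ℝ) (x : V) : V :=
  ![x 0 * Real.cos t - x 1 * Real.sin t, x 0 * Real.sin t + x 1 * Real.cos t]

/-- the map `f₀` -/
noncomputable def f0 (x : V) : V := rot (hsq x) x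

end Pool.Agent.Helper31.AP
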