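import Pool.Agent.Helper31.AP.Alg

/-! Module B1: basic properties of the block functional `F` -/

set_option autoImplicit false

namespace Pool.Agent.Helper31.AP

open Finset

variable {p : ℝ}

/-- common bounds for all generating functions of a list -/
theorem exists_bounds (β : List (GF p)) :
    ∃ L M : ℝ, 0 ≤ L ∧ 0 ≤ M ∧ ∀ i, (β.getD i default).L ≤ L ∧ (β.getD i default).M ≤ M := by
  induction β with
  | nil =>
    refine ⟨0, 0, le_refl _, le_refl _, fun i => ?_⟩
    simp only [List.getD_nil]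
    exact ⟨le_refl _, le_refl _⟩
  | cons g β ih =>
    obtain ⟨L, M, hL, hM, h⟩ := ih
    have h1 := g.L_nonneg
    have h2 := g.M_nonneg
    refine ⟨g.L + L, g.M + M, by linarith, by linarith, fun i => ?_⟩
    cases i with
    | zero =>
      simp only [List.getD_cons_zero]
      exact ⟨by linarith, by linarith⟩
    | succ i =>
      simp only [List.getD_cons_succ]
      have := h i
      exact ⟨by linarith [this.1], by linarith [this.2]⟩

/-- Lipschitz bound of one generating function -/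
theorem GF.lipW (g : GF p) : ∃ Λ : ℝ, 0 ≤ Λ ∧ ∀ θ ρ θ' ρ' : ℝ,
    |g.W θ' ρ' - g.W θ ρ| ≤ Λ * (|θ' - θ| + |ρ' - ρ|) := by
  have hL := g.L_nonneg
  have hM := g.M_nonneg
  refine ⟨2 * g.M + g.L, by linarith, fun θ ρ θ' ρ' => ?_⟩
  set a := θ' - θ with ha
  set b := ρ' - ρ with hb
  have ha0 := abs_nonneg a
  have hb0 := abs_nonneg b
  rcases le_total (|a| + |b|) 1 with h | h
  · have h1 := g.taylor θ ρ a b
    have e1 : θ + a = θ' := by rw [ha]; ring
    have e2 : ρ + b = ρ' := by rw [hb]; ring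
    rw [e1, e2] at h1
    have h2 : |a * g.Wt θ ρ + b * g.Wr θ ρ| ≤ |a| * g.M + |b| * g.M := by
      refine (abs_add_le _ _).trans ?_
      rw [abs_mul, abs_mul]
      exact add_le_add (mul_le_mul_of_nonneg_left (g.bt θ ρ) ha0)
        (mul_le_mul_of_nonneg_left (g.br θ ρ) hb0)
    have h3 : |g.W θ' ρ' - g.W θ ρ| ≤ g.L * (a ^ 2 + b ^ 2) + (|a| * g.M + |b| * g.M) := by
      have : g.W θ' ρ' - g.W θ ρ = (g.W θ' ρ' - g.W θ ρ - (a * g.Wt θ ρ + b * g.Wr θ ρ)) +
        (a * g.Wt θ ρ + b * g.Wr θ ρ) := by ring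
      rw [this]
      exact (abs_add_le _ _).trans (add_le_add h1 h2)
    have h4 : a ^ 2 + b ^ 2 ≤ |a| + |b| := by
      rw [← sq_abs a, ← sq_abs b]
      nlinarith
    have h5 : g.L * (a ^ 2 + b ^ 2) ≤ g.L * (|a| + |b|) := mul_le_mul_of_nonneg_left h4 hL
    nlinarith [mul_nonneg hM ha0, mul_nonneg hM hb0]
  · have h1 : |g.W θ' ρ' - g.W θ ρ| ≤ g.M + g.M :=
      (abs_sub _ _).trans (add_le_add (g.bW θ' ρ') (g.bW θ ρ))
    nlinarith [mul_nonneg hL (add_nonneg ha0 hb0)]

theorem Near.symm {ε : ℝ} {x y : Pt} (h : Near ε x y) : Near ε y x := by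
  intro i
  rw [abs_sub_comm, abs_sub_comm (y.2 i)]
  exact h i

theorem Near.refl {ε : ℝ} (h : 0 ≤ ε) (x : Pt) : Near ε x x := by
  intro i
  simp [h]

theorem Near.mono {ε ε' : ℝ} {x y : Pt} (h : Near ε x y) (h' : ε ≤ ε') : Near ε' x y :=
  fun i => ⟨(h i).1.trans h', (h i).2.trans h'⟩

theorem Near.trans {ε ε' : ℝ} {x y z : Pt} (h : Near ε x y) (h' : Near ε' y z) :
    Near (ε + ε') x z := by
  intro i
  exact ⟨(abs_sub_le _ (y.1 i) _).trans (add_le_add (h i).1 (h' i).1),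
    (abs_sub_le _ (y.2 i) _).trans (add_le_add (h i).2 (h' i).2)⟩

theorem Bdd.mono {K K' : ℝ} {x : Pt} (h : Bdd K x) (h' : K ≤ K') : Bdd K' x :=
  fun i => ⟨(h i).1.trans h', (h i).2.trans h'⟩

theorem Sm.mono {ε ε' K K' : ℝ} {l : List Pt} (h : Sm ε K l) (h1 : ε ≤ ε') (h2 : K ≤ K') :
    Sm ε' K' l :=
  ⟨fun x hx => (h.1 x hx).mono h2, fun x hx y hy => (h.2 x hx y hy).mono h1⟩

theorem Near.nonneg {ε : ℝ} {x y : Pt} (h : Near ε x y) : 0 ≤ ε :=
  (abs_nonneg _).trans (h 0).1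

theorem F_shift_ang (s : ℝ) (β : List (GF p)) (x : Pt) (m : ℤ) :
    F s β (addAng (m * p) x) = F s β x := by
  have hW : ∀ (g : GF p) (θ ρ : ℝ), g.W (θ + m * p) ρ = g.W θ ρ := by
    intro g θ ρ
    have h : Function.Periodic (fun θ => g.W θ ρ) p := fun θ => g.per θ ρ
    exact h.int_mul m θ
  unfold F
  congr 1
  · refine Finset.sum_congr rfl fun i _ => ?_
    exact hW _ _ _
  · refine Finset.sum_congr rfl fun i _ => ?_
    simp only [addAng]
    ring

/-- `F` only depends on the coordinates `θ_i`, `i < β.length`, and `ρ_i`, `1 ≤ i < β.length` -/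
theorem F_congr (s : ℝ) (β : List (GF p)) (x y : Pt) (h1 : ∀ i < β.length, x.1 i = y.1 i)
    (h2 : ∀ i, 1 ≤ i → i < β.length → x.2 i = y.2 i) : F s β x = F s β y := by
  unfold F
  congr 1
  · refine Finset.sum_congr rfl fun i hi => ?_
    have hi' := Finset.mem_range.mp hi
    have : rad s x i = rad s y i := by
      unfold rad
      split_ifs with h
      · rfl
      · exact h2 i (Nat.one_le_iff_ne_zero.mpr h) hi'
    rw [this, h1 i hi']
  · refine Finset.sum_congr rfl fun i hi => ?_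
    have hi' := Finset.mem_range.mp hi
    rw [h1 i (by omega), h1 (i + 1) (by omega), h2 (i + 1) (by omega) (by omega)]

/-- concatenation of blocks -/
theorem F_append (s : ℝ) (β γ : List (GF p)) (hβ : β ≠ []) (hγ : γ ≠ []) (x : Pt) :
    F s (β ++ γ) x = F s β x +
      (x.2 β.length - s) * (x.1 β.length - x.1 (β.length - 1)) +
      F s γ (shiftPt β.length x) +
      ((γ.getD 0 default).W (x.1 β.length) (x.2 β.length) -
        (γ.getD 0 default).W (x.1 β.length) s) := by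
  obtain ⟨n, hn⟩ : ∃ n, β.length = n + 1 :=
    ⟨β.length - 1, by have := List.length_pos_iff.mpr hβ; omega⟩
  obtain ⟨m, hm⟩ : ∃ m, γ.length = m + 1 :=
    ⟨γ.length - 1, by have := List.length_pos_iff.mpr hγ; omega⟩
  have hA : ∀ i, i < n + 1 → (β ++ γ).getD i default = β.getD i default := by
    intro i hi
    exact List.getD_append _ _ _ _ (by omega)
  have hB : ∀ i, (β ++ γ).getD (n + 1 + i) default = γ.getD i default := by
    intro i
    rw [List.getD_append_right _ _ _ _ (by omega)]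
    congr 1
    omega
  have e1 : ∑ i ∈ range (n + 1 + (m + 1)), ((β ++ γ).getD i default).W (x.1 i) (rad s x i) =
      ∑ i ∈ range (n + 1), (β.getD i default).W (x.1 i) (rad s x i) +
      ∑ i ∈ range (m + 1), (γ.getD i default).W (x.1 (n + 1 + i)) (x.2 (n + 1 + i)) := by
    rw [Finset.sum_range_add]
    congr 1
    · refine Finset.sum_congr rfl fun i hi => ?_
      rw [hA i (Finset.mem_range.mp hi)]
    · refine Finset.sum_congr rfl fun i hi => ?_
      rw [hB]
      have : rad s x (n + 1 + i) = x.2 (n + 1 + i) := by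
        unfold rad
        rw [if_neg (by omega)]
      rw [this]
  have e2 : ∑ i ∈ range (m + 1), (γ.getD i default).W (x.1 (n + 1 + i)) (x.2 (n + 1 + i)) =
      ∑ i ∈ range (m + 1), (γ.getD i default).W ((shiftPt (n + 1) x).1 i)
        (rad s (shiftPt (n + 1) x) i) +
      ((γ.getD 0 default).W (x.1 (n + 1)) (x.2 (n + 1)) -
        (γ.getD 0 default).W (x.1 (n + 1)) s) := by
    rw [Finset.sum_range_succ', Finset.sum_range_succ']
    simp only [shiftPt, rad, Nat.add_zero, Nat.succ_ne_zero, if_false, if_true]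
    ring
  have e3 : ∑ i ∈ range (n + 1 + m), (x.2 (i + 1) - s) * (x.1 (i + 1) - x.1 i) =
      ∑ i ∈ range n, (x.2 (i + 1) - s) * (x.1 (i + 1) - x.1 i) +
      (x.2 (n + 1) - s) * (x.1 (n + 1) - x.1 n) +
      ∑ i ∈ range m, ((shiftPt (n + 1) x).2 (i + 1) - s) *
        ((shiftPt (n + 1) x).1 (i + 1) - (shiftPt (n + 1) x).1 i) := by
    rw [Finset.sum_range_add, Finset.sum_range_succ]
    rfl
  unfold F
  rw [List.length_append, hn, hm]
  have e4 : n + 1 + (m + 1) - 1 = n + 1 + m := by omega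
  rw [e4, Nat.add_sub_cancel, Nat.add_sub_cancel, e1, e2, e3]
  ring

/-- Lipschitz on bounded sets -/
theorem F_lip (s : ℝ) (β : List (GF p)) (K : ℝ) : ∃ Λ : ℝ, 0 ≤ Λ ∧ ∀ x y : Pt, ∀ ε : ℝ,
    Bdd K x → Bdd K y → Near ε x y → |F s β x - F s β y| ≤ Λ * ε := by
  have hlip := fun i : ℕ => (β.getD i default).lipW
  choose Λ hΛ0 hΛ using hlip
  refine ⟨∑ i ∈ range β.length, Λ i * 2 +
    ∑ _i ∈ range (β.length - 1), ((|K| + |s|) * 2 + 2 * |K|), ?_, ?_⟩
  · refine add_nonneg (Finset.sum_nonneg fun i _ => ?_) (Finset.sum_nonneg fun i _ => ?_)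
    · exact mul_nonneg (hΛ0 i) (by norm_num)
    · positivity
  · intro x y ε hx hy hxy
    have hε := hxy.nonneg
    have hK : ∀ i, |x.1 i| ≤ |K| ∧ |x.2 i| ≤ |K| ∧ |y.1 i| ≤ |K| ∧ |y.2 i| ≤ |K| := fun i =>
      ⟨(hx i).1.trans (le_abs_self _), (hx i).2.trans (le_abs_self _),
        (hy i).1.trans (le_abs_self _), (hy i).2.trans (le_abs_self _)⟩
    have e : F s β x - F s β y =
        ∑ i ∈ range β.length, ((β.getD i default).W (x.1 i) (rad s x i) -
          (β.getD i default).W (y.1 i) (rad s y i)) +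
        ∑ i ∈ range (β.length - 1), ((x.2 (i + 1) - s) * (x.1 (i + 1) - x.1 i) -
          (y.2 (i + 1) - s) * (y.1 (i + 1) - y.1 i)) := by
      unfold F
      rw [Finset.sum_sub_distrib, Finset.sum_sub_distrib]
      ring
    rw [e, add_mul, Finset.sum_mul, Finset.sum_mul]
    refine (abs_add_le _ _).trans (add_le_add ?_ ?_)
    · refine (Finset.abs_sum_le_sum_abs _ _).trans (Finset.sum_le_sum fun i _ => ?_)
      refine (hΛ i _ _ _ _).trans ?_
      have h1 : |rad s x i - rad s y i| ≤ ε := by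
        unfold rad
        split_ifs
        · simpa using hε
        · exact (hxy i).2
      have h2 := (hxy i).1
      have := hΛ0 i
      rw [mul_assoc]
      exact mul_le_mul_of_nonneg_left (by linarith) this
    · refine (Finset.abs_sum_le_sum_abs _ _).trans (Finset.sum_le_sum fun i _ => ?_)
      have e2 : (x.2 (i + 1) - s) * (x.1 (i + 1) - x.1 i) -
          (y.2 (i + 1) - s) * (y.1 (i + 1) - y.1 i) =
          (x.2 (i + 1) - s) * ((x.1 (i + 1) - y.1 (i + 1)) - (x.1 i - y.1 i)) +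
          (x.2 (i + 1) - y.2 (i + 1)) * (y.1 (i + 1) - y.1 i) := by ring
      rw [e2]
      have h1 : |x.2 (i + 1) - s| ≤ |K| + |s| :=
        (abs_sub _ _).trans (add_le_add (hK _).2.1 le_rfl)
      have h2 : |(x.1 (i + 1) - y.1 (i + 1)) - (x.1 i - y.1 i)| ≤ 2 * ε :=
        (abs_sub _ _).trans (by linarith [(hxy (i + 1)).1, (hxy i).1])
      have h3 : |x.2 (i + 1) - y.2 (i + 1)| ≤ ε := (hxy (i + 1)).2
      have h4 : |y.1 (i + 1) - y.1 i| ≤ 2 * |K| :=
        (abs_sub _ _).trans (by linarith [(hK (i + 1)).2.2.1, (hK i).2.2.1])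
      refine (abs_add_le _ _).trans ?_
      rw [abs_mul, abs_mul]
      have h5 := mul_le_mul h1 h2 (abs_nonneg _) (by positivity)
      have h6 := mul_le_mul h3 h4 (abs_nonneg _) hε
      linarith

theorem vs_length (s : ℝ) (n : ℕ) : (vs s n).length = n := by
  simp [vs]

theorem us_length (s : ℝ) (n : ℕ) : (us s n).length = n + 1 := by
  simp [us, vs_length]

theorem vs_append (s : ℝ) (n m : ℕ) :
    vs s (n + 1 + m) = vs s n ++ (fun x => neg1 (vv s n x)) ::
      ((vs s m).map fun h => h ∘ shiftPt (n + 1)) := by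
  unfold vs
  rw [List.range_add, List.map_append, List.range_succ, List.map_append, List.append_assoc]
  congr 1
  rw [List.map_singleton, List.singleton_append, List.map_map, List.map_map]
  rfl

/-- if the value of `1[t<0]` changes then both arguments are small -/
theorem abs_le_of_neg1_ne {a b ε : ℝ} (h : neg1 a ≠ neg1 b) (h' : |a - b| ≤ ε) :
    |a| ≤ ε ∧ |b| ≤ ε := by
  have h1 := abs_le.mp h'
  unfold neg1 at h
  by_cases ha : a < 0 <;> by_cases hb : b < 0
  · simp [ha, hb] at h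
  · push Not at hb
    exact ⟨abs_le.mpr ⟨by linarith, by linarith⟩, abs_le.mpr ⟨by linarith, by linarith⟩⟩
  · push Not at ha
    exact ⟨abs_le.mpr ⟨by linarith, by linarith⟩, abs_le.mpr ⟨by linarith, by linarith⟩⟩
  · simp [ha, hb] at h

theorem vv_near (s : ℝ) (i : ℕ) {x y : Pt} {ε : ℝ} (h : Near ε x y) :
    |vv s i x - vv s i y| ≤ 3 * ε := by
  have h1 := abs_le.mp (h (i + 1)).1
  have h2 := abs_le.mp (h (i + 1)).2
  have h3 := abs_le.mp (h i).1
  unfold vv
  exact abs_le.mpr ⟨by linarith [h1.1, h1.2, h2.1, h2.2, h3.1, h3.2],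
    by linarith [h1.1, h1.2, h2.1, h2.2, h3.1, h3.2]⟩

/-- points of lists on which the bottom cocycle does not vanish: all `v_i` are small -/
theorem vv_small (s : ℝ) (n : ℕ) (l : List Pt) (ε : ℝ)
    (hl : ∀ x ∈ l, ∀ y ∈ l, Near ε x y) (h : E (vs s n) l ≠ 0) (x : Pt) (hx : x ∈ l) (i : ℕ)
    (hi : i < n) : |vv s i x| ≤ 6 * ε := by
  obtain ⟨a, ha, b, hb, hab⟩ := E_jump (vs s n) l h i (by rw [vs_length]; exact hi)
  have e : ∀ c, ((vs s n)[i]'(by rw [vs_length]; exact hi)) c = neg1 (vv s i c) := by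
    intro c
    have h1 : (vs s n)[i]'(by rw [vs_length]; exact hi) = fun x => neg1 (vv s i x) := by
      unfold vs
      rw [List.getElem_map, List.getElem_range]
    rw [h1]
  rw [e, e] at hab
  have h1 := abs_le_of_neg1_ne hab (vv_near s i (hl a ha b hb))
  have h2 := abs_le.mp (vv_near s i (hl x hx a ha))
  have h3 := abs_le.mp h1.1
  exact abs_le.mpr ⟨by linarith [h2.1, h3.1], by linarith [h2.2, h3.2]⟩

/-- lower bound for `F` at points where all `v_i` are small -/
theorem F_lower_pt (s : ℝ) (β : List (GF p)) : ∃ C₀ : ℝ, 0 ≤ C₀ ∧ ∀ x : Pt,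
    (∀ i < β.length - 1, |vv s i x| ≤ 6) → -C₀ ≤ F s β x := by
  obtain ⟨L, M, _, hM, hLM⟩ := exists_bounds β
  refine ⟨β.length * M + (β.length - 1 : ℕ) * 9, by positivity, fun x hx => ?_⟩
  unfold F
  have h1 : -(β.length * M) ≤
      ∑ i ∈ range β.length, (β.getD i default).W (x.1 i) (rad s x i) := by
    have : ∑ i ∈ range β.length, (-M) ≤
        ∑ i ∈ range β.length, (β.getD i default).W (x.1 i) (rad s x i) := by
      refine Finset.sum_le_sum fun i _ => ?_
      have := (abs_le.mp ((β.getD i default).bW (x.1 i) (rad s x i))).1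
      linarith [(hLM i).2]
    rw [Finset.sum_const, Finset.card_range, nsmul_eq_mul] at this
    linarith
  have h2 : -((β.length - 1 : ℕ) * 9 : ℝ) ≤
      ∑ i ∈ range (β.length - 1), (x.2 (i + 1) - s) * (x.1 (i + 1) - x.1 i) := by
    have : ∑ i ∈ range (β.length - 1), (-9 : ℝ) ≤
        ∑ i ∈ range (β.length - 1), (x.2 (i + 1) - s) * (x.1 (i + 1) - x.1 i) := by
      refine Finset.sum_le_sum fun i hi => ?_
      have h3 := abs_le.mp (hx i (Finset.mem_range.mp hi))
      unfold vv at h3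
      nlinarith [sq_nonneg ((x.2 (i + 1) - s) + (x.1 (i + 1) - x.1 i)), h3.1, h3.2]
    rw [Finset.sum_const, Finset.card_range, nsmul_eq_mul] at this
    linarith
  linarith

/-- lower bound for `F` on lists on which the bottom cocycle does not vanish -/
theorem F_lower (s : ℝ) (β : List (GF p)) : ∃ C₀ : ℝ, 0 ≤ C₀ ∧ ∀ (l : List Pt) (ε : ℝ), ε ≤ 1 →
    (∀ x ∈ l, ∀ y ∈ l, Near ε x y) → E (vs s (β.length - 1)) l ≠ 0 →
    ∀ x ∈ l, -C₀ ≤ F s β x := by
  obtain ⟨C₀, h0, h⟩ := F_lower_pt s β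
  refine ⟨C₀, h0, fun l ε hε hl hE x hx => h x fun i hi => ?_⟩
  have := vv_small s _ l ε hl hE x hx i hi
  linarith

theorem EssB.mono {s : ℝ} {β : List (GF p)} {a b : ℝ} (h : EssB s β a) (hab : a ≤ b) :
    EssB s β b := by
  intro C
  obtain ⟨K, hK⟩ := h C
  refine ⟨K, fun ε hε => ?_⟩
  obtain ⟨z, h1, h2, h3⟩ := hK ε hε
  exact ⟨z, h1.mono fun l hl => ⟨hl.1, hl.2.1, fun x hx => (hl.2.2 x hx).trans hab⟩, h2, h3⟩

theorem EssT.mono {s : ℝ} {β : List (GF p)} {a b : ℝ} (h : EssT s β a) (hab : a ≤ b) :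
    EssT s β b := by
  intro C R
  obtain ⟨K, hK⟩ := h C R
  refine ⟨K, fun ε hε => ?_⟩
  obtain ⟨z, h1, h2, h3⟩ := hK ε hε
  exact ⟨z, h1.mono fun l hl => ⟨hl.1, hl.2.1, fun x hx => (hl.2.2 x hx).trans hab⟩, h2, h3⟩

/-- the bottom level is bounded below -/
theorem essB_lower (s : ℝ) (β : List (GF p)) (hβ : β ≠ []) :
    ∃ c : ℝ, ∀ a, EssB s β a → c ≤ a := by
  obtain ⟨C₀, _, h⟩ := F_lower s β
  refine ⟨-C₀, fun a ha => ?_⟩
  obtain ⟨K, hK⟩ := ha 0
  obtain ⟨z, h1, _, h3⟩ := hK 1 one_pos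
  obtain ⟨l, hl, hE⟩ := exists_of_ev_ne_zero h1 (c := E (vs s (β.length - 1)))
    (by rw [h3]; exact one_ne_zero)
  have hpos := List.length_pos_iff.mpr hβ
  obtain ⟨x, hx⟩ := List.exists_mem_of_length_pos (l := l) (by rw [hl.1]; exact hpos)
  exact (h l 1 le_rfl hl.2.1.2 hE x hx).trans (hl.2.2 x hx)

/-- the top level is bounded below -/
theorem essT_lower (s : ℝ) (β : List (GF p)) (hβ : β ≠ []) :
    ∃ c : ℝ, ∀ a, EssT s β a → c ≤ a := by
  obtain ⟨C₀, _, h⟩ := F_lower s β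
  refine ⟨-C₀, fun a ha => ?_⟩
  obtain ⟨K, hK⟩ := ha 0 0
  obtain ⟨z, h1, _, h3⟩ := hK 1 one_pos
  obtain ⟨l, hl, hE⟩ := exists_of_ev_ne_zero h1 (c := E (us s (β.length - 1)))
    (by rw [h3]; exact one_ne_zero)
  have hpos := List.length_pos_iff.mpr hβ
  unfold us at hE
  rw [E_append] at hE
  unfold cup at hE
  rw [vs_length] at hE
  have hE' := left_ne_zero_of_mul hE
  set l' := l.take (β.length - 1 + 1) with hl'
  have hsub : ∀ x ∈ l', x ∈ l := fun x hx => List.mem_of_mem_take hx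
  obtain ⟨x, hx⟩ := List.exists_mem_of_length_pos (l := l') (by
    rw [hl', List.length_take, hl.1]
    omega)
  exact (h l' 1 le_rfl (fun x hx y hy => hl.2.1.2 x (hsub x hx) y (hsub y hy)) hE' x hx).trans
    (hl.2.2 x (hsub x hx))

end Pool.Agent.Helper31.AP
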