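import Pool.Agent.Helper31.AP.Prim

/-! Module C1b: maps tangent to the identity at the origin -/

set_option autoImplicit false

namespace Pool.Agent.Helper31.AP

/-- the Alexander trick family `g_t(x) = g(t x)/t`, `g_0 = id` -/
noncomputable def alex (g : Equiv.Perm V) (t : ℝ) : Equiv.Perm V :=
  if h : t = 0 then 1 else
    { toFun := fun x => t⁻¹ • g (t • x)
      invFun := fun x => t⁻¹ • g.symm (t • x)
      left_inv := fun x => by
        show t⁻¹ • g.symm (t • t⁻¹ • g (t • x)) = x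
        rw [smul_inv_smul₀ h, Equiv.symm_apply_apply, inv_smul_smul₀ h]
      right_inv := fun x => by
        show t⁻¹ • g (t • t⁻¹ • g.symm (t • x)) = x
        rw [smul_inv_smul₀ h, Equiv.apply_symm_apply, inv_smul_smul₀ h] }

theorem alex_zero (g : Equiv.Perm V) : alex g 0 = 1 := by
  simp [alex]

theorem alex_apply (g : Equiv.Perm V) {t : ℝ} (h : t ≠ 0) (x : V) :
    alex g t x = t⁻¹ • g (t • x) := by
  simp [alex, h]

theorem alex_coe (g : Equiv.Perm V) {t : ℝ} (h : t ≠ 0) :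
    (⇑(alex g t) : V → V) = fun x => t⁻¹ • g (t • x) :=
  funext fun x => alex_apply g h x

theorem alex_symm (g : Equiv.Perm V) (t : ℝ) : (alex g t).symm = alex g.symm t := by
  by_cases h : t = 0
  · subst h; rw [alex_zero, alex_zero]; rfl
  · ext x : 1
    rw [alex_apply _ h]
    unfold alex
    rw [dif_neg h]
    rfl

theorem alex_one (g : Equiv.Perm V) : alex g 1 = g := by
  ext x : 1
  rw [alex_apply _ one_ne_zero]
  simp

theorem alex_fix (g : Equiv.Perm V) (h0 : g 0 = 0) (t : ℝ) : alex g t 0 = 0 := by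
  by_cases h : t = 0
  · subst h; rw [alex_zero]; rfl
  · rw [alex_apply _ h]; simp [h0]

theorem top_ne_zero' : ((⊤ : ℕ∞) : WithTop ℕ∞) ≠ 0 := by simp

theorem contDiff_alex (g : Equiv.Perm V) (hg : ContDiff ℝ ((⊤ : ℕ∞) : WithTop ℕ∞) g) (t : ℝ) :
    ContDiff ℝ ((⊤ : ℕ∞) : WithTop ℕ∞) (alex g t) := by
  by_cases h : t = 0
  · subst h; rw [alex_zero]; exact contDiff_id
  · rw [alex_coe g h]
    exact (hg.comp (contDiff_const_smul t)).const_smul t⁻¹

theorem hasFDerivAt_alex (g : Equiv.Perm V) (hg : ContDiff ℝ ((⊤ : ℕ∞) : WithTop ℕ∞) g)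
    (h1 : fderiv ℝ g 0 = ContinuousLinearMap.id ℝ V) (t : ℝ) (x : V) :
    HasFDerivAt (alex g t) (fderiv ℝ g (t • x)) x := by
  by_cases h : t = 0
  · subst h
    rw [alex_zero, zero_smul, h1]
    exact hasFDerivAt_id x
  · rw [alex_coe g h]
    have hd : HasFDerivAt g (fderiv ℝ g (t • x)) (t • x) :=
      (hg.differentiable top_ne_zero').differentiableAt.hasFDerivAt
    have hs : HasFDerivAt (fun y : V => t • y) (t • ContinuousLinearMap.id ℝ V) x :=
      (hasFDerivAt_id x).const_smul t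
    have := (hd.comp x hs).const_smul t⁻¹
    refine this.congr_fderiv ?_
    ext v : 1
    simp only [smul_apply, ContinuousLinearMap.comp_apply,
      ContinuousLinearMap.id_apply, map_smul]
    rw [inv_smul_smul₀ h]

theorem fderiv_alex (g : Equiv.Perm V) (hg : ContDiff ℝ ((⊤ : ℕ∞) : WithTop ℕ∞) g)
    (h1 : fderiv ℝ g 0 = ContinuousLinearMap.id ℝ V) (t : ℝ) (x : V) :
    fderiv ℝ (alex g t) x = fderiv ℝ g (t • x) :=
  (hasFDerivAt_alex g hg h1 t x).fderiv

theorem isAP_alex (g : Equiv.Perm V) (hg : IsAP g)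
    (h1 : fderiv ℝ g 0 = ContinuousLinearMap.id ℝ V) (t : ℝ) : IsAP (alex g t) := by
  refine ⟨contDiff_alex g hg.1 t, ?_, fun x => ?_⟩
  · have := contDiff_alex g.symm hg.2.1 t
    rw [← alex_symm] at this
    exact this
  · rw [fderiv_alex g hg.1 h1]
    exact hg.2.2 _

/-- a continuous function is bounded by a monotone nonnegative function of the norm -/
theorem exists_mono_bound (f : V → ℝ) (hf : Continuous f) :
    ∃ A : ℝ → ℝ, Monotone A ∧ (∀ r, 0 ≤ A r) ∧ ∀ x r, ‖x‖ ≤ r → f x ≤ A r := by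
  have hK : ∀ r : ℝ, BddAbove ((fun x => |f x|) '' Metric.closedBall (0 : V) (max r 0)) := fun r =>
    ((isCompact_closedBall (0 : V) (max r 0)).image hf.abs).bddAbove
  have hne : ∀ r : ℝ, ((fun x => |f x|) '' Metric.closedBall (0 : V) (max r 0)).Nonempty := fun r =>
    ⟨|f 0|, 0, by simp, rfl⟩
  refine ⟨fun r => sSup ((fun x => |f x|) '' Metric.closedBall (0 : V) (max r 0)), ?_, ?_, ?_⟩
  · intro r s hrs
    refine csSup_le_csSup (hK s) (hne r) (Set.image_mono ?_)
    exact Metric.closedBall_subset_closedBall (max_le_max hrs le_rfl)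
  · intro r
    refine le_csSup_of_le (hK r) ⟨0, by simp, rfl⟩ (abs_nonneg _)
  · intro x r hx
    refine le_trans (le_abs_self _) (le_csSup (hK r) ⟨x, ?_, rfl⟩)
    simp [hx]

/-- the bound for the family -/
theorem norm_alex_le (g : Equiv.Perm V) (hg : ContDiff ℝ ((⊤ : ℕ∞) : WithTop ℕ∞) g) (h0 : g 0 = 0)
    (h1 : fderiv ℝ g 0 = ContinuousLinearMap.id ℝ V) {A : ℝ → ℝ}
    (hA : ∀ x r, ‖x‖ ≤ r → ‖fderiv ℝ g x‖ ≤ A r) {t : ℝ} (ht0 : 0 ≤ t) (ht1 : t ≤ 1) (x : V) :
    ‖alex g t x‖ ≤ A ‖x‖ * ‖x‖ := by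
  have hb : ∀ y ∈ Metric.closedBall (0 : V) ‖x‖, ‖fderiv ℝ g (t • y)‖ ≤ A ‖x‖ := by
    intro y hy
    apply hA
    rw [norm_smul, Real.norm_eq_abs, abs_of_nonneg ht0]
    have : ‖y‖ ≤ ‖x‖ := by simpa using hy
    nlinarith [norm_nonneg y, norm_nonneg x]
  have := (convex_closedBall (0 : V) ‖x‖).norm_image_sub_le_of_norm_hasFDerivWithin_le
    (f := alex g t) (f' := fun y => fderiv ℝ g (t • y))
    (fun y _ => (hasFDerivAt_alex g hg h1 t y).hasFDerivWithinAt) hb
    (x := 0) (y := x) (by simp) (by simp)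
  rw [alex_fix g h0, sub_zero, sub_zero] at this
  exact this

/-- uniform continuity of the family -/
theorem alex_unif (g : Equiv.Perm V) (hg : ContDiff ℝ ((⊤ : ℕ∞) : WithTop ℕ∞) g) (R ω : ℝ)
    (hω : 0 < ω) : ∃ η : ℝ, 0 < η ∧ ∀ s t : ℝ, 0 ≤ s → s ≤ 1 → 0 ≤ t → t ≤ 1 → |s - t| ≤ η →
      ∀ y : V, ‖y‖ ≤ R → ‖fderiv ℝ g (s • y) - fderiv ℝ g (t • y)‖ ≤ ω := by
  have hcont : Continuous (fderiv ℝ g) := hg.continuous_fderiv top_ne_zero'
  have huc : UniformContinuousOn (fderiv ℝ g) (Metric.closedBall (0 : V) R) :=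
    (isCompact_closedBall (0 : V) R).uniformContinuousOn_of_continuous hcont.continuousOn
  rw [Metric.uniformContinuousOn_iff] at huc
  obtain ⟨ε, hε, h⟩ := huc ω hω
  refine ⟨ε / (2 * (|R| + 1)), by positivity, ?_⟩
  intro s t hs0 hs1 ht0 ht1 hst y hy
  have hR : 0 ≤ R := (norm_nonneg y).trans hy
  have hmem : ∀ u : ℝ, 0 ≤ u → u ≤ 1 → u • y ∈ Metric.closedBall (0 : V) R := by
    intro u hu0 hu1
    rw [mem_closedBall_zero_iff, norm_smul, Real.norm_eq_abs, abs_of_nonneg hu0]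
    nlinarith [norm_nonneg y]
  have hd : dist (s • y) (t • y) < ε := by
    rw [dist_eq_norm, ← sub_smul, norm_smul, Real.norm_eq_abs]
    have h1 : |s - t| * ‖y‖ ≤ ε / (2 * (|R| + 1)) * (|R| + 1) := by
      apply mul_le_mul hst _ (norm_nonneg _) (by positivity)
      rw [abs_of_nonneg hR]; linarith
    have h2 : ε / (2 * (|R| + 1)) * (|R| + 1) = ε / 2 := by
      have : |R| + 1 ≠ 0 := by positivity
      field_simp
    linarith
  have := h (s • y) (hmem s hs0 hs1) (t • y) (hmem t ht0 ht1) hd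
  rw [dist_eq_norm] at this
  exact this.le

theorem norm_alex_sub_le (g : Equiv.Perm V) (hg : ContDiff ℝ ((⊤ : ℕ∞) : WithTop ℕ∞) g)
    (h0 : g 0 = 0) (h1 : fderiv ℝ g 0 = ContinuousLinearMap.id ℝ V) {s t R ω : ℝ}
    (h : ∀ y : V, ‖y‖ ≤ R → ‖fderiv ℝ g (s • y) - fderiv ℝ g (t • y)‖ ≤ ω) (y : V)
    (hy : ‖y‖ ≤ R) : ‖alex g s y - alex g t y‖ ≤ ω * R := by
  have hR : 0 ≤ R := (norm_nonneg y).trans hy
  have hω : 0 ≤ ω := (norm_nonneg _).trans (h y hy)
  have := (convex_closedBall (0 : V) R).norm_image_sub_le_of_norm_hasFDerivWithin_le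
    (f := fun y => alex g s y - alex g t y)
    (f' := fun y => fderiv ℝ g (s • y) - fderiv ℝ g (t • y)) (C := ω)
    (fun y _ => ((hasFDerivAt_alex g hg h1 s y).sub
      (hasFDerivAt_alex g hg h1 t y)).hasFDerivWithinAt)
    (fun y hy => h y (by simpa using hy))
    (x := 0) (y := y) (by simp [hR]) (by simpa using hy)
  simp only [alex_fix g h0, sub_zero] at this
  exact this.trans (mul_le_mul_of_nonneg_left hy hω)

/-- smallness of one piece -/
theorem small_piece (g : Equiv.Perm V) (hg : ContDiff ℝ ((⊤ : ℕ∞) : WithTop ℕ∞) g)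
    (hg' : ContDiff ℝ ((⊤ : ℕ∞) : WithTop ℕ∞) g.symm) (h0 : g 0 = 0)
    (h1 : fderiv ℝ g 0 = ContinuousLinearMap.id ℝ V)
    (h0' : g.symm 0 = 0) (h1' : fderiv ℝ g.symm 0 = ContinuousLinearMap.id ℝ V) {A' : ℝ → ℝ}
    (hA0' : ∀ r, 0 ≤ A' r) (hAm : Monotone A')
    (hA' : ∀ x r, ‖x‖ ≤ r → ‖fderiv ℝ g.symm x‖ ≤ A' r) {δ M R ω s t : ℝ}
    (hM : 0 ≤ M)
    (hR : A' M * M ≤ R) (hω1 : ω * R ≤ δ) (hω2 : ω * A' M ≤ δ)
    (ht0 : 0 ≤ t) (ht1 : t ≤ 1)
    (h : ∀ y : V, ‖y‖ ≤ R → ‖fderiv ℝ g (s • y) - fderiv ℝ g (t • y)‖ ≤ ω) :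
    Small δ M (alex g s * (alex g t).symm : Equiv.Perm V) := by
  intro x hx
  set y : V := (alex g t).symm x with hy
  have hyR : ‖y‖ ≤ R := by
    have h2 := norm_alex_le g.symm hg' h0' h1' hA' ht0 ht1 x
    rw [← alex_symm, ← hy] at h2
    calc ‖y‖ ≤ A' ‖x‖ * ‖x‖ := h2
      _ ≤ A' M * M := mul_le_mul (hAm hx) hx (norm_nonneg _) (hA0' _)
      _ ≤ R := hR
  have hxy : alex g t y = x := by rw [hy, Equiv.apply_symm_apply]
  have hω : 0 ≤ ω := (norm_nonneg _).trans (h y hyR)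
  constructor
  · have h3 := norm_alex_sub_le g hg h0 h1 h y hyR
    rw [hxy] at h3
    exact h3.trans hω1
  · have hd1 : HasFDerivAt (alex g t).symm (fderiv ℝ g.symm (t • x)) x := by
      rw [alex_symm]
      exact hasFDerivAt_alex g.symm hg' h1' t x
    have hd2 : HasFDerivAt (alex g s) (fderiv ℝ g (s • y)) y := hasFDerivAt_alex g hg h1 s y
    have hd3 : HasFDerivAt (alex g t) (fderiv ℝ g (t • y)) y := hasFDerivAt_alex g hg h1 t y
    have hc : HasFDerivAt (⇑(alex g s * (alex g t).symm : Equiv.Perm V))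
        ((fderiv ℝ g (s • y)).comp (fderiv ℝ g.symm (t • x))) x := hd2.comp x hd1
    have hid : (fderiv ℝ g (t • y)).comp (fderiv ℝ g.symm (t • x)) =
        ContinuousLinearMap.id ℝ V := by
      have h4 : HasFDerivAt (fun z => alex g t ((alex g t).symm z))
          ((fderiv ℝ g (t • y)).comp (fderiv ℝ g.symm (t • x))) x := hd3.comp x hd1
      have h5 : (fun z => alex g t ((alex g t).symm z)) = id := by
        funext z; simp
      rw [h5] at h4
      exact h4.unique (hasFDerivAt_id x)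
    rw [hc.fderiv, ← hid, ← ContinuousLinearMap.sub_comp]
    calc ‖(fderiv ℝ g (s • y) - fderiv ℝ g (t • y)).comp (fderiv ℝ g.symm (t • x))‖
        ≤ ‖fderiv ℝ g (s • y) - fderiv ℝ g (t • y)‖ * ‖fderiv ℝ g.symm (t • x)‖ :=
          ContinuousLinearMap.opNorm_comp_le _ _
      _ ≤ ω * A' M := by
          apply mul_le_mul (h y hyR) _ (norm_nonneg _) hω
          apply hA'
          rw [norm_smul, Real.norm_eq_abs, abs_of_nonneg ht0]
          nlinarith [norm_nonneg x]
      _ ≤ δ := hω2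

/-- the list of pieces -/
noncomputable def alexList (g : Equiv.Perm V) (N : ℕ) : List (Equiv.Perm V) :=
  (List.range N).map fun i : ℕ =>
    (alex g (((i + 1 : ℕ) : ℝ) / N) * (alex g ((i : ℝ) / N)).symm : Equiv.Perm V)

theorem alexList_length (g : Equiv.Perm V) (N : ℕ) : (alexList g N).length = N := by
  simp [alexList]

theorem foldl_alex (g : Equiv.Perm V) (N : ℕ) (x : V) (j : ℕ) :
    (((List.range j).map fun i : ℕ =>
      (alex g (((i + 1 : ℕ) : ℝ) / N) * (alex g ((i : ℝ) / N)).symm : Equiv.Perm V)).foldl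
        (fun y k => k y) x) = alex g ((j : ℝ) / N) x := by
  induction j with
  | zero => simp [alex_zero]
  | succ n ih =>
    rw [List.range_succ, List.map_append, List.foldl_append, ih]
    simp [Equiv.Perm.mul_apply]

theorem run_alexList (g : Equiv.Perm V) (N : ℕ) (j : ℕ) (x : V) :
    run (alexList g N) j x = alex g (((min j N : ℕ) : ℝ) / N) x := by
  unfold run alexList
  rw [← List.map_take, List.take_range, foldl_alex]

/-- the Alexander trick: maps tangent to the identity at the origin -/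
theorem frag_normalized (g : Equiv.Perm V) (hg : IsAP g) (h0 : g 0 = 0)
    (h1 : fderiv ℝ g 0 = ContinuousLinearMap.id ℝ V) : Frag g := by
  have h0' : g.symm 0 = 0 := by rw [Equiv.symm_apply_eq]; exact h0.symm
  have h1' : fderiv ℝ g.symm 0 = ContinuousLinearMap.id ℝ V := by
    have hd1 : HasFDerivAt g.symm (fderiv ℝ g.symm 0) 0 :=
      (hg.2.1.differentiable top_ne_zero').differentiableAt.hasFDerivAt
    have hd2 : HasFDerivAt g (ContinuousLinearMap.id ℝ V) (g.symm 0) := by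
      rw [h0', ← h1]
      exact (hg.1.differentiable top_ne_zero').differentiableAt.hasFDerivAt
    have h4 : HasFDerivAt (fun z => g (g.symm z))
        ((ContinuousLinearMap.id ℝ V).comp (fderiv ℝ g.symm 0)) 0 := hd2.comp 0 hd1
    have h5 : (fun z => g (g.symm z)) = id := by
      funext z; simp
    rw [h5, ContinuousLinearMap.id_comp] at h4
    exact h4.unique (hasFDerivAt_id 0)
  obtain ⟨A, hAm, hA0, hA⟩ := exists_mono_bound (fun x => ‖fderiv ℝ g x‖)
    (hg.1.continuous_fderiv top_ne_zero').norm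
  obtain ⟨A', hAm', hA0', hA'⟩ := exists_mono_bound (fun x => ‖fderiv ℝ g.symm x‖)
    (hg.2.1.continuous_fderiv top_ne_zero').norm
  have hmax : Monotone fun r : ℝ => max r 0 := fun r s hrs => max_le_max hrs le_rfl
  refine ⟨fun r => (A r + A' r) * max r 0, ?_, ?_⟩
  · exact Monotone.mul (hAm.add hAm') hmax (fun r => add_nonneg (hA0 r) (hA0' r))
      (fun r => le_max_right _ _)
  · intro δ hδ M
    set M' : ℝ := max M 0 with hM'
    have hM0 : 0 ≤ M' := le_max_right _ _
    set R : ℝ := (A M' + A' M') * M' with hR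
    have hR0 : 0 ≤ R := mul_nonneg (add_nonneg (hA0 _) (hA0' _)) hM0
    set ω : ℝ := δ / (R + A' M' + 1) with hω
    have hden : 0 < R + A' M' + 1 := by have := hA0' M'; linarith
    have hω0 : 0 < ω := div_pos hδ hden
    have hω1 : ω * R ≤ δ := by
      rw [hω, div_mul_eq_mul_div, div_le_iff₀ hden]
      have := hA0' M'
      nlinarith
    have hω2 : ω * A' M' ≤ δ := by
      rw [hω, div_mul_eq_mul_div, div_le_iff₀ hden]
      have := hA0' M'
      nlinarith
    obtain ⟨η, hη, hunif⟩ := alex_unif g hg.1 R ω hω0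
    obtain ⟨N, hN⟩ := exists_nat_gt (1 / η)
    have hN0 : (0 : ℝ) < N := lt_trans (by positivity) hN
    have hNη : 1 / (N : ℝ) ≤ η := by
      rw [div_le_iff₀ hN0]
      rw [div_lt_iff₀ hη] at hN
      linarith
    have hRle : A' M' * M' ≤ R := by
      rw [hR]
      have := mul_nonneg (hA0 M') hM0
      nlinarith
    have key : ∀ s t : ℝ, 0 ≤ s → s ≤ 1 → 0 ≤ t → t ≤ 1 → |s - t| ≤ η →
        Small δ M (alex g s * (alex g t).symm : Equiv.Perm V) := by
      intro s t hs0 hs1 ht0 ht1 hst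
      have := small_piece g hg.1 hg.2.1 h0 h1 h0' h1' hA0' hAm' hA' (δ := δ) hM0 hRle hω1 hω2
        (s := s) ht0 ht1 (fun y hy => hunif s t hs0 hs1 ht0 ht1 hst y hy)
      intro x hx
      exact this x (hx.trans (le_max_left _ _))
    refine ⟨alexList g N, ?_, ?_, ?_⟩
    · intro k hk
      unfold alexList at hk
      rw [List.mem_map] at hk
      obtain ⟨i, hi, rfl⟩ := hk
      rw [List.mem_range] at hi
      have hi' : ((i + 1 : ℕ) : ℝ) ≤ N := by exact_mod_cast hi
      have hs0 : 0 ≤ ((i + 1 : ℕ) : ℝ) / N := by positivity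
      have hs1 : ((i + 1 : ℕ) : ℝ) / N ≤ 1 := by rw [div_le_one hN0]; exact hi'
      have ht0 : 0 ≤ (i : ℝ) / N := by positivity
      have ht1 : (i : ℝ) / N ≤ 1 := by
        rw [div_le_one hN0]; push_cast at hi'; linarith
      have hdiff : ((i + 1 : ℕ) : ℝ) / N - (i : ℝ) / N = 1 / N := by
        push_cast; ring
      have hdist : |((i + 1 : ℕ) : ℝ) / N - (i : ℝ) / N| ≤ η := by
        rw [hdiff, abs_of_nonneg (by positivity)]; exact hNη
      have hdist' : |(i : ℝ) / N - ((i + 1 : ℕ) : ℝ) / N| ≤ η := by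
        rw [abs_sub_comm]; exact hdist
      refine ⟨?_, key _ _ hs0 hs1 ht0 ht1 hdist, ?_⟩
      · exact (isAP_alex g hg h1 _).mul (isAP_alex g hg h1 _).symm
      · have h6 := key _ _ ht0 ht1 hs0 hs1 hdist'
        exact h6
    · intro x
      rw [alexList_length, run_alexList, min_self, div_self hN0.ne', alex_one]
    · intro j x
      rw [run_alexList]
      have hu0 : 0 ≤ (((min j N : ℕ) : ℝ)) / N := by positivity
      have hu1 : (((min j N : ℕ) : ℝ)) / N ≤ 1 := by
        rw [div_le_one hN0]; exact_mod_cast min_le_right j N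
      have hnn : max ‖x‖ 0 = ‖x‖ := max_eq_left (norm_nonneg _)
      constructor
      · have := norm_alex_le g hg.1 h0 h1 hA hu0 hu1 x
        show _ ≤ (A ‖x‖ + A' ‖x‖) * max ‖x‖ 0
        rw [hnn]
        nlinarith [mul_nonneg (hA0' ‖x‖) (norm_nonneg x)]
      · set z := alex g (((min j N : ℕ) : ℝ) / N) x with hz
        have hxz : alex g.symm (((min j N : ℕ) : ℝ) / N) z = x := by
          rw [← alex_symm, hz, Equiv.symm_apply_apply]
        have := norm_alex_le g.symm hg.2.1 h0' h1' hA' hu0 hu1 z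
        rw [hxz] at this
        have hnn' : max ‖z‖ 0 = ‖z‖ := max_eq_left (norm_nonneg _)
        show _ ≤ (A ‖z‖ + A' ‖z‖) * max ‖z‖ 0
        rw [hnn']
        nlinarith [mul_nonneg (hA0 ‖z‖) (norm_nonneg z)]

end Pool.Agent.Helper31.AP
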