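import Pool.Agent.Helper31.AP.Frag
import Pool.Agent.Helper31.AP.FragNorm

/-! Module C1c: every area preserving map decomposes into small pieces -/

set_option autoImplicit false

namespace Pool.Agent.Helper31.AP

theorem isAP_linear (A : V ≃ₗ[ℝ] V) (hA : LinearMap.det (A : V →ₗ[ℝ] V) = 1) :
    IsAP A.toEquiv := by
  have h1 : (⇑A.toEquiv : V → V) = ⇑(LinearMap.toContinuousLinearMap (A : V →ₗ[ℝ] V)) := rfl
  have h2 : (⇑(Equiv.symm A.toEquiv) : V → V) =
      ⇑(LinearMap.toContinuousLinearMap (A.symm : V →ₗ[ℝ] V)) := rfl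
  refine ⟨?_, ?_, ?_⟩
  · rw [h1]; exact ContinuousLinearMap.contDiff _
  · rw [h2]; exact ContinuousLinearMap.contDiff _
  · intro x
    rw [h1, ContinuousLinearMap.fderiv]
    simpa using hA

theorem isAP_translation (v : V) : IsAP (Equiv.addRight v) := by
  have h1 : (⇑(Equiv.addRight v) : V → V) = fun x => x + v := rfl
  have h2 : (⇑(Equiv.symm (Equiv.addRight v)) : V → V) = fun x => x + (-v) := by
    funext x
    simp
  refine ⟨?_, ?_, ?_⟩
  · rw [h1]; exact contDiff_id.add contDiff_const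
  · rw [h2]; exact contDiff_id.add contDiff_const
  · intro x
    rw [h1, fderiv_add_const, fderiv_fun_id]
    simp

theorem frag_of_isAP (a : Equiv.Perm V) (ha : IsAP a) : Frag a := by
  set A0 : V →L[ℝ] V := fderiv ℝ (⇑a) 0 with hA0
  have hdet : LinearMap.det (A0 : V →ₗ[ℝ] V) = 1 := ha.2.2 0
  set A : V ≃ₗ[ℝ] V := LinearMap.equivOfDetNeZero (A0 : V →ₗ[ℝ] V) (by rw [hdet]; norm_num)
    with hA
  have hAco : (A : V →ₗ[ℝ] V) = (A0 : V →ₗ[ℝ] V) := by
    ext x; rfl
  have hdetA : LinearMap.det (A : V →ₗ[ℝ] V) = 1 := by rw [hAco]; exact hdet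
  have hdetA' : LinearMap.det (A.symm : V →ₗ[ℝ] V) = 1 := by
    have := LinearEquiv.det_mul_det_symm A
    rw [hdetA, one_mul] at this
    exact this
  set b : V := a 0 with hb
  set g : Equiv.Perm V := A.symm.toEquiv * (Equiv.addRight (-b) * a) with hg
  have hgAP : IsAP g := (isAP_linear A.symm hdetA').mul ((isAP_translation (-b)).mul ha)
  have hgx : ∀ x, g x = A.symm (a x + (-b)) := fun x => rfl
  have hg0 : g 0 = 0 := by
    rw [hgx, ← hb]
    simp
  have hdiff : DifferentiableAt ℝ (⇑a) 0 := ha.1.differentiable (by simp) 0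
  have hg1 : fderiv ℝ g 0 = ContinuousLinearMap.id ℝ V := by
    have h1 : (⇑g : V → V) = fun x =>
        (LinearMap.toContinuousLinearMap (A.symm : V →ₗ[ℝ] V)) (a x + (-b)) := by
      funext x; exact hgx x
    have h2 : HasFDerivAt (fun x => a x + (-b)) A0 0 := hdiff.hasFDerivAt.add_const _
    have h3 := ((LinearMap.toContinuousLinearMap (A.symm : V →ₗ[ℝ] V)).hasFDerivAt
      (x := a 0 + (-b))).comp (0 : V) h2
    have h4 : fderiv ℝ (⇑g) 0 =
        (LinearMap.toContinuousLinearMap (A.symm : V →ₗ[ℝ] V)).comp A0 := by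
      rw [h1]; exact h3.fderiv
    rw [h4]
    ext1 x
    have h5 : A0 x = A x := rfl
    simp only [ContinuousLinearMap.comp_apply, ContinuousLinearMap.id_apply, h5]
    exact A.symm_apply_apply x
  have hfact : a = Equiv.addRight b * (A.toEquiv * g) := by
    ext1 x
    change a x = A (g x) + b
    rw [hgx, LinearEquiv.apply_symm_apply]
    abel
  rw [hfact]
  exact frag_mul (frag_translation b) (frag_mul (frag_linear A hdetA)
    (frag_normalized g hgAP hg0 hg1))

end Pool.Agent.Helper31.AP
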