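import Pool.Agent.Helper31.AP.Core
import Pool.Agent.Helper31.AP.Act
import Pool.Agent.Helper31.AP.ActF
import Pool.Agent.Helper31.AP.ActG
import Pool.Agent.Helper31.AP.FragAll

/-! Module C5: assembly -/

set_option autoImplicit false

namespace Pool.Agent.Helper31.AP

open Finset

/-- elements of the closure of the set of commutators are products of commutators -/
theorem closure_comm (f : Equiv.Perm V)
    (hf : f ∈ Subgroup.closure {c : Equiv.Perm V | ∃ a b : Equiv.Perm V,
      IsAP a ∧ IsAP b ∧ c = a * b * a⁻¹ * b⁻¹}) :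
    ∃ cs : List (Equiv.Perm V × Equiv.Perm V), (∀ c ∈ cs, IsAP c.1 ∧ IsAP c.2) ∧
      f = (cs.map fun c => c.1 * c.2 * c.1⁻¹ * c.2⁻¹).prod := by
  induction hf using Subgroup.closure_induction with
  | mem x hx =>
    obtain ⟨a, b, ha, hb, rfl⟩ := hx
    exact ⟨[(a, b)], by simp [ha, hb], by simp⟩
  | one => exact ⟨[], by simp, by simp⟩
  | mul x y hx hy ihx ihy =>
    obtain ⟨cs, h1, rfl⟩ := ihx
    obtain ⟨cs', h1', rfl⟩ := ihy
    refine ⟨cs ++ cs', ?_, by simp⟩
    intro c hc
    rcases List.mem_append.1 hc with h | h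
    · exact h1 c h
    · exact h1' c h
  | inv x hx ihx =>
    obtain ⟨cs, h1, rfl⟩ := ihx
    refine ⟨(cs.map Prod.swap).reverse, ?_, ?_⟩
    · intro c hc
      simp only [List.mem_reverse, List.mem_map] at hc
      obtain ⟨d, hd, rfl⟩ := hc
      exact ⟨(h1 d hd).2, (h1 d hd).1⟩
    · rw [List.prod_inv_reverse, List.map_reverse, List.map_map, List.map_map]
      congr 2

/-- the partial products are controlled by `B` -/
def Ctl (B : ℝ → ℝ) (l : List (Equiv.Perm V)) : Prop :=
  ∀ j x, ‖run l j x‖ ≤ B ‖x‖ ∧ ‖x‖ ≤ B ‖run l j x‖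

/-- decomposition with a given bound -/
def FragB (B : ℝ → ℝ) (a : Equiv.Perm V) : Prop :=
  ∀ δ : ℝ, 0 < δ → ∀ M : ℝ, ∃ l : List (Equiv.Perm V), l ≠ [] ∧
    (∀ k ∈ l, IsAP k ∧ Small δ M k ∧ Small δ M k.symm) ∧
    (∀ x, run l l.length x = a x) ∧ Ctl B l

theorem FragB.mono {B B' : ℝ → ℝ} (h : ∀ r, B r ≤ B' r) {a : Equiv.Perm V} (ha : FragB B a) :
    FragB B' a := by
  intro δ hδ M
  obtain ⟨l, h0, h1, h2, h3⟩ := ha δ hδ M
  exact ⟨l, h0, h1, h2, fun j x => ⟨(h3 j x).1.trans (h _), (h3 j x).2.trans (h _)⟩⟩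

theorem small_one {δ : ℝ} (hδ : 0 < δ) (M : ℝ) : Small δ M (1 : Equiv.Perm V) := by
  intro x _
  have h1 : (⇑(1 : Equiv.Perm V) : V → V) = id := rfl
  rw [h1]
  constructor
  · simpa using hδ.le
  · rw [fderiv_id]; simpa using hδ.le

theorem Frag.toB {a : Equiv.Perm V} (ha : Frag a) : ∃ B : ℝ → ℝ, Monotone B ∧ FragB B a := by
  obtain ⟨B, hB, h⟩ := ha
  refine ⟨B, hB, ?_⟩
  intro δ hδ M
  obtain ⟨l, h1, h2, h3⟩ := h δ hδ M
  refine ⟨1 :: l, by simp, ?_, ?_, ?_⟩
  · intro k hk
    rcases List.mem_cons.1 hk with rfl | hk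
    · exact ⟨IsAP.one, small_one hδ M, small_one hδ M⟩
    · exact h1 k hk
  · intro x
    rw [List.length_cons, run_cons_succ]
    exact h2 x
  · intro j x
    cases j with
    | zero => rw [run_zero]; have := h3 0 x; rw [run_zero] at this; exact this
    | succ j => rw [run_cons_succ]; exact h3 j x

theorem exists_common (as : List (Equiv.Perm V)) (h : ∀ a ∈ as, IsAP a) :
    ∃ B : ℝ → ℝ, Monotone B ∧ (∀ r, r ≤ B r) ∧ ∀ a ∈ as, FragB B a := by
  induction as with
  | nil => exact ⟨id, monotone_id, fun r => le_refl r, by simp⟩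
  | cons a as ih =>
    obtain ⟨B, h1, h2, h3⟩ := ih (fun b hb => h b (by simp [hb]))
    obtain ⟨B', h1', h2'⟩ := (frag_of_isAP a (h a (by simp))).toB
    refine ⟨fun r => max (B r) (B' r), h1.max h1', fun r => (h2 r).trans (le_max_left _ _), ?_⟩
    intro b hb
    rcases List.mem_cons.1 hb with rfl | hb
    · exact h2'.mono fun r => le_max_right _ _
    · exact (h3 b hb).mono fun r => le_max_left _ _

theorem iter_le {B : ℝ → ℝ} (_hm : Monotone B) (hid : ∀ r, r ≤ B r) {m n : ℕ} (h : m ≤ n) (r : ℝ) :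
    B^[m] r ≤ B^[n] r := by
  induction n, h using Nat.le_induction with
  | base => exact le_refl _
  | succ n _ ih =>
    rw [Function.iterate_succ_apply']
    exact ih.trans (hid _)

theorem Ctl.iter {B : ℝ → ℝ} (hm : Monotone B) (hid : ∀ r, r ≤ B r)
    (ls : List (List (Equiv.Perm V))) (h : ∀ l ∈ ls, Ctl B l) : Ctl (B^[ls.length]) ls.flatten := by
  induction ls with
  | nil => intro j x; simp [run]
  | cons l ls ih =>
    have ih' := ih (fun l hl => h l (by simp [hl]))
    have hl := h l (by simp)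
    intro j x
    rw [List.flatten_cons, run_append]
    have hmn : Monotone (B^[ls.length]) := hm.iterate _
    have hstep : ∀ r, B r ≤ B^[ls.length + 1] r := fun r => by
      simpa using iter_le hm hid (by omega : 1 ≤ ls.length + 1) r
    split_ifs with hj
    · exact ⟨(hl j x).1.trans (hstep _), (hl j x).2.trans (hstep _)⟩
    · constructor
      · refine (ih' _ _).1.trans ?_
        rw [List.length_cons, Function.iterate_succ_apply]
        exact hmn (hl _ _).1
      · refine (hl l.length x).2.trans ?_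
        rw [List.length_cons, Function.iterate_succ_apply']
        exact hm (ih' _ _).2

theorem run_of_ge (l : List (Equiv.Perm V)) (j : ℕ) (hj : l.length ≤ j) (x : V) :
    run l j x = run l l.length x := by
  unfold run
  rw [List.take_of_length_le hj, List.take_length]

theorem run_inv (l : List (Equiv.Perm V)) (j : ℕ) (hj : j ≤ l.length) (x : V) :
    run ((l.map Equiv.symm).reverse) j (run l l.length x) = run l (l.length - j) x := by
  induction j with
  | zero => simp [run_zero]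
  | succ j ih =>
    have hj' : j < l.length := hj
    rw [run_succ _ j (by simpa using hj'), ih hj'.le]
    have h1 : l.length - j = (l.length - (j + 1)) + 1 := by omega
    rw [h1, run_succ l (l.length - (j + 1)) (by omega)]
    rw [List.getElem_reverse, List.getElem_map]
    have h2 : (l.map Equiv.symm).length - 1 - j = l.length - (j + 1) := by
      rw [List.length_map]; omega
    simp only [h2]
    rw [Equiv.symm_apply_apply]

theorem Ctl.inv {B : ℝ → ℝ} (hm : Monotone B) (l : List (Equiv.Perm V)) (a : Equiv.Perm V)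
    (ha : ∀ x, run l l.length x = a x) (h : Ctl B l) :
    Ctl (fun r => B (B r)) ((l.map Equiv.symm).reverse) := by
  have key : ∀ j ≤ l.length, ∀ y, ‖run ((l.map Equiv.symm).reverse) j y‖ ≤ B (B ‖y‖) ∧
      ‖y‖ ≤ B (B ‖run ((l.map Equiv.symm).reverse) j y‖) := by
    intro j hj y
    obtain ⟨x, rfl⟩ := a.surjective y
    rw [← ha x, run_inv l j hj x]
    have h1 := h l.length x
    have h2 := h (l.length - j) x
    exact ⟨h2.1.trans (hm h1.2), h1.1.trans (hm h2.2)⟩
  intro j y
  by_cases hj : j ≤ l.length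
  · exact key j hj y
  · have := run_of_ge ((l.map Equiv.symm).reverse) j (by simp; omega) y
    rw [this]
    have hlen : ((l.map Equiv.symm).reverse).length = l.length := by simp
    rw [hlen]
    exact key _ le_rfl y

/-- correctness of a quadruple -/
def GoodPQ (m : ℝ) (q : PQ) : Prop :=
  IsAP q.1.1 ∧ IsPrim q.1.1 q.1.2 ∧ Gen m q.1.1 q.1.2 q.2.1 ∧
    Gen m q.1.1.symm (fun x => -q.1.2 (q.1.1.symm x)) q.2.2

theorem good_fwd {m : ℝ} {L : List PQ} (h : ∀ q ∈ L, GoodPQ m q) : ∀ q ∈ fwd L, GoodPW m q := by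
  intro q hq
  simp only [fwd, List.mem_map] at hq
  obtain ⟨r, hr, rfl⟩ := hq
  exact ⟨(h r hr).1, (h r hr).2.1, (h r hr).2.2.1⟩

theorem good_bwd {m : ℝ} {L : List PQ} (h : ∀ q ∈ L, GoodPQ m q) : ∀ q ∈ bwd L, GoodPW m q := by
  intro q hq
  simp only [bwd, List.mem_map, List.mem_reverse] at hq
  obtain ⟨r, hr, rfl⟩ := hq
  exact ⟨(h r hr).1.symm, (h r hr).2.1.symm (h r hr).1, (h r hr).2.2.2⟩

theorem ks_bwd (L : List PQ) : ks (bwd L) = ((ks (fwd L)).map Equiv.symm).reverse := by
  simp only [ks, bwd, fwd, List.map_reverse, List.map_map]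
  rfl

theorem ks_app (L L' : List PW) : ks (L ++ L') = ks L ++ ks L' := by simp [ks]

theorem Ws_append (L L' : List PW) : Ws (L ++ L') = Ws L ++ Ws L' := by simp [Ws]

theorem ks_len (L : List PW) : (ks L).length = L.length := by simp [ks]

theorem fwd_length (L : List PQ) : (fwd L).length = L.length := by simp [fwd]

theorem bwd_length (L : List PQ) : (bwd L).length = L.length := by simp [bwd]

/-- a block for a letter -/
theorem exists_block {B : ℝ → ℝ} (hm : Monotone B) (hid : ∀ r, r ≤ B r) (m : ℝ) (hm2 : 2 < m)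
    (a : Equiv.Perm V) (ha : FragB B a) :
    ∃ L : List PQ, L ≠ [] ∧ (∀ q ∈ L, GoodPQ m q) ∧
      (∀ x, run (ks (fwd L)) (fwd L).length x = a x) ∧
      (∀ x, run (ks (bwd L)) (bwd L).length x = a⁻¹ x) ∧
      Ctl (fun r => B (B r)) (ks (fwd L)) ∧ Ctl (fun r => B (B r)) (ks (bwd L)) := by
  obtain ⟨δ, hδ, M, hgen⟩ := exists_gen m hm2
  obtain ⟨l, h0, h1, h2, h3⟩ := ha δ hδ M
  have hL : ∀ l : List (Equiv.Perm V), (∀ k ∈ l, IsAP k ∧ Small δ M k ∧ Small δ M k.symm) →
      ∃ L : List PQ, (∀ q ∈ L, GoodPQ m q) ∧ ks (fwd L) = l := by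
    intro l
    induction l with
    | nil => intro _; exact ⟨[], by simp, by simp [ks, fwd]⟩
    | cons k l ih =>
      intro hl
      obtain ⟨L, hL1, hL2⟩ := ih (fun k hk => hl k (by simp [hk]))
      obtain ⟨hk1, hk2, hk3⟩ := hl k (by simp)
      obtain ⟨Φ, hΦ⟩ := exists_prim k hk1
      obtain ⟨W, hW⟩ := hgen k Φ hk1 hΦ hk2
      obtain ⟨W', hW'⟩ := hgen k.symm (fun x => -Φ (k.symm x)) hk1.symm (hΦ.symm hk1) hk3
      refine ⟨((k, Φ), (W, W')) :: L, ?_, ?_⟩
      · intro q hq
        rcases List.mem_cons.1 hq with rfl | hq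
        · exact ⟨hk1, hΦ, hW, hW'⟩
        · exact hL1 q hq
      · rw [← hL2]; simp [ks, fwd]
  obtain ⟨L, hL1, hL2⟩ := hL l h1
  have hlen : L.length = l.length := by rw [← hL2, ks_len, fwd_length]
  refine ⟨L, ?_, hL1, ?_, ?_, ?_, ?_⟩
  · rintro rfl
    exact h0 (by rw [← hL2]; simp [ks, fwd])
  · intro x; rw [hL2, fwd_length, hlen]; exact h2 x
  · intro y
    obtain ⟨x, rfl⟩ := a.surjective y
    rw [ks_bwd, hL2, bwd_length, hlen, ← h2 x, run_inv l _ le_rfl, Nat.sub_self, run_zero, h2 x]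
    simp
  · rw [hL2]
    intro j x
    exact ⟨(h3 j x).1.trans (hid _), (h3 j x).2.trans (hid _)⟩
  · rw [ks_bwd, hL2]
    exact Ctl.inv hm l a h2 h3

/-- the word: blocks in the order of application -/
noncomputable def wordB (Blk : Equiv.Perm V → List PQ) (cs : List (Equiv.Perm V × Equiv.Perm V)) :
    List (List PW) :=
  cs.reverse.flatMap fun c => [bwd (Blk c.2), bwd (Blk c.1), fwd (Blk c.2), fwd (Blk c.1)]

theorem wordB_cons (Blk : Equiv.Perm V → List PQ) (c : Equiv.Perm V × Equiv.Perm V)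
    (cs : List (Equiv.Perm V × Equiv.Perm V)) :
    wordB Blk (c :: cs) = wordB Blk cs ++
      [bwd (Blk c.2), bwd (Blk c.1), fwd (Blk c.2), fwd (Blk c.1)] := by
  simp [wordB]

theorem wordB_length (Blk : Equiv.Perm V → List PQ) (cs : List (Equiv.Perm V × Equiv.Perm V)) :
    (wordB Blk cs).length = 4 * cs.length := by
  induction cs with
  | nil => simp [wordB]
  | cons c cs ih => rw [wordB_cons, List.length_append, ih]; simp; ring

theorem run_total_append (L L' : List PW) (x : V) :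
    run (ks (L ++ L')) (L ++ L').length x =
      run (ks L') L'.length (run (ks L) L.length x) := by
  rw [ks_app, run_append, List.length_append, ks_len]
  split_ifs with h
  · have h0 : L'.length = 0 := by omega
    rw [h0, run_zero, Nat.add_zero]
  · rw [Nat.add_sub_cancel_left]

theorem run_wordB (Blk : Equiv.Perm V → List PQ) (cs : List (Equiv.Perm V × Equiv.Perm V))
    (h : ∀ c ∈ cs, ∀ a, a = c.1 ∨ a = c.2 →
      (∀ x, run (ks (fwd (Blk a))) (fwd (Blk a)).length x = a x) ∧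
      (∀ x, run (ks (bwd (Blk a))) (bwd (Blk a)).length x = a⁻¹ x)) (x : V) :
    run (ks (wordB Blk cs).flatten) (wordB Blk cs).flatten.length x =
      (cs.map fun c => c.1 * c.2 * c.1⁻¹ * c.2⁻¹).prod x := by
  induction cs generalizing x with
  | nil => simp [wordB, ks, run]
  | cons c cs ih =>
    rw [wordB_cons, List.flatten_append, run_total_append, ih (fun c hc => h c (by simp [hc]))]
    have h1 := h c (by simp) c.1 (Or.inl rfl)
    have h2 := h c (by simp) c.2 (Or.inr rfl)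
    simp only [List.flatten_cons, List.flatten_nil, List.append_nil]
    rw [run_total_append, run_total_append, run_total_append, h2.2, h1.2, h2.1, h1.1]
    simp [mul_assoc]

/-- the list of pairs (block, inverse block) -/
noncomputable def pairB (Blk : Equiv.Perm V → List PQ) (cs : List (Equiv.Perm V × Equiv.Perm V)) :
    List (List (GF (2 * Real.pi)) × List (GF (2 * Real.pi))) :=
  cs.flatMap fun c => [(Ws (fwd (Blk c.1)), Ws (bwd (Blk c.1))),
    (Ws (fwd (Blk c.2)), Ws (bwd (Blk c.2)))]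

theorem perm_pairB (Blk : Equiv.Perm V → List PQ) (cs : List (Equiv.Perm V × Equiv.Perm V)) :
    ((wordB Blk cs).map Ws).Perm ((pairB Blk cs).flatMap fun q => [q.1, q.2]) := by
  induction cs with
  | nil => simp [wordB, pairB]
  | cons c cs ih =>
    rw [wordB_cons]
    have h1 : (pairB Blk (c :: cs)).flatMap (fun q => [q.1, q.2]) =
        [Ws (fwd (Blk c.1)), Ws (bwd (Blk c.1)), Ws (fwd (Blk c.2)), Ws (bwd (Blk c.2))] ++
          (pairB Blk cs).flatMap (fun q => [q.1, q.2]) := by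
      simp [pairB]
    rw [h1, List.map_append]
    refine List.Perm.trans List.perm_append_comm (List.Perm.append ?_ ih)
    simp only [List.map_cons, List.map_nil]
    classical
    rw [List.perm_iff_count]
    intro a
    simp only [List.count_cons, List.count_nil]
    ring

theorem Ws_flatten (w : List (List PW)) : Ws w.flatten = (w.map Ws).flatten := by
  unfold Ws
  rw [List.map_flatten]

theorem Ws_ne_nil {L : List PW} (h : L ≠ []) : Ws L ≠ [] := by simpa [Ws] using h

/-- control of the level along trajectories -/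
theorem reg_of_ctl {B : ℝ → ℝ} (hm : Monotone B) (m σ S : ℝ) (hσ : 0 < σ) (hσS : 2 * σ ≤ S ^ 2)
    (hS : 0 ≤ S) (h2 : (B 2) ^ 2 < σ) (hB2 : 0 ≤ B 2) (hmB : (B S) ^ 2 < m) (L : List PW)
    (hL : Ctl B (ks L)) :
    Reg m σ L := by
  intro φ j
  obtain ⟨c1, c2⟩ := hL j (pol φ σ)
  have hx : hsq (pol φ σ) = σ := hsq_pol φ σ hσ.le
  set y := run (ks L) j (pol φ σ) with hy
  constructor
  · by_contra hcon
    push Not at hcon
    have h3 : ‖y‖ ≤ 2 := by
      have := norm_sq_le y
      nlinarith [norm_nonneg y]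
    have h4 : ‖pol φ σ‖ ≤ B 2 := c2.trans (hm h3)
    have h5 := hsq_le (pol φ σ)
    rw [hx] at h5
    nlinarith [norm_nonneg (pol φ σ)]
  · have h3 : ‖pol φ σ‖ ≤ S := by
      have := norm_sq_le (pol φ σ)
      rw [hx] at this
      exact abs_le_of_sq_le_sq' (by linarith) hS |>.2
    have h4 : ‖y‖ ≤ B S := c1.trans (hm h3)
    have h5 := hsq_le y
    nlinarith [norm_nonneg y]

theorem Ctl.mono {B B' : ℝ → ℝ} (h : ∀ r, B r ≤ B' r) {l : List (Equiv.Perm V)} (hl : Ctl B l) :
    Ctl B' l := fun j x => ⟨(hl j x).1.trans (h _), (hl j x).2.trans (h _)⟩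

/-- `f₀` is not a product of `N` commutators -/
theorem not_prod_comm (f : Equiv.Perm V) (hf : ∀ x, f x = f0 x)
    (cs : List (Equiv.Perm V × Equiv.Perm V)) (hcs : ∀ c ∈ cs, IsAP c.1 ∧ IsAP c.2)
    (h : f = (cs.map fun c => c.1 * c.2 * c.1⁻¹ * c.2⁻¹).prod) : False := by
  -- the common bound
  obtain ⟨B₀, hB₀m, hB₀id, hB₀⟩ := exists_common (cs.flatMap fun c => [c.1, c.2]) (by
    intro a ha
    rw [List.mem_flatMap] at ha
    obtain ⟨c, hc, ha⟩ := ha
    simp only [List.mem_cons, List.not_mem_nil, or_false] at ha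
    rcases ha with rfl | rfl
    · exact (hcs c hc).1
    · exact (hcs c hc).2)
  set B₁ : ℝ → ℝ := fun r => B₀ (B₀ r) with hB₁
  have hB₁m : Monotone B₁ := hB₀m.comp hB₀m
  have hB₁id : ∀ r, r ≤ B₁ r := fun r => (hB₀id r).trans (hB₀id _)
  set N := cs.length with hN
  set B : ℝ → ℝ := B₁^[4 * N + 2] with hB
  have hBm : Monotone B := hB₁m.iterate _
  have hBid : ∀ r, r ≤ B r := fun r => by
    exact iter_le hB₁m hB₁id (Nat.zero_le (4 * N + 2)) r
  -- the level
  have hpi := Real.pi_pos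
  set s : ℝ := (B 2) ^ 2 + 64 * Real.pi * N + 1 with hs
  have hB2 : 0 ≤ B 2 := le_trans (by norm_num) (hBid 2)
  have hN0 : (0 : ℝ) ≤ N := Nat.cast_nonneg N
  have hs0 : 0 < s := by positivity
  set S : ℝ := 6 * s + 1 with hS
  have hS0 : 0 ≤ S := by positivity
  set m : ℝ := (B S) ^ 2 + 3 with hm
  have hm2 : 2 < m := by have := sq_nonneg (B S); linarith
  -- the blocks
  have hblk : ∀ a : Equiv.Perm V, ∃ L : List PQ, FragB B₀ a → L ≠ [] ∧ (∀ q ∈ L, GoodPQ m q) ∧
      (∀ x, run (ks (fwd L)) (fwd L).length x = a x) ∧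
      (∀ x, run (ks (bwd L)) (bwd L).length x = a⁻¹ x) ∧
      Ctl B₁ (ks (fwd L)) ∧ Ctl B₁ (ks (bwd L)) := by
    intro a
    by_cases ha : FragB B₀ a
    · obtain ⟨L, hL⟩ := exists_block hB₀m hB₀id m hm2 a ha
      exact ⟨L, fun _ => hL⟩
    · exact ⟨[], fun h => absurd h ha⟩
  choose Blk hBlk using hblk
  have hlet : ∀ c ∈ cs, ∀ a, a = c.1 ∨ a = c.2 → FragB B₀ a := by
    intro c hc a ha
    apply hB₀ a
    rw [List.mem_flatMap]
    exact ⟨c, hc, by simpa using ha⟩
  set w := wordB Blk cs with hw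
  set L := w.flatten with hL
  -- total map
  have hrun : ∀ x, run (ks L) L.length x = f0 x := by
    intro x
    rw [hL, hw, run_wordB Blk cs ?_ x, ← h, hf]
    intro c hc a ha
    have := hBlk a (hlet c hc a ha)
    exact ⟨this.2.2.1, this.2.2.2.1⟩
  -- the blocks of `w` are good
  have hwmem : ∀ l ∈ w, l ≠ [] ∧ (∀ q ∈ l, GoodPW m q) ∧ Ctl B₁ (ks l) := by
    intro l hl
    rw [hw, wordB, List.mem_flatMap] at hl
    obtain ⟨c, hc, hl⟩ := hl
    rw [List.mem_reverse] at hc
    have g1 := hBlk c.1 (hlet c hc _ (Or.inl rfl))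
    have g2 := hBlk c.2 (hlet c hc _ (Or.inr rfl))
    have e1 : ∀ L : List PQ, L ≠ [] → fwd L ≠ [] := fun L hL => by simpa [fwd] using hL
    have e2 : ∀ L : List PQ, L ≠ [] → bwd L ≠ [] := fun L hL => by simpa [bwd] using hL
    simp only [List.mem_cons, List.not_mem_nil, or_false] at hl
    rcases hl with rfl | rfl | rfl | rfl
    · exact ⟨e2 _ g2.1, good_bwd g2.2.1, g2.2.2.2.2.2⟩
    · exact ⟨e2 _ g1.1, good_bwd g1.2.1, g1.2.2.2.2.2⟩
    · exact ⟨e1 _ g2.1, good_fwd g2.2.1, g2.2.2.2.2.1⟩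
    · exact ⟨e1 _ g1.1, good_fwd g1.2.1, g1.2.2.2.2.1⟩
  have hLgood : ∀ q ∈ L, GoodPW m q := by
    intro q hq
    rw [hL, List.mem_flatten] at hq
    obtain ⟨l, hl, hq⟩ := hq
    exact (hwmem l hl).2.1 q hq
  have hLctl : Ctl B (ks L) := by
    have h1 : ks L = (w.map ks).flatten := by rw [hL]; unfold ks; rw [List.map_flatten]
    rw [h1]
    have h2 := Ctl.iter hB₁m hB₁id (w.map ks) (by
      intro l hl
      rw [List.mem_map] at hl
      obtain ⟨l', hl', rfl⟩ := hl
      exact (hwmem l' hl').2.2)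
    refine h2.mono fun r => ?_
    rw [List.length_map, hw, wordB_length]
    exact iter_le hB₁m hB₁id (by omega) r
  have hregL : ∀ σ, s ≤ σ → σ ≤ 3 * s → Reg m σ L := by
    intro σ h1 h2
    refine reg_of_ctl hBm m σ S (by linarith) ?_ hS0 ?_ hB2 (by rw [hm]; linarith) L hLctl
    · have h3 : (0 : ℝ) ≤ s := hs0.le
      rw [hS]; nlinarith
    · have : (B 2) ^ 2 < s := by rw [hs]; nlinarith
      linarith
  -- pairs
  have hpairctl : ∀ L' : List PQ, Ctl B₁ (ks (fwd L')) → Ctl B₁ (ks (bwd L')) →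
      Ctl B (ks (fwd L' ++ bwd L')) := by
    intro L' h1 h2
    have h3 := Ctl.iter hB₁m hB₁id [ks (fwd L'), ks (bwd L')] (by
      intro l hl
      simp only [List.mem_cons, List.not_mem_nil, or_false] at hl
      rcases hl with rfl | rfl
      · exact h1
      · exact h2)
    rw [ks_app]
    simp only [List.flatten_cons, List.flatten_nil, List.append_nil] at h3
    refine h3.mono fun r => ?_
    exact iter_le hB₁m hB₁id (by simp) r
  -- nonempty
  have hLne : L ≠ [] := by
    intro hL0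
    obtain ⟨C, hC⟩ := actF_f0 L (fun q hq => ⟨(hLgood q hq).1, (hLgood q hq).2.1⟩) hrun
    have h1 := hC (pol 0 1)
    have h2 := hC (pol 0 2)
    rw [hL0, hsq_pol _ _ (by norm_num)] at h1
    rw [hL0, hsq_pol _ _ (by norm_num)] at h2
    simp [ActF] at h1 h2
    linarith
  obtain ⟨C, hC⟩ := actF_f0 L (fun q hq => ⟨(hLgood q hq).1, (hLgood q hq).2.1⟩) hrun
  obtain ⟨n, hn⟩ := actG_f0 m s hs0 L hLgood hregL hrun
  -- the core inequality at level `σ`
  have hcore : ∀ σ, s ≤ σ → σ ≤ 3 * s →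
      |σ ^ 2 / 2 + C - σ * (σ + n * (2 * Real.pi))| ≤ 4 * N * (2 * Real.pi) * σ := by
    intro σ h1 h2
    have hσ0 : 0 < σ := by linarith
    have hcr := core (p := 2 * Real.pi) (by positivity) σ hσ0.le (pairB Blk cs) ?_ ?_
      (w.map Ws) (by rw [hw]; exact perm_pairB Blk cs)
      (σ ^ 2 / 2 + C - σ * (σ + n * (2 * Real.pi))) ?_
    · rw [List.length_map, hw, wordB_length] at hcr
      push_cast at hcr
      rw [← hN] at hcr
      exact hcr
    · intro q hq
      rw [pairB, List.mem_flatMap] at hq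
      obtain ⟨c, hc, hq⟩ := hq
      have g1 := hBlk c.1 (hlet c hc _ (Or.inl rfl))
      have g2 := hBlk c.2 (hlet c hc _ (Or.inr rfl))
      have e1 : ∀ L : List PQ, L ≠ [] → Ws (fwd L) ≠ [] := fun L hL => by
        simpa [fwd, Ws] using hL
      have e2 : ∀ L : List PQ, L ≠ [] → Ws (bwd L) ≠ [] := fun L hL => by
        simpa [bwd, Ws] using hL
      simp only [List.mem_cons, List.not_mem_nil, or_false] at hq
      rcases hq with rfl | rfl
      · exact ⟨e1 _ g1.1, e2 _ g1.1⟩
      · exact ⟨e1 _ g2.1, e2 _ g2.1⟩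
    · intro q hq x hx
      rw [pairB, List.mem_flatMap] at hq
      obtain ⟨c, hc, hq⟩ := hq
      have main : ∀ a, a = c.1 ∨ a = c.2 → IsCrit σ (Ws (fwd (Blk a)) ++ Ws (bwd (Blk a))) x →
          F σ (Ws (fwd (Blk a)) ++ Ws (bwd (Blk a))) x = 0 := by
        intro a ha hx
        have g := hBlk a (hlet c hc a ha)
        rw [← Ws_append] at hx ⊢
        have hreg : Reg m σ (fwd (Blk a) ++ bwd (Blk a)) := by
          refine reg_of_ctl hBm m σ S hσ0 ?_ hS0 ?_ hB2 (by rw [hm]; linarith) _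
            (hpairctl _ g.2.2.2.2.1 g.2.2.2.2.2)
          · have h3 : (0 : ℝ) ≤ s := hs0.le
            rw [hS]; nlinarith
          · have : (B 2) ^ 2 < s := by rw [hs]; nlinarith
            linarith
        obtain ⟨φ, -, hφ⟩ := crit_value m σ (fwd (Blk a) ++ bwd (Blk a)) (by
          have : fwd (Blk a) ≠ [] := by simpa [fwd] using g.1
          simp [this]) (by
          intro q hq
          rcases List.mem_append.1 hq with hq | hq
          · exact good_fwd g.2.1 q hq
          · exact good_bwd g.2.1 q hq) hreg x hx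
        rw [hφ, (act_fwd_bwd _ _).1, (act_fwd_bwd _ _).2]
        simp
      simp only [List.mem_cons, List.not_mem_nil, or_false] at hq
      rcases hq with rfl | rfl
      · exact main _ (Or.inl rfl) hx
      · exact main _ (Or.inr rfl) hx
    · intro x hx
      rw [← Ws_flatten, ← hL] at hx ⊢
      obtain ⟨φ, -, hφ⟩ := crit_value m σ L hLne hLgood (hregL σ h1 h2) x hx
      rw [hφ, hC, hn σ φ h1 h2, hsq_pol _ _ hσ0.le]
  have k1 := abs_le.1 (hcore s le_rfl (by linarith))
  have k2 := abs_le.1 (hcore (2 * s) (by linarith) (by linarith))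
  have k3 := abs_le.1 (hcore (3 * s) (by linarith) le_rfl)
  have hfin : s ^ 2 ≤ 64 * Real.pi * N * s := by nlinarith [k1.1, k1.2, k2.1, k2.2, k3.1, k3.2]
  have hfin2 : s ≤ 64 * Real.pi * N := by
    by_contra hcon
    push Not at hcon
    nlinarith
  rw [hs] at hfin2
  nlinarith [sq_nonneg (B 2)]

theorem not_perfect : ¬ (∀ f : Equiv.Perm V, IsAP f → f ∈ Subgroup.closure
    {c : Equiv.Perm V | ∃ a b : Equiv.Perm V, IsAP a ∧ IsAP b ∧ c = a * b * a⁻¹ * b⁻¹}) := by
  intro hall
  obtain ⟨f, hf, hf0⟩ := exists_f0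
  obtain ⟨cs, h1, h2⟩ := closure_comm f (hall f hf)
  exact not_prod_comm f hf0 cs h1 h2

end Pool.Agent.Helper31.AP
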