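import Pool.Agent.Helper31.AP.Prim

/-! Module C1: decomposition of an area preserving map into small pieces with controlled partial
products -/

set_option autoImplicit false

namespace Pool.Agent.Helper31.AP

/-- `run` of a concatenation -/
theorem run_append (l l' : List (Equiv.Perm V)) (j : ℕ) (x : V) :
    run (l ++ l') j x = if j ≤ l.length then run l j x else run l' (j - l.length) (run l l.length x) := by
  unfold run
  rw [List.take_append]
  split_ifs with h
  · rw [Nat.sub_eq_zero_of_le h, List.take_zero, List.append_nil]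
  · rw [List.foldl_append, List.take_of_length_le (by omega : l.length ≤ j), List.take_length]

theorem frag_mul {a b : Equiv.Perm V} (ha : Frag a) (hb : Frag b) : Frag (a * b) := by
  obtain ⟨A, hA, ha⟩ := ha
  obtain ⟨B, hB, hb⟩ := hb
  refine ⟨fun t => max (B t) (max (A (B t)) (B (A t))), ?_, fun δ hδ M => ?_⟩
  · intro s t hst
    exact max_le_max (hB hst) (max_le_max (hA (hB hst)) (hB (hA hst)))
  · obtain ⟨la, h1a, h2a, h3a⟩ := ha δ hδ M
    obtain ⟨lb, h1b, h2b, h3b⟩ := hb δ hδ M
    refine ⟨lb ++ la, fun k hk => ?_, fun x => ?_, fun j x => ?_⟩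
    · rcases List.mem_append.mp hk with h | h
      · exact h1b k h
      · exact h1a k h
    · rw [run_append]
      split_ifs with h
      · have hl : la.length = 0 := by
          rw [List.length_append] at h
          omega
        have h4 : (lb ++ la).length = lb.length := by rw [List.length_append]; omega
        rw [h4, h2b]
        have h5 := h2a (b x)
        rw [hl] at h5
        rw [Equiv.Perm.mul_apply, ← h5]
        simp [run]
      · rw [h2b, List.length_append, Nat.add_sub_cancel_left, h2a, Equiv.Perm.mul_apply]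
    · rw [run_append]
      split_ifs with h
      · exact ⟨(h3b j x).1.trans (le_max_left _ _), (h3b j x).2.trans (le_max_left _ _)⟩
      · rw [h2b]
        have h4 := h3b lb.length x
        rw [h2b] at h4
        have h5 := h3a (j - lb.length) (b x)
        refine ⟨?_, ?_⟩
        · exact (h5.1.trans (hA h4.1)).trans ((le_max_left _ _).trans (le_max_right _ _))
        · exact (h4.2.trans (hB h5.2)).trans ((le_max_right _ _).trans (le_max_right _ _))

private theorem foldl_replicate (k : Equiv.Perm V) (n : ℕ) (x : V) :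
    (List.replicate n k).foldl (fun (y : V) (k : Equiv.Perm V) => k y) x = (⇑k)^[n] x := by
  induction n generalizing x with
  | zero => rfl
  | succ n ih => rw [List.replicate_succ, List.foldl_cons, ih, Function.iterate_succ_apply]

private theorem run_replicate (k : Equiv.Perm V) (N j : ℕ) (x : V) :
    run (List.replicate N k) j x = (⇑k)^[min j N] x := by
  unfold run
  rw [List.take_replicate, foldl_replicate]

/-- one-parameter groups decompose into small pieces -/
private theorem frag_flow (φ : ℝ → Equiv.Perm V) (hadd : ∀ s t x, φ s (φ t x) = φ (s + t) x)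
    (h0 : ∀ x, φ 0 x = x) (hAP : ∀ s, IsAP (φ s)) (B : ℝ → ℝ) (hB : Monotone B)
    (hbd : ∀ s, |s| ≤ 1 → ∀ x, ‖φ s x‖ ≤ B ‖x‖)
    (hsm : ∀ δ : ℝ, 0 < δ → ∀ M : ℝ, ∃ η : ℝ, 0 < η ∧ ∀ s, |s| ≤ η → Small δ M (φ s)) :
    Frag (φ 1) := by
  have hsymm : ∀ s, (⇑(φ s).symm : V → V) = φ (-s) := by
    intro s
    funext x
    rw [Equiv.symm_apply_eq, hadd, add_neg_cancel, h0]
  have hit : ∀ (s : ℝ) (n : ℕ) (x : V), (⇑(φ s))^[n] x = φ (n * s) x := by
    intro s n x
    induction n with
    | zero => rw [Function.iterate_zero, id, Nat.cast_zero, zero_mul, h0]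
    | succ n ih =>
      rw [Function.iterate_succ_apply', ih, hadd]
      congr 2
      push_cast
      ring
  refine ⟨B, hB, fun δ hδ M => ?_⟩
  obtain ⟨η, hη, hs⟩ := hsm δ hδ M
  obtain ⟨N, hN⟩ := exists_nat_gt (1 / η)
  have hN0 : (0 : ℝ) < N := (by positivity : (0 : ℝ) < 1 / η).trans hN
  have hNη : |1 / (N : ℝ)| ≤ η := by
    rw [abs_of_pos (by positivity), div_le_iff₀ hN0]
    rw [div_lt_iff₀ hη] at hN
    linarith
  refine ⟨List.replicate N (φ (1 / N)), fun k hk => ?_, fun x => ?_, fun j x => ?_⟩
  · obtain rfl := List.eq_of_mem_replicate hk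
    refine ⟨hAP _, hs _ hNη, ?_⟩
    rw [hsymm]
    exact hs _ (by rwa [abs_neg])
  · rw [run_replicate, List.length_replicate, min_self, hit, mul_one_div_cancel hN0.ne']
  · rw [run_replicate, hit]
    have h1 : |((min j N : ℕ) : ℝ) * (1 / N)| ≤ 1 := by
      rw [abs_of_nonneg (by positivity), mul_one_div, div_le_one hN0]
      exact_mod_cast min_le_right j N
    refine ⟨hbd _ h1 x, ?_⟩
    have h2 := hbd (-(((min j N : ℕ) : ℝ) * (1 / N))) (by rwa [abs_neg])
      (φ (((min j N : ℕ) : ℝ) * (1 / N)) x)
    rwa [hadd, neg_add_cancel, h0] at h2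

private theorem small_of_norm {δ M : ℝ} {k : V → V} {A : V →L[ℝ] V} {w : V}
    (hk : ∀ x, k x = x + A x + w) (hA : ‖A‖ ≤ δ) (hM : ‖A‖ * M + ‖w‖ ≤ δ) : Small δ M k := by
  have hf : ∀ x, HasFDerivAt k (ContinuousLinearMap.id ℝ V + A) x := by
    intro x
    have h1 : HasFDerivAt (fun x : V => x + A x + w) (ContinuousLinearMap.id ℝ V + A) x :=
      ((hasFDerivAt_id x).add A.hasFDerivAt).add_const w
    have h2 : k = fun x : V => x + A x + w := funext hk
    rw [h2]
    exact h1
  intro x hx
  refine ⟨?_, ?_⟩
  · have h1 : k x - x = A x + w := by rw [hk]; abel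
    rw [h1]
    have h2 : ‖A x‖ ≤ ‖A‖ * M := (A.le_opNorm x).trans
      (mul_le_mul_of_nonneg_left hx (norm_nonneg _))
    exact (norm_add_le _ _).trans (by linarith)
  · rw [(hf x).fderiv, add_sub_cancel_left]
    exact hA

private theorem isAP_of_affine {k : Equiv.Perm V} {A A' : V →L[ℝ] V} {w w' : V}
    (hk : ∀ x, k x = x + A x + w) (hk' : ∀ x, k.symm x = x + A' x + w')
    (hd : LinearMap.det ((ContinuousLinearMap.id ℝ V + A : V →L[ℝ] V) : V →ₗ[ℝ] V) = 1) :
    IsAP k := by
  have hf : ∀ x, HasFDerivAt k (ContinuousLinearMap.id ℝ V + A) x := by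
    intro x
    have h1 : HasFDerivAt (fun x : V => x + A x + w) (ContinuousLinearMap.id ℝ V + A) x :=
      ((hasFDerivAt_id x).add A.hasFDerivAt).add_const w
    have h2 : ⇑k = fun x : V => x + A x + w := funext hk
    rw [h2]
    exact h1
  refine ⟨?_, ?_, fun x => ?_⟩
  · have h2 : ⇑k = fun x : V => x + A x + w := funext hk
    rw [h2]
    exact (contDiff_id.add A.contDiff).add contDiff_const
  · have h2 : ⇑k.symm = fun x : V => x + A' x + w' := funext hk'
    rw [h2]
    exact (contDiff_id.add A'.contDiff).add contDiff_const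
  · rw [(hf x).fderiv]
    exact hd

theorem frag_translation (v : V) : Frag (Equiv.addRight v) := by
  have h := frag_flow (fun s => Equiv.addRight (s • v)) (fun s t x => ?_) (fun x => ?_)
    (fun s => ?_) (fun t => t + ‖v‖) (fun s t h => by simpa using h) (fun s hs x => ?_)
    (fun δ hδ M => ?_)
  · simpa using h
  · simp only [Equiv.coe_addRight]
    rw [add_smul]
    abel
  · simp
  · refine isAP_of_affine (A := 0) (A' := 0) (w := s • v) (w' := -(s • v)) (fun x => by simp)
      (fun x => by simp) ?_
    rw [add_zero]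
    exact LinearMap.det_id
  · simp only [Equiv.coe_addRight]
    refine (norm_add_le _ _).trans ?_
    rw [norm_smul, Real.norm_eq_abs]
    have := mul_le_mul_of_nonneg_right hs (norm_nonneg v)
    linarith
  · refine ⟨δ / (‖v‖ + 1), by positivity, fun s hs => ?_⟩
    refine small_of_norm (A := 0) (w := s • v) (fun x => by simp) (by simpa using hδ.le) ?_
    rw [norm_zero, zero_mul, zero_add, norm_smul, Real.norm_eq_abs]
    have h1 : (0 : ℝ) < ‖v‖ + 1 := by positivity
    rw [le_div_iff₀ h1] at hs
    nlinarith [abs_nonneg s]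

/-- the shear `(x, y) ↦ (x + t y, y)` and `(x, y) ↦ (x, y + t x)` -/
def shear (i : Fin 2) (t : ℝ) : Equiv.Perm V where
  toFun x := fun j => if j = i then x i + t * x (1 - i) else x j
  invFun x := fun j => if j = i then x i - t * x (1 - i) else x j
  left_inv x := by
    funext j
    fin_cases i <;> fin_cases j <;> simp
  right_inv x := by
    funext j
    fin_cases i <;> fin_cases j <;> simp

/-- the nilpotent part of a shear -/
private noncomputable def nil (i : Fin 2) : V →L[ℝ] V :=
  (ContinuousLinearMap.single ℝ (fun _ : Fin 2 => ℝ) i).comp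
    (ContinuousLinearMap.proj (R := ℝ) (φ := fun _ : Fin 2 => ℝ) (1 - i))

private theorem nil_apply (i : Fin 2) (x : V) : nil i x = Pi.single i (x (1 - i)) := rfl

private theorem nil_norm (i : Fin 2) : ‖nil i‖ ≤ 1 := by
  refine ContinuousLinearMap.opNorm_le_bound _ zero_le_one fun x => ?_
  rw [nil_apply, Pi.norm_single, one_mul]
  exact norm_le_pi_norm x _

private theorem shear_apply (i : Fin 2) (t : ℝ) (x : V) : shear i t x = x + (t • nil i) x + 0 := by
  funext j
  rw [add_zero, Pi.add_apply, smul_apply, nil_apply]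
  fin_cases i <;> fin_cases j <;> simp [shear]

private theorem shear_symm_apply (i : Fin 2) (t : ℝ) (x : V) :
    (shear i t).symm x = x + ((-t) • nil i) x + 0 := by
  rw [Equiv.symm_apply_eq]
  funext j
  fin_cases i <;> fin_cases j <;> simp [shear, nil_apply]

private theorem isAP_shear (i : Fin 2) (t : ℝ) : IsAP (shear i t) := by
  refine isAP_of_affine (shear_apply i t) (shear_symm_apply i t) (det_eq_one_of _ fun u v => ?_)
  fin_cases i <;> simp [nil_apply] <;> ring

theorem frag_shear (i : Fin 2) (t : ℝ) : Frag (shear i t) := by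
  have hb : ∀ (s : ℝ) (x : V), ‖shear i s x‖ ≤ (1 + |s|) * ‖x‖ := by
    intro s x
    rw [shear_apply, add_zero, smul_apply]
    refine (norm_add_le _ _).trans ?_
    rw [norm_smul, Real.norm_eq_abs]
    have h1 : ‖nil i x‖ ≤ ‖x‖ := by
      have := (nil i).le_of_opNorm_le (nil_norm i) x
      rwa [one_mul] at this
    have := mul_le_mul_of_nonneg_left h1 (abs_nonneg s)
    linarith
  have h := frag_flow (fun s => shear i (s * t)) (fun s r x => ?_) (fun x => ?_)
    (fun s => isAP_shear i _) (fun u => (1 + |t|) * u)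
    (fun s r h => mul_le_mul_of_nonneg_left h (by positivity)) (fun s hs x => ?_)
    (fun δ hδ M => ?_)
  · simpa using h
  · funext j
    fin_cases i <;> fin_cases j <;> simp [shear] <;> ring
  · funext j
    fin_cases i <;> fin_cases j <;> simp [shear]
  · refine (hb _ x).trans (mul_le_mul_of_nonneg_right ?_ (norm_nonneg _))
    rw [abs_mul]
    have := mul_le_mul_of_nonneg_right hs (abs_nonneg t)
    linarith
  · refine ⟨δ / (|t| * (|M| + 1) + 1), by positivity, fun s hs => ?_⟩
    have h1 : (0 : ℝ) < |t| * (|M| + 1) + 1 := by positivity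
    rw [le_div_iff₀ h1] at hs
    have h2 : ‖(s * t) • nil i‖ ≤ |s| * |t| := by
      rw [norm_smul, Real.norm_eq_abs, abs_mul]
      have := mul_le_mul_of_nonneg_left (nil_norm i) (by positivity : 0 ≤ |s| * |t|)
      linarith
    have h3 : |s| * |t| * (|M| + 1) ≤ δ := by nlinarith [abs_nonneg s]
    have h4 : 0 ≤ |s| * |t| := by positivity
    refine small_of_norm (shear_apply i _) ?_ ?_
    · nlinarith [abs_nonneg M]
    · rw [norm_zero, add_zero]
      have h5 : ‖(s * t) • nil i‖ * M ≤ ‖(s * t) • nil i‖ * |M| :=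
        mul_le_mul_of_nonneg_left (le_abs_self M) (norm_nonneg _)
      have h6 : ‖(s * t) • nil i‖ * |M| ≤ |s| * |t| * |M| :=
        mul_le_mul_of_nonneg_right h2 (abs_nonneg M)
      nlinarith

/-- linear maps of determinant one are products of shears -/
theorem frag_linear (A : V ≃ₗ[ℝ] V) (hA : LinearMap.det (A : V →ₗ[ℝ] V) = 1) :
    Frag A.toEquiv := by
  -- coordinates
  have key : ∀ (a b c d : ℝ) (P : Equiv.Perm V), (∀ x, P x = ![a * x 0 + b * x 1, c * x 0 + d * x 1]) →
      a * d - b * c = 1 → c ≠ 0 → Frag P := by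
    intro a b c d P hP hd hc
    have h1 : P = shear 0 ((a - 1) / c) * shear 1 c * shear 0 ((d - 1) / c) := by
      ext x j
      rw [hP, Equiv.Perm.mul_apply, Equiv.Perm.mul_apply]
      fin_cases j
      · simp [shear]
        field_simp
        linear_combination (-(x 1)) * hd
      · simp [shear]
        field_simp
        ring
    rw [h1]
    exact frag_mul (frag_mul (frag_shear _ _) (frag_shear _ _)) (frag_shear _ _)
  have hco : ∀ x, A x = ![A (Pi.single 0 1) 0 * x 0 + A (Pi.single 1 1) 0 * x 1,
      A (Pi.single 0 1) 1 * x 0 + A (Pi.single 1 1) 1 * x 1] := by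
    intro x
    have hx : x = x 0 • (Pi.single 0 1 : V) + x 1 • (Pi.single 1 1 : V) := by
      funext j
      fin_cases j <;> simp
    conv_lhs => rw [hx]
    rw [map_add, map_smul, map_smul]
    funext j
    fin_cases j <;> simp [mul_comm]
  have hdet : A (Pi.single 0 1) 0 * A (Pi.single 1 1) 1 -
      A (Pi.single 1 1) 0 * A (Pi.single 0 1) 1 = 1 := by
    rw [← LinearMap.det_toMatrix', Matrix.det_fin_two] at hA
    simp only [LinearMap.toMatrix'_apply] at hA
    simpa using hA
  by_cases hc : A (Pi.single 0 1) 1 = 0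
  · have ha : A (Pi.single 0 1) 0 ≠ 0 := by
      intro h
      rw [hc, h] at hdet
      simp at hdet
    have h1 : A.toEquiv = shear 1 (-1) * (shear 1 1 * A.toEquiv) := by
      ext x j
      rw [Equiv.Perm.mul_apply, Equiv.Perm.mul_apply]
      fin_cases j <;> simp [shear]
    rw [h1]
    refine frag_mul (frag_shear _ _) (key (A (Pi.single 0 1) 0) (A (Pi.single 1 1) 0)
      (A (Pi.single 0 1) 1 + A (Pi.single 0 1) 0) (A (Pi.single 1 1) 1 + A (Pi.single 1 1) 0)
      _ (fun x => ?_) (by linear_combination hdet) (by rwa [hc, zero_add]))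
    rw [Equiv.Perm.mul_apply]
    have := hco x
    funext j
    fin_cases j
    · simp [shear]
      rw [this]
      simp
    · simp [shear]
      rw [this]
      simp
      ring
  · exact key _ _ _ _ _ hco hdet hc

end Pool.Agent.Helper31.AP
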