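import Pool.Agent.Helper31.AP.Defs

/-! Module C2c: a `C²` function gives a `GF` -/

set_option autoImplicit false

namespace Pool.Agent.Helper31.AP

/-- a continuous function that is periodic in the first variable and vanishes outside a strip is
bounded -/
lemma gfc2_bdd {E : Type*} [NormedAddCommGroup E] {p : ℝ} (hp : 0 < p) (G : ℝ × ℝ → E)
    (hG : Continuous G) (hper : ∀ θ ρ, G (θ + p, ρ) = G (θ, ρ)) (R : ℝ)
    (hlow : ∀ θ ρ, ρ < 1 → G (θ, ρ) = 0) (hhigh : ∀ θ ρ, R < ρ → G (θ, ρ) = 0) :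
    ∃ C, 0 ≤ C ∧ ∀ x, ‖G x‖ ≤ C := by
  have hK : IsCompact (Set.Icc (0 : ℝ) p ×ˢ Set.Icc (1 : ℝ) R) := isCompact_Icc.prod isCompact_Icc
  obtain ⟨C, hC⟩ := hK.exists_bound_of_continuousOn hG.continuousOn
  refine ⟨max C 0, le_max_right _ _, ?_⟩
  rintro ⟨θ, ρ⟩
  by_cases h1 : ρ < 1
  · rw [hlow θ ρ h1]; simp
  by_cases h2 : R < ρ
  · rw [hhigh θ ρ h2]; simp
  push Not at h1 h2
  have hP : Function.Periodic (fun t => G (t, ρ)) p := fun t => hper t ρ
  obtain ⟨y, hy, hy2⟩ := hP.exists_mem_Ico₀ hp θ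
  rw [hy2]
  exact (hC (y, ρ) ⟨⟨hy.1, hy.2.le⟩, h1, h2⟩).trans (le_max_left _ _)

/-- A `C²` function, `p`-periodic in `θ`, zero for `ρ ≤ 1` and for large `ρ`, gives a `GF`. -/
theorem gf_of_contDiff {p : ℝ} (hp : 0 < p) (W : ℝ × ℝ → ℝ) (hW : ContDiff ℝ 2 W)
    (hper : ∀ θ ρ, W (θ + p, ρ) = W (θ, ρ)) (R : ℝ) (hlow : ∀ θ ρ, ρ ≤ 1 → W (θ, ρ) = 0)
    (hhigh : ∀ θ ρ, R ≤ ρ → W (θ, ρ) = 0)
    (hpos : ∀ θ ρ, 0 ≤ ρ → -ρ ≤ fderiv ℝ W (θ, ρ) (1, 0)) :
    ∃ g : GF p, (∀ θ ρ, g.W θ ρ = W (θ, ρ)) ∧ (∀ θ ρ, g.Wt θ ρ = fderiv ℝ W (θ, ρ) (1, 0)) ∧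
      ∀ θ ρ, g.Wr θ ρ = fderiv ℝ W (θ, ρ) (0, 1) := by
  have hd1 : ContDiff ℝ 1 (fderiv ℝ W) := hW.fderiv_right (by norm_num)
  have hW1 : Differentiable ℝ W := hW.differentiable (by norm_num)
  have hd1d : Differentiable ℝ (fderiv ℝ W) := hd1.differentiable (by norm_num)
  have hc1 : Continuous (fderiv ℝ W) := hd1.continuous
  have hc2 : Continuous (fderiv ℝ (fderiv ℝ W)) := hd1.continuous_fderiv (by norm_num)
  -- periodicity of derivatives
  have hshift : (fun x : ℝ × ℝ => W (x + (p, 0))) = W := by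
    funext x
    obtain ⟨θ, ρ⟩ := x
    simpa using hper θ ρ
  have hper1 : ∀ x, fderiv ℝ W (x + (p, 0)) = fderiv ℝ W x := by
    intro x
    rw [← fderiv_comp_add_right, hshift]
  have hshift1 : (fun x : ℝ × ℝ => fderiv ℝ W (x + (p, 0))) = fderiv ℝ W := by
    funext x; exact hper1 x
  have hper2 : ∀ x, fderiv ℝ (fderiv ℝ W) (x + (p, 0)) = fderiv ℝ (fderiv ℝ W) x := by
    intro x
    rw [← fderiv_comp_add_right, hshift1]
  -- vanishing of derivatives
  have hopen1 : IsOpen {x : ℝ × ℝ | x.2 < 1} := isOpen_lt continuous_snd continuous_const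
  have hopen2 : IsOpen {x : ℝ × ℝ | R < x.2} := isOpen_lt continuous_const continuous_snd
  have hz1 : ∀ x : ℝ × ℝ, x.2 < 1 → fderiv ℝ W x = 0 := by
    intro x hx
    have : W =ᶠ[nhds x] fun _ => 0 := by
      filter_upwards [hopen1.mem_nhds hx] with y hy
      exact hlow y.1 y.2 (le_of_lt hy)
    rw [this.fderiv_eq]; simp
  have hz2 : ∀ x : ℝ × ℝ, R < x.2 → fderiv ℝ W x = 0 := by
    intro x hx
    have : W =ᶠ[nhds x] fun _ => 0 := by
      filter_upwards [hopen2.mem_nhds hx] with y hy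
      exact hhigh y.1 y.2 (le_of_lt hy)
    rw [this.fderiv_eq]; simp
  have hzz1 : ∀ x : ℝ × ℝ, x.2 < 1 → fderiv ℝ (fderiv ℝ W) x = 0 := by
    intro x hx
    have : fderiv ℝ W =ᶠ[nhds x] fun _ => 0 := by
      filter_upwards [hopen1.mem_nhds hx] with y hy
      exact hz1 y hy
    rw [this.fderiv_eq]; simp
  have hzz2 : ∀ x : ℝ × ℝ, R < x.2 → fderiv ℝ (fderiv ℝ W) x = 0 := by
    intro x hx
    have : fderiv ℝ W =ᶠ[nhds x] fun _ => 0 := by
      filter_upwards [hopen2.mem_nhds hx] with y hy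
      exact hz2 y hy
    rw [this.fderiv_eq]; simp
  -- bounds
  obtain ⟨M0, hM0, hb0⟩ := gfc2_bdd hp W hW.continuous hper R (fun θ ρ h => hlow θ ρ h.le)
    (fun θ ρ h => hhigh θ ρ h.le)
  obtain ⟨M1, hM1, hb1⟩ := gfc2_bdd hp (fderiv ℝ W) hc1 (fun θ ρ => by
    have := hper1 (θ, ρ); simpa using this) R (fun θ ρ h => hz1 (θ, ρ) h)
    (fun θ ρ h => hz2 (θ, ρ) h)
  obtain ⟨L, hL, hb2⟩ := gfc2_bdd hp (fderiv ℝ (fderiv ℝ W)) hc2 (fun θ ρ => by
    have := hper2 (θ, ρ); simpa using this) R (fun θ ρ h => hzz1 (θ, ρ) h)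
    (fun θ ρ h => hzz2 (θ, ρ) h)
  -- Lipschitz bound of the derivative
  have hlip : ∀ x y : ℝ × ℝ, ‖fderiv ℝ W y - fderiv ℝ W x‖ ≤ L * ‖y - x‖ := fun x y =>
    Convex.norm_image_sub_le_of_norm_fderiv_le (s := Set.univ) (fun z _ => hd1d z)
      (fun z _ => hb2 z) convex_univ (Set.mem_univ x) (Set.mem_univ y)
  have hnorm : ∀ a b : ℝ, ‖((a, b) : ℝ × ℝ)‖ ≤ |a| + |b| := by
    intro a b
    rw [Prod.norm_def, Real.norm_eq_abs, Real.norm_eq_abs]
    exact max_le (by linarith [abs_nonneg b]) (by linarith [abs_nonneg a])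
  have hnormsq : ∀ a b : ℝ, ‖((a, b) : ℝ × ℝ)‖ * ‖((a, b) : ℝ × ℝ)‖ ≤ a ^ 2 + b ^ 2 := by
    intro a b
    rw [Prod.norm_def, Real.norm_eq_abs, Real.norm_eq_abs]
    rcases max_cases |a| |b| with h | h
    · rw [h.1, abs_mul_abs_self]; nlinarith [sq_nonneg b]
    · rw [h.1, abs_mul_abs_self]; nlinarith [sq_nonneg a]
  have htaylor : ∀ x h : ℝ × ℝ, ‖W (x + h) - W x - fderiv ℝ W x h‖ ≤ L * (‖h‖ * ‖h‖) := by
    intro x h
    have := Convex.norm_image_sub_le_of_norm_fderiv_le' (𝕜 := ℝ) (f := W) (C := L * ‖h‖)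
      (s := segment ℝ x (x + h)) (x := x) (y := x + h) (φ := fderiv ℝ W x)
      (fun z _ => hW1 z) (fun z hz => by
        refine (hlip x z).trans (mul_le_mul_of_nonneg_left ?_ hL)
        have h1 := norm_sub_le_of_mem_segment hz
        simpa using h1) (convex_segment _ _) (left_mem_segment ℝ _ _) (right_mem_segment ℝ _ _)
    simp only [add_sub_cancel_left] at this
    rw [← mul_assoc]
    exact this
  have hlin : ∀ (T : ℝ × ℝ →L[ℝ] ℝ) (a b : ℝ), T (a, b) = a * T (1, 0) + b * T (0, 1) := by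
    intro T a b
    have h : ((a, b) : ℝ × ℝ) = a • (1, 0) + b • (0, 1) := by simp
    rw [h, map_add, map_smul, map_smul, smul_eq_mul, smul_eq_mul]
  have h10 : ‖((1, 0) : ℝ × ℝ)‖ ≤ 1 := by simp [Prod.norm_def]
  have h01 : ‖((0, 1) : ℝ × ℝ)‖ ≤ 1 := by simp [Prod.norm_def]
  have hev : ∀ (T : ℝ × ℝ →L[ℝ] ℝ) (v : ℝ × ℝ), ‖v‖ ≤ 1 → |T v| ≤ ‖T‖ := by
    intro T v hv
    rw [← Real.norm_eq_abs]
    exact (T.le_opNorm v).trans (mul_le_of_le_one_right (norm_nonneg _) hv)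
  refine ⟨{ W := fun θ ρ => W (θ, ρ)
            Wt := fun θ ρ => fderiv ℝ W (θ, ρ) (1, 0)
            Wr := fun θ ρ => fderiv ℝ W (θ, ρ) (0, 1)
            L := L
            M := max M0 M1
            L_nonneg := hL
            M_nonneg := le_max_of_le_left hM0
            taylor := ?_
            lipt := ?_
            lipr := ?_
            bW := ?_
            bt := ?_
            br := ?_
            per := hper
            pert := ?_
            perr := ?_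
            low := hlow
            pos := ?_ }, fun _ _ => rfl, fun _ _ => rfl, fun _ _ => rfl⟩
  · intro θ ρ a b
    have h1 := htaylor (θ, ρ) (a, b)
    rw [hlin (fderiv ℝ W (θ, ρ)) a b, Real.norm_eq_abs] at h1
    exact h1.trans (mul_le_mul_of_nonneg_left (hnormsq a b) hL)
  · intro θ ρ θ' ρ'
    have h1 := hev (fderiv ℝ W (θ', ρ') - fderiv ℝ W (θ, ρ)) (1, 0) h10
    rw [sub_apply] at h1
    refine h1.trans ((hlip _ _).trans (mul_le_mul_of_nonneg_left ?_ hL))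
    exact hnorm _ _
  · intro θ ρ θ' ρ'
    have h1 := hev (fderiv ℝ W (θ', ρ') - fderiv ℝ W (θ, ρ)) (0, 1) h01
    rw [sub_apply] at h1
    refine h1.trans ((hlip _ _).trans (mul_le_mul_of_nonneg_left ?_ hL))
    exact hnorm _ _
  · intro θ ρ
    exact (hb0 (θ, ρ)).trans (le_max_left _ _)
  · intro θ ρ
    exact (hev _ _ h10).trans ((hb1 (θ, ρ)).trans (le_max_right _ _))
  · intro θ ρ
    exact (hev _ _ h01).trans ((hb1 (θ, ρ)).trans (le_max_right _ _))
  · intro θ ρ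
    have := hper1 (θ, ρ)
    simp only [Prod.mk_add_mk, add_zero] at this
    simp only [this]
  · intro θ ρ
    have := hper1 (θ, ρ)
    simp only [Prod.mk_add_mk, add_zero] at this
    simp only [this]
  · intro θ ρ σ hρ hσ
    have hder : ∀ t, HasDerivAt (fun t => W (t, ρ) + ρ * t) (fderiv ℝ W (t, ρ) (1, 0) + ρ) t := by
      intro t
      have h1 : HasDerivAt (fun t : ℝ => ((t, ρ) : ℝ × ℝ)) (1, 0) t :=
        (hasDerivAt_id t).prodMk (hasDerivAt_const t ρ)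
      have h2 := (hW1 (t, ρ)).hasFDerivAt.comp_hasDerivAt t h1
      have h3 : HasDerivAt (fun t : ℝ => ρ * t) ρ t := by
        simpa using (hasDerivAt_id t).const_mul ρ
      exact h2.add h3
    have hmono : Monotone (fun t => W (t, ρ) + ρ * t) := by
      apply monotone_of_deriv_nonneg (fun t => (hder t).differentiableAt)
      intro t
      rw [(hder t).deriv]
      linarith [hpos t ρ hρ]
    have := hmono (show θ - σ ≤ θ by linarith)
    simp only at this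
    show W (θ - σ, ρ) - W (θ, ρ) ≤ ρ * σ
    linarith

end Pool.Agent.Helper31.AP
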