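import Pool.Agent.Helper31.AP.PolarSmall
import Pool.Agent.Helper31.AP.GfC2

/-! Module C2b: existence of generating functions -/

set_option autoImplicit false

namespace Pool.Agent.Helper31.AP

open Filter Topology

/-! ### cutoff functions -/

/-- cutoff: `1` on `[1, m+1]`, `0` outside `(3/4, m+3/2)` -/
noncomputable def chiA (m ρ : ℝ) : ℝ :=
  Real.smoothTransition (4 * (ρ - 3 / 4)) * Real.smoothTransition (2 * (m + 3 / 2 - ρ))

/-- cutoff: `1` on `[2, m]`, `0` outside `(1, m+1)` -/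
noncomputable def chiB (m ρ : ℝ) : ℝ :=
  Real.smoothTransition (ρ - 1) * Real.smoothTransition (m + 1 - ρ)

theorem chiA_contDiff (m : ℝ) : ContDiff ℝ ((⊤ : ℕ∞) : WithTop ℕ∞) (chiA m) := by
  have h1 : ContDiff ℝ ((⊤ : ℕ∞) : WithTop ℕ∞) (fun ρ : ℝ => 4 * (ρ - 3 / 4)) := by fun_prop
  have h2 : ContDiff ℝ ((⊤ : ℕ∞) : WithTop ℕ∞) (fun ρ : ℝ => 2 * (m + 3 / 2 - ρ)) := by fun_prop
  exact (Real.smoothTransition.contDiff.comp h1).mul (Real.smoothTransition.contDiff.comp h2)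

theorem chiB_contDiff (m : ℝ) : ContDiff ℝ ((⊤ : ℕ∞) : WithTop ℕ∞) (chiB m) := by
  have h1 : ContDiff ℝ ((⊤ : ℕ∞) : WithTop ℕ∞) (fun ρ : ℝ => ρ - 1) := by fun_prop
  have h2 : ContDiff ℝ ((⊤ : ℕ∞) : WithTop ℕ∞) (fun ρ : ℝ => m + 1 - ρ) := by fun_prop
  exact (Real.smoothTransition.contDiff.comp h1).mul (Real.smoothTransition.contDiff.comp h2)

theorem chiA_nonneg (m ρ : ℝ) : 0 ≤ chiA m ρ :=
  mul_nonneg (Real.smoothTransition.nonneg _) (Real.smoothTransition.nonneg _)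

theorem chiA_le_one (m ρ : ℝ) : chiA m ρ ≤ 1 :=
  mul_le_one₀ (Real.smoothTransition.le_one _) (Real.smoothTransition.nonneg _)
    (Real.smoothTransition.le_one _)

theorem chiB_nonneg (m ρ : ℝ) : 0 ≤ chiB m ρ :=
  mul_nonneg (Real.smoothTransition.nonneg _) (Real.smoothTransition.nonneg _)

theorem chiB_le_one (m ρ : ℝ) : chiB m ρ ≤ 1 :=
  mul_le_one₀ (Real.smoothTransition.le_one _) (Real.smoothTransition.nonneg _)
    (Real.smoothTransition.le_one _)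

theorem chiA_eq_one {m ρ : ℝ} (h1 : 1 ≤ ρ) (h2 : ρ ≤ m + 1) : chiA m ρ = 1 := by
  unfold chiA
  rw [Real.smoothTransition.one_of_one_le (by linarith),
    Real.smoothTransition.one_of_one_le (by linarith), mul_one]

theorem chiB_eq_one {m ρ : ℝ} (h1 : 2 ≤ ρ) (h2 : ρ ≤ m) : chiB m ρ = 1 := by
  unfold chiB
  rw [Real.smoothTransition.one_of_one_le (by linarith),
    Real.smoothTransition.one_of_one_le (by linarith), mul_one]

theorem chiA_eq_zero {m ρ : ℝ} (h : ρ ≤ 3 / 4 ∨ m + 3 / 2 ≤ ρ) : chiA m ρ = 0 := by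
  unfold chiA
  rcases h with h | h
  · rw [Real.smoothTransition.zero_of_nonpos (by linarith), zero_mul]
  · rw [Real.smoothTransition.zero_of_nonpos (x := 2 * (m + 3 / 2 - ρ)) (by linarith), mul_zero]

theorem chiB_eq_zero {m ρ : ℝ} (h : ρ ≤ 1 ∨ m + 1 ≤ ρ) : chiB m ρ = 0 := by
  unfold chiB
  rcases h with h | h
  · rw [Real.smoothTransition.zero_of_nonpos (by linarith), zero_mul]
  · rw [Real.smoothTransition.zero_of_nonpos (x := m + 1 - ρ) (by linarith), mul_zero]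

/-! ### the inverse of `(θ, ρ) ↦ (θ + G, ρ)` -/

theorem inv_exists (G : ℝ × ℝ → ℝ) (hG : ContDiff ℝ ((⊤ : ℕ∞) : WithTop ℕ∞) G) (C : ℝ)
    (hC : ∀ q, |G q| ≤ C) (hd : ∀ q, -(1 / 2) ≤ fderiv ℝ G q (1, 0)) :
    ∃ h : ℝ × ℝ → ℝ, ContDiff ℝ ((⊤ : ℕ∞) : WithTop ℕ∞) h ∧
      (∀ θ ρ, h (θ + G (θ, ρ), ρ) = θ) ∧ ∀ Θ ρ, h (Θ, ρ) + G (h (Θ, ρ), ρ) = Θ := by
  classical
  set A : ℝ × ℝ → ℝ × ℝ := fun q => (q.1 + G q, q.2) with hA
  have hAs : ContDiff ℝ ((⊤ : ℕ∞) : WithTop ℕ∞) A := (contDiff_fst.add hG).prodMk contDiff_snd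
  have hGd : ∀ q, HasFDerivAt G (fderiv ℝ G q) q := fun q =>
    (hG.differentiable (by simp)).differentiableAt.hasFDerivAt
  have hAd : ∀ q, HasFDerivAt A ((ContinuousLinearMap.fst ℝ ℝ ℝ + fderiv ℝ G q).prod
      (ContinuousLinearMap.snd ℝ ℝ ℝ)) q := fun q =>
    (hasFDerivAt_fst.add (hGd q)).prodMk hasFDerivAt_snd
  have hinj : ∀ q, Function.Injective (((ContinuousLinearMap.fst ℝ ℝ ℝ + fderiv ℝ G q).prod
      (ContinuousLinearMap.snd ℝ ℝ ℝ) : ℝ × ℝ →L[ℝ] ℝ × ℝ) : ℝ × ℝ →ₗ[ℝ] ℝ × ℝ) := by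
    intro q
    rw [← LinearMap.ker_eq_bot, LinearMap.ker_eq_bot']
    rintro ⟨a, b⟩ hu
    simp only [ContinuousLinearMap.coe_coe, ContinuousLinearMap.prod_apply,
      add_apply, ContinuousLinearMap.coe_fst', ContinuousLinearMap.coe_snd',
      Prod.mk_eq_zero] at hu
    obtain ⟨h1, h2⟩ := hu
    subst h2
    have h3 : ((a, 0) : ℝ × ℝ) = a • ((1, 0) : ℝ × ℝ) := by simp
    rw [h3, map_smul, smul_eq_mul] at h1
    have h4 := hd q
    have h5 : a * (1 + fderiv ℝ G q (1, 0)) = 0 := by linarith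
    rcases mul_eq_zero.1 h5 with h6 | h6
    · simp [h6]
    · linarith
  set e : ∀ _ : ℝ × ℝ, (ℝ × ℝ) ≃L[ℝ] (ℝ × ℝ) := fun q =>
    (LinearEquiv.ofInjectiveEndo _ (hinj q)).toContinuousLinearEquiv with he
  have hee : ∀ q, ((e q : (ℝ × ℝ) ≃L[ℝ] (ℝ × ℝ)) : ℝ × ℝ →L[ℝ] ℝ × ℝ) =
      (ContinuousLinearMap.fst ℝ ℝ ℝ + fderiv ℝ G q).prod (ContinuousLinearMap.snd ℝ ℝ ℝ) := by
    intro q
    ext <;> rfl
  have hAd' : ∀ q, HasFDerivAt A ((e q : (ℝ × ℝ) ≃L[ℝ] (ℝ × ℝ)) : ℝ × ℝ →L[ℝ] ℝ × ℝ) q := by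
    intro q
    rw [hee]
    exact hAd q
  have hopen : IsOpenMap A := by
    apply isOpenMap_of_hasStrictFDerivAt_equiv (f' := e)
    intro q
    exact hAs.contDiffAt.hasStrictFDerivAt' (hAd' q) (by simp)
  have hline : ∀ θ ρ, HasDerivAt (fun t => t + G (t, ρ)) (1 + fderiv ℝ G (θ, ρ) (1, 0)) θ := by
    intro θ ρ
    have h1 : HasDerivAt (fun t : ℝ => ((t, ρ) : ℝ × ℝ)) (1, 0) θ :=
      (hasDerivAt_id θ).prodMk (hasDerivAt_const θ ρ)
    exact (hasDerivAt_id θ).add ((hGd (θ, ρ)).comp_hasDerivAt θ h1)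
  have hmono : ∀ ρ, StrictMono (fun t => t + G (t, ρ)) := by
    intro ρ
    apply strictMono_of_hasDerivAt_pos (fun θ => hline θ ρ)
    intro θ
    have := hd (θ, ρ)
    linarith
  have hsurj : ∀ ρ, Function.Surjective (fun t => t + G (t, ρ)) := by
    intro ρ
    apply Continuous.surjective
    · exact continuous_iff_continuousAt.2 fun θ => (hline θ ρ).continuousAt
    · apply tendsto_atTop_mono (f := fun t => t + -C)
      · intro t
        have := abs_le.1 (hC (t, ρ))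
        linarith
      · exact tendsto_atTop_add_const_right _ _ tendsto_id
    · refine tendsto_atBot_mono (fun t => ?_) (tendsto_atBot_add_const_right _ C tendsto_id)
      have := abs_le.1 (hC (t, ρ))
      simp only [id_eq]
      linarith
  have hbij : Function.Bijective A := by
    constructor
    · rintro ⟨a, b⟩ ⟨c, d⟩ h
      simp only [hA, Prod.mk.injEq] at h
      obtain ⟨h1, h2⟩ := h
      subst h2
      have := (hmono b).injective h1
      rw [this]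
    · rintro ⟨a, b⟩
      obtain ⟨t, ht⟩ := hsurj b a
      exact ⟨(t, b), by simp only [hA]; rw [← ht]⟩
  set H : (ℝ × ℝ) ≃ₜ (ℝ × ℝ) :=
    (Equiv.ofBijective A hbij).toHomeomorphOfContinuousOpen hAs.continuous hopen with hH
  have hHA : ∀ q, H q = A q := fun q => rfl
  have hsm : ContDiff ℝ ((⊤ : ℕ∞) : WithTop ℕ∞) (H.symm : ℝ × ℝ → ℝ × ℝ) :=
    H.contDiff_symm (f₀' := e) hAd' hAs
  refine ⟨fun q => (H.symm q).1, contDiff_fst.comp hsm, ?_, ?_⟩
  · intro θ ρ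
    have : H.symm (H (θ, ρ)) = (θ, ρ) := H.symm_apply_apply _
    rw [hHA] at this
    simp only [hA] at this
    simp only
    rw [this]
  · intro Θ ρ
    have h1 : H (H.symm (Θ, ρ)) = (Θ, ρ) := H.apply_symm_apply _
    rw [hHA] at h1
    simp only [hA, Prod.mk.injEq] at h1
    obtain ⟨h2, h3⟩ := h1
    have h4 : H.symm (Θ, ρ) = ((H.symm (Θ, ρ)).1, ρ) := Prod.ext rfl h3
    simp only
    rw [← h4]
    exact h2

/-- derivative of a function of two variables along the first one -/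
theorem fderiv_line {f : ℝ × ℝ → ℝ} {θ ρ : ℝ} (hf : DifferentiableAt ℝ f (θ, ρ)) :
    fderiv ℝ f (θ, ρ) (1, 0) = deriv (fun t => f (t, ρ)) θ := by
  have h1 : HasDerivAt (fun t : ℝ => ((t, ρ) : ℝ × ℝ)) (1, 0) θ :=
    (hasDerivAt_id θ).prodMk (hasDerivAt_const θ ρ)
  exact (HasDerivAt.deriv (hf.hasFDerivAt.comp_hasDerivAt θ h1)).symm

theorem pol_per (θ ρ : ℝ) : pol (θ + 2 * Real.pi) ρ = pol θ ρ := by
  simp [pol]

theorem hsq_nonneg' (x : V) : 0 ≤ hsq x := by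
  unfold hsq; positivity

theorem exists_gen (m : ℝ) (hm : 2 < m) : ∃ δ : ℝ, 0 < δ ∧ ∃ M : ℝ,
    ∀ (k : Equiv.Perm V) (Φ : V → ℝ), IsAP k → IsPrim k Φ → Small δ M k →
      ∃ W : GF (2 * Real.pi), Gen m k Φ W := by
  obtain ⟨δ, hδ, M, hM⟩ := small_polar (m + 2) (1 / 2) (by linarith) (by norm_num)
  refine ⟨δ, hδ, M, fun k Φ hk hΦ hs => ?_⟩
  have hS := hM k hk.1 hs
  set g : ℝ × ℝ → ℝ := fun q => ang k (pol q.1 q.2) with hgdef
  set G : ℝ × ℝ → ℝ := fun q => chiA m q.2 * g q with hGdef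
  have hg : ∀ q : ℝ × ℝ, 1 / 2 ≤ q.2 → q.2 ≤ m + 2 →
      ContDiffAt ℝ ((⊤ : ℕ∞) : WithTop ℕ∞) g q := by
    rintro ⟨θ, ρ⟩ h1 h2
    exact ang_pol_contDiffAt k hk.1 θ ρ (by simp only at h1; linarith) (hS θ ρ h1 h2).1
  have hG : ContDiff ℝ ((⊤ : ℕ∞) : WithTop ℕ∞) G := by
    rw [contDiff_iff_contDiffAt]
    intro q
    by_cases h1 : 1 / 2 < q.2 ∧ q.2 < m + 2
    · have h2 : ContDiffAt ℝ ((⊤ : ℕ∞) : WithTop ℕ∞) (fun q : ℝ × ℝ => chiA m q.2) q :=
        (chiA_contDiff m).contDiffAt.comp q contDiffAt_snd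
      exact h2.mul (hg q h1.1.le h1.2.le)
    · have h3 : G =ᶠ[𝓝 q] fun _ => 0 := by
        rcases le_or_gt q.2 (1 / 2) with h4 | h4
        · have h5 : ∀ᶠ q' : ℝ × ℝ in 𝓝 q, q'.2 < 3 / 4 :=
            continuousAt_snd.eventually_lt continuousAt_const (by linarith)
          filter_upwards [h5] with q' hq'
          simp only [hGdef]
          rw [chiA_eq_zero (Or.inl hq'.le), zero_mul]
        · have h4' : m + 2 ≤ q.2 := by
            by_contra h6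
            exact h1 ⟨h4, not_le.1 h6⟩
          have h5 : ∀ᶠ q' : ℝ × ℝ in 𝓝 q, m + 3 / 2 < q'.2 :=
            continuousAt_const.eventually_lt continuousAt_snd (by linarith)
          filter_upwards [h5] with q' hq'
          simp only [hGdef]
          rw [chiA_eq_zero (Or.inr hq'.le), zero_mul]
      exact contDiffAt_const.congr_of_eventuallyEq h3
  have hGdiff : ∀ q, DifferentiableAt ℝ G q := fun q =>
    (hG.differentiable (by simp)).differentiableAt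
  have hC : ∀ q, |G q| ≤ Real.pi / 2 := by
    intro q
    simp only [hGdef, hgdef, ang]
    rw [abs_mul, abs_of_nonneg (chiA_nonneg m q.2)]
    have h1 := Real.arctan_lt_pi_div_two ((pol q.1 q.2 0 * k (pol q.1 q.2) 1 -
      pol q.1 q.2 1 * k (pol q.1 q.2) 0) / dotk k (pol q.1 q.2))
    have h2 := Real.neg_pi_div_two_lt_arctan ((pol q.1 q.2 0 * k (pol q.1 q.2) 1 -
      pol q.1 q.2 1 * k (pol q.1 q.2) 0) / dotk k (pol q.1 q.2))
    have h3 := abs_le.2 ⟨h2.le, h1.le⟩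
    calc _ ≤ 1 * (Real.pi / 2) := mul_le_mul (chiA_le_one m q.2) (by simpa using h3)
          (abs_nonneg _) zero_le_one
      _ = _ := one_mul _
  have hd : ∀ q, -(1 / 2) ≤ fderiv ℝ G q (1, 0) := by
    rintro ⟨θ, ρ⟩
    rw [fderiv_line (hGdiff (θ, ρ))]
    simp only [hGdef, hgdef]
    rw [deriv_const_mul_field]
    by_cases h1 : 1 / 2 ≤ ρ ∧ ρ ≤ m + 2
    · have h2 := abs_le.1 (hS θ ρ h1.1 h1.2).2
      have h3 := chiA_nonneg m ρ
      have h4 := chiA_le_one m ρ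
      nlinarith [h2.1]
    · rw [chiA_eq_zero, zero_mul]
      · norm_num
      · by_contra h2
        push Not at h2
        exact h1 ⟨by linarith [h2.1], by linarith [h2.2]⟩
  obtain ⟨h, hhs, hh1, hh2⟩ := inv_exists G hG (Real.pi / 2) hC hd
  -- the modified primitive
  set Wb : ℝ × ℝ → ℝ := fun q => Φ (pol q.1 q.2) - q.2 * g q with hWb
  have hWbs : ∀ q : ℝ × ℝ, 1 / 2 ≤ q.2 → q.2 ≤ m + 2 →
      ContDiffAt ℝ ((⊤ : ℕ∞) : WithTop ℕ∞) Wb q := by
    rintro ⟨θ, ρ⟩ h1 h2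
    have h3 : ContDiffAt ℝ ((⊤ : ℕ∞) : WithTop ℕ∞) (fun q : ℝ × ℝ => Φ (pol q.1 q.2)) (θ, ρ) :=
      hΦ.1.contDiffAt.comp (θ, ρ) (pol_contDiffAt θ ρ (by simp only at h1; linarith))
    exact h3.sub (contDiffAt_snd.mul (hg _ h1 h2))
  set w : ℝ × ℝ → ℝ := fun q => Wb (h q, q.2) with hw
  have hws : ∀ q : ℝ × ℝ, 1 / 2 ≤ q.2 → q.2 ≤ m + 2 →
      ContDiffAt ℝ ((⊤ : ℕ∞) : WithTop ℕ∞) w q := by
    intro q h1 h2
    exact (hWbs (h q, q.2) h1 h2).comp q (hhs.contDiffAt.prodMk contDiffAt_snd)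
  set W : ℝ × ℝ → ℝ := fun q => chiB m q.2 * w q with hW
  have hWs : ContDiff ℝ ((⊤ : ℕ∞) : WithTop ℕ∞) W := by
    rw [contDiff_iff_contDiffAt]
    intro q
    by_cases h1 : 1 / 2 < q.2 ∧ q.2 < m + 2
    · have h2 : ContDiffAt ℝ ((⊤ : ℕ∞) : WithTop ℕ∞) (fun q : ℝ × ℝ => chiB m q.2) q :=
        (chiB_contDiff m).contDiffAt.comp q contDiffAt_snd
      exact h2.mul (hws q h1.1.le h1.2.le)
    · have h3 : W =ᶠ[𝓝 q] fun _ => 0 := by
        rcases le_or_gt q.2 (1 / 2) with h4 | h4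
        · have h5 : ∀ᶠ q' : ℝ × ℝ in 𝓝 q, q'.2 < 1 :=
            continuousAt_snd.eventually_lt continuousAt_const (by linarith)
          filter_upwards [h5] with q' hq'
          simp only [hW]
          rw [chiB_eq_zero (Or.inl hq'.le), zero_mul]
        · have h4' : m + 2 ≤ q.2 := by
            by_contra h6
            exact h1 ⟨h4, not_le.1 h6⟩
          have h5 : ∀ᶠ q' : ℝ × ℝ in 𝓝 q, m + 1 < q'.2 :=
            continuousAt_const.eventually_lt continuousAt_snd (by linarith)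
          filter_upwards [h5] with q' hq'
          simp only [hW]
          rw [chiB_eq_zero (Or.inr hq'.le), zero_mul]
      exact contDiffAt_const.congr_of_eventuallyEq h3
  -- derivative of `w`
  have hDw : ∀ θ ρ, 1 < ρ → ρ < m + 1 → ∀ v : ℝ × ℝ,
      fderiv ℝ w (θ + G (θ, ρ), ρ) v =
        (hsq (k (pol θ ρ)) - ρ) * v.1 - g (θ, ρ) * v.2 := by
    intro θ ρ h1 h2 v
    have hρ0 : 0 < ρ := by linarith
    have hdot := (hS θ ρ (by linarith) (by linarith)).1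
    set A : ℝ × ℝ → ℝ × ℝ := fun q => (q.1 + G q, q.2) with hA
    have hwA : ∀ q, w (A q) = Wb q := by
      rintro ⟨a, b⟩
      simp only [hw, hA]
      rw [hh1]
    have hgd : DifferentiableAt ℝ g (θ, ρ) :=
      (hg (θ, ρ) (by simp only; linarith) (by simp only; linarith)).differentiableAt (by simp)
    have hGg : G =ᶠ[𝓝 (θ, ρ)] g := by
      have h5 : ∀ᶠ q' : ℝ × ℝ in 𝓝 (θ, ρ), 1 < q'.2 :=
        continuousAt_const.eventually_lt continuousAt_snd (by simpa using h1)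
      have h6 : ∀ᶠ q' : ℝ × ℝ in 𝓝 (θ, ρ), q'.2 < m + 1 :=
        continuousAt_snd.eventually_lt continuousAt_const (by simpa using h2)
      filter_upwards [h5, h6] with q' h7 h8
      simp only [hGdef]
      rw [chiA_eq_one h7.le h8.le, one_mul]
    have hfG : fderiv ℝ G (θ, ρ) = fderiv ℝ g (θ, ρ) := hGg.fderiv_eq
    have hAd : HasFDerivAt A ((ContinuousLinearMap.fst ℝ ℝ ℝ + fderiv ℝ g (θ, ρ)).prod
        (ContinuousLinearMap.snd ℝ ℝ ℝ)) (θ, ρ) := by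
      rw [← hfG]
      exact (hasFDerivAt_fst.add (hGdiff (θ, ρ)).hasFDerivAt).prodMk hasFDerivAt_snd
    have hwd : DifferentiableAt ℝ w (A (θ, ρ)) :=
      (hws (A (θ, ρ)) (by simp only [hA]; linarith) (by simp only [hA]; linarith)).differentiableAt
        (by simp)
    have hcomp : HasFDerivAt Wb ((fderiv ℝ w (A (θ, ρ))).comp
        ((ContinuousLinearMap.fst ℝ ℝ ℝ + fderiv ℝ g (θ, ρ)).prod
        (ContinuousLinearMap.snd ℝ ℝ ℝ))) (θ, ρ) := by
      have := hwd.hasFDerivAt.comp (θ, ρ) hAd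
      have h3 : w ∘ A = Wb := funext hwA
      rwa [h3] at this
    have hPp : DifferentiableAt ℝ (fun q : ℝ × ℝ => Φ (pol q.1 q.2)) (θ, ρ) :=
      (hΦ.1.contDiffAt.comp (θ, ρ) (pol_contDiffAt θ ρ hρ0)).differentiableAt (by simp)
    have hWbd : HasFDerivAt Wb (fderiv ℝ (fun q : ℝ × ℝ => Φ (pol q.1 q.2)) (θ, ρ) -
        (ρ • fderiv ℝ g (θ, ρ) + g (θ, ρ) • ContinuousLinearMap.snd ℝ ℝ ℝ)) (θ, ρ) :=
      hPp.hasFDerivAt.sub (hasFDerivAt_snd.mul hgd.hasFDerivAt)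
    have huniq := hcomp.unique hWbd
    have key : ∀ u : ℝ × ℝ, fderiv ℝ w (A (θ, ρ)) (u.1 + fderiv ℝ g (θ, ρ) u, u.2) =
        hsq (k (pol θ ρ)) * (u.1 + fderiv ℝ g (θ, ρ) u) - ρ * u.1 -
          (ρ * fderiv ℝ g (θ, ρ) u + g (θ, ρ) * u.2) := by
      intro u
      have h3 := congrArg (fun L : ℝ × ℝ →L[ℝ] ℝ => L u) huniq
      simp only [ContinuousLinearMap.comp_apply, ContinuousLinearMap.prod_apply,
        add_apply, ContinuousLinearMap.coe_fst', ContinuousLinearMap.coe_snd',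
        sub_apply, smul_apply, smul_eq_mul] at h3
      rw [h3, fderiv_prim_pol k hk.1 Φ hΦ θ ρ hρ0 hdot u]
    -- solve for u
    have ha : -(1 / 2) ≤ fderiv ℝ g (θ, ρ) (1, 0) := by
      rw [← hfG]; exact hd (θ, ρ)
    set a := fderiv ℝ g (θ, ρ) (1, 0) with hadef
    set b := fderiv ℝ g (θ, ρ) (0, 1) with hbdef
    have hlin : ∀ x y : ℝ, fderiv ℝ g (θ, ρ) (x, y) = x * a + y * b := by
      intro x y
      have h3 : ((x, y) : ℝ × ℝ) = x • ((1, 0) : ℝ × ℝ) + y • ((0, 1) : ℝ × ℝ) := by simp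
      rw [h3, map_add, map_smul, map_smul, smul_eq_mul, smul_eq_mul]
    have ha1 : (1 + a) ≠ 0 := by linarith
    have hu := key ((v.1 - b * v.2) / (1 + a), v.2)
    simp only [hlin] at hu
    have h4 : (v.1 - b * v.2) / (1 + a) + ((v.1 - b * v.2) / (1 + a) * a + v.2 * b) = v.1 := by
      field_simp
      ring
    have h5 : (v.1 - b * v.2) / (1 + a) * a + v.2 * b =
        v.1 - (v.1 - b * v.2) / (1 + a) := by linarith
    rw [h4] at hu
    rw [h5] at hu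
    have h6 : A (θ, ρ) = (θ + G (θ, ρ), ρ) := rfl
    rw [← h6, show v = (v.1, v.2) from rfl, hu]
    ring
  have hWdiff : ∀ q, DifferentiableAt ℝ W q := fun q =>
    (hWs.differentiable (by simp)).differentiableAt
  -- periodicity
  have hgper : ∀ θ ρ, g (θ + 2 * Real.pi, ρ) = g (θ, ρ) := by
    intro θ ρ
    simp only [hgdef]
    rw [pol_per]
  have hGper : ∀ θ ρ, G (θ + 2 * Real.pi, ρ) = G (θ, ρ) := by
    intro θ ρ
    simp only [hGdef]
    rw [hgper]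
  have hhper : ∀ Θ ρ, h (Θ + 2 * Real.pi, ρ) = h (Θ, ρ) + 2 * Real.pi := by
    intro Θ ρ
    have h1 := hh2 Θ ρ
    have h2 := hh1 (h (Θ, ρ) + 2 * Real.pi) ρ
    rw [hGper] at h2
    rw [← h2]
    congr 2
    linarith
  have hwper : ∀ Θ ρ, w (Θ + 2 * Real.pi, ρ) = w (Θ, ρ) := by
    intro Θ ρ
    simp only [hw, hWb]
    rw [hhper, pol_per, hgper]
  have hposW : ∀ θ ρ, 0 ≤ ρ → -ρ ≤ fderiv ℝ W (θ, ρ) (1, 0) := by
    intro Θ ρ h0
    rw [fderiv_line (hWdiff (Θ, ρ))]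
    simp only [hW]
    rw [deriv_const_mul_field]
    by_cases h1 : 1 < ρ ∧ ρ < m + 1
    · have h2 := hDw (h (Θ, ρ)) ρ h1.1 h1.2 (1, 0)
      rw [hh2] at h2
      have hwd : DifferentiableAt ℝ w (Θ, ρ) :=
        (hws (Θ, ρ) (by simp only; linarith) (by simp only; linarith)).differentiableAt (by simp)
      rw [fderiv_line hwd] at h2
      rw [h2]
      have h3 := chiB_nonneg m ρ
      have h4 := chiB_le_one m ρ
      have h5 := hsq_nonneg' (k (pol (h (Θ, ρ)) ρ))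
      have h6 := mul_nonneg h3 h5
      have h7 := mul_le_mul_of_nonneg_right h4 h0
      simp only [mul_one, mul_zero, sub_zero]
      rw [mul_sub]
      linarith
    · rw [chiB_eq_zero, zero_mul]
      · linarith
      · by_contra h2
        push Not at h2
        exact h1 h2
  obtain ⟨gf, hgfW, hgft, hgfr⟩ := gf_of_contDiff (p := 2 * Real.pi) (by positivity) W
    (contDiff_infty.1 hWs 2)
    (fun θ ρ => by simp only [hW]; rw [hwper])
    (m + 1) (fun θ ρ hρ => by simp only [hW]; rw [chiB_eq_zero (Or.inl hρ), zero_mul])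
    (fun θ ρ hρ => by simp only [hW]; rw [chiB_eq_zero (Or.inr hρ), zero_mul]) hposW
  refine ⟨gf, ?_⟩
  intro ρ h1 h2
  have hGang : ∀ θ, G (θ, ρ) = ang k (pol θ ρ) := by
    intro θ
    simp only [hGdef, hgdef]
    rw [chiA_eq_one (by linarith) (by linarith), one_mul]
  refine ⟨fun θ => (hS θ ρ (by linarith) (by linarith)).1, fun Θ => ⟨h (Θ, ρ), ?_⟩, fun θ => ?_⟩
  · rw [← hGang, hh2]
  · rw [← hGang θ]
    have hWw : W =ᶠ[𝓝 (θ + G (θ, ρ), ρ)] w := by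
      have h5 : ∀ᶠ q' : ℝ × ℝ in 𝓝 (θ + G (θ, ρ), ρ), 2 < q'.2 :=
        continuousAt_const.eventually_lt continuousAt_snd (by simpa using h1)
      have h6 : ∀ᶠ q' : ℝ × ℝ in 𝓝 (θ + G (θ, ρ), ρ), q'.2 < m :=
        continuousAt_snd.eventually_lt continuousAt_const (by simpa using h2)
      filter_upwards [h5, h6] with q' h7 h8
      simp only [hW]
      rw [chiB_eq_one h7.le h8.le, one_mul]
    refine ⟨?_, ?_, ?_⟩
    · rw [hgfW]
      simp only [hW, hw, hWb]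
      rw [chiB_eq_one h1.le h2.le, one_mul, hh1, hGang θ]
    · rw [hgft, hWw.fderiv_eq, hDw θ ρ (by linarith) (by linarith)]
      simp
    · rw [hgfr, hWw.fderiv_eq, hDw θ ρ (by linarith) (by linarith), hGang θ]
      simp [hgdef]

end Pool.Agent.Helper31.AP
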