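import Pool.Agent.Helper31.AP.FBasic

/-! Module B2a: one step of the clipped discrete gradient descent -/

set_option autoImplicit false

namespace Pool.Agent.Helper31.AP

open Finset

variable {p : ℝ}

/-- clamp to `[-1,1]` -/
noncomputable def gcl (t : ℝ) : ℝ := max (-1) (min 1 t)

theorem gcl_abs (t : ℝ) : |gcl t| ≤ 1 := by
  unfold gcl
  rw [abs_le]
  exact ⟨le_max_left _ _, max_le (by norm_num) (min_le_left _ _)⟩

theorem gcl_mul (t : ℝ) : gcl t ^ 2 ≤ gcl t * t := by
  unfold gcl
  rcases le_total 1 t with h | h
  · rw [min_eq_left h, max_eq_right (by norm_num)]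
    nlinarith
  · rw [min_eq_right h]
    rcases le_total (-1) t with h' | h'
    · rw [max_eq_right h']
      nlinarith
    · rw [max_eq_left h']
      nlinarith

theorem gcl_lip (a b : ℝ) : |gcl a - gcl b| ≤ |a - b| := by
  unfold gcl
  calc |max (-1) (min 1 a) - max (-1) (min 1 b)|
      ≤ max |(-1 : ℝ) - (-1)| |min 1 a - min 1 b| := abs_max_sub_max_le_max _ _ _ _
    _ ≤ |a - b| := by
        apply max_le
        · simp
        · calc |min 1 a - min 1 b| ≤ max |(1 : ℝ) - 1| |a - b| := abs_min_sub_min_le_max _ _ _ _
            _ ≤ |a - b| := by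
                apply max_le
                · simp
                · exact le_refl _

theorem gcl_continuous : Continuous gcl :=
  continuous_const.max (continuous_const.min continuous_id)

theorem gcl_eq_zero {t : ℝ} (h : gcl t = 0) : t = 0 := by
  unfold gcl at h
  rcases le_total 1 t with h1 | h1
  · rw [min_eq_left h1, max_eq_right (by norm_num)] at h
    norm_num at h
  · rw [min_eq_right h1] at h
    rcases le_total (-1) t with h' | h'
    · rw [max_eq_right h'] at h
      exact h
    · rw [max_eq_left h'] at h
      norm_num at h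

theorem gcl_big {t : ℝ} (h : 1 ≤ |t|) : gcl t ^ 2 = 1 := by
  unfold gcl
  rcases le_total 0 t with h0 | h0
  · rw [abs_of_nonneg h0] at h
    rw [min_eq_left h, max_eq_right (by norm_num)]
    norm_num
  · rw [abs_of_nonpos h0] at h
    rw [min_eq_right (by linarith), max_eq_left (by linarith)]
    norm_num

/-- clipped squared gradient -/
noncomputable def gS (s : ℝ) (β : List (GF p)) (x : Pt) : ℝ :=
  ∑ i ∈ range β.length, (gcl (gt s β x i) ^ 2 + gcl (gr β x i) ^ 2)

/-- the displaced point -/
noncomputable def gmove (a b : ℕ → ℝ) (x : Pt) : Pt := (fun i => x.1 i + a i, fun i => x.2 i + b i)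

theorem gr_zero (β : List (GF p)) (x : Pt) : gr β x 0 = 0 := by
  unfold gr
  simp

/-- second order expansion of `F` -/
theorem F_gmove (s : ℝ) (β : List (GF p)) (hβ : β ≠ []) (L : ℝ)
    (hL : ∀ i, (β.getD i default).L ≤ L) (a b : ℕ → ℝ) (hb : b 0 = 0) (x : Pt) :
    F s β (gmove a b x) ≤ F s β x +
      ∑ i ∈ range β.length, (a i * gt s β x i + b i * gr β x i) +
      (L + 2) * ∑ i ∈ range β.length, (a i ^ 2 + b i ^ 2) := by
  obtain ⟨n, hn⟩ : ∃ n, β.length = n + 1 :=
    Nat.exists_eq_succ_of_ne_zero (by simpa [List.length_eq_zero_iff] using hβ)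
  have hrad : ∀ i, rad s (gmove a b x) i = rad s x i + b i := by
    intro i
    unfold rad gmove
    by_cases h : i = 0
    · simp [h, hb]
    · simp [h]
  have h1 : ∀ i, (β.getD i default).W ((gmove a b x).1 i) (rad s (gmove a b x) i) ≤
      (β.getD i default).W (x.1 i) (rad s x i) +
        (a i * (β.getD i default).Wt (x.1 i) (rad s x i) +
          b i * (β.getD i default).Wr (x.1 i) (rad s x i)) + L * (a i ^ 2 + b i ^ 2) := by
    intro i
    rw [hrad i]
    have h2 := (β.getD i default).taylor (x.1 i) (rad s x i) (a i) (b i)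
    have h3 := (abs_le.mp h2).2
    have h4 : (β.getD i default).L * (a i ^ 2 + b i ^ 2) ≤ L * (a i ^ 2 + b i ^ 2) :=
      mul_le_mul_of_nonneg_right (hL i) (by positivity)
    have h5 : (gmove a b x).1 i = x.1 i + a i := rfl
    rw [h5]
    linarith
  -- the bilinear part
  have h6 : ∀ i, ((gmove a b x).2 (i + 1) - s) * ((gmove a b x).1 (i + 1) - (gmove a b x).1 i) ≤
      (x.2 (i + 1) - s) * (x.1 (i + 1) - x.1 i) +
        ((x.2 (i + 1) - s) * (a (i + 1) - a i) + b (i + 1) * (x.1 (i + 1) - x.1 i)) +
        ((a (i + 1) ^ 2 + b (i + 1) ^ 2) + (a i ^ 2 + b i ^ 2)) := by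
    intro i
    have e1 : (gmove a b x).2 (i + 1) = x.2 (i + 1) + b (i + 1) := rfl
    have e2 : (gmove a b x).1 (i + 1) = x.1 (i + 1) + a (i + 1) := rfl
    have e3 : (gmove a b x).1 i = x.1 i + a i := rfl
    rw [e1, e2, e3]
    nlinarith [sq_nonneg (b (i + 1) - (a (i + 1) - a i)), sq_nonneg (a (i + 1) + a i),
      sq_nonneg (b i), sq_nonneg (b (i + 1))]
  have h7 : ∑ i ∈ range n, ((a (i + 1) ^ 2 + b (i + 1) ^ 2) + (a i ^ 2 + b i ^ 2)) ≤
      2 * ∑ i ∈ range (n + 1), (a i ^ 2 + b i ^ 2) := by
    rw [sum_add_distrib]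
    have h8 : ∑ i ∈ range n, (a (i + 1) ^ 2 + b (i + 1) ^ 2) ≤
        ∑ i ∈ range (n + 1), (a i ^ 2 + b i ^ 2) := by
      rw [sum_range_succ' (fun i => a i ^ 2 + b i ^ 2) n]
      have : 0 ≤ a 0 ^ 2 + b 0 ^ 2 := by positivity
      linarith
    have h9 : ∑ i ∈ range n, (a i ^ 2 + b i ^ 2) ≤
        ∑ i ∈ range (n + 1), (a i ^ 2 + b i ^ 2) := by
      rw [sum_range_succ (fun i => a i ^ 2 + b i ^ 2) n]
      have : 0 ≤ a n ^ 2 + b n ^ 2 := by positivity
      linarith
    linarith
  -- linear part
  have h10 : ∑ i ∈ range (n + 1), (a i * gt s β x i + b i * gr β x i) =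
      ∑ i ∈ range (n + 1), (a i * (β.getD i default).Wt (x.1 i) (rad s x i) +
          b i * (β.getD i default).Wr (x.1 i) (rad s x i)) +
      ∑ i ∈ range n, ((x.2 (i + 1) - s) * (a (i + 1) - a i) +
        b (i + 1) * (x.1 (i + 1) - x.1 i)) := by
    have hA : ∑ i ∈ range (n + 1), a i * gt s β x i =
        ∑ i ∈ range (n + 1), a i * (β.getD i default).Wt (x.1 i) (rad s x i) +
        ∑ i ∈ range n, (x.2 (i + 1) - s) * (a (i + 1) - a i) := by
      have hA1 : ∀ i ∈ range (n + 1), a i * gt s β x i =
          a i * (β.getD i default).Wt (x.1 i) (rad s x i) + a i * (rad s x i - s) -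
            a i * (if i < n then x.2 (i + 1) - s else 0) := by
        intro i hi
        have hi' : i < β.length := by rw [hn]; exact mem_range.mp hi
        unfold gt
        rw [if_pos hi', hn]
        simp only [add_lt_add_iff_right]
        ring
      rw [sum_congr rfl hA1, sum_sub_distrib, sum_add_distrib]
      have hA2 : ∑ i ∈ range (n + 1), a i * (rad s x i - s) =
          ∑ i ∈ range n, a (i + 1) * (x.2 (i + 1) - s) := by
        rw [sum_range_succ' (fun i => a i * (rad s x i - s)) n]
        have : rad s x 0 - s = 0 := by unfold rad; simp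
        rw [this, mul_zero, add_zero]
        apply sum_congr rfl
        intro i _
        unfold rad
        simp
      have hA3 : ∑ i ∈ range (n + 1), a i * (if i < n then x.2 (i + 1) - s else 0) =
          ∑ i ∈ range n, a i * (x.2 (i + 1) - s) := by
        rw [sum_range_succ, if_neg (lt_irrefl n), mul_zero, add_zero]
        apply sum_congr rfl
        intro i hi
        rw [if_pos (mem_range.mp hi)]
      rw [hA2, hA3]
      have hA4 : ∑ i ∈ range n, (x.2 (i + 1) - s) * (a (i + 1) - a i) =
          ∑ i ∈ range n, a (i + 1) * (x.2 (i + 1) - s) - ∑ i ∈ range n, a i * (x.2 (i + 1) - s) := by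
        rw [← sum_sub_distrib]
        apply sum_congr rfl
        intro i _
        ring
      rw [hA4]
      ring
    have hB : ∑ i ∈ range (n + 1), b i * gr β x i =
        ∑ i ∈ range (n + 1), b i * (β.getD i default).Wr (x.1 i) (rad s x i) +
        ∑ i ∈ range n, b (i + 1) * (x.1 (i + 1) - x.1 i) := by
      rw [sum_range_succ' (fun i => b i * gr β x i) n, gr_zero, mul_zero, add_zero,
        sum_range_succ' (fun i => b i * (β.getD i default).Wr (x.1 i) (rad s x i)) n, hb, zero_mul,
        add_zero, ← sum_add_distrib]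
      apply sum_congr rfl
      intro i hi
      have hi' : 1 ≤ i + 1 ∧ i + 1 < β.length := by
        rw [hn]
        have := mem_range.mp hi
        omega
      unfold gr rad
      rw [if_pos hi', if_neg (Nat.succ_ne_zero i), Nat.add_sub_cancel]
      ring
    rw [sum_add_distrib, hA, hB, sum_add_distrib, sum_add_distrib]
    ring
  unfold F
  rw [hn, Nat.add_sub_cancel, h10]
  have h11 := sum_le_sum fun i (_ : i ∈ range (n + 1)) => h1 i
  have h12 := sum_le_sum fun i (_ : i ∈ range n) => h6 i
  rw [sum_add_distrib, sum_add_distrib, ← mul_sum] at h11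
  rw [sum_add_distrib, sum_add_distrib] at h12
  linarith [h7]

/-- the gradient step -/
noncomputable def gT (s : ℝ) (β : List (GF p)) (η : ℝ) (x : Pt) : Pt :=
  gmove (fun i => -(η * gcl (gt s β x i))) (fun i => -(η * gcl (gr β x i))) x

theorem F_gT (s : ℝ) (β : List (GF p)) (hβ : β ≠ []) (L : ℝ)
    (hL : ∀ i, (β.getD i default).L ≤ L) (η : ℝ) (hη : 0 ≤ η) (hη' : (L + 2) * η ≤ 1 / 2)
    (x : Pt) : F s β (gT s β η x) ≤ F s β x - η / 2 * gS s β x := by
  have h1 := F_gmove s β hβ L hL (fun i => -(η * gcl (gt s β x i)))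
    (fun i => -(η * gcl (gr β x i))) (by
      simp only [gr_zero]
      have : gcl 0 = 0 := by unfold gcl; simp
      rw [this]; simp) x
  have h2 : ∑ i ∈ range β.length, (-(η * gcl (gt s β x i)) * gt s β x i +
      -(η * gcl (gr β x i)) * gr β x i) ≤ -(η * gS s β x) := by
    unfold gS
    rw [mul_sum, ← sum_neg_distrib]
    apply sum_le_sum
    intro i _
    have e1 := mul_le_mul_of_nonneg_left (gcl_mul (gt s β x i)) hη
    have e2 := mul_le_mul_of_nonneg_left (gcl_mul (gr β x i)) hη
    linarith
  have h3 : ∑ i ∈ range β.length, ((-(η * gcl (gt s β x i))) ^ 2 +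
      (-(η * gcl (gr β x i))) ^ 2) = η ^ 2 * gS s β x := by
    unfold gS
    rw [mul_sum]
    apply sum_congr rfl
    intro i _
    ring
  have h4 : 0 ≤ gS s β x := by
    unfold gS
    apply sum_nonneg
    intro i _
    positivity
  rw [h3] at h1
  have h5 : (L + 2) * (η ^ 2 * gS s β x) ≤ η / 2 * gS s β x := by
    have : (L + 2) * (η ^ 2 * gS s β x) = ((L + 2) * η) * (η * gS s β x) := by ring
    rw [this]
    have h6 : 0 ≤ η * gS s β x := mul_nonneg hη h4
    nlinarith
  unfold gT
  linarith

/-- joint continuity of a Lipschitz function of two variables -/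
theorem gcont_of_lip (f : ℝ → ℝ → ℝ) (L : ℝ) (hL : 0 ≤ L)
    (h : ∀ θ ρ θ' ρ' : ℝ, |f θ' ρ' - f θ ρ| ≤ L * (|θ' - θ| + |ρ' - ρ|)) :
    Continuous fun q : ℝ × ℝ => f q.1 q.2 := by
  have h1 : LipschitzWith (Real.toNNReal (2 * L)) fun q : ℝ × ℝ => f q.1 q.2 := by
    apply LipschitzWith.of_dist_le_mul
    intro x y
    rw [Real.dist_eq, Prod.dist_eq, Real.dist_eq, Real.dist_eq,
      Real.coe_toNNReal (2 * L) (by positivity)]
    refine (h y.1 y.2 x.1 x.2).trans ?_
    have e1 : |x.1 - y.1| ≤ max |x.1 - y.1| |x.2 - y.2| := le_max_left _ _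
    have e2 : |x.2 - y.2| ≤ max |x.1 - y.1| |x.2 - y.2| := le_max_right _ _
    have e3 : L * (|x.1 - y.1| + |x.2 - y.2|) ≤
        L * (2 * max |x.1 - y.1| |x.2 - y.2|) := mul_le_mul_of_nonneg_left (by linarith) hL
    linarith
  exact h1.continuous

theorem rad_continuous (s : ℝ) (i : ℕ) : Continuous fun x : Pt => rad s x i := by
  unfold rad
  by_cases h : i = 0
  · simp only [h, if_true]
    exact continuous_const
  · simp only [h, if_false]
    exact (continuous_apply i).comp continuous_snd

theorem fst_continuous (i : ℕ) : Continuous fun x : Pt => x.1 i :=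
  (continuous_apply i).comp continuous_fst

theorem snd_continuous (i : ℕ) : Continuous fun x : Pt => x.2 i :=
  (continuous_apply i).comp continuous_snd

theorem F_continuous (s : ℝ) (β : List (GF p)) : Continuous (F s β) := by
  unfold F
  refine (continuous_finsetSum _ fun i _ => ?_).add (continuous_finsetSum _ fun i _ => ?_)
  · obtain ⟨Λ, h0, h⟩ := (β.getD i default).lipW
    exact (gcont_of_lip _ Λ h0 h).comp ((fst_continuous i).prodMk (rad_continuous s i))
  · exact ((snd_continuous (i + 1)).sub continuous_const).mul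
      ((fst_continuous (i + 1)).sub (fst_continuous i))

theorem gt_continuous (s : ℝ) (β : List (GF p)) (i : ℕ) : Continuous fun x : Pt => gt s β x i := by
  unfold gt
  by_cases h : i < β.length
  · simp only [h, if_true]
    refine ((Continuous.add ?_ ((rad_continuous s i).sub continuous_const))).sub ?_
    · exact (gcont_of_lip _ _ (β.getD i default).L_nonneg (β.getD i default).lipt).comp
        ((fst_continuous i).prodMk (rad_continuous s i))
    · by_cases h' : i + 1 < β.length
      · simp only [h', if_true]
        exact (snd_continuous (i + 1)).sub continuous_const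
      · simp only [h', if_false]
        exact continuous_const
  · simp only [h, if_false]
    exact continuous_const

theorem gr_continuous (β : List (GF p)) (i : ℕ) : Continuous fun x : Pt => gr β x i := by
  unfold gr
  by_cases h : 1 ≤ i ∧ i < β.length
  · simp only [h, if_true, and_self]
    refine Continuous.add ?_ ((fst_continuous i).sub (fst_continuous (i - 1)))
    exact (gcont_of_lip _ _ (β.getD i default).L_nonneg (β.getD i default).lipr).comp
        ((fst_continuous i).prodMk (snd_continuous i))
  · simp only [h, if_false]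
    exact continuous_const

theorem gS_continuous (s : ℝ) (β : List (GF p)) : Continuous (gS s β) := by
  unfold gS
  refine continuous_finsetSum _ fun i _ => ?_
  exact ((gcl_continuous.comp (gt_continuous s β i)).pow 2).add
    ((gcl_continuous.comp (gr_continuous β i)).pow 2)

/-- positive lower bound away from the critical level -/
theorem gS_lower (hp : 0 < p) (s : ℝ) (β : List (GF p)) (A : ℝ)
    (hA : ∀ x, IsCrit s β x → F s β x = A) (δ : ℝ) (hδ : 0 < δ) :
    ∃ c : ℝ, 0 < c ∧ ∀ x, δ ≤ |F s β x - A| → c ≤ gS s β x := by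
  obtain ⟨L, M, hL0, hM0, hLM⟩ := exists_bounds β
  set N := β.length with hN
  set R : ℝ := p + |s| + N * (M + 1) with hR
  let box : Set Pt := (Set.univ.pi fun _ => Set.Icc (-R) R) ×ˢ (Set.univ.pi fun _ => Set.Icc (-R) R)
  have hbox : IsCompact box :=
    (isCompact_univ_pi fun _ => isCompact_Icc).prod (isCompact_univ_pi fun _ => isCompact_Icc)
  let K : Set Pt := box ∩ {x | δ ≤ |F s β x - A|}
  have hK : IsCompact K := by
    apply hbox.inter_right
    exact isClosed_le continuous_const (((F_continuous s β).sub continuous_const).abs)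
  -- minimum on K
  obtain ⟨c₁, hc₁, hc₁'⟩ : ∃ c₁ : ℝ, 0 < c₁ ∧ ∀ x ∈ K, c₁ ≤ gS s β x := by
    by_cases hne : K.Nonempty
    · obtain ⟨x₀, hx₀, hmin⟩ := hK.exists_isMinOn hne (gS_continuous s β).continuousOn
      refine ⟨gS s β x₀, ?_, fun x hx => hmin hx⟩
      have hnn : 0 ≤ gS s β x₀ := by
        unfold gS
        apply sum_nonneg
        intro i _
        positivity
      rcases hnn.lt_or_eq with h | h
      · exact h
      · exfalso
        have hz : ∀ i ∈ range β.length,
            gcl (gt s β x₀ i) ^ 2 + gcl (gr β x₀ i) ^ 2 = 0 := by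
          unfold gS at h
          exact (sum_eq_zero_iff_of_nonneg (fun i _ => by positivity)).mp h.symm
        have hcrit : IsCrit s β x₀ := by
          constructor
          · intro i
            by_cases hi : i < β.length
            · have h1 := hz i (mem_range.mpr hi)
              apply gcl_eq_zero
              have h2 : gcl (gt s β x₀ i) ^ 2 = 0 := by
                nlinarith [sq_nonneg (gcl (gt s β x₀ i)), sq_nonneg (gcl (gr β x₀ i))]
              exact pow_eq_zero_iff (two_ne_zero) |>.mp h2
            · unfold gt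
              rw [if_neg hi]
          · intro i
            by_cases hi : i < β.length
            · have h1 := hz i (mem_range.mpr hi)
              apply gcl_eq_zero
              have h2 : gcl (gr β x₀ i) ^ 2 = 0 := by
                nlinarith [sq_nonneg (gcl (gt s β x₀ i)), sq_nonneg (gcl (gr β x₀ i))]
              exact pow_eq_zero_iff (two_ne_zero) |>.mp h2
            · unfold gr
              rw [if_neg (fun h => hi h.2)]
        have h3 : δ ≤ |F s β x₀ - A| := hx₀.2
        rw [hA x₀ hcrit, sub_self, abs_zero] at h3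
        linarith
    · refine ⟨1, one_pos, fun x hx => (hne ⟨x, hx⟩).elim⟩
  refine ⟨min 1 c₁, lt_min one_pos hc₁, ?_⟩
  intro x hx
  by_cases hbig : ∃ i < β.length, 1 < |gt s β x i| ∨ 1 < |gr β x i|
  · obtain ⟨i, hi, h⟩ := hbig
    refine (min_le_left _ _).trans ?_
    have h1 : (1 : ℝ) ≤ gcl (gt s β x i) ^ 2 + gcl (gr β x i) ^ 2 := by
      rcases h with h | h
      · have := gcl_big h.le
        nlinarith [sq_nonneg (gcl (gr β x i))]
      · have := gcl_big h.le
        nlinarith [sq_nonneg (gcl (gt s β x i))]
    refine h1.trans ?_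
    unfold gS
    exact single_le_sum (f := fun i => gcl (gt s β x i) ^ 2 + gcl (gr β x i) ^ 2)
      (fun j _ => by positivity) (mem_range.mpr hi)
  · push Not at hbig
    refine (min_le_right _ _).trans ?_
    -- normalise
    set m : ℤ := -⌊x.1 0 / p⌋ with hm
    let y : Pt := (fun i => if i < β.length then x.1 i + m * p else 0,
      fun i => if 1 ≤ i ∧ i < β.length then x.2 i else 0)
    have hFy : F s β y = F s β x := by
      rw [← F_shift_ang s β x m]
      apply F_congr
      · intro i hi
        show (if i < β.length then x.1 i + m * p else 0) = x.1 i + m * p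
        rw [if_pos hi]
      · intro i hi hi'
        show (if 1 ≤ i ∧ i < β.length then x.2 i else 0) = x.2 i
        rw [if_pos ⟨hi, hi'⟩]
    have hyrad : ∀ i < β.length, rad s y i = rad s x i := by
      intro i hi
      unfold rad
      by_cases h0 : i = 0
      · simp [h0]
      · rw [if_neg h0, if_neg h0]
        show (if 1 ≤ i ∧ i < β.length then x.2 i else 0) = x.2 i
        rw [if_pos ⟨by omega, hi⟩]
    have hy1 : ∀ i < β.length, y.1 i = x.1 i + m * p := by
      intro i hi
      show (if i < β.length then x.1 i + m * p else 0) = x.1 i + m * p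
      rw [if_pos hi]
    have hy2 : ∀ i, 1 ≤ i → i < β.length → y.2 i = x.2 i := by
      intro i hi hi'
      show (if 1 ≤ i ∧ i < β.length then x.2 i else 0) = x.2 i
      rw [if_pos ⟨hi, hi'⟩]
    have hgt : ∀ i, gt s β y i = gt s β x i := by
      intro i
      unfold gt
      by_cases hi : i < β.length
      · rw [if_pos hi, if_pos hi, hyrad i hi, hy1 i hi]
        have hper : Function.Periodic (fun θ => (β.getD i default).Wt θ (rad s x i)) p :=
          fun θ => (β.getD i default).pert θ _
        have h2 := hper.int_mul m (x.1 i)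
        rw [h2]
        by_cases hi' : i + 1 < β.length
        · rw [if_pos hi', if_pos hi', hy2 (i + 1) (by omega) hi']
        · rw [if_neg hi', if_neg hi']
      · rw [if_neg hi, if_neg hi]
    have hgr : ∀ i, gr β y i = gr β x i := by
      intro i
      unfold gr
      by_cases hi : 1 ≤ i ∧ i < β.length
      · rw [if_pos hi, if_pos hi, hy1 i hi.2, hy1 (i - 1) (by omega), hy2 i hi.1 hi.2]
        have hper : Function.Periodic (fun θ => (β.getD i default).Wr θ (x.2 i)) p :=
          fun θ => (β.getD i default).perr θ _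
        have h2 := hper.int_mul m (x.1 i)
        rw [h2]
        ring
      · rw [if_neg hi, if_neg hi]
    have hSy : gS s β y = gS s β x := by
      unfold gS
      apply sum_congr rfl
      intro i _
      rw [hgt i, hgr i]
    rw [← hSy]
    apply hc₁'
    refine ⟨?_, ?_⟩
    · -- in the box
      have hangle : ∀ i, i < β.length → |x.1 i - x.1 0| ≤ i * (M + 1) := by
        intro i
        induction i with
        | zero => intro _; simp
        | succ i ih =>
          intro hi
          have h1 := ih (by omega)
          have h2 := (hbig (i + 1) hi).2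
          unfold gr at h2
          rw [if_pos ⟨by omega, hi⟩, Nat.add_sub_cancel] at h2
          have h3 := ((β.getD (i + 1) default).br (x.1 (i + 1)) (x.2 (i + 1))).trans (hLM (i + 1)).2
          have h4 : |x.1 (i + 1) - x.1 i| ≤ M + 1 := by
            rw [abs_le] at h2 h3 ⊢
            constructor <;> linarith [h2.1, h2.2, h3.1, h3.2]
          have h5 : |x.1 (i + 1) - x.1 0| ≤ |x.1 (i + 1) - x.1 i| + |x.1 i - x.1 0| :=
            abs_sub_le _ _ _
          push_cast
          linarith
      have hradb : ∀ i, i < β.length → |rad s x i - s| ≤ i * (M + 1) := by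
        intro i
        induction i with
        | zero => intro _; unfold rad; simp
        | succ i ih =>
          intro hi
          have h1 := ih (by omega)
          have h2 := (hbig i (by omega)).1
          unfold gt at h2
          rw [if_pos (by omega : i < β.length), if_pos hi] at h2
          have h3 := ((β.getD i default).bt (x.1 i) (rad s x i)).trans (hLM i).2
          have h4 : rad s x (i + 1) = x.2 (i + 1) := by unfold rad; simp
          rw [h4]
          push_cast
          rw [abs_le] at h1 h2 h3 ⊢
          constructor <;> linarith [h1.1, h1.2, h2.1, h2.2, h3.1, h3.2]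
      have hR0 : 0 ≤ R := by positivity
      have hle : ∀ i, i < β.length → (i : ℝ) * (M + 1) ≤ N * (M + 1) := by
        intro i hi
        apply mul_le_mul_of_nonneg_right _ (by linarith)
        exact_mod_cast hi.le
      refine ⟨?_, ?_⟩
      · intro i _
        show (if i < β.length then x.1 i + m * p else 0) ∈ Set.Icc (-R) R
        by_cases hi : i < β.length
        · rw [if_pos hi]
          have h1 := hangle i hi
          have h2 := hle i hi
          have h3 : 0 ≤ x.1 0 + m * p ∧ x.1 0 + m * p < p := by
            have e1 : (⌊x.1 0 / p⌋ : ℝ) ≤ x.1 0 / p := Int.floor_le _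
            have e2 : x.1 0 / p < ⌊x.1 0 / p⌋ + 1 := Int.lt_floor_add_one _
            rw [le_div_iff₀ hp] at e1
            rw [div_lt_iff₀ hp] at e2
            have e3 : (m : ℝ) = -(⌊x.1 0 / p⌋ : ℝ) := by rw [hm]; push_cast; ring
            rw [e3]
            constructor <;> nlinarith
          rw [abs_le] at h1
          have hs := abs_nonneg s
          constructor <;> linarith [h1.1, h1.2, h3.1, h3.2]
        · rw [if_neg hi]
          exact ⟨by linarith, hR0⟩
      · intro i _
        show (if 1 ≤ i ∧ i < β.length then x.2 i else 0) ∈ Set.Icc (-R) R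
        by_cases hi : 1 ≤ i ∧ i < β.length
        · rw [if_pos hi]
          have h1 := hradb i hi.2
          have h2 := hle i hi.2
          have h4 : rad s x i = x.2 i := by
            unfold rad
            rw [if_neg (by omega)]
          rw [h4, abs_le] at h1
          have hs := neg_abs_le s
          have hs' := le_abs_self s
          constructor <;> linarith [h1.1, h1.2]
        · rw [if_neg hi]
          exact ⟨by linarith, hR0⟩
    · show δ ≤ |F s β y - A|
      rw [hFy]
      exact hx

/-- If all critical points of `F` have value `A`, then away from the level `A` clipped gradient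
steps of size `η` decrease `F` at a uniform rate. -/
theorem grad_push (hp : 0 < p) (s : ℝ) (β : List (GF p)) (hβ : β ≠ []) (A : ℝ)
    (hA : ∀ x, IsCrit s β x → F s β x = A) (δ : ℝ) (hδ : 0 < δ) :
    ∃ μ Λ η₀ : ℝ, 0 < μ ∧ 0 ≤ Λ ∧ 0 < η₀ ∧ ∀ η : ℝ, 0 < η → η ≤ η₀ → ∃ T : Pt → Pt,
      (∀ x, F s β (T x) ≤ F s β x) ∧
      (∀ x, δ ≤ |F s β x - A| → F s β (T x) ≤ F s β x - η * μ) ∧
      (∀ x, Near η x (T x)) ∧
      (∀ x y ε, Near ε x y → Near ((1 + Λ * η) * ε) (T x) (T y)) := by
  obtain ⟨L, M, hL0, hM0, hLM⟩ := exists_bounds β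
  obtain ⟨c, hc, hc'⟩ := gS_lower hp s β A hA δ hδ
  refine ⟨c / 2, 2 * L + 2, 1 / (2 * (L + 2)), by positivity, by positivity, by positivity, ?_⟩
  intro η hη hη'
  have hη2 : (L + 2) * η ≤ 1 / 2 := by
    have h1 : (L + 2) * η ≤ (L + 2) * (1 / (2 * (L + 2))) :=
      mul_le_mul_of_nonneg_left hη' (by linarith)
    have h2 : (L + 2) * (1 / (2 * (L + 2))) = 1 / 2 := by
      have : L + 2 ≠ 0 := by positivity
      field_simp
    linarith
  have hF : ∀ x, F s β (gT s β η x) ≤ F s β x - η / 2 * gS s β x :=
    fun x => F_gT s β hβ L (fun i => (hLM i).1) η hη.le hη2 x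
  have hSnn : ∀ x, 0 ≤ gS s β x := by
    intro x
    unfold gS
    apply sum_nonneg
    intro i _
    positivity
  refine ⟨gT s β η, ?_, ?_, ?_, ?_⟩
  · intro x
    have h1 := hF x
    have h2 := mul_nonneg (by positivity : (0 : ℝ) ≤ η / 2) (hSnn x)
    linarith
  · intro x hx
    have h1 := hF x
    have h2 := mul_le_mul_of_nonneg_left (hc' x hx) (by positivity : (0 : ℝ) ≤ η / 2)
    linarith
  · intro x i
    have hb : ∀ t : ℝ, |x.1 i - (x.1 i + -(η * gcl t))| ≤ η := by
      intro t
      have e1 : x.1 i - (x.1 i + -(η * gcl t)) = η * gcl t := by ring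
      rw [e1, abs_mul, abs_of_pos hη]
      have := gcl_abs t
      nlinarith
    have hb' : ∀ t : ℝ, |x.2 i - (x.2 i + -(η * gcl t))| ≤ η := by
      intro t
      have e1 : x.2 i - (x.2 i + -(η * gcl t)) = η * gcl t := by ring
      rw [e1, abs_mul, abs_of_pos hη]
      have := gcl_abs t
      nlinarith
    exact ⟨hb _, hb' _⟩
  · intro x y ε hxy
    have hε : 0 ≤ ε := (abs_nonneg _).trans (hxy 0).1
    have hrd : ∀ i, |rad s x i - rad s y i| ≤ ε := by
      intro i
      unfold rad
      by_cases h : i = 0
      · simp [h, hε]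
      · rw [if_neg h, if_neg h]
        exact (hxy i).2
    have key : ∀ u v a b : ℝ, |u - v| ≤ ε → |a - b| ≤ (2 * L + 2) * ε →
        |(u + -(η * gcl a)) - (v + -(η * gcl b))| ≤ (1 + (2 * L + 2) * η) * ε := by
      intro u v a b h1 h2
      have e1 : (u + -(η * gcl a)) - (v + -(η * gcl b)) = (u - v) - η * (gcl a - gcl b) := by ring
      rw [e1]
      have e2 : |(u - v) - η * (gcl a - gcl b)| ≤ |u - v| + |η * (gcl a - gcl b)| := abs_sub _ _
      rw [abs_mul, abs_of_pos hη] at e2
      have e3 := (gcl_lip a b).trans h2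
      have e4 := mul_le_mul_of_nonneg_left e3 hη.le
      linarith
    have hgt : ∀ i, |gt s β x i - gt s β y i| ≤ (2 * L + 2) * ε := by
      intro i
      unfold gt
      by_cases hi : i < β.length
      · rw [if_pos hi, if_pos hi]
        have h1 := (β.getD i default).lipt (y.1 i) (rad s y i) (x.1 i) (rad s x i)
        have h2 : (β.getD i default).L * (|x.1 i - y.1 i| + |rad s x i - rad s y i|) ≤
            L * (ε + ε) := by
          apply mul_le_mul (hLM i).1 (add_le_add (hxy i).1 (hrd i)) (by positivity) hL0
        have h3 := h1.trans h2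
        have h4 := hrd i
        by_cases hi' : i + 1 < β.length
        · rw [if_pos hi', if_pos hi']
          have h5 := (hxy (i + 1)).2
          rw [abs_le] at h3 h4 h5 ⊢
          constructor <;> linarith [h3.1, h3.2, h4.1, h4.2, h5.1, h5.2]
        · rw [if_neg hi', if_neg hi']
          rw [abs_le] at h3 h4 ⊢
          constructor <;> linarith [h3.1, h3.2, h4.1, h4.2]
      · rw [if_neg hi, if_neg hi, sub_self, abs_zero]
        positivity
    have hgr : ∀ i, |gr β x i - gr β y i| ≤ (2 * L + 2) * ε := by
      intro i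
      unfold gr
      by_cases hi : 1 ≤ i ∧ i < β.length
      · rw [if_pos hi, if_pos hi]
        have h1 := (β.getD i default).lipr (y.1 i) (y.2 i) (x.1 i) (x.2 i)
        have h2 : (β.getD i default).L * (|x.1 i - y.1 i| + |x.2 i - y.2 i|) ≤
            L * (ε + ε) := by
          apply mul_le_mul (hLM i).1 (add_le_add (hxy i).1 (hxy i).2) (by positivity) hL0
        have h3 := h1.trans h2
        have h4 := (hxy i).1
        have h5 := (hxy (i - 1)).1
        rw [abs_le] at h3 h4 h5 ⊢
        constructor <;> linarith [h3.1, h3.2, h4.1, h4.2, h5.1, h5.2]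
      · rw [if_neg hi, if_neg hi, sub_self, abs_zero]
        positivity
    intro i
    exact ⟨key _ _ _ _ (hxy i).1 (hgt i), key _ _ _ _ (hxy i).2 (hgr i)⟩

end Pool.Agent.Helper31.AP
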