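import Pool.Agent.Helper31.AP.Prim

/-! Module C2a: polar coordinates -/

set_option autoImplicit false

namespace Pool.Agent.Helper31.AP

theorem pol_zero (θ ρ : ℝ) : pol θ ρ 0 = √(2 * ρ) * Real.cos θ := rfl

theorem pol_one (θ ρ : ℝ) : pol θ ρ 1 = √(2 * ρ) * Real.sin θ := rfl

theorem hsq_pol (θ ρ : ℝ) (hρ : 0 ≤ ρ) : hsq (pol θ ρ) = ρ := by
  unfold hsq
  rw [pol_zero, pol_one, mul_pow, mul_pow, Real.sq_sqrt (by positivity), ← mul_add,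
    Real.cos_sq_add_sin_sq]
  ring

theorem V_ext {x y : V} (h0 : x 0 = y 0) (h1 : x 1 = y 1) : x = y := by
  funext i
  fin_cases i
  · exact h0
  · exact h1

theorem pol_hsq (x : V) : ∃ θ : ℝ, x = pol θ (hsq x) := by
  refine ⟨Complex.arg ⟨x 0, x 1⟩, ?_⟩
  have hn : √(2 * hsq x) = ‖(⟨x 0, x 1⟩ : ℂ)‖ := by
    rw [Complex.norm_def, Complex.normSq_mk]
    congr 1
    unfold hsq
    ring
  apply V_ext
  · rw [pol_zero, hn, Complex.norm_mul_cos_arg]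
  · rw [pol_one, hn, Complex.norm_mul_sin_arg]

theorem pol_inj_ang {θ θ' ρ : ℝ} (hρ : 0 < ρ) (h : pol θ ρ = pol θ' ρ) :
    ∃ n : ℤ, θ' = θ + n * (2 * Real.pi) := by
  have hs : √(2 * ρ) ≠ 0 := (Real.sqrt_pos.2 (by positivity)).ne'
  have h0 : Real.cos θ' = Real.cos θ := by
    have := congrFun h 0
    rw [pol_zero, pol_zero] at this
    exact (mul_left_cancel₀ hs this).symm
  have h1 : Real.sin θ' = Real.sin θ := by
    have := congrFun h 1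
    rw [pol_one, pol_one] at this
    exact (mul_left_cancel₀ hs this).symm
  have h2 := Real.Angle.cos_sin_inj h0 h1
  rw [Real.Angle.angle_eq_iff_two_pi_dvd_sub] at h2
  obtain ⟨n, hn⟩ := h2
  exact ⟨n, by linarith⟩

theorem abs_apply_le (x : V) (i : Fin 2) : |x i| ≤ ‖x‖ := by
  rw [← Real.norm_eq_abs]
  exact norm_le_pi_norm x i

theorem hsq_le (x : V) : hsq x ≤ ‖x‖ ^ 2 := by
  unfold hsq
  have h0 : x 0 ^ 2 ≤ ‖x‖ ^ 2 := sq_le_sq' (by have := abs_le.1 (abs_apply_le x 0); linarith)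
    (abs_le.1 (abs_apply_le x 0)).2
  have h1 : x 1 ^ 2 ≤ ‖x‖ ^ 2 := sq_le_sq' (by have := abs_le.1 (abs_apply_le x 1); linarith)
    (abs_le.1 (abs_apply_le x 1)).2
  linarith

theorem norm_sq_le (x : V) : ‖x‖ ^ 2 ≤ 2 * hsq x := by
  have h : ‖x‖ ≤ √(2 * hsq x) := by
    rw [pi_norm_le_iff_of_nonneg (Real.sqrt_nonneg _)]
    intro i
    rw [Real.norm_eq_abs]
    apply Real.abs_le_sqrt
    unfold hsq
    fin_cases i
    · show x 0 ^ 2 ≤ _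
      nlinarith [sq_nonneg (x 1)]
    · show x 1 ^ 2 ≤ _
      nlinarith [sq_nonneg (x 0)]
  have h2 : 0 ≤ 2 * hsq x := by
    unfold hsq
    positivity
  calc ‖x‖ ^ 2 ≤ √(2 * hsq x) ^ 2 := pow_le_pow_left₀ (norm_nonneg _) h 2
    _ = _ := Real.sq_sqrt h2

/-- the product formula `dot² + cross² = |p|² |q|²` -/
theorem dot_cross (k : V → V) (x : V) :
    dotk k x ^ 2 + (x 0 * k x 1 - x 1 * k x 0) ^ 2 = (2 * hsq x) * (2 * hsq (k x)) := by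
  unfold dotk hsq
  ring

/-- `k` in polar coordinates: the angle increases by `ang k` -/
theorem k_pol (k : V → V) (θ ρ : ℝ) (hρ : 0 < ρ) (h : 0 < dotk k (pol θ ρ)) :
    k (pol θ ρ) = pol (θ + ang k (pol θ ρ)) (hsq (k (pol θ ρ))) := by
  set x := pol θ ρ with hx
  set d := dotk k x with hd
  set c := x 0 * k x 1 - x 1 * k x 0 with hc
  have hx2 : hsq x = ρ := hsq_pol θ ρ hρ.le
  have hdc : d ^ 2 + c ^ 2 = (2 * ρ) * (2 * hsq (k x)) := by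
    rw [hd, hc, dot_cross, hx2]
  have hP : 0 < hsq (k x) := by
    have h1 : 0 < d ^ 2 + c ^ 2 := by positivity
    rw [hdc] at h1
    have h2 : 0 < 2 * ρ := by positivity
    have := (mul_pos_iff_of_pos_left h2).1 h1
    linarith
  set s := √(2 * ρ) with hs
  set t := √(2 * hsq (k x)) with ht
  have hs0 : 0 < s := Real.sqrt_pos.2 (by positivity)
  have ht0 : 0 < t := Real.sqrt_pos.2 (by positivity)
  have hst : √(d ^ 2 + c ^ 2) = s * t := by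
    rw [hdc, Real.sqrt_mul (by positivity)]
  have hq : √(1 + (c / d) ^ 2) = s * t / d := by
    rw [← hst]
    have : 1 + (c / d) ^ 2 = (d ^ 2 + c ^ 2) / d ^ 2 := by
      field_simp
    rw [this, Real.sqrt_div (by positivity), Real.sqrt_sq h.le]
  have hcos : Real.cos (ang k x) = d / (s * t) := by
    unfold ang
    rw [← hd, ← hc, Real.cos_arctan, hq]
    field_simp
  have hsin : Real.sin (ang k x) = c / (s * t) := by
    unfold ang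
    rw [← hd, ← hc, Real.sin_arctan, hq]
    field_simp
  have hx0 : x 0 = s * Real.cos θ := rfl
  have hx1 : x 1 = s * Real.sin θ := rfl
  have hs2 : s ^ 2 = 2 * ρ := Real.sq_sqrt (by positivity)
  have hsum : x 0 ^ 2 + x 1 ^ 2 = s ^ 2 := by
    rw [hs2, ← hx2]
    unfold hsq
    ring
  apply V_ext
  · rw [pol_zero, Real.cos_add, hcos, hsin, ← ht]
    have e1 : t * (Real.cos θ * (d / (s * t)) - Real.sin θ * (c / (s * t))) =
        (x 0 * d - x 1 * c) / s ^ 2 := by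
      rw [hx0, hx1]
      field_simp
    rw [e1, eq_div_iff (by positivity), ← hsum, hd, hc]
    unfold dotk
    ring
  · rw [pol_one, Real.sin_add, hcos, hsin, ← ht]
    have e1 : t * (Real.sin θ * (d / (s * t)) + Real.cos θ * (c / (s * t))) =
        (x 1 * d + x 0 * c) / s ^ 2 := by
      rw [hx0, hx1]
      field_simp
    rw [e1, eq_div_iff (by positivity), ← hsum, hd, hc]
    unfold dotk
    ring

theorem ang_symm (k : Equiv.Perm V) (x : V) : ang k.symm (k x) = -ang k x := by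
  unfold ang dotk
  rw [Equiv.symm_apply_apply, ← Real.arctan_neg]
  congr 1
  rw [← neg_div]
  congr 1 <;> ring

theorem pol_contDiffAt (θ ρ : ℝ) (hρ : 0 < ρ) :
    ContDiffAt ℝ ((⊤ : ℕ∞) : WithTop ℕ∞) (fun q : ℝ × ℝ => pol q.1 q.2) (θ, ρ) := by
  have hs : ContDiffAt ℝ ((⊤ : ℕ∞) : WithTop ℕ∞) (fun q : ℝ × ℝ => √(2 * q.2)) (θ, ρ) := by
    apply ContDiffAt.sqrt
    · exact (contDiff_const.mul contDiff_snd).contDiffAt
    · show 2 * ρ ≠ 0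
      positivity
  rw [contDiffAt_pi]
  intro i
  fin_cases i
  · exact hs.mul (Real.contDiff_cos.comp contDiff_fst).contDiffAt
  · exact hs.mul (Real.contDiff_sin.comp contDiff_fst).contDiffAt

/-- the derivative of `pol` -/
theorem hasFDerivAt_pol (θ ρ : ℝ) (hρ : 0 < ρ) (u : ℝ × ℝ) :
    fderiv ℝ (fun q : ℝ × ℝ => pol q.1 q.2) (θ, ρ) u =
      ![Real.cos θ * (u.2 / √(2 * ρ)) - √(2 * ρ) * Real.sin θ * u.1,
        Real.sin θ * (u.2 / √(2 * ρ)) + √(2 * ρ) * Real.cos θ * u.1] := by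
  have hs0 : √(2 * ρ) ≠ 0 := (Real.sqrt_pos.2 (by positivity)).ne'
  have hsd : HasFDerivAt (fun q : ℝ × ℝ => √(2 * q.2))
      ((1 / (2 * √(2 * ρ))) • ((2 : ℝ) • ContinuousLinearMap.snd ℝ ℝ ℝ)) (θ, ρ) := by
    have h1 : HasFDerivAt (fun q : ℝ × ℝ => 2 * q.2) ((2 : ℝ) • ContinuousLinearMap.snd ℝ ℝ ℝ)
        (θ, ρ) := hasFDerivAt_snd.const_mul 2
    exact h1.sqrt (by show 2 * ρ ≠ 0; positivity)
  have hcd : HasFDerivAt (fun q : ℝ × ℝ => Real.cos q.1)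
      ((-Real.sin θ) • ContinuousLinearMap.fst ℝ ℝ ℝ) (θ, ρ) :=
    (hasFDerivAt_fst (𝕜 := ℝ) (p := (θ, ρ))).cos
  have hsd' : HasFDerivAt (fun q : ℝ × ℝ => Real.sin q.1)
      ((Real.cos θ) • ContinuousLinearMap.fst ℝ ℝ ℝ) (θ, ρ) :=
    (hasFDerivAt_fst (𝕜 := ℝ) (p := (θ, ρ))).sin
  obtain ⟨A, hA0⟩ : ∃ A : ℝ × ℝ →L[ℝ] ℝ, A = √(2 * ρ) • ((-Real.sin θ) •
      ContinuousLinearMap.fst ℝ ℝ ℝ) + Real.cos θ • ((1 / (2 * √(2 * ρ))) • ((2 : ℝ) •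
      ContinuousLinearMap.snd ℝ ℝ ℝ)) := ⟨_, rfl⟩
  obtain ⟨B, hB0⟩ : ∃ B : ℝ × ℝ →L[ℝ] ℝ, B = √(2 * ρ) • ((Real.cos θ) •
      ContinuousLinearMap.fst ℝ ℝ ℝ) + Real.sin θ • ((1 / (2 * √(2 * ρ))) • ((2 : ℝ) •
      ContinuousLinearMap.snd ℝ ℝ ℝ)) := ⟨_, rfl⟩
  have hA : HasFDerivAt (fun q : ℝ × ℝ => √(2 * q.2) * Real.cos q.1) A (θ, ρ) := by
    rw [hA0]
    exact hsd.mul hcd
  have hB : HasFDerivAt (fun q : ℝ × ℝ => √(2 * q.2) * Real.sin q.1) B (θ, ρ) := by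
    rw [hB0]
    exact hsd.mul hsd'
  have hpi : HasFDerivAt (fun q : ℝ × ℝ => pol q.1 q.2)
      (ContinuousLinearMap.pi (fun i : Fin 2 => (![A, B] : Fin 2 → (ℝ × ℝ →L[ℝ] ℝ)) i))
      (θ, ρ) := by
    rw [hasFDerivAt_pi']
    intro i
    fin_cases i
    · exact hA
    · exact hB
  rw [hpi.fderiv]
  apply V_ext
  · show A u = Real.cos θ * (u.2 / √(2 * ρ)) - √(2 * ρ) * Real.sin θ * u.1
    rw [hA0]
    simp only [add_apply,
      smul_apply, ContinuousLinearMap.coe_fst', ContinuousLinearMap.coe_snd',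
      smul_eq_mul]
    field_simp
    ring
  · show B u = Real.sin θ * (u.2 / √(2 * ρ)) + √(2 * ρ) * Real.cos θ * u.1
    rw [hB0]
    simp only [add_apply,
      smul_apply, ContinuousLinearMap.coe_fst', ContinuousLinearMap.coe_snd',
      smul_eq_mul]
    field_simp
    ring

/-- `pol^* λ = ρ dθ` -/
theorem lam_pol (θ ρ : ℝ) (hρ : 0 < ρ) (u : ℝ × ℝ) :
    lam (pol θ ρ) (fderiv ℝ (fun q : ℝ × ℝ => pol q.1 q.2) (θ, ρ) u) = ρ * u.1 := by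
  rw [hasFDerivAt_pol θ ρ hρ]
  have hs0 : √(2 * ρ) ≠ 0 := (Real.sqrt_pos.2 (by positivity)).ne'
  have hs2 : √(2 * ρ) ^ 2 = 2 * ρ := Real.sq_sqrt (by positivity)
  unfold lam
  rw [pol_zero, pol_one]
  simp only [Matrix.cons_val_zero, Matrix.cons_val_one]
  have h1 : √(2 * ρ) * Real.cos θ * (Real.sin θ * (u.2 / √(2 * ρ)) + √(2 * ρ) * Real.cos θ * u.1) -
      √(2 * ρ) * Real.sin θ * (Real.cos θ * (u.2 / √(2 * ρ)) - √(2 * ρ) * Real.sin θ * u.1) =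
      √(2 * ρ) ^ 2 * (Real.cos θ ^ 2 + Real.sin θ ^ 2) * u.1 := by
    field_simp
    ring
  rw [h1, hs2, Real.cos_sq_add_sin_sq]
  ring

/-- the angle is smooth in polar coordinates -/
theorem ang_pol_contDiffAt (k : V → V) (hk : ContDiff ℝ ((⊤ : ℕ∞) : WithTop ℕ∞) k) (θ ρ : ℝ)
    (hρ : 0 < ρ) (h : 0 < dotk k (pol θ ρ)) :
    ContDiffAt ℝ ((⊤ : ℕ∞) : WithTop ℕ∞) (fun q : ℝ × ℝ => ang k (pol q.1 q.2)) (θ, ρ) := by
  have hk0 : ContDiff ℝ ((⊤ : ℕ∞) : WithTop ℕ∞) (fun x : V => k x 0) :=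
    (contDiff_apply ℝ ℝ (0 : Fin 2)).comp hk
  have hk1 : ContDiff ℝ ((⊤ : ℕ∞) : WithTop ℕ∞) (fun x : V => k x 1) :=
    (contDiff_apply ℝ ℝ (1 : Fin 2)).comp hk
  have h0 : ContDiff ℝ ((⊤ : ℕ∞) : WithTop ℕ∞) (fun x : V => x 0) := contDiff_apply ℝ ℝ (0 : Fin 2)
  have h1 : ContDiff ℝ ((⊤ : ℕ∞) : WithTop ℕ∞) (fun x : V => x 1) := contDiff_apply ℝ ℝ (1 : Fin 2)
  have hdot : ContDiff ℝ ((⊤ : ℕ∞) : WithTop ℕ∞) (fun x : V => dotk k x) :=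
    (h0.mul hk0).add (h1.mul hk1)
  have hang : ContDiffAt ℝ ((⊤ : ℕ∞) : WithTop ℕ∞) (ang k) (pol θ ρ) := by
    unfold ang
    exact (((h0.mul hk1).sub (h1.mul hk0)).contDiffAt.div hdot.contDiffAt h.ne').arctan
  have hcomp := ContDiffAt.comp (g := ang k) (f := fun q : ℝ × ℝ => pol q.1 q.2) (θ, ρ) hang
    (pol_contDiffAt θ ρ hρ)
  exact hcomp

/-- `d(Φ ∘ pol) = P dΘ - ρ dθ` with `Θ = θ + ang`, `P = hsq (k (pol θ ρ))` -/
theorem fderiv_prim_pol (k : V → V) (hk : ContDiff ℝ ((⊤ : ℕ∞) : WithTop ℕ∞) k) (Φ : V → ℝ)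
    (hΦ : IsPrim k Φ) (θ ρ : ℝ) (hρ : 0 < ρ) (h : 0 < dotk k (pol θ ρ)) (u : ℝ × ℝ) :
    fderiv ℝ (fun q : ℝ × ℝ => Φ (pol q.1 q.2)) (θ, ρ) u =
      hsq (k (pol θ ρ)) * (u.1 + fderiv ℝ (fun q : ℝ × ℝ => ang k (pol q.1 q.2)) (θ, ρ) u) -
        ρ * u.1 := by
  have hne : (((⊤ : ℕ∞) : WithTop ℕ∞)) ≠ 0 := by simp
  have hpold : DifferentiableAt ℝ (fun q : ℝ × ℝ => pol q.1 q.2) (θ, ρ) :=
    (pol_contDiffAt θ ρ hρ).differentiableAt hne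
  have hΦd : Differentiable ℝ Φ := hΦ.1.differentiable hne
  have hkd : Differentiable ℝ k := hk.differentiable hne
  have hangd : DifferentiableAt ℝ (fun q : ℝ × ℝ => ang k (pol q.1 q.2)) (θ, ρ) :=
    (ang_pol_contDiffAt k hk θ ρ hρ h).differentiableAt hne
  -- chain rule for `Φ ∘ pol`
  have h1 : fderiv ℝ (fun q : ℝ × ℝ => Φ (pol q.1 q.2)) (θ, ρ) u =
      fderiv ℝ Φ (pol θ ρ) (fderiv ℝ (fun q : ℝ × ℝ => pol q.1 q.2) (θ, ρ) u) := by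
    have := fderiv_comp (θ, ρ) (g := Φ) (f := fun q : ℝ × ℝ => pol q.1 q.2) (hΦd _) hpold
    have h2 : (Φ ∘ fun q : ℝ × ℝ => pol q.1 q.2) = fun q : ℝ × ℝ => Φ (pol q.1 q.2) := rfl
    rw [h2] at this
    rw [this]
    rfl
  -- chain rule for `k ∘ pol`
  have h3 : fderiv ℝ (fun q : ℝ × ℝ => k (pol q.1 q.2)) (θ, ρ) u =
      fderiv ℝ k (pol θ ρ) (fderiv ℝ (fun q : ℝ × ℝ => pol q.1 q.2) (θ, ρ) u) := by
    have := fderiv_comp (θ, ρ) (g := k) (f := fun q : ℝ × ℝ => pol q.1 q.2) (hkd _) hpold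
    have h2 : (k ∘ fun q : ℝ × ℝ => pol q.1 q.2) = fun q : ℝ × ℝ => k (pol q.1 q.2) := rfl
    rw [h2] at this
    rw [this]
    rfl
  -- `k ∘ pol = pol (Θ, P)` near the point
  have hP : 0 < hsq (k (pol θ ρ)) := by
    have h1 := dot_cross k (pol θ ρ)
    rw [hsq_pol θ ρ hρ.le] at h1
    have h2 : 0 < (2 * ρ) * (2 * hsq (k (pol θ ρ))) := by
      rw [← h1]
      positivity
    have h3 : 0 < 2 * ρ := by positivity
    have := (mul_pos_iff_of_pos_left h3).1 h2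
    linarith
  have hdotc : Continuous (dotk k) := by
    unfold dotk
    have := hk.continuous
    fun_prop
  have hev : (fun q : ℝ × ℝ => k (pol q.1 q.2)) =ᶠ[nhds (θ, ρ)] fun q : ℝ × ℝ =>
      pol (q.1 + ang k (pol q.1 q.2)) (hsq (k (pol q.1 q.2))) := by
    have hc1 : ∀ᶠ q : ℝ × ℝ in nhds (θ, ρ), 0 < q.2 :=
      continuous_snd.continuousAt.eventually (lt_mem_nhds hρ)
    have hc2 : ∀ᶠ q : ℝ × ℝ in nhds (θ, ρ), 0 < dotk k (pol q.1 q.2) := by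
      have hcont : ContinuousAt (fun q : ℝ × ℝ => dotk k (pol q.1 q.2)) (θ, ρ) :=
        ContinuousAt.comp (g := dotk k) (f := fun q : ℝ × ℝ => pol q.1 q.2)
          hdotc.continuousAt hpold.continuousAt
      exact hcont.eventually (lt_mem_nhds h)
    filter_upwards [hc1, hc2] with q hq1 hq2
    exact k_pol k q.1 q.2 hq1 hq2
  set Θ : ℝ × ℝ → ℝ := fun q => q.1 + ang k (pol q.1 q.2) with hΘ
  set P : ℝ × ℝ → ℝ := fun q => hsq (k (pol q.1 q.2)) with hPd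
  have hhsqd : Differentiable ℝ hsq := by
    unfold hsq
    fun_prop
  have hPdiff : DifferentiableAt ℝ P (θ, ρ) :=
    DifferentiableAt.comp (g := fun x : V => hsq (k x)) (f := fun q : ℝ × ℝ => pol q.1 q.2)
      (θ, ρ) ((hhsqd.comp hkd) _) hpold
  have hΘdiff : DifferentiableAt ℝ Θ (θ, ρ) := differentiableAt_fst.add hangd
  have h4 : fderiv ℝ (fun q : ℝ × ℝ => k (pol q.1 q.2)) (θ, ρ) u =
      fderiv ℝ (fun q : ℝ × ℝ => pol q.1 q.2) (Θ (θ, ρ), P (θ, ρ))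
        (fderiv ℝ Θ (θ, ρ) u, fderiv ℝ P (θ, ρ) u) := by
    rw [hev.fderiv_eq]
    have hpair : DifferentiableAt ℝ (fun q : ℝ × ℝ => (Θ q, P q)) (θ, ρ) :=
      hΘdiff.prodMk hPdiff
    have := fderiv_comp (θ, ρ) (g := fun q : ℝ × ℝ => pol q.1 q.2)
      (f := fun q : ℝ × ℝ => (Θ q, P q))
      ((pol_contDiffAt (Θ (θ, ρ)) (P (θ, ρ)) hP).differentiableAt hne) hpair
    have h2 : ((fun q : ℝ × ℝ => pol q.1 q.2) ∘ fun q : ℝ × ℝ => (Θ q, P q)) =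
        fun q : ℝ × ℝ => pol (Θ q) (P q) := rfl
    rw [h2] at this
    rw [this, DifferentiableAt.fderiv_prodMk hΘdiff hPdiff]
    rfl
  have h5 : k (pol θ ρ) = pol (Θ (θ, ρ)) (P (θ, ρ)) := k_pol k θ ρ hρ h
  have h6 : fderiv ℝ Θ (θ, ρ) u =
      u.1 + fderiv ℝ (fun q : ℝ × ℝ => ang k (pol q.1 q.2)) (θ, ρ) u := by
    rw [hΘ]
    have := fderiv_add (𝕜 := ℝ) (x := (θ, ρ)) (f := fun q : ℝ × ℝ => q.1)
      (g := fun q : ℝ × ℝ => ang k (pol q.1 q.2)) differentiableAt_fst hangd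
    have h2 : ((fun q : ℝ × ℝ => q.1) + fun q : ℝ × ℝ => ang k (pol q.1 q.2)) =
        fun q : ℝ × ℝ => q.1 + ang k (pol q.1 q.2) := rfl
    rw [h2] at this
    rw [this]
    have h7 : fderiv ℝ (fun q : ℝ × ℝ => q.1) (θ, ρ) = ContinuousLinearMap.fst ℝ ℝ ℝ :=
      fderiv_fst
    rw [h7]
    rfl
  rw [h1, hΦ.2, ← h3, h4, lam_pol θ ρ hρ, h5, lam_pol _ _ hP, h6, hsq_pol _ _ hP.le]

end Pool.Agent.Helper31.AP
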