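import Pool.Agent.Helper31.AP.Polar

/-! Module C2s: smallness in polar coordinates -/

set_option autoImplicit false

namespace Pool.Agent.Helper31.AP

/-- the arithmetic core of `small_polar` -/
theorem small_polar_aux {x0 x1 e0 e1 f0 f1 s S δ ε : ℝ} (hx0 : |x0| ≤ s) (hx1 : |x1| ≤ s)
    (he0 : |e0| ≤ δ) (he1 : |e1| ≤ δ) (hf0 : |f0| ≤ δ * s) (hf1 : |f1| ≤ δ * s)
    (hsS : s ≤ S) (hδ : 0 < δ) (hδ1 : δ * (8 * S) ≤ 1)
    (hδ2 : δ * (6 * S * (1 + S)) ≤ ε) (hn : 1 ≤ x0 ^ 2 + x1 ^ 2) :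
    0 < x0 * (x0 + e0) + x1 * (x1 + e1) ∧
    |1 / (1 + ((x0 * (x1 + e1) - x1 * (x0 + e0)) / (x0 * (x0 + e0) + x1 * (x1 + e1))) ^ 2) *
      (((-x1 * (x1 + e1) + x0 * (x0 + f1) - (x0 * (x0 + e0) + x1 * (-x1 + f0))) *
        (x0 * (x0 + e0) + x1 * (x1 + e1)) - (x0 * (x1 + e1) - x1 * (x0 + e0)) *
        (-x1 * (x0 + e0) + x0 * (-x1 + f0) + (x0 * (x1 + e1) + x1 * (x0 + f1)))) /
        (x0 * (x0 + e0) + x1 * (x1 + e1)) ^ 2)| ≤ ε := by
  have hs0 : 0 ≤ s := (abs_nonneg _).trans hx0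
  have hS0 : 0 ≤ S := hs0.trans hsS
  have b1 : |x0 * e0| ≤ s * δ := by
    rw [abs_mul]; exact mul_le_mul hx0 he0 (abs_nonneg _) hs0
  have b2 : |x1 * e1| ≤ s * δ := by
    rw [abs_mul]; exact mul_le_mul hx1 he1 (abs_nonneg _) hs0
  have b3 : |x0 * e1| ≤ s * δ := by
    rw [abs_mul]; exact mul_le_mul hx0 he1 (abs_nonneg _) hs0
  have b4 : |x1 * e0| ≤ s * δ := by
    rw [abs_mul]; exact mul_le_mul hx1 he0 (abs_nonneg _) hs0
  have c1 : |x0 * f0| ≤ s * (δ * s) := by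
    rw [abs_mul]; exact mul_le_mul hx0 hf0 (abs_nonneg _) hs0
  have c2 : |x1 * f1| ≤ s * (δ * s) := by
    rw [abs_mul]; exact mul_le_mul hx1 hf1 (abs_nonneg _) hs0
  have c3 : |x0 * f1| ≤ s * (δ * s) := by
    rw [abs_mul]; exact mul_le_mul hx0 hf1 (abs_nonneg _) hs0
  have c4 : |x1 * f0| ≤ s * (δ * s) := by
    rw [abs_mul]; exact mul_le_mul hx1 hf0 (abs_nonneg _) hs0
  rw [abs_le] at b1 b2 b3 b4 c1 c2 c3 c4
  have hsd : s * δ ≤ 1 / 8 := by
    have : s * δ ≤ S * δ := by gcongr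
    linarith
  set d := x0 * (x0 + e0) + x1 * (x1 + e1) with hd
  set c := x0 * (x1 + e1) - x1 * (x0 + e0) with hc
  have hdlow : 1 / 2 ≤ d := by
    have : d = x0 ^ 2 + x1 ^ 2 + x0 * e0 + x1 * e1 := by rw [hd]; ring
    linarith [b1.1, b2.1]
  have hd0 : 0 < d := by linarith
  refine ⟨hd0, ?_⟩
  set c' := -x1 * (x1 + e1) + x0 * (x0 + f1) - (x0 * (x0 + e0) + x1 * (-x1 + f0)) with hc'
  set d' := -x1 * (x0 + e0) + x0 * (-x1 + f0) + (x0 * (x1 + e1) + x1 * (x0 + f1)) with hd'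
  have hcb : |c| ≤ 2 * (s * δ) := by
    have : c = x0 * e1 - x1 * e0 := by rw [hc]; ring
    rw [this, abs_le]
    constructor <;> linarith [b3.1, b3.2, b4.1, b4.2]
  have hc'b : |c'| ≤ 2 * (s * δ) * (1 + s) := by
    have : c' = -(x1 * e1) + x0 * f1 - x0 * e0 - x1 * f0 := by rw [hc']; ring
    have e : 2 * (s * δ) * (1 + s) = 2 * (s * δ) + 2 * (s * (δ * s)) := by ring
    rw [this, e, abs_le]
    constructor <;> linarith [b1.1, b1.2, b2.1, b2.2, c3.1, c3.2, c4.1, c4.2]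
  have hd'b : |d'| ≤ 2 * (s * δ) * (1 + s) := by
    have : d' = -(x1 * e0) + x0 * f0 + x0 * e1 + x1 * f1 := by rw [hd']; ring
    have e : 2 * (s * δ) * (1 + s) = 2 * (s * δ) + 2 * (s * (δ * s)) := by ring
    rw [this, e, abs_le]
    constructor <;> linarith [b3.1, b3.2, b4.1, b4.2, c1.1, c1.2, c2.1, c2.2]
  have hd2 : 0 < d ^ 2 := by positivity
  have h1 : |1 / (1 + (c / d) ^ 2)| ≤ 1 := by
    rw [abs_of_pos (by positivity), div_le_one (by positivity)]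
    nlinarith [sq_nonneg (c / d)]
  have h2 : |(c' * d - c * d') / d ^ 2| ≤ ε := by
    rw [abs_div, abs_of_pos hd2, div_le_iff₀ hd2]
    have h3 : |c' * d - c * d'| ≤ |c'| * d + |c| * |d'| := by
      calc |c' * d - c * d'| ≤ |c' * d| + |c * d'| := abs_sub _ _
        _ = |c'| * d + |c| * |d'| := by rw [abs_mul, abs_mul, abs_of_pos hd0]
    have h4 : |c'| * d ≤ 2 * (s * δ) * (1 + s) * (2 * d ^ 2) := by
      have h5 : d ≤ 2 * d ^ 2 := by
        have : 2 * d ^ 2 = d * (2 * d) := by ring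
        rw [this]
        exact le_mul_of_one_le_right hd0.le (by linarith)
      exact mul_le_mul hc'b h5 hd0.le (by positivity)
    have h6 : |c| * |d'| ≤ (1 / 4) * (2 * (s * δ) * (1 + s)) := by
      refine mul_le_mul (hcb.trans ?_) hd'b (abs_nonneg _) (by norm_num)
      linarith
    have h7 : (1 / 4) * (2 * (s * δ) * (1 + s)) ≤ 2 * (s * δ) * (1 + s) * d ^ 2 := by
      have h8 : (1 / 4 : ℝ) ≤ d ^ 2 := by
        calc (1 / 4 : ℝ) = (1 / 2) ^ 2 := by norm_num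
          _ ≤ d ^ 2 := pow_le_pow_left₀ (by norm_num) hdlow 2
      have h9 : 0 ≤ 2 * (s * δ) * (1 + s) := by positivity
      rw [mul_comm (1 / 4 : ℝ)]
      exact mul_le_mul_of_nonneg_left h8 h9
    have h8 : 2 * (s * δ) * (1 + s) * 3 ≤ ε := by
      refine le_trans ?_ hδ2
      have h9 : s * (1 + s) ≤ S * (1 + S) := by
        apply mul_le_mul hsS (by linarith) (by positivity) hS0
      calc 2 * (s * δ) * (1 + s) * 3 = 6 * δ * (s * (1 + s)) := by ring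
        _ ≤ 6 * δ * (S * (1 + S)) := by gcongr
        _ = δ * (6 * S * (1 + S)) := by ring
    calc |c' * d - c * d'| ≤ |c'| * d + |c| * |d'| := h3
      _ ≤ 2 * (s * δ) * (1 + s) * (2 * d ^ 2) + 2 * (s * δ) * (1 + s) * d ^ 2 := by
          linarith
      _ = (2 * (s * δ) * (1 + s) * 3) * d ^ 2 := by ring
      _ ≤ ε * d ^ 2 := by gcongr
  rw [abs_mul]
  calc |1 / (1 + (c / d) ^ 2)| * |(c' * d - c * d') / d ^ 2| ≤ 1 * ε :=
        mul_le_mul h1 h2 (abs_nonneg _) zero_le_one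
    _ = ε := one_mul _

/-- smallness in polar coordinates -/
theorem small_polar (m ε : ℝ) (hm : 0 < m) (hε : 0 < ε) : ∃ δ : ℝ, 0 < δ ∧ ∃ M : ℝ,
    ∀ k : V → V, ContDiff ℝ ((⊤ : ℕ∞) : WithTop ℕ∞) k → Small δ M k →
      ∀ θ ρ, 1 / 2 ≤ ρ → ρ ≤ m → 0 < dotk k (pol θ ρ) ∧
        |deriv (fun t => ang k (pol t ρ)) θ| ≤ ε := by
  set S : ℝ := √(2 * m) with hS
  have hS0 : 0 < S := Real.sqrt_pos.2 (by positivity)
  set δ : ℝ := min (1 / (8 * S)) (ε / (6 * S * (1 + S))) with hδd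
  have hδ : 0 < δ := by
    rw [hδd]
    exact lt_min (by positivity) (by positivity)
  have hδ1 : δ * (8 * S) ≤ 1 := by
    have : δ ≤ 1 / (8 * S) := min_le_left _ _
    calc δ * (8 * S) ≤ 1 / (8 * S) * (8 * S) := by gcongr
      _ = 1 := by field_simp
  have hδ2 : δ * (6 * S * (1 + S)) ≤ ε := by
    have : δ ≤ ε / (6 * S * (1 + S)) := min_le_right _ _
    calc δ * (6 * S * (1 + S)) ≤ ε / (6 * S * (1 + S)) * (6 * S * (1 + S)) := by gcongr
      _ = ε := by field_simp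
  refine ⟨δ, hδ, S, ?_⟩
  intro k hk hsmall θ ρ hρ1 hρ2
  have hρ0 : 0 < ρ := by linarith
  set x := pol θ ρ with hx
  have hhx : hsq x = ρ := hsq_pol θ ρ hρ0.le
  have hxn : ‖x‖ ≤ S := by
    rw [hS]
    apply Real.le_sqrt_of_sq_le
    have := norm_sq_le x
    rw [hhx] at this
    linarith
  obtain ⟨hs1, hs2⟩ := hsmall x hxn
  -- derivative of `pol`
  set J : V := ![-x 1, x 0] with hJ
  have hJ0 : J 0 = -x 1 := rfl
  have hJ1 : J 1 = x 0 := rfl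
  have hpold : HasDerivAt (fun t => pol t ρ) J θ := by
    rw [hasDerivAt_pi]
    intro i
    fin_cases i
    · show HasDerivAt (fun t => √(2 * ρ) * Real.cos t) (-x 1) θ
      have := (Real.hasDerivAt_cos θ).const_mul (√(2 * ρ))
      have e : √(2 * ρ) * -Real.sin θ = -x 1 := by rw [hx, pol_one]; ring
      rwa [e] at this
    · show HasDerivAt (fun t => √(2 * ρ) * Real.sin t) (x 0) θ
      exact (Real.hasDerivAt_sin θ).const_mul (√(2 * ρ))
  have hkf : HasFDerivAt k (fderiv ℝ k x) x := (hk.differentiable (by simp) x).hasFDerivAt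
  have hkp : HasDerivAt (fun t => k (pol t ρ)) (fderiv ℝ k x J) θ :=
    hkf.comp_hasDerivAt θ hpold
  have hp0 : HasDerivAt (fun t => pol t ρ 0) (J 0) θ := (hasDerivAt_pi.1 hpold) 0
  have hp1 : HasDerivAt (fun t => pol t ρ 1) (J 1) θ := (hasDerivAt_pi.1 hpold) 1
  have hk0 : HasDerivAt (fun t => k (pol t ρ) 0) (fderiv ℝ k x J 0) θ := (hasDerivAt_pi.1 hkp) 0
  have hk1 : HasDerivAt (fun t => k (pol t ρ) 1) (fderiv ℝ k x J 1) θ := (hasDerivAt_pi.1 hkp) 1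
  -- the errors
  set e : V := k x - x with he
  set f : V := fderiv ℝ k x J - J with hf
  have hkx0 : k x 0 = x 0 + e 0 := by rw [he, Pi.sub_apply]; ring
  have hkx1 : k x 1 = x 1 + e 1 := by rw [he, Pi.sub_apply]; ring
  have hfx0 : fderiv ℝ k x J 0 = -x 1 + f 0 := by rw [hf, Pi.sub_apply, hJ0]; ring
  have hfx1 : fderiv ℝ k x J 1 = x 0 + f 1 := by rw [hf, Pi.sub_apply, hJ1]; ring
  have hJn : ‖J‖ ≤ ‖x‖ := by
    rw [pi_norm_le_iff_of_nonneg (norm_nonneg _)]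
    intro i
    fin_cases i
    · show ‖-x 1‖ ≤ ‖x‖
      rw [norm_neg]
      exact norm_le_pi_norm x 1
    · exact norm_le_pi_norm x 0
  have hfn : ‖f‖ ≤ δ * ‖x‖ := by
    have h1 : f = (fderiv ℝ k x - ContinuousLinearMap.id ℝ V) J := by
      rw [hf]; rfl
    rw [h1]
    calc ‖(fderiv ℝ k x - ContinuousLinearMap.id ℝ V) J‖ ≤
        ‖fderiv ℝ k x - ContinuousLinearMap.id ℝ V‖ * ‖J‖ := ContinuousLinearMap.le_opNorm _ _
      _ ≤ δ * ‖x‖ := by gcongr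
  have hnn : 1 ≤ x 0 ^ 2 + x 1 ^ 2 := by
    have : x 0 ^ 2 + x 1 ^ 2 = 2 * ρ := by
      rw [← hhx]; unfold hsq; ring
    rw [this]; linarith
  have haux := small_polar_aux (x0 := x 0) (x1 := x 1) (e0 := e 0) (e1 := e 1) (f0 := f 0)
    (f1 := f 1) (s := ‖x‖) (S := S) (δ := δ) (ε := ε) (abs_apply_le x 0) (abs_apply_le x 1)
    ((abs_apply_le e 0).trans hs1) ((abs_apply_le e 1).trans hs1)
    ((abs_apply_le f 0).trans hfn) ((abs_apply_le f 1).trans hfn) hxn hδ hδ1 hδ2 hnn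
  have hdk : dotk k x = x 0 * (x 0 + e 0) + x 1 * (x 1 + e 1) := by
    unfold dotk
    rw [hkx0, hkx1]
  have hdpos : 0 < dotk k x := by
    rw [hdk]
    exact haux.1
  refine ⟨hdpos, ?_⟩
  have hc : HasDerivAt (fun t => pol t ρ 0 * k (pol t ρ) 1 - pol t ρ 1 * k (pol t ρ) 0)
      (J 0 * k x 1 + x 0 * (fderiv ℝ k x J 1) - (J 1 * k x 0 + x 1 * (fderiv ℝ k x J 0))) θ :=
    (hp0.mul hk1).sub (hp1.mul hk0)
  have hd : HasDerivAt (fun t => dotk k (pol t ρ))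
      (J 0 * k x 0 + x 0 * (fderiv ℝ k x J 0) + (J 1 * k x 1 + x 1 * (fderiv ℝ k x J 1))) θ :=
    (hp0.mul hk0).add (hp1.mul hk1)
  have hq := (hc.div hd hdpos.ne').arctan
  have heq : deriv (fun t => ang k (pol t ρ)) θ = _ := hq.deriv
  rw [heq]
  have h3 := haux.2
  rw [← hx]
  simp only [Pi.div_apply]
  rw [← hx, hkx0, hkx1, hfx0, hfx1, hJ0, hJ1, hdk]
  exact h3

end Pool.Agent.Helper31.AP
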