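import Pool.Agent.Helper31.AP.Defs

/-! Module C0: area preserving maps and primitives of `k^*λ - λ` -/

set_option autoImplicit false

namespace Pool.Agent.Helper31.AP

theorem IsAP.one : IsAP (1 : Equiv.Perm V) := by
  refine ⟨contDiff_id, contDiff_id, fun x => ?_⟩
  have h : fderiv ℝ (⇑(1 : Equiv.Perm V)) x = ContinuousLinearMap.id ℝ V := fderiv_id
  rw [h]
  exact LinearMap.det_id

theorem IsAP.differentiable {k : Equiv.Perm V} (hk : IsAP k) : Differentiable ℝ k :=
  hk.1.differentiable (by simp)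

theorem IsAP.differentiable_symm {k : Equiv.Perm V} (hk : IsAP k) : Differentiable ℝ k.symm :=
  hk.2.1.differentiable (by simp)

theorem IsAP.fderiv_comp_symm {k : Equiv.Perm V} (hk : IsAP k) (x v : V) :
    fderiv ℝ k (k.symm x) (fderiv ℝ k.symm x v) = v := by
  have h1 : HasFDerivAt (k ∘ k.symm) ((fderiv ℝ k (k.symm x)).comp (fderiv ℝ k.symm x)) x :=
    (hk.differentiable _).hasFDerivAt.comp x (hk.differentiable_symm _).hasFDerivAt
  have h2 : (k ∘ k.symm : V → V) = id := by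
    funext y
    exact k.apply_symm_apply y
  rw [h2] at h1
  have h3 := h1.unique (hasFDerivAt_id x)
  exact congrArg (fun A : V →L[ℝ] V => A v) h3

theorem IsAP.symm {k : Equiv.Perm V} (hk : IsAP k) : IsAP k.symm := by
  refine ⟨hk.2.1, hk.1, fun x => ?_⟩
  have h1 : ((fderiv ℝ k (k.symm x) : V →L[ℝ] V) : V →ₗ[ℝ] V) ∘ₗ
      ((fderiv ℝ k.symm x : V →L[ℝ] V) : V →ₗ[ℝ] V) = LinearMap.id := by
    ext1 i
    ext1
    exact hk.fderiv_comp_symm x _
  have h2 := congrArg LinearMap.det h1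
  rw [LinearMap.det_comp, hk.2.2, LinearMap.det_id, one_mul] at h2
  exact h2

theorem IsAP.mul {a b : Equiv.Perm V} (ha : IsAP a) (hb : IsAP b) : IsAP (a * b) := by
  refine ⟨ha.1.comp hb.1, hb.2.1.comp ha.2.1, fun x => ?_⟩
  have h1 : fderiv ℝ (⇑(a * b)) x = (fderiv ℝ a (b x)).comp (fderiv ℝ b x) :=
    ((ha.differentiable _).hasFDerivAt.comp x (hb.differentiable _).hasFDerivAt).fderiv
  rw [h1, ContinuousLinearMap.toLinearMap_comp, LinearMap.det_comp, ha.2.2, hb.2.2, one_mul]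

theorem det_eq_coord (A : V →L[ℝ] V) : LinearMap.det (A : V →ₗ[ℝ] V) =
    A ![1, 0] 0 * A ![0, 1] 1 - A ![1, 0] 1 * A ![0, 1] 0 := by
  have e0 : (Pi.single 0 1 : V) = ![1, 0] := by
    funext i
    fin_cases i <;> simp
  have e1 : (Pi.single 1 1 : V) = ![0, 1] := by
    funext i
    fin_cases i <;> simp
  rw [← LinearMap.det_toMatrix', Matrix.det_fin_two]
  simp only [LinearMap.toMatrix'_apply]
  have f0 : (fun j' : Fin 2 => if j' = 0 then (1 : ℝ) else 0) = ![1, 0] := by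
    funext i
    fin_cases i <;> simp
  have f1 : (fun j' : Fin 2 => if j' = 1 then (1 : ℝ) else 0) = ![0, 1] := by
    funext i
    fin_cases i <;> simp
  try rw [f0]
  try rw [f1]
  try rw [e0]
  try rw [e1]
  simp only [ContinuousLinearMap.coe_coe]
  ring

theorem apply_coord (A : V →L[ℝ] V) (u : V) : A u = u 0 • A ![1, 0] + u 1 • A ![0, 1] := by
  rw [← map_smul, ← map_smul, ← map_add]
  congr 1
  funext i
  fin_cases i <;> simp

/-- the determinant condition in coordinates -/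
theorem det_fderiv_eq (A : V →L[ℝ] V) (h : LinearMap.det (A : V →ₗ[ℝ] V) = 1) (u v : V) :
    A u 0 * A v 1 - A u 1 * A v 0 = u 0 * v 1 - u 1 * v 0 := by
  rw [det_eq_coord] at h
  rw [apply_coord A u, apply_coord A v]
  simp only [Pi.add_apply, Pi.smul_apply, smul_eq_mul]
  linear_combination (u 0 * v 1 - u 1 * v 0) * h

theorem det_eq_one_of (A : V →L[ℝ] V)
    (h : ∀ u v : V, A u 0 * A v 1 - A u 1 * A v 0 = u 0 * v 1 - u 1 * v 0) :
    LinearMap.det (A : V →ₗ[ℝ] V) = 1 := by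
  rw [det_eq_coord, h]
  simp

/-- the one form `k^*λ - λ` -/
noncomputable def omk (k : V → V) (x : V) : V →L[ℝ] ℝ :=
  (1 / 2 : ℝ) • ((k x 0) • (ContinuousLinearMap.proj 1 ∘L fderiv ℝ k x) -
    (k x 1) • (ContinuousLinearMap.proj 0 ∘L fderiv ℝ k x)) -
  (1 / 2 : ℝ) • ((x 0) • (ContinuousLinearMap.proj 1 : V →L[ℝ] ℝ) -
    (x 1) • (ContinuousLinearMap.proj 0 : V →L[ℝ] ℝ))

theorem omk_apply (k : V → V) (x v : V) : omk k x v = lam (k x) (fderiv ℝ k x v) - lam x v := by
  unfold omk lam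
  simp only [sub_apply, smul_apply,
    ContinuousLinearMap.comp_apply, ContinuousLinearMap.proj_apply, smul_eq_mul]
  ring

theorem contDiff_coord {k : V → V} (hk : ContDiff ℝ ((⊤ : ℕ∞) : WithTop ℕ∞) k) (i : Fin 2) :
    ContDiff ℝ ((⊤ : ℕ∞) : WithTop ℕ∞) (fun x => k x i) :=
  (ContinuousLinearMap.proj i : V →L[ℝ] ℝ).contDiff.comp hk

theorem contDiff_omk {k : V → V} (hk : ContDiff ℝ ((⊤ : ℕ∞) : WithTop ℕ∞) k) :
    ContDiff ℝ ((⊤ : ℕ∞) : WithTop ℕ∞) (omk k) := by
  have hD : ContDiff ℝ ((⊤ : ℕ∞) : WithTop ℕ∞) (fderiv ℝ k) :=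
    (contDiff_infty_iff_fderiv.mp hk).2
  have h1 : ∀ i j : Fin 2, ContDiff ℝ ((⊤ : ℕ∞) : WithTop ℕ∞)
      (fun x => (k x i) • ((ContinuousLinearMap.proj j : V →L[ℝ] ℝ) ∘L fderiv ℝ k x)) :=
    fun i j => (contDiff_coord hk i).smul (contDiff_const.clm_comp hD)
  have h2 : ∀ i j : Fin 2, ContDiff ℝ ((⊤ : ℕ∞) : WithTop ℕ∞)
      (fun x : V => (x i) • (ContinuousLinearMap.proj j : V →L[ℝ] ℝ)) :=
    fun i j => (contDiff_coord contDiff_id i).smul contDiff_const
  exact (((h1 0 1).sub (h1 1 0)).const_smul (1 / 2 : ℝ)).sub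
    (((h2 0 1).sub (h2 1 0)).const_smul (1 / 2 : ℝ))

/-- Poincaré lemma: `k^*λ - λ` is exact -/
theorem exists_prim (k : Equiv.Perm V) (hk : IsAP k) : ∃ Φ : V → ℝ, IsPrim k Φ := by
  have hω := contDiff_omk hk.1
  have hDk : ContDiff ℝ ((⊤ : ℕ∞) : WithTop ℕ∞) (fderiv ℝ k) :=
    (contDiff_infty_iff_fderiv.mp hk.1).2
  have hsymm : ∀ a u v : V, fderiv ℝ (omk k) a u v = fderiv ℝ (omk k) a v u := by
    intro a
    have key : ∀ u v : V, fderiv ℝ (omk k) a u v =
        (k a 0 * fderiv ℝ (fderiv ℝ k) a u v 1 - k a 1 * fderiv ℝ (fderiv ℝ k) a u v 0) / 2 := by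
      intro u v
      have h1 : HasFDerivAt (omk k) (fderiv ℝ (omk k) a) a :=
        (hω.differentiable (by simp) a).hasFDerivAt
      have h2 : HasFDerivAt (fun x => omk k x v) ((fderiv ℝ (omk k) a).flip v) a := by
        have := h1.clm_apply (hasFDerivAt_const v a)
        simpa using this
      have hk1 : HasFDerivAt k (fderiv ℝ k a) a := (hk.differentiable a).hasFDerivAt
      have hki : ∀ i : Fin 2, HasFDerivAt (fun x => k x i)
          ((ContinuousLinearMap.proj i : V →L[ℝ] ℝ) ∘L fderiv ℝ k a) a := fun i =>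
        (ContinuousLinearMap.proj i : V →L[ℝ] ℝ).hasFDerivAt.comp a hk1
      have hD : HasFDerivAt (fderiv ℝ k) (fderiv ℝ (fderiv ℝ k) a) a :=
        (hDk.differentiable (by simp) a).hasFDerivAt
      have hDv : HasFDerivAt (fun x => fderiv ℝ k x v) ((fderiv ℝ (fderiv ℝ k) a).flip v) a := by
        have := hD.clm_apply (hasFDerivAt_const v a)
        simpa using this
      have hDi : ∀ i : Fin 2, HasFDerivAt (fun x => fderiv ℝ k x v i)
          ((ContinuousLinearMap.proj i : V →L[ℝ] ℝ) ∘L ((fderiv ℝ (fderiv ℝ k) a).flip v)) a :=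
        fun i => (ContinuousLinearMap.proj i : V →L[ℝ] ℝ).hasFDerivAt.comp a hDv
      have hxi : ∀ i : Fin 2, HasFDerivAt (fun x : V => x i)
          (ContinuousLinearMap.proj i : V →L[ℝ] ℝ) a := fun i =>
        (ContinuousLinearMap.proj i : V →L[ℝ] ℝ).hasFDerivAt
      have h3 := ((((hki 0).mul (hDi 1)).sub ((hki 1).mul (hDi 0))).const_mul (1 / 2 : ℝ)).sub
        ((((hxi 0).mul_const (v 1)).sub ((hxi 1).mul_const (v 0))).const_mul (1 / 2 : ℝ))
      have h4 : (fun x => omk k x v) = fun x => 1 / 2 * (k x 0 * fderiv ℝ k x v 1 -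
          k x 1 * fderiv ℝ k x v 0) - 1 / 2 * (x 0 * v 1 - x 1 * v 0) := by
        funext x
        rw [omk_apply]
        unfold lam
        ring
      rw [h4] at h2
      have h5 := h2.unique h3
      have h6 := congrArg (fun A : V →L[ℝ] ℝ => A u) h5
      simp only [ContinuousLinearMap.flip_apply, sub_apply, add_apply,
        smul_apply, ContinuousLinearMap.comp_apply,
        ContinuousLinearMap.proj_apply, smul_eq_mul] at h6
      rw [h6]
      have h7 := det_fderiv_eq (fderiv ℝ k a) (hk.2.2 a) u v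
      linear_combination (1 / 2 : ℝ) * h7
    intro u v
    have hs : fderiv ℝ (fderiv ℝ k) a u v = fderiv ℝ (fderiv ℝ k) a v u := by
      have h1 : IsSymmSndFDerivAt ℝ k a := by
        refine ContDiffAt.isSymmSndFDerivAt hk.1.contDiffAt ?_
        simp only [minSmoothness_of_isRCLikeNormedField]
        exact WithTop.coe_le_coe.mpr le_top
      exact h1 u v
    rw [key, key, hs]
  obtain ⟨Φ, hΦ⟩ := convex_univ.exists_forall_hasFDerivAt_of_fderiv_symmetric isOpen_univ
    (ω := omk k) (hω.differentiable (by simp)).differentiableOn fun a _ u v => hsymm a u v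
  have hΦ' : ∀ a, HasFDerivAt Φ (omk k a) a := fun a => hΦ a (Set.mem_univ a)
  have hfd : fderiv ℝ Φ = omk k := funext fun a => (hΦ' a).fderiv
  refine ⟨Φ, ?_, fun x v => ?_⟩
  · rw [contDiff_infty_iff_fderiv]
    refine ⟨fun a => (hΦ' a).differentiableAt, ?_⟩
    rw [hfd]
    exact hω
  · rw [hfd, omk_apply]

/-- primitive for the inverse -/
theorem IsPrim.symm {k : Equiv.Perm V} (hk : IsAP k) {Φ : V → ℝ} (h : IsPrim k Φ) :
    IsPrim k.symm (fun x => -Φ (k.symm x)) := by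
  refine ⟨(h.1.comp hk.2.1).neg, fun x v => ?_⟩
  have h1 : HasFDerivAt (fun x => -Φ (k.symm x))
      (-((fderiv ℝ Φ (k.symm x)).comp (fderiv ℝ k.symm x))) x :=
    ((h.1.differentiable (by simp) _).hasFDerivAt.comp x
      (hk.differentiable_symm x).hasFDerivAt).neg
  rw [h1.fderiv]
  change -(fderiv ℝ Φ (k.symm x) (fderiv ℝ k.symm x v)) = _
  rw [h.2, hk.fderiv_comp_symm, k.apply_symm_apply]
  ring

end Pool.Agent.Helper31.AP
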