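import Pool.Agent.Helper31.AP.Gen
import Pool.Agent.Helper31.AP.FBasic

/-! Module C3: critical points of `F` are trajectories; the value -/

set_option autoImplicit false

namespace Pool.Agent.Helper31.AP

open Finset

/-- a map, a primitive, a generating function -/
abbrev PW := (Equiv.Perm V × (V → ℝ)) × GF (2 * Real.pi)

/-- correctness of a piece in the region `2 < ρ < m` -/
def GoodPW (m : ℝ) (q : PW) : Prop := IsAP q.1.1 ∧ IsPrim q.1.1 q.1.2 ∧ Gen m q.1.1 q.1.2 q.2

/-- the maps -/
def ks (L : List PW) : List (Equiv.Perm V) := L.map fun q => q.1.1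

/-- the generating functions -/
def Ws (L : List PW) : List (GF (2 * Real.pi)) := L.map fun q => q.2

/-- total primitive along the trajectory of `x` -/
noncomputable def ActF (L : List PW) (x : V) : ℝ :=
  ∑ i ∈ range L.length, (L.getD i default).1.2 (run (ks L) i x)

/-- total angle along the trajectory of `x` -/
noncomputable def ActG (L : List PW) (x : V) : ℝ :=
  ∑ i ∈ range L.length, ang (L.getD i default).1.1 (run (ks L) i x)

/-- the trajectories from the circle of level `σ` stay in the region -/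
def Reg (m σ : ℝ) (L : List PW) : Prop :=
  ∀ φ j, 2 < hsq (run (ks L) j (pol φ σ)) ∧ hsq (run (ks L) j (pol φ σ)) < m

theorem run_zero (l : List (Equiv.Perm V)) (x : V) : run l 0 x = x := by
  simp [run]

theorem run_succ (l : List (Equiv.Perm V)) (j : ℕ) (hj : j < l.length) (x : V) :
    run l (j + 1) x = l[j] (run l j x) := by
  unfold run
  rw [List.take_succ_eq_append_getElem hj, List.foldl_append]
  rfl

theorem run_cons_succ (k : Equiv.Perm V) (l : List (Equiv.Perm V)) (j : ℕ) (x : V) :
    run (k :: l) (j + 1) x = run l j (k x) := by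
  simp [run]

theorem hsq_pol_neg (θ ρ : ℝ) (hρ : ρ ≤ 0) : hsq (pol θ ρ) = 0 := by
  have : √(2 * ρ) = 0 := Real.sqrt_eq_zero_of_nonpos (by linarith)
  simp [hsq, pol, this]

theorem pos_of_hsq_pol {θ ρ m : ℝ} (h : 2 < hsq (pol θ ρ) ∧ hsq (pol θ ρ) < m) :
    2 < ρ ∧ ρ < m := by
  rcases le_total ρ 0 with h0 | h0
  · rw [hsq_pol_neg θ ρ h0] at h
    linarith [h.1]
  · rwa [hsq_pol θ ρ h0] at h

theorem getD_ks (L : List PW) (i : ℕ) (hi : i < L.length) :
    (ks L)[i]'(by simpa [ks] using hi) = (L.getD i default).1.1 := by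
  simp [ks, List.getD_eq_getElem?_getD, List.getElem?_eq_getElem hi]

theorem getD_Ws (L : List PW) (i : ℕ) (hi : i < L.length) :
    (Ws L).getD i default = (L.getD i default).2 := by
  simp [Ws, List.getD_eq_getElem?_getD, List.getElem?_eq_getElem hi]

theorem getD_good {m : ℝ} {L : List PW} (hL : ∀ q ∈ L, GoodPW m q) (i : ℕ) (hi : i < L.length) :
    GoodPW m (L.getD i default) := by
  apply hL
  rw [List.getD_eq_getElem?_getD, List.getElem?_eq_getElem hi]
  exact List.getElem_mem hi

theorem run_ks_succ (L : List PW) (i : ℕ) (hi : i < L.length) (x : V) :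
    run (ks L) (i + 1) x = (L.getD i default).1.1 (run (ks L) i x) := by
  rw [run_succ (ks L) i (by simpa [ks] using hi), getD_ks L i hi]

/-- polar form of the trajectory -/
theorem polar_run (m σ : ℝ) (L : List PW) (hL : ∀ q ∈ L, GoodPW m q) (hreg : Reg m σ L)
    (φ : ℝ) (j : ℕ) (hj : j ≤ L.length) :
    run (ks L) j (pol φ σ) =
      pol (φ + ∑ i ∈ range j, ang (L.getD i default).1.1 (run (ks L) i (pol φ σ)))
        (hsq (run (ks L) j (pol φ σ))) := by
  induction j with
  | zero =>
    have h := hreg φ 0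
    rw [run_zero] at h ⊢
    have h2 := pos_of_hsq_pol h
    rw [hsq_pol φ σ (by linarith [h2.1])]
    simp
  | succ j ih =>
    have hj' : j < L.length := hj
    have ih := ih hj'.le
    obtain ⟨-, -, hG⟩ := getD_good hL j hj'
    have hr := hreg φ j
    obtain ⟨h1, -, -⟩ := hG _ hr.1 hr.2
    have h1 := h1 (φ + ∑ i ∈ range j, ang (L.getD i default).1.1 (run (ks L) i (pol φ σ)))
    have hk := k_pol _ _ _ (by linarith [hr.1]) h1
    rw [← ih] at hk
    rw [run_ks_succ L j hj', sum_range_succ, ← add_assoc]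
    exact hk

theorem crit_value (m σ : ℝ) (L : List PW) (hne : L ≠ []) (hL : ∀ q ∈ L, GoodPW m q)
    (hreg : Reg m σ L) (x : Pt) (hx : IsCrit σ (Ws L) x) :
    ∃ φ : ℝ, hsq (run (ks L) L.length (pol φ σ)) = σ ∧
      F σ (Ws L) x = ActF L (pol φ σ) - σ * ActG L (pol φ σ) := by
  have hlen : 0 < L.length := List.length_pos_iff.2 hne
  have hWl : (Ws L).length = L.length := by simp [Ws]
  have hσ : 2 < σ ∧ σ < m := by
    have h := hreg 0 0
    rw [run_zero] at h
    exact pos_of_hsq_pol h
  -- the starting angle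
  obtain ⟨φ, hφ⟩ : ∃ φ : ℝ, x.1 0 = φ + ang (L.getD 0 default).1.1 (pol φ σ) :=
    ((getD_good hL 0 hlen).2.2 σ hσ.1 hσ.2).2.1 (x.1 0)
  refine ⟨φ, ?_⟩
  set A : ℕ → ℝ := fun i => if i = 0 then φ else x.1 (i - 1) with hA
  set R : ℕ → ℝ := fun i => if i = 0 ∨ i = L.length then σ else x.2 i with hR
  have hgt : ∀ i < L.length,
      ((L.getD i default).2).Wt (x.1 i) (R i) = R (i + 1) - R i := by
    intro i hi
    have h := hx.1 i
    unfold gt at h
    rw [hWl, if_pos hi, getD_Ws L i hi] at h
    have hrad : rad σ x i = R i := by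
      simp only [rad, hR]
      by_cases h0 : i = 0
      · simp [h0]
      · simp [h0, hi.ne]
    rw [hrad] at h
    have hR1 : (if i + 1 < L.length then x.2 (i + 1) - σ else 0) = R (i + 1) - σ := by
      simp only [hR]
      by_cases h1 : i + 1 < L.length
      · simp [h1, h1.ne]
      · have : i + 1 = L.length := by omega
        simp [this]
    rw [hR1] at h
    linarith
  have hgr : ∀ i < L.length, 1 ≤ i →
      ((L.getD i default).2).Wr (x.1 i) (R i) = A i - x.1 i := by
    intro i hi h1
    have h := hx.2 i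
    unfold gr at h
    rw [hWl, if_pos ⟨h1, hi⟩, getD_Ws L i hi] at h
    have h0 : i ≠ 0 := by omega
    have e1 : R i = x.2 i := by simp [hR, h0, hi.ne]
    have e2 : A i = x.1 (i - 1) := by simp [hA, h0]
    rw [e1, e2]
    linarith
  -- one step
  have step : ∀ i < L.length, run (ks L) i (pol φ σ) = pol (A i) (R i) →
      x.1 i = A i + ang (L.getD i default).1.1 (run (ks L) i (pol φ σ)) ∧
      ((L.getD i default).2).W (x.1 i) (R i) = (L.getD i default).1.2 (run (ks L) i (pol φ σ)) -
        R i * ang (L.getD i default).1.1 (run (ks L) i (pol φ σ)) ∧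
      run (ks L) (i + 1) (pol φ σ) = pol (x.1 i) (R (i + 1)) := by
    intro i hi hrun
    have hreg' := hreg φ i
    rw [hrun] at hreg'
    have hRi := pos_of_hsq_pol hreg'
    obtain ⟨g1, g2, g3⟩ := (getD_good hL i hi).2.2 (R i) hRi.1 hRi.2
    have key : x.1 i = A i + ang (L.getD i default).1.1 (pol (A i) (R i)) := by
      by_cases h0 : i = 0
      · subst h0
        simpa [hA, hR] using hφ
      · obtain ⟨θ, hθ⟩ := g2 (x.1 i)
        have h3 := (g3 θ).2.2
        rw [← hθ, hgr i hi (by omega)] at h3
        have : A i = θ := by linarith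
        rw [this]
        exact hθ
    obtain ⟨w1, w2, -⟩ := g3 (A i)
    rw [← key] at w1 w2
    rw [hgt i hi] at w2
    refine ⟨by rw [hrun]; exact key, by rw [hrun]; exact w1, ?_⟩
    rw [run_ks_succ L i hi, hrun]
    have hk := k_pol _ _ _ (by linarith [hRi.1]) (g1 (A i))
    rw [hk, ← key]
    congr 1
    linarith
  have main : ∀ i ≤ L.length, run (ks L) i (pol φ σ) = pol (A i) (R i) := by
    intro i
    induction i with
    | zero => intro _; simp [run_zero, hA, hR]
    | succ i ih =>
      intro hi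
      have := (step i hi (ih (by omega))).2.2
      rw [this]
      simp [hA]
  have hend := main L.length le_rfl
  have hRend : R L.length = σ := by simp [hR]
  refine ⟨by rw [hend, hRend, hsq_pol _ _ (by linarith [hσ.1])], ?_⟩
  -- the value
  set g : ℕ → ℝ := fun i => ang (L.getD i default).1.1 (run (ks L) i (pol φ σ)) with hg
  have hF1 : ∑ i ∈ range (Ws L).length, ((Ws L).getD i default).W (x.1 i) (rad σ x i) =
      ∑ i ∈ range L.length, ((L.getD i default).1.2 (run (ks L) i (pol φ σ)) - R i * g i) := by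
    rw [hWl]
    refine sum_congr rfl fun i hi => ?_
    have hi := mem_range.1 hi
    have hrad : rad σ x i = R i := by
      simp only [rad, hR]
      by_cases h0 : i = 0
      · simp [h0]
      · simp [h0, hi.ne]
    rw [getD_Ws L i hi, hrad]
    exact (step i hi (main i hi.le)).2.1
  have hF2 : ∑ i ∈ range ((Ws L).length - 1), (x.2 (i + 1) - σ) * (x.1 (i + 1) - x.1 i) =
      ∑ i ∈ range (L.length - 1), (R (i + 1) - σ) * g (i + 1) := by
    rw [hWl]
    refine sum_congr rfl fun i hi => ?_
    have hi := mem_range.1 hi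
    have h1 := (step (i + 1) (by omega) (main (i + 1) (by omega))).1
    have e1 : R (i + 1) = x.2 (i + 1) := by
      have : i + 1 ≠ L.length := by omega
      simp [hR, this]
    have e2 : A (i + 1) = x.1 i := by simp [hA]
    rw [e1, h1, e2]
    simp only [hg]
    ring
  have hF3 : ∑ i ∈ range (L.length - 1), (R (i + 1) - σ) * g (i + 1) =
      ∑ i ∈ range L.length, (R i - σ) * g i := by
    obtain ⟨n, hn⟩ : ∃ n, L.length = n + 1 := ⟨L.length - 1, by omega⟩
    rw [hn, Nat.add_sub_cancel, sum_range_succ' _ n]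
    simp [hR]
  unfold F
  rw [hF1, hF2, hF3, ActF, ActG, mul_sum, ← sum_add_distrib, ← sum_sub_distrib]
  refine sum_congr rfl fun i _ => ?_
  simp only [hg]
  ring

end Pool.Agent.Helper31.AP
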